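import Mathlib.FieldTheory.RatFunc.AsPolynomial
import Pool.Agent.MP_a43263_nt.Defs

/-! PROJECT RANKG: elliptic surfaces with full 2-torsion whose bad fibres are of type `I₂` and lie
over rational points. -/

namespace Pool.Agent.MP_a43263_nt.RG

open Finset

/-- The curve `y ^ 2 = x (x - a) (x - b)`. -/
def curve (a b : ℚ) : WeierstrassCurve ℚ := ⟨0, -(a + b), 0, a * b, 0⟩

/-- The 2-covering `d₂ d₃ z₀² - d₂ z₂² = a t²`, `d₂ d₃ z₀² - d₃ z₃² = b t²` of
`y ^ 2 = x (x - a) (x - b)` has a point over `K`. -/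
def Cover {K : Type} [Field K] (a b d₂ d₃ : K) : Prop :=
  ∃ z₀ z₂ z₃ t : K, ¬(z₀ = 0 ∧ z₂ = 0 ∧ z₃ = 0 ∧ t = 0) ∧
    d₂ * d₃ * z₀ ^ 2 - d₂ * z₂ ^ 2 = a * t ^ 2 ∧ d₂ * d₃ * z₀ ^ 2 - d₃ * z₃ ^ 2 = b * t ^ 2

/-- Three constants and three groups of `n` binary linear forms `A j * x + B j * y`. -/
structure Surf (n : ℕ) where
  A : Fin 3 × Fin n → ℤ
  B : Fin 3 × Fin n → ℤ
  c : Fin 3 → ℤ

namespace Surf

variable {n : ℕ} (F : Surf n) {K : Type} [Field K]

/-- The linear form with index `j`. -/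
def L (j : Fin 3 × Fin n) (v : K × K) : K := F.A j * v.1 + F.B j * v.2

/-- The product of the forms of the group `i`, with its constant. -/
def D (i : Fin 3) (v : K × K) : K := F.c i * ∏ k, F.L (i, k) v

/-- The zero of the form `j`. -/
def root (j : Fin 3 × Fin n) : ℚ × ℚ := (F.B j, -F.A j)

/-- The fibre at the zero of the form `j` is split when this number is a square. -/
def gam (j : Fin 3 × Fin n) : ℚ :=
  ![F.D 1 (F.root j), -F.D 2 (F.root j), -F.D 1 (F.root j)] j.1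

/-- The constant `u i` times the product of the forms of `y` outside the group `i`. -/
def del (u : Fin 3 → ℚ) (y : Finset (Fin 3 × Fin n)) (i : Fin 3) (v : K × K) : K :=
  u i * ∏ j ∈ y.filter (fun j => j.1 ≠ i), F.L j v

/-- The residue conditions at all bad fibres. -/
def InS (u : Fin 3 → ℚ) (y : Finset (Fin 3 × Fin n)) : Prop :=
  (∀ i, u i ≠ 0) ∧ IsSquare (u 0 * u 1 * u 2) ∧ (∀ i, Even (y.filter fun j => j.1 ≠ i).card) ∧
    ∀ j, IsSquare (F.del u y j.1 (F.root j) * if j ∈ y then F.gam j else 1)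

/-- The fibre over `(x : y)`. -/
def fibre (v : ℤ × ℤ) : WeierstrassCurve ℚ := curve (F.D 1 (v.1, v.2)) (F.D 2 (v.1, v.2))

end Surf

end Pool.Agent.MP_a43263_nt.RG
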