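import Pool.Agent.MP_a43263_nt.R2.Spec
import Pool.Agent.MP_a43263_nt.RG.Surf
import Pool.Agent.MP_a43263_nt.DH.Spec

-- ======== part 0: formerly Pool.Agent.MP_a43263_nt.RG.Defs
section MrgPart0

/-! PROJECT RANKG: definitions. Blueprint: `/team-store/RANKG_BLUEPRINT.md`. -/

set_option autoImplicit false

noncomputable section

namespace Pool.Agent.MP_a43263_nt.RG

open Finset Filter
open R2 (Sgn chi Ker sg pri PP chs Sc Shape)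

/-- rank `r` and trivial 2-primary part of the Tate-Shafarevich group -/
def Good (r : ℕ) (E : WeierstrassCurve ℚ) : Prop :=
  E.IsElliptic ∧ Module.rank ℤ (Pt E ℚ) = r ∧ ∀ k : ℕ, ∀ x ∈ Sha E, 2 ^ k • x = 0 → x = 0

/-! ### generators: the tags `(i, some k)` are the linear forms, the tags `(i, none)` are fixed
generators of class `i`; `neg` stands for `-1` -/

abbrev Ix (n : ℕ) : Type := Fin 3 × Fin n

abbrev Tag (n : ℕ) : Type := Fin 3 × Option (Fin n)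

abbrev Gen (n : ℕ) : Type := Tag n × ℕ

variable {n : ℕ}

def tg (h : Ix n) : Tag n := (h.1, some h.2)

def neg : Gen n := ((0, none), 1)

def val (a : Gen n) : ℤ := if a.2 = 1 then -1 else a.2

/-- the descent matrix with diagonal `dg` -/
def gp (dg : Gen n → ℤ) (a b : Gen n) : ℤ :=
  if a = b then (if a.2 = 1 then 1 else sg (dg a))
  else if a.1.1 = 0 then (if b.1.1 = 0 then 1 else sg (jacobiSym (val a) b.2))
  else if b.1.1 = 0 then sg (jacobiSym (val b) a.2)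
  else if a.1.1 = 1 then
    (if b.1.1 = 1 then (if a.2 % 4 = 3 ∧ b.2 % 4 = 3 then -1 else 1)
      else sg (jacobiSym a.2 b.2))
  else (if b.1.1 = 1 then sg (jacobiSym b.2 a.2) else 1)

/-- the product of the generators of `x` outside the class `j` -/
def Gv (j : Fin 3) (x : Finset (Gen n)) : ℤ := ∏ a ∈ x.filter (fun a => a.1.1 ≠ j), val a

/-- no prime occurs twice -/
def Dist (V : Finset (Gen n)) : Prop := ∀ a ∈ V, ∀ b ∈ V, a.2 = b.2 → a = b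

/-- well formed sets of generators -/
structure Nice (V : Finset (Gen n)) : Prop where
  neg : neg ∈ V
  pr : ∀ a ∈ V, a = RG.neg ∨ a.2.Prime
  dist : Dist V
  odd : ∀ a ∈ V, a.1.1 ≠ 0 → a.2 ≠ 2

def gens (l : Ix n → ℕ) : Finset (Gen n) :=
  univ.biUnion fun h => (l h).primeFactors.image fun p => (tg h, p)

/-- generators of size at most `Y` -/
def le (Y : ℕ) (V : Finset (Gen n)) : Finset (Gen n) := V.filter fun a => a.2 ≤ Y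

/-- generators of size between `Y` and `Y'` -/
def md (Y Y' : ℕ) (V : Finset (Gen n)) : Finset (Gen n) := V.filter fun a => Y < a.2 ∧ a.2 ≤ Y'

/-- all generators that belong to a form of `y` -/
def ones (V : Finset (Gen n)) (y : Finset (Ix n)) : Finset (Gen n) :=
  V.filter fun a => a.1 ∈ y.image tg

def Yne (j : Fin 3) (y : Finset (Ix n)) : ℕ := (y.filter fun h => h.1 ≠ j).card

def Yc (n : ℕ) : Finset (Finset (Ix n)) := univ.filter fun y => ∀ j, Even (Yne j y)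

/-- tag and label -/
abbrev TL (n : ℕ) : Type := Tag n × Bool × Bool

def tl (U U' : Finset (Gen n)) (s : Gen n) : TL n := (s.1, decide (s ∈ U), decide (s ∈ U'))

def pat (W U U' : Finset (Gen n)) : Finset (TL n) := W.image (tl U U')

/-- the exponent of the symbol between medium primes of types `f` and `g` -/
def expo (y y' : Finset (Ix n)) (f g : TL n) : ℕ :=
  (if f.1.1 = g.1.1 then 0 else f.2.1.toNat * g.2.2.toNat + f.2.2.toNat * g.2.1.toNat) +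
    g.2.2.toNat * Yne g.1.1 y + g.2.1.toNat * Yne g.1.1 y'

def Osc (y y' : Finset (Ix n)) (π : Finset (TL n)) : Prop :=
  ∃ f ∈ π, ∃ g ∈ π, f.1 ≠ g.1 ∧ Odd (expo y y' f g)

/-- the normalised term -/
def term (g : Gen n → Gen n → ℤ) (V : Finset (Gen n)) (y y' : Finset (Ix n))
    (U U' : Finset (Gen n)) : ℝ :=
  (chi g (symmDiff U (ones V y)) (symmDiff U' (ones V y')) : ℝ) / 2 ^ V.card

open Classical in
/-- the oscillating part of the count of the kernel -/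
def osc (g : Gen n → Gen n → ℤ) (Y Y' : ℕ) (V : Finset (Gen n)) : ℝ :=
  ∑ y : Finset (Ix n), ∑ y' : Finset (Ix n), ∑ U ∈ (le Y' V).powerset, ∑ U' ∈ (le Y' V).powerset,
    if Osc y y' (pat (md Y Y' V) U U') then term g V y y' U U' else 0

/-- the vectors of the kernel made of whole forms and small generators -/
def rset (g : Gen n → Gen n → ℤ) (Y : ℕ) (V : Finset (Gen n)) :
    Finset (Finset (Ix n) × Finset (Gen n)) :=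
  (Yc n ×ˢ (le Y V).powerset).filter fun x => symmDiff x.2 (ones V x.1) ∈ Ker g V

/-! ### the forms `X + e h * D`, scales -/

/-- modulus, pattern, diagonal constants, fixed generators, diagonal -/
structure Dat (n : ℕ) where
  M : ℕ
  e : Ix n → ℤ
  c : Ix n → ℤ
  V0 : Finset (Gen n)
  dg : Gen n → ℤ

/-- all small primes divide `M` -/
def Sm (n M : ℕ) : Prop := ∀ p : ℕ, p.Prime → p ≤ 12 * n → p ∣ M

structure Dat.Ok (D : Dat n) : Prop where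
  two : 2 ≤ n
  pos : 0 < D.M
  sm : Sm n D.M
  ne : ∀ h k, h ≠ k → D.e h ≠ D.e k
  dv : ∀ h k, h ≠ k → D.e h - D.e k ∣ D.M
  c0 : ∀ h, D.c h ≠ 0
  cM : ∀ h, ∀ p : ℕ, p.Prime → (p : ℤ) ∣ D.c h → p ∣ D.M
  nice : Nice D.V0
  fix : ∀ a ∈ D.V0, a.1.2 = none ∧ a.2 ∣ D.M
  diag : ∀ h, ∀ p : ℕ, D.dg (tg h, p) = jacobiSym (D.c h) p

def Dat.g (D : Dat n) : Gen n → Gen n → ℤ := gp D.dg

def Dat.VV (D : Dat n) (l : Ix n → ℕ) : Finset (Gen n) := D.V0 ∪ gens l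

/-- the tuple `l` is of the form `X + e h * D` -/
def Lin (e : Ix n → ℤ) (l : Ix n → ℕ) : Prop :=
  ∀ f g h, (e g - e f) * l h = (e g - e h) * l f + (e h - e f) * l g

structure Adm (D : Dat n) (l : Ix n → ℕ) : Prop where
  lin : Lin D.e l
  one : ∀ h, l h ≡ 1 [MOD 8 * D.M]
  cop : ∀ h k, h ≠ k → (l h).Coprime (l k)
  sqf : ∀ h, Squarefree (l h)

def EE (n : ℕ) : ℕ := 10000 * 512 ^ n

/-- the relations between the scales -/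
structure Rel (n : ℕ) (S : Sc) : Prop where
  hY : S.Y = S.Y0 ^ EE n
  hY' : S.Y' = S.Y ^ 128 ^ S.J
  lo : S.Y' ^ EE n ≤ S.Z
  hi : S.Z ≤ S.Y' ^ (2 * EE n)

/-- `P` holds for fixed `M`, `J` and all large scales -/
def Ev (n M J : ℕ) (P : Sc → Prop) : Prop :=
  ∃ t₀ : ℕ, ∀ S : Sc, S.M = M → S.J = J → t₀ ≤ S.Y0 → Rel n S → P S

open Classical in
/-- the set of tuples that is studied -/
def AA (S : Sc) (D : Dat n) : Finset (Ix n → ℕ) :=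
  (Fintype.piFinset fun _ => Icc 1 S.Z).filter fun l => Lin D.e l ∧ (∀ h, l h ≡ 1 [MOD 8 * D.M]) ∧
    (∀ h k, h ≠ k → (l h).Coprime (l k)) ∧ ∀ h, Shape S (l h)

/-- the character of a set of whole forms at the primes of the form `k` -/
def Cy (D : Dat n) (y : Finset (Ix n)) (k : Ix n) : ℤ :=
  (if k ∈ y then (if k.1 = 1 then -D.c k else D.c k) else 1) *
    ∏ j ∈ y.filter (fun j => j.1 ≠ k.1), (D.e j - D.e k)

/-- geometric classes -/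
def Geo (D : Dat n) (y : Finset (Ix n)) (U : Finset (Gen n)) : Prop :=
  ∀ k : Ix n, IsSquare (Gv k.1 U * Cy D y k)

open Classical in
def geoSet (D : Dat n) : Finset (Finset (Ix n) × Finset (Gen n)) :=
  (Yc n ×ˢ D.V0.powerset).filter fun x => Geo D x.1 x.2

/-- a class that is not geometric satisfies the rows of `V0`, `W` and `W'` -/
def Bad (D : Dat n) (W W' : Finset (Gen n)) : Prop :=
  ∃ y ∈ Yc n, ∃ U ⊆ D.V0 ∪ W, ¬Geo D y U ∧ (∀ b ∈ D.V0, ∏ a ∈ U, D.g a b = 1) ∧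
    ∀ (k : Ix n) (p : ℕ), (tg k, p) ∈ W ∪ W' → ∏ a ∈ U, D.g a (tg k, p) = jacobiSym (Cy D y k) p

/-! ### the dominating product measure -/

def TT (n : ℕ) (P : Finset ℕ) : Finset (Gen n) := univ.image tg ×ˢ P

def wt (n p : ℕ) : ℝ := 1 / ((p : ℝ) + 1 - 3 * n)

def Wt (Z : Finset (Gen n)) : ℝ := ∏ a ∈ Z, wt n a.2

def Mass (n : ℕ) (P : Finset ℕ) : ℝ := ∏ p ∈ P, (1 + wt n p) ^ (3 * n)

/-- an exceptional character is supported on `M` and `Z` -/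
def Exc (M : ℕ) (ε : ℝ) (y y' : ℕ) (Z : Finset (Gen n)) : Prop :=
  ∃ G : ℤ, Squarefree G.natAbs ∧ G ≠ 1 ∧ (∀ p ∈ G.natAbs.primeFactors, p ∣ M ∨ ∃ t, (t, p) ∈ Z) ∧
    ε < |chs G y y'|

/-! ### oscillation -/

/-- the product of the medium primes of type `f` -/
def nOf (S : Sc) (V U U' : Finset (Gen n)) (f : TL n) : ℕ :=
  ∏ b ∈ (md S.Y S.Y' V).filter (fun b => tl U U' b = f), b.2

/-- the generators that are frozen -/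
def outer (S : Sc) (V U U' : Finset (Gen n)) (f g : TL n) (s : Gen n) : Finset (Gen n) :=
  (le S.Y' V).filter fun b => b.2 ≤ S.Y ∨ (b.1 = f.1 ∧ tl U U' b ≠ f) ∨ (b.1 = g.1 ∧ b ≠ s)

open Classical in
/-- the sum of all terms with given frozen data -/
def keySum (S : Sc) (D : Dat n) (y y' : Finset (Ix n)) (f g : TL n)
    (ok : Finset (TL n) → Prop) (O O₁ O₂ : Finset (Gen n)) (i : ℕ) : ℝ :=
  ∑ l ∈ AA S D, ∑ U ∈ (le S.Y' (D.VV l)).powerset, ∑ U' ∈ (le S.Y' (D.VV l)).powerset,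
    ∑ s ∈ md S.Y S.Y' (D.VV l),
      if ok (pat (md S.Y S.Y' (D.VV l)) U U') ∧ tl U U' s = g ∧
          outer S (D.VV l) U U' f g s = O ∧ O ∩ U = O₁ ∧ O ∩ U' = O₂ ∧
          2 ^ i < nOf S (D.VV l) U U' f ∧ nOf S (D.VV l) U U' f ≤ 2 ^ (i + 1)
        then term D.g (D.VV l) y y' U U' else 0

/-! ### descent -/

/-- the generators of class zero that divide `a - b` exactly once -/
def zer (N : ℕ) (V : Finset (Gen n)) : Finset (Gen n) :=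
  V.filter fun x => x.1.1 = 0 ∧ x ≠ neg ∧ ¬x.2 ∣ N

/-- the curves `y ^ 2 = x (x - a) (x - b)` to which the descent applies -/
structure Loc (N : ℕ) (δ : ℤ) (V : Finset (Gen n)) (dg : Gen n → ℤ) (a b : ℕ) : Prop where
  nice : Nice V
  pos : 0 < N
  two : 2 ∣ N
  fix : ∀ p : ℕ, p.Prime → p ∣ N → ((0, none), p) ∈ V ∧ dg ((0, none), p) = 1
  ha : a = ∏ x ∈ V.filter (fun x => x.1.1 = 1), x.2
  hb : b = ∏ x ∈ V.filter (fun x => x.1.1 = 2), x.2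
  hd : (a : ℤ) - b = δ * ∏ x ∈ zer N V, (x.2 : ℤ)
  d0 : δ ≠ 0
  dN : ∀ p : ℕ, p.Prime → (p : ℤ) ∣ δ → p ∣ N
  a1 : a ≡ 1 [MOD 128 * N]
  b1 : b ≡ 1 [MOD 128 * N]
  dg : ∀ x ∈ V, x ≠ neg → ¬x.2 ∣ N → dg x = jacobiSym (![(a : ℤ), b, -a] x.1.1) x.2

/-! ### surfaces -/

namespace Surf

variable (F : Surf n)

def LZ (j : Ix n) (v : ℤ × ℤ) : ℤ := F.A j * v.1 + F.B j * v.2

def DZ (i : Fin 3) (v : ℤ × ℤ) : ℤ := F.c i * ∏ k, F.LZ (i, k) v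

def rootZ (j : Ix n) : ℤ × ℤ := (F.B j, -F.A j)

/-- the diagonal constants -/
def cZ (j : Ix n) : ℤ := ![F.DZ 1 (F.rootZ j), F.DZ 2 (F.rootZ j), -F.DZ 1 (F.rootZ j)] j.1

/-- the hypotheses of the main theorem -/
structure Hyp (r : ℕ) : Prop where
  ev : Even n
  c0 : ∀ i, F.c i ≠ 0
  ne : ∀ j k, j ≠ k → F.L j (F.root k) ≠ 0
  sum : ∀ v : ℚ × ℚ, F.D 0 v = F.D 1 v - F.D 2 v
  split : ∃ k, IsSquare (F.gam (0, k))
  card : {y | ∃ u, F.InS u y}.ncard = 2 ^ (r + 2)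
  sol : ∀ u y, F.InS u y → Cover (F.D 1 ((RatFunc.X : RatFunc ℚ), 1)) (F.D 2 (RatFunc.X, 1))
    (F.del u y 2 (RatFunc.X, 1)) (F.del u y 1 (RatFunc.X, 1))

end Surf

/-- a base point `v0` close to the split fibre and a second vector `v1` -/
structure Base (n : ℕ) where
  N : ℕ
  g : ℤ
  δ : ℤ
  v0 : ℤ × ℤ
  v1 : ℤ × ℤ
  μ : Ix n → ℤ
  e : Ix n → ℤ
  a : Ix n → ℕ

structure Base.Ok (F : Surf n) (B : Base n) : Prop where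
  pos : 0 < B.N
  two : 2 ∣ B.N
  l0 : ∀ j, F.LZ j B.v0 = B.μ j * B.a j
  l1 : ∀ j, F.LZ j B.v1 = B.μ j * B.a j * B.e j
  prim : IsCoprime B.v0.1 B.v0.2
  ne : ∀ j k, j ≠ k → B.e j ≠ B.e k
  m0 : ∀ j, B.μ j ≠ 0
  d0 : B.δ ≠ 0
  cN : ∀ i, ∀ p : ℕ, p.Prime → (p : ℤ) ∣ F.c i → p ∣ B.N
  rN : ∀ j k, j ≠ k → ∀ p : ℕ, p.Prime → (p : ℤ) ∣ F.LZ j (F.rootZ k) → p ∣ B.N
  mN : ∀ j, ∀ p : ℕ, p.Prime → (p : ℤ) ∣ B.μ j → p ∣ B.N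
  dN : ∀ p : ℕ, p.Prime → (p : ℤ) ∣ B.δ → p ∣ B.N
  p0 : F.c 0 * ∏ k, B.μ (0, k) = B.g ^ 2 * B.δ
  p1 : F.c 1 * ∏ k, B.μ (1, k) = B.g ^ 2
  p2 : F.c 2 * ∏ k, B.μ (2, k) = B.g ^ 2
  sqf : ∀ j, Squarefree (B.a j)
  cop : ∀ j k, j ≠ k → (B.a j).Coprime (B.a k)
  one : ∀ j, B.a j ≡ 1 [MOD 128 * B.N]

/-- admissible moduli -/
structure Base.Fits (B : Base n) (M : ℕ) : Prop where
  pos : 0 < M
  sm : Sm n M
  dv : ∀ h k, h ≠ k → 128 * B.N * (B.e h - B.e k) ∣ M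
  aM : ∀ j, B.a j ∣ M

/-- the data of the analytic part -/
def Base.dat (F : Surf n) (B : Base n) (M : ℕ) : Dat n where
  M := M
  e := B.e
  c := F.cZ
  V0 := insert neg (B.N.primeFactors.image fun p => ((0, none), p)) ∪
    univ.biUnion fun j : Ix n => (B.a j).primeFactors.image fun p => ((j.1, none), p)
  dg := fun x => x.1.2.elim (∏ j ∈ univ.filter (fun j => x.2 ∣ B.a j), jacobiSym (F.cZ j) x.2)
    fun k => jacobiSym (F.cZ (x.1.1, k)) x.2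

/-- the product of the values of the forms of class `i` without the bad primes -/
def Base.pr (B : Base n) (l : Ix n → ℕ) (i : Fin 3) : ℕ := ∏ k, B.a (i, k) * l (i, k)

end Pool.Agent.MP_a43263_nt.RG

end
end MrgPart0

-- ======== part 1: formerly Pool.Agent.MP_a43263_nt.RG.Spec
section MrgPart1

/-! PROJECT RANKG: the statements of the modules. Blueprint: `/team-store/RANKG_BLUEPRINT.md`. -/

set_option autoImplicit false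

noncomputable section

namespace Pool.Agent.MP_a43263_nt.RG

open Finset Filter
open R2 (Sgn chi Ker sg pri PP chs kc Sc Shape ELS rho muT SHAStmt MERStmt PMStmt SVStmt DOStmt SWStmt
  EXCStmt SHIStmt CENStmt)

/-! ### A. descent -/

/-- the rank from the number of soluble 2-coverings -/
def RANKStmt : Prop := ∀ (a b : ℚ) (r : ℕ) (ι : Type) (I : Finset ι) (d₂ d₃ : ι → ℚ), a ≠ 0 → b ≠ 0 →
  a ≠ b → I.card = 2 ^ (r + 2) → (∀ i ∈ I, d₂ i ≠ 0 ∧ d₃ i ≠ 0 ∧ Cover a b (d₂ i) (d₃ i)) →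
  (∀ i ∈ I, ∀ j ∈ I, IsSquare (d₂ i * d₂ j) → IsSquare (d₃ i * d₃ j) → i = j) →
  (∀ e₂ e₃ : ℚ, e₂ ≠ 0 → e₃ ≠ 0 → Cover a b e₂ e₃ →
    ∃ i ∈ I, IsSquare (e₂ * d₂ i) ∧ IsSquare (e₃ * d₃ i)) →
  (curve a b).IsElliptic ∧ Module.rank ℤ (Pt (curve a b) ℚ) = r

/-- the local conditions -/
def LOCStmt : Prop := ∀ (n N : ℕ) (δ : ℤ) (V : Finset (Gen n)) (dg : Gen n → ℤ) (a b : ℕ),
  Loc N δ V dg a b → ∀ d₂ d₃ : ℚ, d₂ ≠ 0 → d₃ ≠ 0 → ELS a b d₂ d₃ →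
    ∃ y ∈ Ker (gp dg) V, IsSquare (d₂ * (Gv 2 y : ℚ)) ∧ IsSquare (d₃ * (Gv 1 y : ℚ))

/-- the parity of the corank -/
def PARStmt : Prop := ∀ (n N : ℕ) (δ : ℤ) (V : Finset (Gen n)) (dg : Gen n → ℤ) (a b : ℕ),
  Loc N δ V dg a b → ∏ x ∈ zer N V, dg x = 1 →
    ∃ κ : ℕ, (Ker (gp dg) V).card = 2 ^ κ ∧ κ % 2 = V.card % 2

def ALGStmt : Prop := ∀ (n N : ℕ) (δ : ℤ) (V : Finset (Gen n)) (dg : Gen n → ℤ) (a b : ℕ) (q : ℚ)
  (r : ℕ) (ι : Type) (I : Finset ι) (d₂ d₃ : ι → ℚ), Loc N δ V dg a b → q ≠ 0 →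
  I.card = 2 ^ (r + 2) →
  (∀ i ∈ I, d₂ i ≠ 0 ∧ d₃ i ≠ 0 ∧ Cover (q ^ 2 * a) (q ^ 2 * b) (d₂ i) (d₃ i)) →
  (∀ i ∈ I, ∀ j ∈ I, IsSquare (d₂ i * d₂ j) → IsSquare (d₃ i * d₃ j) → i = j) →
  (Ker (gp dg) V).card ≤ 2 ^ (r + 2) → Good r (curve (q ^ 2 * a) (q ^ 2 * b))

/-! ### B. linear algebra and symbols -/

/-- bordering a symmetric matrix; the parity of the corank -/
def BORStmt : Prop := ∀ (ι : Type) [DecidableEq ι] (g : ι → ι → ℤ), Sgn g → ∀ V : Finset ι,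
  (∀ A : Finset ι, (Ker g (V ∪ A)).card ≤ 2 ^ A.card * (Ker g V).card) ∧
  (∀ b, b ∉ V → (∃ x ∈ Ker g V, ∏ a ∈ x, g a b = -1) →
    2 * (Ker g (insert b V)).card = (Ker g V).card) ∧
  (∀ b, ∑ x ∈ Ker g V, ∏ a ∈ x, g a b =
    if ∀ x ∈ Ker g V, ∏ a ∈ x, g a b = 1 then ((Ker g V).card : ℤ) else 0) ∧
  (∀ w ⊆ V, (∀ a ∈ V, g a a = ∏ t ∈ w, g t a) → chi g w w = 1 →
    ∃ κ : ℕ, (Ker g V).card = 2 ^ κ ∧ κ % 2 = V.card % 2)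

/-- the count of the kernel -/
def CNTStmt : Prop := ∀ (n : ℕ) (g : Gen n → Gen n → ℤ), 2 ≤ n → Sgn g →
  ∀ (V : Finset (Gen n)) (Y Y' J : ℕ), Y ≤ Y' → 1 ≤ J → (∀ a ∈ V, Y < a.2 → a.1.2 ≠ none) →
  (∀ h : Ix n, (V.filter fun a => a.1 = tg h ∧ Y' < a.2).card = 1) →
  (∀ h : Ix n, 4 * J ≤ ((md Y Y' V).filter fun a => a.1 = tg h).card ∧
    ((md Y Y' V).filter fun a => a.1 = tg h).card ≤ 6 * J) →
  ((Ker g V).card : ℝ) ≤ osc g Y Y' V + 3 * ((rset g Y V).card : ℝ) +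
    3 * 8 ^ n * ((Ker g (le Y V)).card : ℝ) / 2 ^ J

/-- rows of the descent matrix as Jacobi symbols -/
def KCStmt : Prop := ∀ n : ℕ,
  (∀ (dg : Gen n → ℤ) (V x : Finset (Gen n)) (b : Gen n), Nice (insert b V) → b ∉ V → b ≠ neg →
    b.2 ≠ 2 → x ⊆ V → ∏ a ∈ x, gp dg a neg = 1 →
    ∏ a ∈ x, gp dg a b = jacobiSym (Gv b.1.1 x) b.2) ∧
  (∀ (dg : Gen n → ℤ) (V x : Finset (Gen n)) (b : Gen n), Nice (insert b V) → b ∉ V → b ≠ neg →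
    b.2 ≠ 2 → x ⊆ V → ∏ a ∈ x, gp dg a b =
      jacobiSym ((if b.1.1 = 2 then 1 else ∏ a ∈ x, gp dg a neg) * Gv b.1.1 x) b.2) ∧
  (∀ (V x : Finset (Gen n)) (j : Fin 3), Nice V → x ⊆ V →
    Squarefree (Gv j x).natAbs ∧ (Gv j x = 1 → ∀ a ∈ x, a.1.1 = j) ∧
    (Gv j x ≠ 1 → ¬IsSquare (Gv j x)) ∧
    ∀ p ∈ (Gv j x).natAbs.primeFactors, ∃ a ∈ x, a.2 = p) ∧
  (∀ (dg : Gen n → ℤ) (W : Finset (Gen n)) (k : Tag n), (∀ b ∈ W, b.1 ≠ k ∧ b.2.Prime ∧ b.2 ≠ 2) →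
    ∃ σ : ℤ, (σ = 1 ∨ σ = -1) ∧ ∀ s : ℕ, s.Prime → s ≠ 2 → (∀ b ∈ W, b.2 ≠ s) →
      ∏ b ∈ W, gp dg b (k, s) =
        jacobiSym (σ * ∏ b ∈ W.filter (fun b => b.1.1 ≠ k.1), (b.2 : ℤ)) s)

/-- symbols that involve a whole form -/
def SYMStmt : Prop := ∀ (n : ℕ) (D : Dat n), D.Ok →
  (∀ (y y' : Finset (Ix n)) (f g : Ix n), f ≠ g → ∃ (σ : ℤ) (e : ℕ), (σ = 1 ∨ σ = -1) ∧
    ∀ l, Adm D l → chi D.g (ones (D.VV l) y) (ones (D.VV l) y') =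
      σ * jacobiSym (l g) (l f) ^ e) ∧
  (∀ y : Finset (Ix n), ∀ b ∈ D.V0, ∀ l, Adm D l → ∏ a ∈ ones (D.VV l) y, D.g a b = 1) ∧
  (∀ (y : Finset (Ix n)) (k k' : Ix n), k ≠ k' → ∃ C : ℤ, ∀ l, Adm D l → ∀ p : ℕ, p.Prime →
    p ∣ l k → ∏ a ∈ ones (D.VV l) y, D.g a (tg k, p) =
      jacobiSym C p * jacobiSym (l k') p ^ Yne k.1 y) ∧
  (∀ y ∈ Yc n, ∀ (k : Ix n) (l : Ix n → ℕ), Adm D l → ∀ p : ℕ, p.Prime → p ∣ l k →
    ∏ a ∈ ones (D.VV l) y, D.g a (tg k, p) = jacobiSym (Cy D y k) p)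

/-! ### C. tools -/

def MESStmt : Prop := ∀ n : ℕ, ∃ C : ℝ, ∀ M a y : ℕ, Sm n M → 2 ≤ y →
  Mass n (PP M a y) ≤ C * Real.log y ^ (3 * n)

open Classical in
/-- exceptional configurations are rare -/
def EXPStmt : Prop := ∀ (n M k : ℕ) (ε η : ℝ), 0 < M → Sm n M → 0 < ε → 0 < η →
  ∀ᶠ y : ℕ in atTop, ∀ y₀ y' : ℕ, y₀ ≤ y → y' ≤ y ^ k →
    ∑ Z ∈ (TT n (PP M 0 y₀)).powerset.filter (Exc M ε y y'), Wt Z * 2 ^ Z.card ≤ η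

/-! ### D. positivity -/

/-- the cores are heavy -/
def MASStmt : Prop := ∀ n : ℕ, ∃ (c : ℝ) (J₀ : ℕ), 0 < c ∧ ∀ M J : ℕ, 0 < M → J₀ ≤ J →
  Ev n M J fun S => c * Real.log S.Z ≤ rho M * muT S

open Classical in
/-- good numbers have positive density in the class of one -/
def DENStmt : Prop := ∀ n : ℕ, ∃ (δ : ℝ) (J₀ : ℕ), 0 < δ ∧ ∀ M J : ℕ, 0 < M → 2 ∣ M → J₀ ≤ J →
  Ev n M J fun S => ∃ e : ℕ, δ * (S.Z / (8 * M) : ℕ) ≤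
    (((range (S.Z / (8 * M))).filter fun k => Shape { S with e := e } (1 + 8 * M * k)).card : ℝ)

/-- all forms are good -/
def POSStmt : Prop := ∀ (n : ℕ) (e : Ix n → ℤ), ∃ P₀ J₀ : ℕ, ∀ D : Dat n, D.Ok → D.e = e →
  (∀ p : ℕ, p.Prime → p ≤ P₀ → p ∣ D.M) → ∃ c : ℝ, 0 < c ∧ ∀ J : ℕ, J₀ ≤ J →
  Ev n D.M J fun S => ∃ e : ℕ, c * (S.Z : ℝ) ^ 2 ≤ ((AA { S with e := e } D).card : ℝ)

/-! ### E. domination by a product measure -/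

open Classical in
/-- the sieve bound -/
def FIBStmt : Prop := ∀ (n : ℕ) (D : Dat n), D.Ok → ∃ C : ℝ, ∀ᶠ y : ℕ in atTop,
  ∀ (Z : ℕ) (c : Ix n → ℕ), y ^ (200 * n) ≤ Z → (∀ h, Squarefree (c h) ∧ (c h).Coprime D.M ∧
    c h ≤ y ^ 6 ∧ ∀ p ∈ (c h).primeFactors, p ≤ y) → (∀ h k, h ≠ k → (c h).Coprime (c k)) →
    (((Fintype.piFinset fun _ : Ix n => Icc 1 Z).filter fun l => Lin D.e l ∧
      (∀ h, l h ≡ 1 [MOD 8 * D.M]) ∧ ∀ h, ∃ P : ℕ, P.Prime ∧ y < P ∧ l h = c h * P).card : ℝ) ≤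
      C * (Z : ℝ) ^ 2 / Real.log y ^ (3 * n) * ∏ h, ∏ p ∈ (c h).primeFactors, wt n p

open Classical in
def DOMStmt : Prop := ∀ (n : ℕ) (D : Dat n), D.Ok → ∃ C : ℝ, 0 ≤ C ∧ ∀ J : ℕ,
  Ev n D.M J fun S => ∀ Φ : Finset (Gen n) → Finset (Gen n) → ℝ, (∀ W W', 0 ≤ Φ W W') →
    ∑ l ∈ AA S D, Φ (le S.Y (gens l)) (md S.Y S.Y' (gens l)) ≤
      C * (S.Z : ℝ) ^ 2 / Real.log S.Y' ^ (3 * n) *
        ∑ W ∈ (TT n (PP D.M 0 S.Y0)).powerset.filter Dist,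
          ∑ W' ∈ (TT n (PP D.M S.Y S.Y')).powerset, Wt W * Wt W' * Φ W W'

open Classical in
/-- one new prime contracts the kernel on average -/
def STEPStmt : Prop := ∀ (n : ℕ) (dg : Gen n → ℤ) (V : Finset (Gen n)) (P : Finset ℕ) (w : ℕ → ℝ),
  Nice V → (∀ p ∈ P, p.Prime ∧ p ≠ 2 ∧ 0 ≤ w p ∧ ∀ a ∈ V, a.2 ≠ p) →
  10000 ≤ (Ker (gp dg) V).card →
  (∀ x ⊆ V, ∀ j, Gv j x ≠ 1 →
    |∑ p ∈ P, w p * jacobiSym (Gv j x) p| ≤ (∑ p ∈ P, w p) / 100) →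
  ∑ b ∈ TT n P, w b.2 * √((Ker (gp dg) (insert b V)).card) ≤
    0.96 * (3 * n * ∑ p ∈ P, w p) * √((Ker (gp dg) V).card)

open Classical in
/-- the kernel on the small primes is tight -/
def LYAStmt : Prop := ∀ (n : ℕ) (D : Dat n), D.Ok → ∃ C : ℝ, ∀ y : ℕ,
  ∑ W ∈ (TT n (PP D.M 0 y)).powerset.filter Dist, Wt W * √((Ker D.g (D.V0 ∪ W)).card) ≤
    C * Mass n (PP D.M 0 y)

open Classical in
/-- classes that are not geometric are killed by the medium primes -/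
def KILStmt : Prop := ∀ (n : ℕ) (D : Dat n) (T J : ℕ), D.Ok →
  Ev n D.M J fun S =>
    ∑ W ∈ (TT n (PP D.M 0 S.Y0)).powerset.filter Dist, ∑ W' ∈ (TT n (PP D.M S.Y S.Y')).powerset,
      Wt W * Wt W' * (if (Ker D.g (D.V0 ∪ W)).card ≤ T ∧ Bad D W W' then 1 else 0) ≤
      3 * 8 ^ n * T / 2 ^ J * (Mass n (PP D.M 0 S.Y0) * Mass n (PP D.M S.Y S.Y'))

/-! ### G. oscillation -/

/-- one pair of inner variables: the centred part -/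
def PAIRStmt : Prop := ∀ k a lo hi κ : ℕ, 2 ^ (k + 2) + 2 * a + 10 ≤ lo → ∀ᶠ Y : ℕ in atTop,
  ∀ (Y' R Q D m : ℕ) (P : Finset ℕ) (c : ℕ → ℝ)
  (A B : Fin k → ℤ) (ψ : Fin k → ℤ → ℝ) (Per : ℤ → ℝ) (ρ : ℤ → ℤ), Y ≤ Y' → Y' ≤ Y ^ κ →
  Y' ^ lo ≤ R → Y' ^ lo ≤ Q → Q ≤ Y' ^ hi → 1 ≤ D → D ≤ Y' ^ a → m ∣ D →
  (∀ s ∈ P, s.Prime ∧ Y < s ∧ s ≤ Y' ∧ ¬s ∣ D ∧ ∀ i, ¬(s : ℤ) ∣ A i) → (∀ s, |c s| ≤ 1) →
  (∀ i, |A i| ≤ (Y' : ℤ) ^ a ∧ |B i| ≤ (Y' : ℤ) ^ a) → (∀ i x, |ψ i x| ≤ 1) →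
  (∀ q, |Per q| ≤ 1) → (∀ q, Per (q + D) = Per q) → (∀ r r', r ≡ r' [ZMOD D] → ρ r = ρ r') →
  (∀ r q : ℤ, (∀ i, ψ i (A i * r + B i * q) ≠ 0) → q ≡ ρ r [ZMOD m]) →
  |∑ r ∈ Icc 1 R, ∑ q ∈ Icc 1 Q, Per q * (∏ i, ψ i (A i * r + B i * q)) * kc P c q| ≤
    R * Q / m * (Y : ℝ) ^ (-(1 / 2 ^ (k + 2)) : ℝ)

/-- the oscillation estimate -/
def GStmt : Prop := ∀ k a lo hi κ F : ℕ, 2 ^ (2 * k + 2) + 4 * a + 100 ≤ lo → ∀ᶠ Y : ℕ in atTop,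
  ∀ (Y' R Q N : ℕ) (P : Finset ℕ) (Ω : Type)
  (W : Finset Ω) (ν : Ω → ℕ) (K : Ω → ℤ) (σ : ℕ → Ω → ℤ) (α β : Fin k → ℤ) (A : ℕ → ℕ → ℕ → ℝ)
  (B : ℕ → Ω → ℝ) (Per : ℕ → Ω → ℤ → ℝ) (ψ : ℕ → Ω → Fin k → ℤ → ℝ), Y ≤ Y' → Y' ≤ Y ^ κ →
  Y' ^ lo ≤ R → Y' ^ lo ≤ Q → Q ≤ Y' ^ hi → Y ≤ 2 * N → N ≤ Y' ^ 3 →
  (∀ s ∈ P, s.Prime ∧ Y < s ∧ s ≤ Y' ∧ ∀ i, ¬(s : ℤ) ∣ α i) →
  (∀ i, |α i| ≤ (Y' : ℤ) ^ 8 ∧ |β i| ≤ (Y' : ℤ) ^ 8) → (∀ ω ∈ W, 1 ≤ ν ω ∧ ν ω ≤ Y' ^ a) →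
  (∀ m, (W.filter fun ω => ν ω = m).card ≤ F) → (∀ n ω, σ n ω = 1 ∨ σ n ω = -1) →
  (∀ r q s, |A r q s| ≤ 1) → (∀ n ω, |B n ω| ≤ 1) → (∀ n ω q, |Per n ω q| ≤ 1) →
  (∀ n ω i x, |ψ n ω i x| ≤ 1) → (∀ n ω q, Per n ω (q + n * ν ω) = Per n ω q) →
  (∀ n ω q, Per n ω q ≠ 0 → IsCoprime q (n * ν ω)) →
  (∀ n, ∀ ω ∈ W, ∃ ρ : ℤ, ∀ r q : ℤ, (∀ i, ψ n ω i (α i * n * r + β i * q) ≠ 0) →
    q ≡ ρ * r [ZMOD ν ω]) →
  |∑ r ∈ Icc 1 R, ∑ q ∈ Icc 1 Q, ∑ s ∈ P.filter (· ∣ q), A r q s *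
      ∑ n ∈ Ioc N (2 * N), ∑ ω ∈ W, B n ω * jacobiSym (σ n ω * n * K ω) s * Per n ω q *
        ∏ i, ψ n ω i (α i * n * r + β i * q)| ≤
    R * Q * N * (Y : ℝ) ^ (-(1 / 2 ^ (2 * k + 5)) : ℝ)

/-- the sum with frozen data -/
def KEYStmt : Prop := ∀ (n : ℕ) (D : Dat n) (J : ℕ), D.Ok →
  Ev n D.M J fun S => ∀ (y y' : Finset (Ix n)) (f g : TL n) (ok : Finset (TL n) → Prop)
    (O O₁ O₂ : Finset (Gen n)) (i : ℕ), f.1 ≠ g.1 → Odd (expo y y' f g) →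
    |keySum S D y y' f g ok O O₁ O₂ i| ≤
      (S.Z : ℝ) ^ 2 / ((S.Y0 : ℝ) ^ (30 * n) * ∏ b ∈ O.filter (fun b => S.Y < b.2), (b.2 : ℝ))

open Classical in
def OSCStmt : Prop := ∀ (n : ℕ) (D : Dat n) (J : ℕ) (ε : ℝ), D.Ok → 0 < ε →
  Ev n D.M J fun S => ∀ pr : Finset (Gen n) → Prop,
    |∑ l ∈ (AA S D).filter (fun l => pr (le S.Y (D.VV l))), osc D.g S.Y S.Y' (D.VV l)| ≤
      ε * (S.Z : ℝ) ^ 2

open Classical in
/-- a positive proportion of the tuples has a kernel of the least size -/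
def MKVStmt : Prop := ∀ (n : ℕ) (D : Dat n) (r : ℕ) (δ : ℝ), D.Ok → (geoSet D).card ≤ 2 ^ (r + 2) →
  (∀ l, Adm D l → Even (∑ h, (l h).primeFactors.card) →
    ∃ κ : ℕ, (Ker D.g (D.VV l)).card = 2 ^ κ ∧ κ % 2 = r % 2) → Even n → 0 < δ →
  ∃ J₀ : ℕ, ∀ J : ℕ, J₀ ≤ J → Ev n D.M J fun S => δ * (S.Z : ℝ) ^ 2 ≤ (AA S D).card →
    δ / 32 * (S.Z : ℝ) ^ 2 ≤
      (((AA S D).filter fun l => (Ker D.g (D.VV l)).card ≤ 2 ^ (r + 2)).card : ℝ)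

/-! ### H. surfaces -/

/-- both parities occur at squarefree values of a product of linear forms -/
def PTYStmt : Prop := ∀ (I : Type) [Fintype I] [Nonempty I], ∃ P₁ : ℕ, ∀ (κ : I → ℤ) (Q ε : ℕ),
  0 < Q → (∀ p : ℕ, p.Prime → p ≤ P₁ → p ∣ Q) → (∀ i, (Q : ℤ) ∣ κ i) →
  (∀ i j, i ≠ j → κ i ≠ κ j ∧ ∀ p : ℕ, p.Prime → (p : ℤ) ∣ κ i - κ j → p ∣ Q) →
  ∃ (s t : ℕ) (a : I → ℕ), s ≡ 1 [MOD Q] ∧ t ≡ 1 [MOD Q] ∧ (∀ i, (a i : ℤ) = s + κ i * t) ∧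
    Squarefree t ∧ (∀ i, Squarefree (a i) ∧ (a i).Coprime t) ∧
    (∀ i j, i ≠ j → (a i).Coprime (a j)) ∧
    (t.primeFactors.card + ∑ i, (a i).primeFactors.card) % 2 = ε % 2

/-- base points of both parities -/
def BASEStmt : Prop := ∀ (n r : ℕ) (F : Surf n), F.Hyp r → ∀ ε : ℕ, ∃ B : Base n, B.Ok F ∧
  (1 + B.N.primeFactors.card + ∑ j, (B.a j).primeFactors.card) % 2 = ε % 2

/-- the point that belongs to an admissible tuple -/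
def PTStmt : Prop := ∀ (n : ℕ) (F : Surf n) (B : Base n) (M : ℕ), 2 ≤ n → B.Ok F → B.Fits M →
  ∀ l, Adm (B.dat F M) l →
    ∃ v : ℤ × ℤ, IsCoprime v.1 v.2 ∧ ∀ j, F.LZ j v = B.μ j * B.a j * l j

/-- the descent applies to admissible tuples -/
def BRStmt : Prop := ∀ (n r : ℕ) (F : Surf n) (B : Base n) (M : ℕ), F.Hyp r → B.Ok F → B.Fits M →
  (B.dat F M).Ok ∧ ∀ l, Adm (B.dat F M) l →
    Loc B.N B.δ ((B.dat F M).VV l) (B.dat F M).dg (B.pr l 1) (B.pr l 2) ∧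
    ∏ x ∈ zer B.N ((B.dat F M).VV l), (B.dat F M).dg x = 1 ∧
    ((B.dat F M).VV l).card = 1 + B.N.primeFactors.card + ∑ j, (B.a j).primeFactors.card +
      ∑ j, (l j).primeFactors.card

/-- geometric classes satisfy the residue conditions -/
def GEOStmt : Prop := ∀ (n r : ℕ) (F : Surf n) (B : Base n) (M : ℕ), F.Hyp r → B.Ok F →
  (B.dat F M).Ok → (geoSet (B.dat F M)).card ≤ 2 ^ (r + 2)

/-- specialisation of points over the function field -/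
def SPEStmt : Prop := ∀ (n : ℕ) (F : Surf n) (u : Fin 3 → ℚ) (y : Finset (Ix n)), Even n →
  (∀ i, Even (y.filter fun j => j.1 ≠ i).card) →
  Cover (F.D 1 ((RatFunc.X : RatFunc ℚ), 1)) (F.D 2 (RatFunc.X, 1))
    (F.del u y 2 (RatFunc.X, 1)) (F.del u y 1 (RatFunc.X, 1)) →
  ∀ v : ℚ × ℚ, v.2 ≠ 0 → Cover (F.D 1 v) (F.D 2 v) (F.del u y 2 v) (F.del u y 1 v)

/-- a small kernel gives a good fibre -/
def GOODStmt : Prop := ∀ (n r : ℕ) (F : Surf n) (B : Base n) (M : ℕ), F.Hyp r → B.Ok F → B.Fits M →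
  ∀ l, Adm (B.dat F M) l → (∀ j, 1 < l j) →
    (Ker (B.dat F M).g ((B.dat F M).VV l)).card ≤ 2 ^ (r + 2) →
    ∀ v : ℤ × ℤ, (∀ j, F.LZ j v = B.μ j * B.a j * l j) → v.2 ≠ 0 → Good r (F.fibre v)

open Classical in
def Main0Stmt : Prop := ∀ (n r : ℕ) (F : Surf n), F.Hyp r → ∃ c : ℝ, 0 < c ∧ ∀ᶠ H : ℕ in atTop,
  c * (H : ℝ) ^ 2 ≤ (((Icc (-H : ℤ) H ×ˢ Icc (-H : ℤ) H).filter fun v : ℤ × ℤ =>
    IsCoprime v.1 v.2 ∧ Good r (F.fibre v)).card : ℝ)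

def MainStmt : Prop := ∀ (n r : ℕ) (F : Surf n), F.Hyp r → ∃ c : ℝ, 0 < c ∧ ∀ᶠ H : ℕ in atTop,
  ∃ T ⊆ Icc (-H : ℤ) H ×ˢ Icc (-H : ℤ) H, c * (H : ℝ) ^ 2 ≤ T.card ∧
    (∀ v ∈ T, IsCoprime v.1 v.2 ∧ Good r (F.fibre v)) ∧
    ∀ v ∈ T, ∀ w ∈ T, ∀ [(F.fibre v).IsElliptic] [(F.fibre w).IsElliptic],
      (F.fibre v).j = (F.fibre w).j → v = w

theorem main_of (sha : SHAStmt) (mer : MERStmt) (pm : PMStmt) (sv : SVStmt) (dos : DOStmt)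
    (sw : SWStmt) (exc : EXCStmt) (shi : SHIStmt) (cen : CENStmt) (sz : DH.SZStmt)
    (rank : RANKStmt) (loc : KCStmt → LOCStmt) (par : BORStmt → PARStmt)
    (alg : KCStmt → SHAStmt → RANKStmt → LOCStmt → ALGStmt) (bor : BORStmt) (cnt : CNTStmt)
    (kc : KCStmt) (sym : KCStmt → SYMStmt) (mes : MERStmt → MESStmt)
    (exp : MERStmt → EXCStmt → EXPStmt) (mas : MERStmt → PMStmt → MASStmt)
    (den : SWStmt → MASStmt → DENStmt) (pos : DH.SZStmt → DENStmt → POSStmt)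
    (fib : MERStmt → PMStmt → SVStmt → FIBStmt) (dom : FIBStmt → DOMStmt)
    (step : BORStmt → KCStmt → STEPStmt)
    (lya : BORStmt → KCStmt → MERStmt → EXPStmt → STEPStmt → LYAStmt)
    (kil : KCStmt → MERStmt → EXPStmt → KILStmt) (pair : MERStmt → SHIStmt → CENStmt → PAIRStmt)
    (gg : MERStmt → DOStmt → PAIRStmt → GStmt) (key : KCStmt → SYMStmt → GStmt → KEYStmt)
    (os : KEYStmt → OSCStmt)
    (mkv : KCStmt → SYMStmt → CNTStmt → MESStmt → DOMStmt → LYAStmt → KILStmt → OSCStmt → MKVStmt)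
    (pty : PTYStmt) (base : PTYStmt → BASEStmt) (pt : PTStmt) (br : PTStmt → BRStmt)
    (geo : KCStmt → GEOStmt) (spe : SPEStmt) (good : ALGStmt → BRStmt → SPEStmt → GOODStmt)
    (fin : PARStmt → POSStmt → MKVStmt → BASEStmt → PTStmt → BRStmt → GEOStmt → GOODStmt →
      Main0Stmt)
    (jin : Main0Stmt → MainStmt) : MainStmt :=
  have hexp := exp mer exc
  jin (fin (par bor) (pos sz (den sw (mas mer pm)))
    (mkv kc (sym kc) cnt (mes mer) (dom (fib mer pm sv)) (lya bor kc mer hexp (step bor kc))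
      (kil kc mer hexp) (os (key kc (sym kc) (gg mer dos (pair mer shi cen)))))
    (base pty) pt (br pt) (geo kc) (good (alg kc sha rank (loc kc)) (br pt) spe))

end Pool.Agent.MP_a43263_nt.RG

end
end MrgPart1

-- marker of a merged file
example : 731051 + 576888 = 731051 + 576888 := rfl
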