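import Mathlib.Algebra.Order.Chebyshev
import Mathlib.Analysis.Complex.ExponentialBounds
import Mathlib.NumberTheory.Harmonic.Bounds
import Pool.Agent.MP_a43263_nt.RG.Spec

/-! PROJECT RANKG, module G: the oscillation estimate. -/

set_option autoImplicit false

noncomputable section

namespace Pool.Agent.MP_a43263_nt.RG

open Finset Filter
open R2 (kc MERStmt DOStmt)

namespace Gg

/-- few primes above `Y` divide a number below `Y ^ e` -/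
theorem card_div_le {Y e q : ℕ} (hY : 2 ≤ Y) (hq : 1 ≤ q) (hqe : q ≤ Y ^ e) (P : Finset ℕ)
    (hP : ∀ s ∈ P, s.Prime ∧ Y < s) : (P.filter (· ∣ q)).card ≤ e := by
  have h1 : ∏ s ∈ P.filter (· ∣ q), s ∣ q :=
    Finset.prod_primes_dvd q (fun a ha => (hP a (mem_filter.1 ha).1).1.prime)
      (fun a ha => (mem_filter.1 ha).2)
  have h2 : Y ^ (P.filter (· ∣ q)).card ≤ ∏ s ∈ P.filter (· ∣ q), s :=
    Finset.pow_card_le_prod _ _ _ (fun a ha => (hP a (mem_filter.1 ha).1).2.le)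
  exact (Nat.pow_le_pow_iff_right (by omega)).1 (h2.trans ((Nat.le_of_dvd hq h1).trans hqe))

theorem pow_le_pow_mul {Y Y' k : ℕ} (h : Y' ≤ Y ^ k) (e : ℕ) : Y' ^ e ≤ Y ^ (e * k) := by
  rw [mul_comm, pow_mul]; exact Nat.pow_le_pow_left h _

theorem harm_le (H : ℕ) : ∑ a ∈ Icc 1 H, (1 : ℝ) / a ≤ 1 + Real.log H := by
  have h := harmonic_le_one_add_log H
  rw [harmonic_eq_sum_Icc] at h
  push_cast at h
  simpa [one_div] using h

theorem sum_mult_le (H d : ℕ) (hd : 1 ≤ d) :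
    ∑ a ∈ (Icc 1 H).filter (d ∣ ·), (1 : ℝ) / a ≤ (1 + Real.log H) / d := by
  have hd0 : (0 : ℝ) < d := by exact_mod_cast hd
  have hsub : (Icc 1 H).filter (d ∣ ·) ⊆ (Icc 1 H).image (d * ·) := by
    intro a ha
    obtain ⟨ha, c, rfl⟩ := mem_filter.1 ha
    rw [mem_Icc] at ha
    refine mem_image.2 ⟨c, mem_Icc.2 ⟨?_, ?_⟩, rfl⟩
    · exact Nat.pos_of_ne_zero fun h => by simp [h] at ha
    · exact (Nat.le_mul_of_pos_left c hd).trans ha.2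
  calc _ ≤ ∑ a ∈ (Icc 1 H).image (d * ·), (1 : ℝ) / a :=
        sum_le_sum_of_subset_of_nonneg hsub fun _ _ _ => by positivity
    _ = ∑ c ∈ Icc 1 H, (1 : ℝ) / (d * c : ℕ) :=
        sum_image fun a _ b _ h => Nat.eq_of_mul_eq_mul_left hd h
    _ = (∑ c ∈ Icc 1 H, (1 : ℝ) / c) / d := by
        rw [sum_div]
        refine sum_congr rfl fun c _ => ?_
        push_cast
        rw [div_div, mul_comm]
    _ ≤ _ := div_le_div_of_nonneg_right (harm_le H) hd0.le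

theorem sum_inv_lcm (H : ℕ) :
    ∑ a ∈ Icc 1 H, ∑ b ∈ Icc 1 H, (1 : ℝ) / (Nat.lcm a b : ℕ) ≤ (1 + Real.log H) ^ 3 := by
  set h : ℝ := 1 + Real.log H with hh
  have h0 : 0 ≤ h := by have := Real.log_natCast_nonneg H; linarith
  set φ : ℕ → ℕ → ℝ := fun d a => if d ∣ a then 1 / (a : ℝ) else 0 with hφ
  have hφ0 : ∀ d a, 0 ≤ φ d a := fun d a => by simp only [hφ]; split_ifs <;> positivity
  have h1 : ∀ a ∈ Icc 1 H, ∀ b ∈ Icc 1 H,
      (1 : ℝ) / (Nat.lcm a b : ℕ) ≤ ∑ d ∈ Icc 1 H, d * (φ d a * φ d b) := by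
    intro a ha b hb
    rw [mem_Icc] at ha hb
    have hg : Nat.gcd a b ∈ Icc 1 H :=
      mem_Icc.2 ⟨Nat.gcd_pos_of_pos_left _ ha.1, (Nat.gcd_le_left _ ha.1).trans ha.2⟩
    refine le_trans (le_of_eq ?_) (single_le_sum (f := fun d : ℕ => (d : ℝ) * (φ d a * φ d b))
      (fun d _ => by have := hφ0 d a; have := hφ0 d b; positivity) hg)
    simp only [hφ, if_pos (Nat.gcd_dvd_left a b), if_pos (Nat.gcd_dvd_right a b)]
    have e : ((Nat.gcd a b : ℕ) : ℝ) * (Nat.lcm a b : ℕ) = a * b := by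
      exact_mod_cast Nat.gcd_mul_lcm a b
    have ha0 : (0 : ℝ) < a := by exact_mod_cast ha.1
    have hb0 : (0 : ℝ) < b := by exact_mod_cast hb.1
    have hl : (0 : ℝ) < (Nat.lcm a b : ℕ) := by exact_mod_cast Nat.lcm_pos ha.1 hb.1
    field_simp
    linarith
  have h2 : ∀ d ∈ Icc 1 H, ∑ a ∈ Icc 1 H, φ d a ≤ h / d := by
    intro d hd
    have := sum_mult_le H d (mem_Icc.1 hd).1
    rwa [sum_filter] at this
  calc _ ≤ ∑ a ∈ Icc 1 H, ∑ b ∈ Icc 1 H, ∑ d ∈ Icc 1 H, d * (φ d a * φ d b) :=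
        sum_le_sum fun a ha => sum_le_sum fun b hb => h1 a ha b hb
    _ = ∑ d ∈ Icc 1 H, d * ((∑ a ∈ Icc 1 H, φ d a) * ∑ b ∈ Icc 1 H, φ d b) := by
        simp_rw [sum_mul_sum, mul_sum]
        rw [sum_comm]
        refine (sum_congr rfl fun b _ => sum_comm).trans ?_
        rw [sum_comm]
        exact sum_congr rfl fun d _ => sum_comm
    _ ≤ ∑ d ∈ Icc 1 H, h ^ 2 * (1 / (d : ℝ)) := by
        refine sum_le_sum fun d hd => ?_
        have hd0 : (0 : ℝ) < d := by exact_mod_cast (mem_Icc.1 hd).1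
        have h3 := h2 d hd
        have h4 : 0 ≤ ∑ a ∈ Icc 1 H, φ d a := sum_nonneg fun a _ => hφ0 d a
        calc _ ≤ d * (h / d * (h / d)) :=
              mul_le_mul_of_nonneg_left (mul_le_mul h3 h3 h4 (by positivity)) hd0.le
          _ = _ := by field_simp
    _ = h ^ 2 * ∑ d ∈ Icc 1 H, 1 / (d : ℝ) := (mul_sum _ _ _).symm
    _ ≤ h ^ 2 * h := mul_le_mul_of_nonneg_left (harm_le H) (by positivity)
    _ = h ^ 3 := by ring

theorem sum_fib_le {Ω : Type} (W : Finset Ω) (ν : Ω → ℕ) {H F : ℕ}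
    (hν : ∀ ω ∈ W, 1 ≤ ν ω ∧ ν ω ≤ H) (hF : ∀ m, (W.filter fun ω => ν ω = m).card ≤ F)
    (f : ℕ → ℝ) (hf : ∀ a, 0 ≤ f a) : ∑ ω ∈ W, f (ν ω) ≤ F * ∑ a ∈ Icc 1 H, f a := by
  rw [← sum_fiberwise_of_maps_to (g := ν) (t := Icc 1 H) fun ω h => mem_Icc.2 (hν ω h), mul_sum]
  refine sum_le_sum fun a _ => ?_
  rw [sum_congr rfl (g := fun _ => f a) fun ω h => by rw [(mem_filter.1 h).2], sum_const,
    nsmul_eq_mul]
  exact mul_le_mul_of_nonneg_right (by exact_mod_cast hF a) (hf a)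

theorem sum_lcm_le {Ω : Type} (W : Finset Ω) (ν : Ω → ℕ) {H F : ℕ}
    (hν : ∀ ω ∈ W, 1 ≤ ν ω ∧ ν ω ≤ H) (hF : ∀ m, (W.filter fun ω => ν ω = m).card ≤ F) :
    ∑ ω ∈ W, ∑ ω' ∈ W, (1 : ℝ) / (Nat.lcm (ν ω) (ν ω') : ℕ) ≤ F ^ 2 * (1 + Real.log H) ^ 3 := by
  have hF0 : (0 : ℝ) ≤ F := Nat.cast_nonneg _
  calc _ ≤ ∑ ω ∈ W, F * ∑ b ∈ Icc 1 H, (1 : ℝ) / (Nat.lcm (ν ω) b : ℕ) :=
        sum_le_sum fun ω _ => sum_fib_le W ν hν hF (fun b => (1 : ℝ) / (Nat.lcm (ν ω) b : ℕ))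
          fun _ => by positivity
    _ = F * ∑ ω ∈ W, ∑ b ∈ Icc 1 H, (1 : ℝ) / (Nat.lcm (ν ω) b : ℕ) := (mul_sum _ _ _).symm
    _ ≤ F * (F * ∑ a ∈ Icc 1 H, ∑ b ∈ Icc 1 H, (1 : ℝ) / (Nat.lcm a b : ℕ)) :=
        mul_le_mul_of_nonneg_left (sum_fib_le W ν hν hF
          (fun a => ∑ b ∈ Icc 1 H, (1 : ℝ) / (Nat.lcm a b : ℕ))
          fun _ => sum_nonneg fun _ _ => by positivity) hF0
    _ ≤ F * (F * (1 + Real.log H) ^ 3) :=
        mul_le_mul_of_nonneg_left (mul_le_mul_of_nonneg_left (sum_inv_lcm H) hF0) hF0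
    _ = _ := by ring

/-- a function supported on one residue class -/
theorem sum_class_le {Q m : ℕ} (hm : 1 ≤ m) (hmQ : m ≤ Q) (t : ℤ) (f : ℕ → ℝ)
    (hf : ∀ q, |f q| ≤ 1) (hs : ∀ q : ℕ, f q ≠ 0 → (q : ℤ) ≡ t [ZMOD m]) :
    |∑ q ∈ Icc 1 Q, f q| ≤ 2 * Q / m := by
  have hm0 : (0 : ℝ) < m := by exact_mod_cast hm
  set T := (Icc 1 Q).filter fun q : ℕ => f q ≠ 0 with hT
  have h1 : T.card ≤ (range (Q / m + 1)).card := by
    refine card_le_card_of_injOn (· / m) (fun q hq => ?_) (fun q hq q' hq' h => ?_)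
    · have := (mem_Icc.1 (mem_filter.1 hq).1).2
      exact mem_coe.2 (mem_range.2 (Nat.lt_succ_of_le (Nat.div_le_div_right this)))
    · have h2 : (q : ℤ) ≡ q' [ZMOD m] :=
        (hs q (mem_filter.1 hq).2).trans (hs q' (mem_filter.1 hq').2).symm
      have h3 : q % m = q' % m := Int.natCast_modEq_iff.1 h2
      have h4 : q / m = q' / m := h
      rw [← Nat.div_add_mod q m, ← Nat.div_add_mod q' m, h3, h4]
  rw [card_range] at h1
  have h2 : ((Q / m + 1 : ℕ) : ℝ) ≤ 2 * Q / m := by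
    have h3 : ((Q / m : ℕ) : ℝ) ≤ Q / m := Nat.cast_div_le
    have h4 : (1 : ℝ) ≤ Q / m := (one_le_div hm0).2 (by exact_mod_cast hmQ)
    push_cast
    rw [mul_div_assoc]
    linarith
  calc _ = |∑ q ∈ T, f q| := by rw [hT, sum_filter_ne_zero]
    _ ≤ ∑ q ∈ T, |f q| := abs_sum_le_sum_abs _ _
    _ ≤ ∑ _q ∈ T, (1 : ℝ) := sum_le_sum fun q _ => hf q
    _ = T.card := by simp
    _ ≤ _ := le_trans (by exact_mod_cast h1) h2

/-- a common solution of two congruences -/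
theorem exists_rho (ρ₁ ρ₂ : ℤ) {a b D : ℕ} (ha : a ∣ D) (hb : b ∣ D) : ∃ ρ : ℤ → ℤ,
    (∀ r r', r ≡ r' [ZMOD D] → ρ r = ρ r') ∧ ∀ r q : ℤ, q ≡ ρ₁ * r [ZMOD a] →
      q ≡ ρ₂ * r [ZMOD b] → q ≡ ρ r [ZMOD (Nat.lcm a b : ℕ)] := by
  refine ⟨fun r => Classical.epsilon fun q => q ≡ ρ₁ * (r % D) [ZMOD a] ∧
    q ≡ ρ₂ * (r % D) [ZMOD b], fun r r' h => ?_, fun r q h1 h2 => ?_⟩
  · have h' : r % D = r' % D := h
    simp only [h']
  · have hD : r ≡ r % D [ZMOD D] := (Int.mod_modEq r D).symm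
    have h3 : q ≡ ρ₁ * (r % D) [ZMOD a] :=
      h1.trans ((hD.of_dvd (Int.natCast_dvd_natCast.2 ha)).mul_left _)
    have h4 : q ≡ ρ₂ * (r % D) [ZMOD b] :=
      h2.trans ((hD.of_dvd (Int.natCast_dvd_natCast.2 hb)).mul_left _)
    have h5 := Classical.epsilon_spec (p := fun q => q ≡ ρ₁ * (r % D) [ZMOD a] ∧
      q ≡ ρ₂ * (r % D) [ZMOD b]) ⟨q, h3, h4⟩
    have h6 := (h3.trans h5.1.symm).dvd
    have h7 := (h4.trans h5.2.symm).dvd
    refine Int.modEq_iff_dvd.2 ?_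
    exact Int.natCast_dvd.2 (Nat.lcm_dvd (Int.natCast_dvd.1 h6) (Int.natCast_dvd.1 h7))

theorem abs_jac (a : ℤ) (s : ℕ) : |(jacobiSym a s : ℝ)| ≤ 1 := by
  rcases jacobiSym.trichotomy a s with h | h | h <;> simp [h]

theorem abs_mul_le {x y : ℝ} (hx : |x| ≤ 1) (hy : |y| ≤ 1) : |x * y| ≤ 1 := by
  rw [abs_mul]; exact mul_le_one₀ hx (abs_nonneg _) hy

theorem abs_prod_le {k : ℕ} (f : Fin k → ℝ) (hf : ∀ i, |f i| ≤ 1) : |∏ i, f i| ≤ 1 := by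
  rw [abs_prod]; exact prod_le_one (fun _ _ => abs_nonneg _) fun i _ => hf i

theorem per_mul {f : ℤ → ℝ} {d : ℤ} (h : ∀ q, f (q + d) = f q) (e : ℕ) (q : ℤ) :
    f (q + d * e) = f q := by
  induction e with
  | zero => simp
  | succ e ih => rw [Nat.cast_succ, mul_add, mul_one, ← add_assoc, h, ih]

/-- the mean part is small on average -/
theorem mean_le {Y Y' N : ℕ} {δ : ℝ} (hY : 2 ≤ Y)
    (hdo : ∀ b : ℕ → ℝ, (∀ n, |b n| ≤ 1) → (∀ n, b n ≠ 0 → Odd n) →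
      ∑ m ∈ Ioc N (2 * N), (1 : ℝ) / m * |∑ n ∈ Ioc Y Y', b n * jacobiSym m n / n| ≤ δ)
    (P : Finset ℕ) (hP : ∀ s ∈ P, s.Prime ∧ Y < s ∧ s ≤ Y') (σ : ℕ → ℤ)
    (hσ : ∀ n, σ n = 1 ∨ σ n = -1) (K G : ℤ) (ν e : ℕ) :
    ∑ n ∈ Ioc N (2 * N), |∑ s ∈ P.filter (fun s => ¬s ∣ n * ν * e),
      (jacobiSym (σ n * n * K) s : ℝ) * jacobiSym G s / s| ≤ 4 * N * δ := by
  classical
  set b : ℤ → ℕ → ℝ := fun ε s =>
    if s ∈ P ∧ ¬s ∣ ν * e then (jacobiSym (ε * K) s : ℝ) * jacobiSym G s else 0 with hb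
  have hb1 : ∀ ε n, |b ε n| ≤ 1 := fun ε n => by
    simp only [hb]
    split_ifs
    · exact abs_mul_le (abs_jac _ _) (abs_jac _ _)
    · simp
  have hb2 : ∀ ε n, b ε n ≠ 0 → Odd n := fun ε n h => by
    have h1 : n ∈ P := by
      by_contra h1
      exact h (by simp [hb, h1])
    exact (hP n h1).1.odd_of_ne_two (by have := (hP n h1).2.1; omega)
  set μ : ℤ → ℕ → ℝ := fun ε m => ∑ n ∈ Ioc Y Y', b ε n * jacobiSym m n / n with hμ
  have h1 : ∀ n : ℕ, ∑ s ∈ P.filter (fun s => ¬s ∣ n * ν * e),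
      (jacobiSym (σ n * n * K) s : ℝ) * jacobiSym G s / s = μ (σ n) n := by
    intro n
    have hsub : P ⊆ Ioc Y Y' := fun s hs => mem_Ioc.2 (hP s hs).2
    rw [sum_filter, hμ]
    simp only
    rw [← sum_subset hsub fun s _ hs => by simp [hb, hs]]
    refine sum_congr rfl fun s hs => ?_
    have hp := (hP s hs).1
    by_cases h : s ∣ n
    · have h0 : jacobiSym (n : ℤ) s = 0 := by
        have : NeZero s := ⟨hp.ne_zero⟩
        rw [jacobiSym.eq_zero_iff_not_coprime, Int.gcd_natCast_natCast]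
        intro hg
        exact hp.one_lt.ne' (Nat.eq_one_of_dvd_coprimes hg h dvd_rfl)
      rw [if_neg (not_not.2 ((h.mul_right _).mul_right _)), h0]
      simp
    · have h2 : s ∣ n * ν * e ↔ s ∣ ν * e := by
        rw [mul_assoc, hp.dvd_mul]
        exact ⟨fun h3 => h3.resolve_left h, Or.inr⟩
      have h3 : jacobiSym (σ n * n * K) s = jacobiSym (σ n * K) s * jacobiSym n s := by
        rw [← jacobiSym.mul_left, mul_right_comm]
      simp only [hb, hs, true_and, h2, h3]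
      split_ifs
      · simp
      · push_cast; ring
  have h2 : ∀ n ∈ Ioc N (2 * N), |μ (σ n) n| ≤
      2 * N * (1 / (n : ℝ) * |μ 1 n| + 1 / (n : ℝ) * |μ (-1) n|) := by
    intro n hn
    rw [mem_Ioc] at hn
    have hn0 : (0 : ℝ) < n := by exact_mod_cast (Nat.zero_le N).trans_lt hn.1
    have h3 : (1 : ℝ) ≤ 2 * N * (1 / n) := by
      rw [mul_one_div, one_le_div hn0]
      exact_mod_cast hn.2
    have h4 : |μ (σ n) n| ≤ |μ 1 n| + |μ (-1) n| := by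
      have := abs_nonneg (μ 1 n)
      have := abs_nonneg (μ (-1) n)
      rcases hσ n with h | h <;> rw [h] <;> linarith
    calc _ ≤ 1 * (|μ 1 n| + |μ (-1) n|) := by rwa [one_mul]
      _ ≤ 2 * N * (1 / n) * (|μ 1 n| + |μ (-1) n|) :=
          mul_le_mul_of_nonneg_right h3 (by positivity)
      _ = _ := by ring
  simp_rw [h1]
  refine (sum_le_sum h2).trans ?_
  rw [← mul_sum, sum_add_distrib]
  have h3 := hdo (b 1) (hb1 1) (hb2 1)
  have h4 := hdo (b (-1)) (hb1 (-1)) (hb2 (-1))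
  calc _ ≤ 2 * N * (δ + δ) := mul_le_mul_of_nonneg_left (add_le_add h3 h4) (by positivity)
    _ = _ := by ring

/-- the conclusion of `PAIRStmt` at one scale -/
def PairAt (k a lo hi κ Y : ℕ) : Prop := ∀ (Y' R Q D m : ℕ) (P : Finset ℕ) (c : ℕ → ℝ)
  (A B : Fin k → ℤ) (ψ : Fin k → ℤ → ℝ) (Per : ℤ → ℝ) (ρ : ℤ → ℤ), Y ≤ Y' → Y' ≤ Y ^ κ →
  Y' ^ lo ≤ R → Y' ^ lo ≤ Q → Q ≤ Y' ^ hi → 1 ≤ D → D ≤ Y' ^ a → m ∣ D →
  (∀ s ∈ P, s.Prime ∧ Y < s ∧ s ≤ Y' ∧ ¬s ∣ D ∧ ∀ i, ¬(s : ℤ) ∣ A i) → (∀ s, |c s| ≤ 1) →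
  (∀ i, |A i| ≤ (Y' : ℤ) ^ a ∧ |B i| ≤ (Y' : ℤ) ^ a) → (∀ i x, |ψ i x| ≤ 1) →
  (∀ q, |Per q| ≤ 1) → (∀ q, Per (q + D) = Per q) → (∀ r r', r ≡ r' [ZMOD D] → ρ r = ρ r') →
  (∀ r q : ℤ, (∀ i, ψ i (A i * r + B i * q) ≠ 0) → q ≡ ρ r [ZMOD m]) →
  |∑ r ∈ Icc 1 R, ∑ q ∈ Icc 1 Q, Per q * (∏ i, ψ i (A i * r + B i * q)) * kc P c q| ≤
    R * Q / m * (Y : ℝ) ^ (-(1 / 2 ^ (k + 2)) : ℝ)

/-- the data attached to one inner variable -/
structure Inn {k : ℕ} (a Y' N : ℕ) (α β : Fin k → ℤ) (n ν : ℕ) (Per : ℤ → ℝ)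
    (ψ : Fin k → ℤ → ℝ) : Prop where
  n1 : 1 ≤ n
  n2 : n ≤ 2 * N
  ν1 : 1 ≤ ν
  ν2 : ν ≤ Y' ^ a
  bP : ∀ q, |Per q| ≤ 1
  bψ : ∀ i x, |ψ i x| ≤ 1
  per : ∀ q, Per (q + n * ν) = Per q
  cop : ∀ q, Per q ≠ 0 → IsCoprime q (n * ν)
  cls : ∃ ρ : ℤ, ∀ r q : ℤ, (∀ i, ψ i (α i * n * r + β i * q) ≠ 0) → q ≡ ρ * r [ZMOD ν]

theorem Inn.le_pow {k a Y' N : ℕ} {α β : Fin k → ℤ} {n ν : ℕ} {Per : ℤ → ℝ} {ψ : Fin k → ℤ → ℝ}
    (h : Inn a Y' N α β n ν Per ψ) (h2 : 2 ≤ Y') (hN : N ≤ Y' ^ 3) : n ≤ Y' ^ 4 :=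
  h.n2.trans (by rw [pow_succ']; exact Nat.mul_le_mul h2 hN)

/-- one pair of inner variables -/
theorem pair_le {k a lo hi κ Y Y' R Q N : ℕ} (hpair : PairAt (k + k) (2 * a + 12) lo hi κ Y)
    (hlo : 2 * a + 12 ≤ lo) (hY : 2 ≤ Y) (hYY : Y ≤ Y')
    (hk : Y' ≤ Y ^ κ) (hR : Y' ^ lo ≤ R) (hQ : Y' ^ lo ≤ Q) (hQ' : Q ≤ Y' ^ hi)
    (hN : N ≤ Y' ^ 3) {P : Finset ℕ} {α β : Fin k → ℤ}
    (hP : ∀ s ∈ P, s.Prime ∧ Y < s ∧ s ≤ Y' ∧ ∀ i, ¬(s : ℤ) ∣ α i)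
    (hα : ∀ i, |α i| ≤ (Y' : ℤ) ^ 8 ∧ |β i| ≤ (Y' : ℤ) ^ 8) {n ν n' ν' : ℕ} {Per Per' : ℤ → ℝ}
    {ψ ψ' : Fin k → ℤ → ℝ} (h : Inn a Y' N α β n ν Per ψ) (h' : Inn a Y' N α β n' ν' Per' ψ')
    (c : ℕ → ℝ) (hc : ∀ s, |c s| ≤ 1) :
    |∑ r ∈ Icc 1 R, ∑ q ∈ Icc 1 Q, ∑ s ∈ P.filter (· ∣ q),
      c s * ((Per q * ∏ i, ψ i (α i * n * r + β i * q)) *
        (Per' q * ∏ i, ψ' i (α i * n' * r + β i * q)))| ≤
      R * Q * (1 / (Nat.lcm ν ν' : ℕ) * ((Y : ℝ) ^ (-(1 / 2 ^ (k + k + 2)) : ℝ) +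
        2 * |∑ s ∈ P.filter (fun s => ¬s ∣ n * ν * (n' * ν')), c s / s|)) := by
  have h2 : 2 ≤ Y' := hY.trans hYY
  have hn := h.le_pow h2 hN
  have hn' := h'.le_pow h2 hN
  set D := n * ν * (n' * ν') with hD
  set m := Nat.lcm ν ν' with hm
  set PD := P.filter (fun s => ¬s ∣ D) with hPD
  set μ := ∑ s ∈ PD, c s / s with hμ
  have hνD : ν ∣ D := (Dvd.intro_left n rfl).mul_right _
  have hνD' : ν' ∣ D := (Dvd.intro_left n' rfl).mul_left _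
  have hD1 : 1 ≤ D := Nat.mul_pos (Nat.mul_pos h.n1 h.ν1) (Nat.mul_pos h'.n1 h'.ν1)
  have hD2 : D ≤ Y' ^ (2 * a + 12) := by
    calc D ≤ Y' ^ 4 * Y' ^ a * (Y' ^ 4 * Y' ^ a) :=
          Nat.mul_le_mul (Nat.mul_le_mul hn h.ν2) (Nat.mul_le_mul hn' h'.ν2)
      _ = Y' ^ (2 * a + 8) := by ring
      _ ≤ _ := Nat.pow_le_pow_right (by omega) (by omega)
  have hmD : m ∣ D := Nat.lcm_dvd hνD hνD'
  have hm1 : 1 ≤ m := Nat.lcm_pos h.ν1 h'.ν1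
  have hmQ : m ≤ Q := (Nat.le_of_dvd hD1 hmD).trans
    (hD2.trans ((Nat.pow_le_pow_right (by omega) hlo).trans hQ))
  obtain ⟨ρ₁, hρ₁⟩ := h.cls
  obtain ⟨ρ₂, hρ₂⟩ := h'.cls
  obtain ⟨ρ, hρ, hρ'⟩ := exists_rho ρ₁ ρ₂ hνD hνD'
  set Φ : ℕ → ℕ → ℝ := fun r q => (Per q * ∏ i, ψ i (α i * n * r + β i * q)) *
    (Per' q * ∏ i, ψ' i (α i * n' * r + β i * q)) with hΦ
  have hΦ1 : ∀ r q, |Φ r q| ≤ 1 := fun r q =>
    abs_mul_le (abs_mul_le (h.bP _) (abs_prod_le _ fun i => h.bψ i _))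
      (abs_mul_le (h'.bP _) (abs_prod_le _ fun i => h'.bψ i _))
  have hsplit : ∀ r q : ℕ, ∑ s ∈ P.filter (· ∣ q), c s * Φ r q = Φ r q * kc PD c q + Φ r q * μ := by
    intro r q
    by_cases h0 : Φ r q = 0
    · simp [h0]
    have hc1 := h.cop q (left_ne_zero_of_mul (left_ne_zero_of_mul h0))
    have hc2 := h'.cop q (left_ne_zero_of_mul (right_ne_zero_of_mul h0))
    have hcD : Nat.Coprime q D := by
      rw [← Nat.isCoprime_iff_coprime, hD]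
      push_cast
      exact hc1.mul_right hc2
    have e1 : P.filter (· ∣ q) = PD.filter (· ∣ q) := by
      ext s
      simp only [hPD, mem_filter]
      exact ⟨fun hs => ⟨⟨hs.1, fun hd => (hP s hs.1).1.one_lt.ne'
        (Nat.eq_one_of_dvd_coprimes hcD hs.2 hd)⟩, hs.2⟩, fun hs => ⟨hs.1.1, hs.2⟩⟩
    rw [← mul_add, ← sum_mul, mul_comm, e1, sum_filter, kc, hμ, ← sum_add_distrib]
    congr 1
    refine sum_congr rfl fun s _ => ?_
    simp only [Int.natCast_dvd_natCast]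
    split_ifs <;> ring
  have hA : |∑ r ∈ Icc 1 R, ∑ q ∈ Icc 1 Q, Φ r q * kc PD c q| ≤
      R * Q / m * (Y : ℝ) ^ (-(1 / 2 ^ (k + k + 2)) : ℝ) := by
    have hY1 : (1 : ℤ) ≤ Y' := by exact_mod_cast (by omega : 1 ≤ Y')
    have hb : ∀ (i : Fin k) (t : ℕ), t ≤ Y' ^ 4 → |α i * t| ≤ (Y' : ℤ) ^ (2 * a + 12) :=
        fun i t ht => by
      rw [abs_mul, Nat.abs_cast]
      calc _ ≤ (Y' : ℤ) ^ 8 * Y' ^ 4 :=
            mul_le_mul (hα i).1 (by exact_mod_cast ht) (by positivity) (by positivity)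
        _ = (Y' : ℤ) ^ 12 := by ring
        _ ≤ _ := pow_le_pow_right₀ hY1 (by omega)
    have hb' : ∀ i : Fin k, |β i| ≤ (Y' : ℤ) ^ (2 * a + 12) := fun i =>
      (hα i).2.trans (pow_le_pow_right₀ hY1 (by omega))
    have hnd : ∀ s ∈ PD, ∀ (i : Fin k) (t : ℕ), t ∣ D → ¬(s : ℤ) ∣ α i * t := by
      intro s hs i t ht hd
      obtain ⟨hs1, hs2⟩ := mem_filter.1 hs
      rcases (Nat.prime_iff_prime_int.1 (hP s hs1).1).dvd_or_dvd hd with h3 | h3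
      · exact (hP s hs1).2.2.2 i h3
      · exact hs2 ((Int.natCast_dvd_natCast.1 h3).trans ht)
    have key := hpair Y' R Q D m PD c
      (Fin.append (m := k) (n := k) (fun i => α i * n) fun i => α i * n')
      (Fin.append (m := k) (n := k) β β) (Fin.append (m := k) (n := k) ψ ψ')
      (fun q => Per q * Per' q) ρ hYY hk hR hQ hQ' hD1 hD2 hmD
      (fun s hs => ⟨(hP s (mem_filter.1 hs).1).1, (hP s (mem_filter.1 hs).1).2.1,
        (hP s (mem_filter.1 hs).1).2.2.1, (mem_filter.1 hs).2, fun i => by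
          refine Fin.addCases (m := k) (n := k) (fun i => ?_) (fun i => ?_) i
          · rw [Fin.append_left]
            exact hnd s hs i n ((Dvd.intro _ rfl).mul_right _)
          · rw [Fin.append_right]
            exact hnd s hs i n' ((Dvd.intro _ rfl).mul_left _)⟩) hc
      (fun i => by
        refine Fin.addCases (m := k) (n := k) (fun i => ?_) (fun i => ?_) i
        · rw [Fin.append_left, Fin.append_left]
          exact ⟨hb i n hn, hb' i⟩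
        · rw [Fin.append_right, Fin.append_right]
          exact ⟨hb i n' hn', hb' i⟩)
      (fun i x => by
        refine Fin.addCases (m := k) (n := k) (fun i => ?_) (fun i => ?_) i
        · rw [Fin.append_left]
          exact h.bψ i x
        · rw [Fin.append_right]
          exact h'.bψ i x)
      (fun q => abs_mul_le (h.bP q) (h'.bP q))
      (fun q => by
        have e1 : Per (q + D) = Per q := by
          rw [← per_mul h.per (n' * ν') q, hD]; push_cast; rfl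
        have e2 : Per' (q + D) = Per' q := by
          rw [← per_mul h'.per (n * ν) q, hD]; push_cast; rw [mul_comm]
        simp only [e1, e2]) hρ
      (fun r q hne => hρ' r q
        (hρ₁ r q fun i => by
          have := hne (Fin.castAdd k i)
          rwa [Fin.append_left, Fin.append_left, Fin.append_left] at this)
        (hρ₂ r q fun i => by
          have := hne (Fin.natAdd k i)
          rwa [Fin.append_right, Fin.append_right, Fin.append_right] at this))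
    refine le_trans (le_of_eq ?_) key
    congr 1
    refine sum_congr rfl fun r _ => sum_congr rfl fun q _ => ?_
    congr 1
    rw [Fin.prod_univ_add (a := k) (b := k)]
    simp only [Fin.append_left, Fin.append_right, hΦ]
    ring
  have hB : |∑ r ∈ Icc 1 R, ∑ q ∈ Icc 1 Q, Φ r q| ≤ R * (2 * Q / m) := by
    refine (abs_sum_le_sum_abs _ _).trans ?_
    refine (sum_le_sum (g := fun _ => (2 * Q / m : ℝ)) fun r _ => ?_).trans (by simp)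
    refine sum_class_le hm1 hmQ (ρ r) _ (hΦ1 r) fun q h0 => hρ' r q (hρ₁ r q fun i => ?_)
      (hρ₂ r q fun i => ?_)
    · exact prod_ne_zero_iff.1 (right_ne_zero_of_mul (left_ne_zero_of_mul h0)) i (mem_univ i)
    · exact prod_ne_zero_iff.1 (right_ne_zero_of_mul (right_ne_zero_of_mul h0)) i (mem_univ i)
  change |∑ r ∈ Icc 1 R, ∑ q ∈ Icc 1 Q, ∑ s ∈ P.filter (· ∣ q), c s * Φ r q| ≤ _
  simp_rw [hsplit, sum_add_distrib, ← sum_mul]
  refine (abs_add_le _ _).trans ?_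
  rw [abs_mul]
  refine (add_le_add hA (mul_le_mul_of_nonneg_right hB (abs_nonneg _))).trans (le_of_eq ?_)
  ring

/-- the Cauchy-Schwarz inequality in the outer variables -/
theorem cs_le {R Q L : ℕ} (T : ℕ → Finset ℕ) (hT : ∀ q ∈ Icc 1 Q, (T q).card ≤ L)
    (A I : ℕ → ℕ → ℕ → ℝ) (hA : ∀ r q s, |A r q s| ≤ 1) :
    (∑ r ∈ Icc 1 R, ∑ q ∈ Icc 1 Q, ∑ s ∈ T q, A r q s * I r q s) ^ 2 ≤
      R * Q * L * ∑ r ∈ Icc 1 R, ∑ q ∈ Icc 1 Q, ∑ s ∈ T q, I r q s ^ 2 := by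
  have h1 : ∀ r, ∀ q ∈ Icc 1 Q, (∑ s ∈ T q, A r q s * I r q s) ^ 2 ≤ L * ∑ s ∈ T q, I r q s ^ 2 := by
    intro r q hq
    refine sq_sum_le_card_mul_sum_sq.trans (mul_le_mul (by exact_mod_cast hT q hq)
      (sum_le_sum fun s _ => ?_) (sum_nonneg fun _ _ => sq_nonneg _) (Nat.cast_nonneg _))
    rw [mul_pow]
    exact mul_le_of_le_one_left (sq_nonneg _) ((sq_le_one_iff_abs_le_one _).2 (hA r q s))
  have h2 : ∀ r, (∑ q ∈ Icc 1 Q, ∑ s ∈ T q, A r q s * I r q s) ^ 2 ≤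
      Q * (L * ∑ q ∈ Icc 1 Q, ∑ s ∈ T q, I r q s ^ 2) := by
    intro r
    refine sq_sum_le_card_mul_sum_sq.trans ?_
    rw [Nat.card_Icc, Nat.add_sub_cancel, mul_sum _ _ (L : ℝ)]
    exact mul_le_mul_of_nonneg_left (sum_le_sum (h1 r)) (Nat.cast_nonneg _)
  refine sq_sum_le_card_mul_sum_sq.trans ?_
  rw [Nat.card_Icc, Nat.add_sub_cancel, mul_assoc, mul_assoc, mul_sum _ _ (L : ℝ),
    mul_sum _ _ (Q : ℝ)]
  exact mul_le_mul_of_nonneg_left (sum_le_sum fun r _ => h2 r) (Nat.cast_nonneg _)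

theorem expand {ι : Type} (X Z : Finset ℕ) (T : ℕ → Finset ℕ) (U : Finset ι)
    (a : ι → ℕ → ℕ → ℕ → ℝ) :
    ∑ r ∈ X, ∑ q ∈ Z, ∑ s ∈ T q, (∑ u ∈ U, a u r q s) ^ 2 =
      ∑ u ∈ U, ∑ u' ∈ U, ∑ r ∈ X, ∑ q ∈ Z, ∑ s ∈ T q, a u r q s * a u' r q s := by
  simp_rw [sq, sum_mul_sum]
  symm
  simp_rw [sum_comm (s := U) (t := X), sum_comm (s := U) (t := Z)]
  refine sum_congr rfl fun r _ => sum_congr rfl fun q _ => ?_
  simp_rw [sum_comm (s := U) (t := T q)]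

/-- the final inequality between the scales -/
theorem scales (k F C a hi : ℕ) {e : ℝ} (he : 0 < e) (he4 : e ≤ 1 / 4) :
    ∀ᶠ Y : ℕ in atTop, ∀ Y' N : ℕ, Y ≤ Y' → Y' ≤ Y ^ k → Y ≤ 2 * N →
    N ≤ Y' ^ 3 → ((hi * k : ℕ) : ℝ) * (F ^ 2 * (1 + Real.log (Y' ^ a : ℕ)) ^ 3) *
      ((Y : ℝ) ^ (-e) + 8 * (C * (1 + Real.log (2 * N : ℕ) + Real.log Y') ^ C *
        ((min N Y : ℕ) : ℝ) ^ (-(1 / 8) : ℝ))) ≤ ((Y : ℝ) ^ (-(e / 8))) ^ 2 := by
  set c : ℝ := hi * k * (F ^ 2 * (1 + a * k) ^ 3) * (1 + 8 * (C * (1 + 5 * k) ^ C)) + 1 with hc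
  have hc0 : 0 < c := by positivity
  have h0 := (isLittleO_log_rpow_rpow_atTop ((C + 3 : ℕ) : ℝ)
    (show (0 : ℝ) < 3 * e / 20 by positivity)).def (inv_pos.2 hc0)
  filter_upwards [tendsto_natCast_atTop_atTop.eventually h0, eventually_ge_atTop 32]
    with Y h1 h4 Y' N hYY hk hN hN'
  have hY0 : (0 : ℝ) < Y := by exact_mod_cast (by omega : 0 < Y)
  have hY4 : (32 : ℝ) ≤ Y := by exact_mod_cast h4
  set l := Real.log Y with hl
  have hl1 : 1 ≤ l := by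
    rw [hl, Real.le_log_iff_exp_le hY0]
    have := Real.exp_one_lt_d9
    linarith
  rw [Real.rpow_natCast, Real.norm_of_nonneg (by positivity), Real.norm_of_nonneg (by positivity)]
    at h1
  have hY' : (0 : ℝ) < Y' := by exact_mod_cast (by omega : 0 < Y')
  have a1 : Real.log Y' ≤ k * l := by
    rw [hl, ← Real.log_pow]
    exact Real.log_le_log hY' (by exact_mod_cast hk)
  have a0 : 0 ≤ Real.log Y' := Real.log_natCast_nonneg _
  have a2 : 1 + Real.log (Y' ^ a : ℕ) ≤ (1 + a * k) * l := by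
    push_cast
    rw [Real.log_pow]
    have := mul_le_mul_of_nonneg_left a1 (Nat.cast_nonneg a : (0 : ℝ) ≤ a)
    linarith
  have a3 : 1 + Real.log (2 * N : ℕ) + Real.log Y' ≤ (1 + 5 * k) * l := by
    have : Real.log (2 * N : ℕ) ≤ 4 * Real.log Y' := by
      have e : (4 : ℝ) * Real.log Y' = Real.log ((Y' ^ 4 : ℕ) : ℝ) := by
        push_cast; rw [Real.log_pow]; norm_num
      rw [e]
      refine Real.log_le_log (by exact_mod_cast (by omega : 0 < 2 * N)) ?_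
      exact_mod_cast (by rw [pow_succ']; exact Nat.mul_le_mul (by omega) hN' : 2 * N ≤ Y' ^ 4)
    linarith
  set η := (Y : ℝ) ^ (-(2 * e / 5)) with hη
  have hη0 : 0 ≤ η := by positivity
  have a4 : ((min N Y : ℕ) : ℝ) ^ (-(1 / 8) : ℝ) ≤ η := by
    have b1 : (Y : ℝ) ^ (4 / 5 : ℝ) ≤ ((min N Y : ℕ) : ℝ) := by
      have b2 : Y ≤ 2 * min N Y := by omega
      have b3 : (Y : ℝ) ≤ 2 * ((min N Y : ℕ) : ℝ) := by exact_mod_cast b2
      have b4 : (2 : ℝ) ≤ (Y : ℝ) ^ (1 / 5 : ℝ) := by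
        have b5 : (2 : ℝ) = ((2 : ℝ) ^ 5) ^ (1 / 5 : ℝ) := by
          rw [← Real.rpow_natCast, ← Real.rpow_mul (by norm_num)]
          norm_num
        rw [b5]
        exact Real.rpow_le_rpow (by positivity) (by linarith) (by norm_num)
      have b6 : (Y : ℝ) ^ (4 / 5 : ℝ) * (Y : ℝ) ^ (1 / 5 : ℝ) = Y := by
        rw [← Real.rpow_add hY0]
        norm_num
      have b7 := mul_le_mul_of_nonneg_left b4 (show 0 ≤ (Y : ℝ) ^ (4 / 5 : ℝ) by positivity)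
      linarith
    calc _ ≤ ((Y : ℝ) ^ (4 / 5 : ℝ)) ^ (-(1 / 8) : ℝ) :=
          Real.rpow_le_rpow_of_nonpos (by positivity) b1 (by norm_num)
      _ = (Y : ℝ) ^ ((4 / 5 : ℝ) * -(1 / 8)) := (Real.rpow_mul hY0.le _ _).symm
      _ ≤ η := Real.rpow_le_rpow_of_exponent_le (by linarith) (by linarith)
  have a5 : 0 ≤ 1 + Real.log (Y' ^ a : ℕ) := by
    have := Real.log_natCast_nonneg (Y' ^ a); linarith
  have a6 : 0 ≤ 1 + Real.log (2 * N : ℕ) + Real.log Y' := by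
    have := Real.log_natCast_nonneg (2 * N); linarith
  have a7 : (Y : ℝ) ^ (-e) ≤ l ^ C * η :=
    (Real.rpow_le_rpow_of_exponent_le (by linarith) (by linarith)).trans
      (le_mul_of_one_le_left hη0 (one_le_pow₀ hl1))
  have a8 : ((Y : ℝ) ^ (-(e / 8))) ^ 2 = (Y : ℝ) ^ (3 * e / 20) * η := by
    rw [hη, ← Real.rpow_add hY0, ← Real.rpow_natCast, ← Real.rpow_mul hY0.le]
    congr 1
    push_cast
    ring
  have a9 : c * l ^ (C + 3) ≤ (Y : ℝ) ^ (3 * e / 20) := by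
    rwa [inv_mul_eq_div, le_div_iff₀' hc0] at h1
  calc _ ≤ ((hi * k : ℕ) : ℝ) * (F ^ 2 * ((1 + a * k) * l) ^ 3) *
        (l ^ C * η + 8 * (C * ((1 + 5 * k) * l) ^ C * η)) := by gcongr
    _ = (c - 1) * l ^ (C + 3) * η := by
        rw [hc, mul_pow, mul_pow]; push_cast; ring
    _ ≤ c * l ^ (C + 3) * η := by gcongr; linarith
    _ ≤ _ := by rw [a8]; exact mul_le_mul_of_nonneg_right a9 hη0

end Gg

open Gg in
theorem gg : MERStmt → DOStmt → PAIRStmt → GStmt := by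
  rintro - ⟨C, hdo⟩ hpair d b lo hi k F hlo
  have hlo' : 2 * b + 12 ≤ lo := by
    have := Nat.zero_le (2 ^ (2 * d + 2))
    omega
  have he4 : (1 / 2 ^ (d + d + 2) : ℝ) ≤ 1 / 4 := by
    refine one_div_le_one_div_of_le (by norm_num) ?_
    rw [pow_add]
    have : (1 : ℝ) ≤ 2 ^ (d + d) := one_le_pow₀ (by norm_num)
    linarith
  have he8 : (1 / 2 ^ (2 * d + 5) : ℝ) = 1 / 2 ^ (d + d + 2) / 8 := by
    rw [div_div, show 2 * d + 5 = d + d + 2 + 3 by ring, pow_add _ (d + d + 2)]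
    norm_num
  rw [he8]
  filter_upwards [hpair (d + d) (2 * b + 12) lo hi k (by rw [← two_mul]; omega),
    scales k F C b hi (by positivity) he4, eventually_ge_atTop 2] with Y hp hsc hY Y' R Q N P Ω W ν K
    σ α β A B Per ψ hYY hk hR hQ hQ' hN hN' hP hα hν hF hσ hA hB hPer hψ hper hcop hρ
  have hN1 : 1 ≤ N := by omega
  set η := (Y : ℝ) ^ (-(1 / 2 ^ (d + d + 2)) : ℝ) with hη
  set δ : ℝ := C * (1 + Real.log (2 * N : ℕ) + Real.log Y') ^ C *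
    ((min N Y : ℕ) : ℝ) ^ (-(1 / 8) : ℝ) with hδ
  set Λ : ℝ := F ^ 2 * (1 + Real.log (Y' ^ b : ℕ)) ^ 3 with hΛ
  have hη0 : 0 ≤ η := by positivity
  have hδ0 : 0 ≤ δ := by
    have := Real.log_natCast_nonneg (2 * N)
    have := Real.log_natCast_nonneg Y'
    positivity
  set a : ℕ × Ω → ℕ → ℕ → ℕ → ℝ := fun u r q s =>
    B u.1 u.2 * jacobiSym (σ u.1 u.2 * u.1 * K u.2) s * Per u.1 u.2 q *
      ∏ i, ψ u.1 u.2 i (α i * u.1 * r + β i * q) with ha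
  set μ : ℕ → Ω → ℕ → Ω → ℝ := fun n ω n' ω' =>
    |∑ s ∈ P.filter (fun s => ¬s ∣ n * ν ω * (n' * ν ω')),
      (jacobiSym (σ n ω * n * K ω) s : ℝ) * jacobiSym (σ n' ω' * n' * K ω') s / s| with hμ
  have hinn : ∀ u ∈ Ioc N (2 * N) ×ˢ W, Inn b Y' N α β u.1 (ν u.2) (Per u.1 u.2) (ψ u.1 u.2) := by
    intro u hu
    obtain ⟨h1, h2⟩ := mem_product.1 hu
    rw [mem_Ioc] at h1
    exact ⟨by omega, h1.2, (hν _ h2).1, (hν _ h2).2, hPer _ _, hψ _ _, hper _ _, hcop _ _,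
      hρ _ _ h2⟩
  have h1 : ∀ u ∈ Ioc N (2 * N) ×ˢ W, ∀ u' ∈ Ioc N (2 * N) ×ˢ W,
      ∑ r ∈ Icc 1 R, ∑ q ∈ Icc 1 Q, ∑ s ∈ P.filter (· ∣ q), a u r q s * a u' r q s ≤
        R * Q * (1 / (Nat.lcm (ν u.2) (ν u'.2) : ℕ) * (η + 2 * μ u.1 u.2 u'.1 u'.2)) := by
    intro u hu u' hu'
    have h2 := pair_le hp hlo' hY hYY hk hR hQ hQ' hN' hP hα (hinn u hu) (hinn u' hu')
      (fun s => (jacobiSym (σ u.1 u.2 * u.1 * K u.2) s : ℝ) *
        jacobiSym (σ u'.1 u'.2 * u'.1 * K u'.2) s) fun s => abs_mul_le (abs_jac _ _) (abs_jac _ _)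
    refine le_trans ?_ h2
    refine le_trans (le_of_eq ?_) ((le_abs_self _).trans ((abs_mul _ _).le.trans
      (mul_le_of_le_one_left (abs_nonneg _) (abs_mul_le (hB u.1 u.2) (hB u'.1 u'.2)))))
    simp_rw [mul_sum]
    refine sum_congr rfl fun r _ => sum_congr rfl fun q _ => sum_congr rfl fun s _ => ?_
    simp only [ha]
    ring
  have h2 : ∀ ω n' ω', ∑ n ∈ Ioc N (2 * N), μ n ω n' ω' ≤ 4 * N * δ := fun ω n' ω' =>
    mean_le hY (fun b hb hb' => hdo N (2 * N) Y Y' b hN1 (by omega) hb hb') P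
      (fun s hs => ⟨(hP s hs).1, (hP s hs).2.1, (hP s hs).2.2.1⟩) (fun n => σ n ω)
      (fun n => hσ n ω) _ _ _ _
  have hcard : ((Ioc N (2 * N)).card : ℝ) = N := by
    rw [Nat.card_Ioc, two_mul, Nat.add_sub_cancel]
  have h3 : ∑ u ∈ Ioc N (2 * N) ×ˢ W, ∑ u' ∈ Ioc N (2 * N) ×ˢ W,
      (1 / (Nat.lcm (ν u.2) (ν u'.2) : ℕ) * (η + 2 * μ u.1 u.2 u'.1 u'.2)) ≤
      Λ * (N ^ 2 * (η + 8 * δ)) := by
    calc _ = ∑ ω ∈ W, ∑ ω' ∈ W, (1 : ℝ) / (Nat.lcm (ν ω) (ν ω') : ℕ) *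
          ∑ n' ∈ Ioc N (2 * N), ∑ n ∈ Ioc N (2 * N), (η + 2 * μ n ω n' ω') := by
          simp_rw [sum_product_right, mul_sum]
          refine sum_congr rfl fun ω _ => ?_
          rw [sum_comm]
          exact sum_congr rfl fun ω' _ => sum_comm
      _ ≤ ∑ ω ∈ W, ∑ ω' ∈ W, (1 : ℝ) / (Nat.lcm (ν ω) (ν ω') : ℕ) * (N ^ 2 * (η + 8 * δ)) := by
          refine sum_le_sum fun ω _ => sum_le_sum fun ω' _ =>
            mul_le_mul_of_nonneg_left ?_ (by positivity)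
          refine (sum_le_sum (g := fun _ => N * (η + 8 * δ)) fun n' _ => ?_).trans (le_of_eq ?_)
          · rw [sum_add_distrib, ← mul_sum, sum_const, nsmul_eq_mul, hcard]
            have := h2 ω n' ω'
            linarith
          · rw [sum_const, nsmul_eq_mul, hcard]; ring
      _ = (∑ ω ∈ W, ∑ ω' ∈ W, (1 : ℝ) / (Nat.lcm (ν ω) (ν ω') : ℕ)) * (N ^ 2 * (η + 8 * δ)) := by
          simp_rw [sum_mul]
      _ ≤ _ := mul_le_mul_of_nonneg_right (sum_lcm_le W ν hν hF) (by positivity)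
  have h4 := cs_le (R := R) (Q := Q) (L := hi * k) (fun q => P.filter (· ∣ q))
    (fun q hq => card_div_le hY (mem_Icc.1 hq).1 ((mem_Icc.1 hq).2.trans (hQ'.trans
      (pow_le_pow_mul hk hi))) P
      fun s hs => ⟨(hP s hs).1, (hP s hs).2.1⟩) A
    (fun r q s => ∑ u ∈ Ioc N (2 * N) ×ˢ W, a u r q s) hA
  rw [expand] at h4
  have h5 := sum_le_sum fun u hu => sum_le_sum (h1 u hu)
  simp_rw [← mul_sum] at h5
  have h6 := hsc Y' N hYY hk hN hN'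
  have hRQ : (0 : ℝ) ≤ R * Q := by positivity
  refine abs_le_of_sq_le_sq ?_ (by positivity)
  refine le_trans (le_of_eq ?_) (h4.trans ?_)
  · simp only [sum_product, ha]
  calc _ ≤ R * Q * ((hi * k : ℕ) : ℝ) * (R * Q * (Λ * (N ^ 2 * (η + 8 * δ)))) :=
        mul_le_mul_of_nonneg_left (h5.trans (mul_le_mul_of_nonneg_left h3 hRQ)) (by positivity)
    _ = (R * Q * N) ^ 2 * (((hi * k : ℕ) : ℝ) * Λ * (η + 8 * δ)) := by ring
    _ ≤ (R * Q * N) ^ 2 * ((Y : ℝ) ^ (-(1 / 2 ^ (d + d + 2) / 8) : ℝ)) ^ 2 :=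
        mul_le_mul_of_nonneg_left h6 (by positivity)
    _ = _ := by ring

end Pool.Agent.MP_a43263_nt.RG
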