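import Pool.Agent.MP_a43263_nt.R2.Basic
import Pool.Agent.MP_a43263_nt.RG.Spec

/-! PROJECT RANKG: elementary facts used by several modules. The lemmas of `R2.Basic` on signs,
`chi`, `Ker`, `pri`, `PP`, `mu` apply unchanged. -/

set_option autoImplicit false
set_option linter.unusedSectionVars false

noncomputable section

namespace Pool.Agent.MP_a43263_nt.RG

open Finset Filter
open R2 (Sgn chi Ker sg pri PP chs Sc Core Shape CC sg_sgn sg_eq mem_pri mem_PP)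

variable {n : ℕ}

theorem gp_sgn (dg : Gen n → ℤ) : Sgn (gp dg) := by
  refine ⟨fun a b => ?_, fun a b => ?_⟩
  · by_cases h : a = b
    · rw [h]
    · have h3 : ∀ j : Fin 3, j = 0 ∨ j = 1 ∨ j = 2 := by decide
      unfold gp
      rw [if_neg h, if_neg (Ne.symm h)]
      rcases h3 a.1.1 with ha | ha | ha <;> rcases h3 b.1.1 with hb | hb | hb <;>
        simp [ha, hb, and_comm]
  · unfold gp
    split_ifs <;> first | exact sg_sgn _ | simp

theorem Dat.sgn (D : Dat n) : Sgn D.g := gp_sgn _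

/-! ### membership -/

theorem card_Ix (n : ℕ) : Fintype.card (Ix n) = 3 * n := by simp

theorem tg_injective : Function.Injective (tg : Ix n → Tag n) := by
  rintro ⟨i, k⟩ ⟨j, l⟩ h
  simpa [tg] using h

theorem tg_ne_none (h : Ix n) : (tg h).2 ≠ none := Option.some_ne_none _

theorem tg_cls (h : Ix n) : (tg h).1 = h.1 := rfl

theorem exists_tg {k : Tag n} (hk : k.2 ≠ none) : ∃ h : Ix n, k = tg h := by
  obtain ⟨i, _ | j⟩ := k
  · exact absurd rfl hk
  · exact ⟨(i, j), rfl⟩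

theorem mem_TT {P : Finset ℕ} {a : Gen n} : a ∈ TT n P ↔ a.1.2 ≠ none ∧ a.2 ∈ P := by
  simp only [TT, mem_product, mem_image, mem_univ, true_and]
  exact and_congr_left fun _ =>
    ⟨fun ⟨h, e⟩ => e ▸ tg_ne_none h, fun h => (exists_tg h).imp fun _ e => e.symm⟩

theorem mem_gens {l : Ix n → ℕ} {a : Gen n} :
    a ∈ gens l ↔ ∃ h : Ix n, a.1 = tg h ∧ a.2 ∈ (l h).primeFactors := by
  obtain ⟨k, p⟩ := a
  simp only [gens, mem_biUnion, mem_univ, true_and, mem_image, Prod.mk.injEq]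
  constructor
  · rintro ⟨h, q, hq, rfl, rfl⟩
    exact ⟨h, rfl, hq⟩
  · rintro ⟨h, rfl, hq⟩
    exact ⟨h, p, hq, rfl, rfl⟩

theorem mk_mem_gens {l : Ix n → ℕ} {h : Ix n} {p : ℕ} :
    (tg h, p) ∈ gens l ↔ p ∈ (l h).primeFactors := by
  rw [mem_gens]
  refine ⟨fun ⟨k, e, hk⟩ => ?_, fun hp => ⟨h, rfl, hp⟩⟩
  rwa [tg_injective e]

theorem mem_VV {D : Dat n} {l : Ix n → ℕ} {a : Gen n} : a ∈ D.VV l ↔ a ∈ D.V0 ∨ a ∈ gens l :=
  mem_union

theorem Dat.Ok.mk_mem_VV {D : Dat n} (hD : D.Ok) {l : Ix n → ℕ} {h : Ix n} {p : ℕ} :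
    (tg h, p) ∈ D.VV l ↔ p ∈ (l h).primeFactors := by
  rw [mem_VV, mk_mem_gens]
  exact or_iff_right fun e => tg_ne_none h (hD.fix _ e).1

theorem Dat.Ok.disjoint {D : Dat n} (hD : D.Ok) (l : Ix n → ℕ) : Disjoint D.V0 (gens l) := by
  rw [disjoint_left]
  intro a ha hb
  obtain ⟨h, e, -⟩ := mem_gens.1 hb
  exact tg_ne_none h (e ▸ (hD.fix a ha).1)

theorem filter_tag_gens (l : Ix n → ℕ) (h : Ix n) :
    (gens l).filter (fun a => a.1 = tg h) = (l h).primeFactors.image fun p => (tg h, p) := by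
  ext ⟨k, p⟩
  simp only [mem_filter, mem_image, Prod.mk.injEq]
  constructor
  · rintro ⟨h1, rfl⟩
    exact ⟨p, mk_mem_gens.1 h1, rfl, rfl⟩
  · rintro ⟨q, hq, rfl, rfl⟩
    exact ⟨mk_mem_gens.2 hq, rfl⟩

/-- products over all generators, form by form -/
theorem prod_gens {R : Type} [CommMonoid R] (l : Ix n → ℕ) (F : Gen n → R) :
    ∏ a ∈ gens l, F a = ∏ h, ∏ p ∈ (l h).primeFactors, F (tg h, p) := by
  rw [gens, prod_biUnion]
  · exact prod_congr rfl fun h _ => prod_image fun _ _ _ _ e => (Prod.mk.inj e).2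
  · intro h _ k _ hk
    simp only [Function.onFun, disjoint_left, mem_image]
    rintro _ ⟨p, -, rfl⟩ ⟨q, -, e⟩
    exact hk (tg_injective (Prod.mk.inj e).1).symm

theorem card_gens (l : Ix n → ℕ) : (gens l).card = ∑ h, (l h).primeFactors.card := by
  have := prod_gens l fun _ => Multiplicative.ofAdd (1 : ℕ)
  simpa using congrArg Multiplicative.toAdd this

theorem mem_le {Y : ℕ} {V : Finset (Gen n)} {a : Gen n} : a ∈ le Y V ↔ a ∈ V ∧ a.2 ≤ Y :=
  mem_filter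

theorem mem_md {Y Y' : ℕ} {V : Finset (Gen n)} {a : Gen n} :
    a ∈ md Y Y' V ↔ a ∈ V ∧ Y < a.2 ∧ a.2 ≤ Y' := mem_filter

theorem mem_ones {V : Finset (Gen n)} {y : Finset (Ix n)} {a : Gen n} :
    a ∈ ones V y ↔ a ∈ V ∧ ∃ h ∈ y, tg h = a.1 := by
  simp only [ones, mem_filter, mem_image]

theorem mk_mem_ones {V : Finset (Gen n)} {y : Finset (Ix n)} {h : Ix n} {p : ℕ} :
    (tg h, p) ∈ ones V y ↔ (tg h, p) ∈ V ∧ h ∈ y := by
  rw [mem_ones]
  exact and_congr_right fun _ => ⟨fun ⟨_, hk, e⟩ => tg_injective e ▸ hk, fun hk => ⟨h, hk, rfl⟩⟩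

/-- products over whole forms -/
theorem Dat.Ok.prod_ones {D : Dat n} (hD : D.Ok) {R : Type} [CommMonoid R] (l : Ix n → ℕ)
    (y : Finset (Ix n)) (F : Gen n → R) :
    ∏ a ∈ ones (D.VV l) y, F a = ∏ h ∈ y, ∏ p ∈ (l h).primeFactors, F (tg h, p) := by
  have e : ones (D.VV l) y = y.biUnion fun h => (l h).primeFactors.image fun p => (tg h, p) := by
    ext ⟨k, p⟩
    simp only [mem_ones, mem_biUnion, mem_image, Prod.mk.injEq]
    constructor
    · rintro ⟨h1, h, hy, rfl⟩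
      exact ⟨h, hy, p, hD.mk_mem_VV.1 h1, rfl, rfl⟩
    · rintro ⟨h, hy, q, hq, rfl, rfl⟩
      exact ⟨hD.mk_mem_VV.2 hq, h, hy, rfl⟩
  rw [e, prod_biUnion]
  · exact prod_congr rfl fun h _ => prod_image fun _ _ _ _ e => (Prod.mk.inj e).2
  · intro h _ k _ hk
    simp only [Function.onFun, disjoint_left, mem_image]
    rintro _ ⟨p, -, rfl⟩ ⟨q, -, e⟩
    exact hk (tg_injective (Prod.mk.inj e).1).symm

theorem mem_Yc {y : Finset (Ix n)} : y ∈ Yc n ↔ ∀ j, Even (Yne j y) := by simp [Yc]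

theorem card_Yc_le (n : ℕ) : (Yc n).card ≤ 8 ^ n := by
  refine (card_le_univ _).trans_eq ?_
  rw [Fintype.card_finset, card_Ix, pow_mul]
  rfl

theorem Dist.mono {V W : Finset (Gen n)} (h : Dist V) (hW : W ⊆ V) : Dist W :=
  fun a ha b hb => h a (hW ha) b (hW hb)

theorem Nice.mono {V W : Finset (Gen n)} (h : Nice V) (hW : W ⊆ V) (h1 : RG.neg ∈ W) : Nice W :=
  ⟨h1, fun a ha => h.pr a (hW ha), h.dist.mono hW, fun a ha => h.odd a (hW ha)⟩

/-- a new odd prime can be added -/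
theorem Nice.insert {V : Finset (Gen n)} (h : Nice V) {b : Gen n} (hb : b.2.Prime) (h2 : b.2 ≠ 2)
    (hn : ∀ a ∈ V, a.2 ≠ b.2) : Nice (insert b V) := by
  refine ⟨mem_insert_of_mem h.neg, fun a ha => ?_, fun a ha a' ha' e => ?_, fun a ha => ?_⟩
  · rcases mem_insert.1 ha with rfl | ha
    · exact .inr hb
    · exact h.pr a ha
  · rcases mem_insert.1 ha with k | k <;> rcases mem_insert.1 ha' with k' | k'
    · rw [k, k']
    · exact absurd (k ▸ e.symm) (hn _ k')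
    · exact absurd (k' ▸ e) (hn _ k)
    · exact h.dist a k a' k' e
  · rcases mem_insert.1 ha with rfl | ha
    · exact fun _ => h2
    · exact h.odd a ha

theorem Dat.Ok.two_dvd {D : Dat n} (hD : D.Ok) : 2 ∣ D.M :=
  hD.sm 2 Nat.prime_two (by have := hD.two; omega)

theorem Dat.Ok.nice_union {D : Dat n} (hD : D.Ok) {W : Finset (Gen n)} (hW : Dist W)
    (hp : ∀ a ∈ W, a.2.Prime ∧ ¬a.2 ∣ D.M) : Nice (D.V0 ∪ W) := by
  have h0 : ∀ a ∈ D.V0, ∀ b ∈ W, a.2 ≠ b.2 := fun a ha b hb e => (hp b hb).2 (e ▸ (hD.fix a ha).2)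
  refine ⟨mem_union_left _ hD.nice.neg, fun a ha => ?_, fun a ha b hb e => ?_, fun a ha => ?_⟩
  · rcases mem_union.1 ha with ha | ha
    · exact hD.nice.pr a ha
    · exact .inr (hp a ha).1
  · rcases mem_union.1 ha with ha | ha <;> rcases mem_union.1 hb with hb | hb
    · exact hD.nice.dist a ha b hb e
    · exact absurd e (h0 a ha b hb)
    · exact absurd e.symm (h0 b hb a ha)
    · exact hW a ha b hb e
  · rcases mem_union.1 ha with ha | ha
    · exact hD.nice.odd a ha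
    · exact fun _ e => (hp a ha).2 (e ▸ hD.two_dvd)

theorem Dat.Ok.nice_TT {D : Dat n} (hD : D.Ok) {a b : ℕ} {W : Finset (Gen n)} (hW : Dist W)
    (hs : W ⊆ TT n (PP D.M a b)) : Nice (D.V0 ∪ W) :=
  hD.nice_union hW fun _ h => (mem_PP.1 (mem_TT.1 (hs h)).2).2.2

theorem dist_gens {l : Ix n → ℕ} (hc : ∀ h k, h ≠ k → (l h).Coprime (l k)) : Dist (gens l) := by
  rintro ⟨k, p⟩ ha ⟨k', p'⟩ hb e
  obtain ⟨h, rfl, h1⟩ := mem_gens.1 ha
  obtain ⟨h', rfl, h2⟩ := mem_gens.1 hb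
  obtain rfl : p = p' := e
  by_contra hne
  have := Nat.eq_one_of_dvd_coprimes (hc h h' fun e => hne (by rw [e]))
    (Nat.dvd_of_mem_primeFactors h1) (Nat.dvd_of_mem_primeFactors h2)
  exact (Nat.prime_of_mem_primeFactors h1).ne_one this

theorem Dat.Ok.nice_VV {D : Dat n} (hD : D.Ok) {l : Ix n → ℕ} (hM : ∀ h, (l h).Coprime D.M)
    (hc : ∀ h k, h ≠ k → (l h).Coprime (l k)) : Nice (D.VV l) := by
  refine hD.nice_union (dist_gens hc) fun a ha => ?_
  obtain ⟨h, -, h1⟩ := mem_gens.1 ha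
  have hp := Nat.prime_of_mem_primeFactors h1
  exact ⟨hp, fun hd => hp.ne_one
    (Nat.eq_one_of_dvd_coprimes (hM h) (Nat.dvd_of_mem_primeFactors h1) hd)⟩

/-! ### weights -/

theorem Sm.lt {M p : ℕ} (hM : Sm n M) (hp : p.Prime) (h : ¬p ∣ M) : 12 * n < p :=
  not_le.1 fun k => h (hM p hp k)

theorem wt_pos {p : ℕ} (h : 12 * n < p) : 0 < wt n p := by
  have : (12 * n : ℝ) < p := by exact_mod_cast h
  have h0 : (0 : ℝ) ≤ n := Nat.cast_nonneg _
  exact one_div_pos.2 (by linarith)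

theorem wt_le {p : ℕ} (h : 12 * n < p) : wt n p ≤ 2 / p := by
  have : (12 * n : ℝ) < p := by exact_mod_cast h
  have h0 : (0 : ℝ) ≤ n := Nat.cast_nonneg _
  rw [wt, div_le_div_iff₀ (by linarith) (by linarith)]; linarith

theorem le_wt {p : ℕ} (hn : 1 ≤ n) (h : 12 * n < p) : 1 / (p : ℝ) ≤ wt n p := by
  have : (12 * n : ℝ) < p := by exact_mod_cast h
  have h0 : (1 : ℝ) ≤ n := by exact_mod_cast hn
  exact one_div_le_one_div_of_le (by linarith) (by linarith)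

theorem wt_sub_le {p : ℕ} (h : 12 * n < p) : wt n p - 1 / p ≤ 4 * n / (p : ℝ) ^ 2 := by
  have : (12 * n : ℝ) < p := by exact_mod_cast h
  have h0 : (0 : ℝ) ≤ n := Nat.cast_nonneg _
  have h1 : (0 : ℝ) < p := by linarith
  have h2 : (0 : ℝ) < p + 1 - 3 * n := by linarith
  rw [wt, div_sub_div _ _ h2.ne' h1.ne', div_le_div_iff₀ (by positivity) (by positivity)]
  nlinarith [mul_nonneg (mul_nonneg h0 h1.le) (show (0 : ℝ) ≤ p - 12 * n by linarith),
    mul_nonneg h0 h1.le, mul_pos h1 h1]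

theorem PP_gt {M a b p : ℕ} (hM : Sm n M) (h : p ∈ PP M a b) : 12 * n < p :=
  hM.lt (mem_PP.1 h).2.2.1 (mem_PP.1 h).2.2.2

theorem Wt_nonneg {M a b : ℕ} (hM : Sm n M) {W : Finset (Gen n)} (h : W ⊆ TT n (PP M a b)) :
    0 ≤ Wt W := prod_nonneg fun _ ha => (wt_pos (PP_gt hM (mem_TT.1 (h ha)).2)).le

theorem card_tags (n : ℕ) : ((univ : Finset (Ix n)).image tg).card = 3 * n := by
  rw [card_image_of_injective _ tg_injective, card_univ, card_Ix]

theorem prod_TT (P : Finset ℕ) (F : ℕ → ℝ) :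
    ∏ a ∈ TT n P, F a.2 = ∏ p ∈ P, F p ^ (3 * n) := by
  simp only [TT, prod_product, prod_const, prod_pow, card_tags]

theorem sum_TT (P : Finset ℕ) (F : ℕ → ℝ) : ∑ a ∈ TT n P, F a.2 = 3 * n * ∑ p ∈ P, F p := by
  simp only [TT, sum_product, sum_const, nsmul_eq_mul, card_tags]
  push_cast
  rfl

theorem sum_Wt (P : Finset ℕ) : ∑ W ∈ (TT n P).powerset, Wt W = Mass n P := by
  rw [Mass, ← prod_TT P fun p => 1 + wt n p, prod_one_add]
  rfl

theorem one_le_Mass {M : ℕ} (hM : Sm n M) (a b : ℕ) : 1 ≤ Mass n (PP M a b) :=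
  prod_induction _ (1 ≤ ·) (fun _ _ => one_le_mul_of_one_le_of_one_le) le_rfl
    fun _ h => one_le_pow₀ (le_add_of_nonneg_right (wt_pos (PP_gt hM h)).le)

/-! ### large scales -/

theorem EE_pos (n : ℕ) : 0 < EE n := by unfold EE; positivity

theorem le_EE (n : ℕ) : 10000 * (n + 1) ≤ EE n :=
  Nat.mul_le_mul_left _ (Nat.lt_pow_self (by norm_num))

theorem Rel.par {S : Sc} (h : Rel n S) (e : ℕ) : Rel n { S with e := e } := ⟨h.hY, h.hY', h.lo, h.hi⟩

theorem Rel.Y0_le {S : Sc} (h : Rel n S) : S.Y0 ≤ S.Y := by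
  rw [h.hY]; exact Nat.le_self_pow (EE_pos n).ne' _

theorem Rel.Y_le {S : Sc} (h : Rel n S) : S.Y ≤ S.Y' := by
  rw [h.hY']; exact Nat.le_self_pow (by positivity) _

theorem Rel.Y'_le {S : Sc} (h : Rel n S) : S.Y' ≤ S.Z :=
  (Nat.le_self_pow (EE_pos n).ne' _).trans h.lo

theorem Rel.log_Y {S : Sc} (h : Rel n S) : Real.log S.Y = EE n * Real.log S.Y0 := by
  rw [h.hY, Nat.cast_pow, Real.log_pow]

theorem Rel.log_Y' {S : Sc} (h : Rel n S) : Real.log S.Y' = 128 ^ S.J * Real.log S.Y := by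
  rw [h.hY', Nat.cast_pow, Real.log_pow]; norm_num

theorem Rel.log_Z_le {S : Sc} (h : Rel n S) : Real.log S.Z ≤ 2 * EE n * Real.log S.Y' := by
  rcases Nat.eq_zero_or_pos S.Z with h0 | h0
  · rw [h0, Nat.cast_zero, Real.log_zero]
    exact mul_nonneg (by positivity) (Real.log_natCast_nonneg _)
  · have := Real.log_le_log (Nat.cast_pos.2 h0) (Nat.cast_le.2 h.hi)
    rwa [Nat.cast_pow, Real.log_pow, Nat.cast_mul, Nat.cast_ofNat] at this

theorem Rel.le_log_Z {S : Sc} (h : Rel n S) : EE n * Real.log S.Y' ≤ Real.log S.Z := by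
  rcases Nat.eq_zero_or_pos S.Y' with h0 | h0
  · rw [h0, Nat.cast_zero, Real.log_zero, mul_zero]
    exact Real.log_natCast_nonneg _
  · have := Real.log_le_log (Nat.cast_pos.2 (pow_pos h0 _)) (Nat.cast_le.2 h.lo)
    rwa [Nat.cast_pow, Real.log_pow] at this

section
variable {M J : ℕ} {P Q : Sc → Prop}

theorem Ev.mono (h : Ev n M J P) (hPQ : ∀ S : Sc, S.M = M → S.J = J → Rel n S → P S → Q S) :
    Ev n M J Q :=
  h.imp fun _ h S h1 h2 h3 h4 => hPQ S h1 h2 h4 (h S h1 h2 h3 h4)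

theorem Ev.and (h : Ev n M J P) (h' : Ev n M J Q) : Ev n M J fun S => P S ∧ Q S := by
  obtain ⟨t, h⟩ := h
  obtain ⟨t', h'⟩ := h'
  exact ⟨max t t', fun S h1 h2 h3 h4 =>
    ⟨h S h1 h2 (le_of_max_le_left h3) h4, h' S h1 h2 (le_of_max_le_right h3) h4⟩⟩

theorem Ev.of_forall (h : ∀ S : Sc, S.M = M → S.J = J → Rel n S → P S) : Ev n M J P :=
  ⟨0, fun S h1 h2 _ h4 => h S h1 h2 h4⟩

theorem Ev.all {ι : Type} (I : Finset ι) {P : ι → Sc → Prop} (h : ∀ i ∈ I, Ev n M J (P i)) :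
    Ev n M J fun S => ∀ i ∈ I, P i S := by
  classical
  induction I using Finset.induction_on with
  | empty => exact Ev.of_forall (by simp)
  | insert a I _ ih =>
    exact ((h a (mem_insert_self _ _)).and (ih fun i hi => h i (mem_insert_of_mem hi))).mono
      fun S _ _ _ k => (forall_mem_insert _ _ _).2 k

/-- the statement also holds for every parity -/
theorem Ev.par (h : Ev n M J P) : Ev n M J fun S => ∀ e, P { S with e := e } :=
  h.imp fun _ h _ h1 h2 h3 h4 e => h _ h1 h2 h3 (h4.par e)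

theorem ev_Y0 {p : ℕ → Prop} (h : ∀ᶠ y in atTop, p y) : Ev n M J fun S => p S.Y0 :=
  (eventually_atTop.1 h).imp fun _ h _ _ _ h3 _ => h _ h3

theorem ev_Y {p : ℕ → Prop} (h : ∀ᶠ y in atTop, p y) : Ev n M J fun S => p S.Y :=
  (eventually_atTop.1 h).imp fun _ h _ _ _ h3 h4 => h _ (h3.trans h4.Y0_le)

theorem ev_Y' {p : ℕ → Prop} (h : ∀ᶠ y in atTop, p y) : Ev n M J fun S => p S.Y' :=
  (eventually_atTop.1 h).imp fun _ h _ _ _ h3 h4 => h _ (h3.trans (h4.Y0_le.trans h4.Y_le))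

theorem ev_Z {p : ℕ → Prop} (h : ∀ᶠ y in atTop, p y) : Ev n M J fun S => p S.Z :=
  (eventually_atTop.1 h).imp fun _ h _ _ _ h3 h4 =>
    h _ (h3.trans (h4.Y0_le.trans (h4.Y_le.trans h4.Y'_le)))

theorem ev_ge (t : ℕ) : Ev n M J fun S => t ≤ S.Y0 := ev_Y0 (eventually_ge_atTop t)

/-- powers of `log Z` are smaller than the smallest scale -/
theorem ev_log (C : ℝ) (k : ℕ) : Ev n M J fun S => C * Real.log S.Z ^ k ≤ S.Y0 := by
  have hE : (0 : ℝ) < EE n := Nat.cast_pos.2 (EE_pos n)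
  have h1 := (Real.isLittleO_pow_log_id_atTop (n := k)).bound
    (c := 1 / ((|C| + 1) * (2 * EE n * (128 ^ J * EE n)) ^ k)) (by positivity)
  refine (ev_Y0 (tendsto_natCast_atTop_atTop.eventually h1)).mono fun S _ hJ hR h => ?_
  have h2 := hR.log_Z_le
  rw [hR.log_Y', hR.log_Y, hJ] at h2
  have h3 := Real.log_natCast_nonneg S.Y0
  have h4 := Real.log_natCast_nonneg S.Z
  rw [Real.norm_of_nonneg (by positivity), id, Real.norm_of_nonneg (by positivity), one_div,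
    ← div_eq_inv_mul, le_div_iff₀ (by positivity)] at h
  calc C * Real.log S.Z ^ k ≤ (|C| + 1) * (2 * EE n * (128 ^ J * (EE n * Real.log S.Y0))) ^ k := by
        gcongr
        linarith [le_abs_self C]
    _ = _ := by rw [← mul_assoc (128 ^ J : ℝ), ← mul_assoc (2 * EE n : ℝ), mul_pow]; ring
    _ ≤ _ := h

end

/-! ### shapes -/

section
variable {S : Sc} {c P m : ℕ}

theorem Rel.le_Y' (hR : Rel n S) (h : Core S c) {p : ℕ} (hp : p ∈ c.primeFactors) : p ≤ S.Y' := by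
  rcases h.gap p hp with k | k
  · exact k.trans (hR.Y0_le.trans hR.Y_le)
  · exact k.2

theorem Rel.le_pow (hR : Rel n S) (h : Core S c) : c ≤ S.Y' ^ 6 := by
  have h1 := prod_filter_mul_prod_filter_not c.primeFactors (· ≤ S.Y0) fun p => p
  rw [Nat.prod_primeFactors_of_squarefree h.sqf] at h1
  have h2 : c.primeFactors.filter (fun p => ¬p ≤ S.Y0) = c.primeFactors.filter (S.Y < ·) :=
    filter_congr fun p hp => by
      have := h.gap p hp
      have := hR.Y0_le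
      omega
  rw [h2] at h1
  calc c = _ := h1.symm
    _ ≤ S.Y' ^ 3 * S.Y' ^ 3 := Nat.mul_le_mul
        (h.sm.trans (Nat.pow_le_pow_left (hR.Y0_le.trans hR.Y_le) 3)) h.me
    _ = _ := by ring

theorem Rel.mem_CC (hR : Rel n S) : c ∈ CC S ↔ Core S c := by
  classical
  simp only [CC, mem_filter, mem_Icc]
  exact ⟨fun h => h.2, fun h => ⟨⟨h.pos, hR.le_pow h⟩, h⟩⟩

theorem Rel.coprime_large (hR : Rel n S) (h : Core S c) (hP : P.Prime) (hl : S.Y' < P) :
    c.Coprime P := by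
  rw [Nat.coprime_comm, hP.coprime_iff_not_dvd]
  intro hd
  have := hR.le_Y' h (Nat.mem_primeFactors.2 ⟨hP, hd, h.pos.ne'⟩)
  omega

theorem Rel.filter_le (hR : Rel n S) (h : Core S c) (hP : P.Prime) (hl : S.Y' < P) :
    (c * P).primeFactors.filter (· ≤ S.Y') = c.primeFactors := by
  rw [h.primeFactors_mul hP, filter_insert, if_neg (by omega)]
  exact filter_true_of_mem fun p hp => hR.le_Y' h hp

theorem Rel.filter_gt (hR : Rel n S) (h : Core S c) (hP : P.Prime) (hl : S.Y' < P) :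
    (c * P).primeFactors.filter (S.Y' < ·) = {P} := by
  rw [h.primeFactors_mul hP, filter_insert, if_pos hl,
    filter_false_of_mem fun p hp => not_lt.2 (hR.le_Y' h hp)]
  rfl

theorem Rel.card_mul (hR : Rel n S) (h : Core S c) (hP : P.Prime) (hl : S.Y' < P) :
    (c * P).primeFactors.card = c.primeFactors.card + 1 := by
  rw [h.primeFactors_mul hP, card_insert_of_notMem fun hp => not_lt.2 (hR.le_Y' h hp) hl]

/-- the decomposition of a good number is unique -/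
theorem Rel.unique (hR : Rel n S) {c' P' : ℕ} (h : Core S c) (hP : P.Prime) (hl : S.Y' < P)
    (h' : Core S c') (hP' : P'.Prime) (hl' : S.Y' < P') (e : c * P = c' * P') :
    c = c' ∧ P = P' := by
  have h1 := hR.filter_gt h hP hl
  rw [e, hR.filter_gt h' hP' hl'] at h1
  obtain rfl := singleton_injective h1
  exact ⟨Nat.eq_of_mul_eq_mul_right hP.pos e, rfl⟩

theorem Rel.sqf (hR : Rel n S) (h : Shape S m) : Squarefree m := by
  obtain ⟨c, P, hc, hP, hl, rfl⟩ := h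
  exact (Nat.squarefree_mul (hR.coprime_large hc hP hl)).2 ⟨hc.sqf, hP.squarefree⟩

end

/-! ### systems of forms -/

section
variable {D : Dat n} {l : Ix n → ℕ} {e : Ix n → ℤ}

theorem Lin.of_eq {X d : ℤ} (h : ∀ j, (l j : ℤ) = X + e j * d) : Lin e l := fun f g k => by
  rw [h, h, h]; ring

/-- the relations for one pair of forms imply all relations -/
theorem Lin.of_pair {f g : Ix n} (hfg : e g ≠ e f)
    (h : ∀ k, (e g - e f) * l k = (e g - e k) * l f + (e k - e f) * l g) : Lin e l := by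
  intro a b c
  refine mul_left_cancel₀ (sub_ne_zero.2 hfg) ?_
  linear_combination (e b - e a) * h c - (e b - e c) * h a - (e c - e a) * h b

theorem coprime_M {M a : ℕ} (h : a ≡ 1 [MOD 8 * M]) : a.Coprime M := by
  have := (h.of_mul_left 8).gcd_eq
  rw [Nat.Coprime, this, Nat.gcd_one_left]

/-- the parameters of a tuple -/
theorem Lin.exists (hD : D.Ok) (h : Lin D.e l) (h1 : ∀ j, l j ≡ 1 [MOD 8 * D.M]) (f : Ix n) :
    ∃ d : ℤ, ∀ j, (l j : ℤ) = l f + (D.e j - D.e f) * d := by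
  have : Nontrivial (Ix n) := Fintype.one_lt_card_iff_nontrivial.1 (by
    have := hD.two
    rw [card_Ix]
    omega)
  obtain ⟨g, hg⟩ := exists_ne f
  have h2 : D.e g - D.e f ∣ (l g : ℤ) - l f := by
    refine (hD.dv g f hg).trans (Dvd.dvd.trans ?_ ((h1 f).trans (h1 g).symm).dvd)
    push_cast
    exact dvd_mul_left _ _
  obtain ⟨d, hd⟩ := h2
  refine ⟨d, fun j => mul_left_cancel₀ (sub_ne_zero.2 (hD.ne g f hg)) ?_⟩
  linear_combination h f g j + (D.e j - D.e f) * hd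

/-- a prime that divides two forms divides all forms -/
theorem Lin.dvd (hD : D.Ok) (h : Lin D.e l) (h1 : ∀ j, l j ≡ 1 [MOD 8 * D.M]) {f g : Ix n}
    (hfg : f ≠ g) {p : ℕ} (hp : p.Prime) (d1 : p ∣ l f) (d2 : p ∣ l g) (j : Ix n) : p ∣ l j := by
  have hp' : Prime (p : ℤ) := Nat.prime_iff_prime_int.1 hp
  have h3 : ¬(p : ℤ) ∣ D.e g - D.e f := fun hd => hp.ne_one (Nat.eq_one_of_dvd_coprimes
    (coprime_M (h1 f)) d1 (Int.natCast_dvd_natCast.1 (hd.trans (hD.dv g f hfg.symm))))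
  have : (p : ℤ) ∣ (D.e g - D.e f) * l j := by
    rw [h f g j]
    exact dvd_add ((Int.natCast_dvd_natCast.2 d1).mul_left _)
      ((Int.natCast_dvd_natCast.2 d2).mul_left _)
  exact Int.natCast_dvd_natCast.1 ((hp'.dvd_or_dvd this).resolve_left h3)

/-- one coprime pair makes all pairs coprime -/
theorem Lin.coprime (hD : D.Ok) (h : Lin D.e l) (h1 : ∀ j, l j ≡ 1 [MOD 8 * D.M]) {f g : Ix n}
    (hc : (l f).Coprime (l g)) (j k : Ix n) (hjk : j ≠ k) : (l j).Coprime (l k) :=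
  Nat.coprime_of_dvd fun _ hp d1 d2 => hp.ne_one (Nat.eq_one_of_dvd_coprimes hc
    (h.dvd hD h1 hjk hp d1 d2 f) (h.dvd hD h1 hjk hp d1 d2 g))

theorem Adm.coprime_M (h : Adm D l) (k : Ix n) : (l k).Coprime D.M := RG.coprime_M (h.one k)

theorem Adm.nice (hD : D.Ok) (h : Adm D l) : Nice (D.VV l) := hD.nice_VV h.coprime_M h.cop

theorem mem_AA {S : Sc} : l ∈ AA S D ↔ (∀ h, 1 ≤ l h ∧ l h ≤ S.Z) ∧ Lin D.e l ∧
    (∀ h, l h ≡ 1 [MOD 8 * D.M]) ∧ (∀ h k, h ≠ k → (l h).Coprime (l k)) ∧ ∀ h, Shape S (l h) := by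
  classical
  simp only [AA, mem_filter, Fintype.mem_piFinset, mem_Icc]

theorem adm_of_mem {S : Sc} (hR : Rel n S) (h : l ∈ AA S D) : Adm D l := by
  obtain ⟨-, h1, h2, h3, h4⟩ := mem_AA.1 h
  exact ⟨h1, h2, h3, fun k => hR.sqf (h4 k)⟩

/-- a tuple is determined by two of its entries -/
theorem Lin.ext {l' : Ix n → ℕ} (h : Lin e l) (h' : Lin e l') {f g : Ix n} (hfg : e g ≠ e f)
    (h1 : l f = l' f) (h2 : l g = l' g) : l = l' := by
  funext j
  refine Nat.cast_injective (R := ℤ) (mul_left_cancel₀ (sub_ne_zero.2 hfg) ?_)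
  rw [h f g j, h' f g j, h1, h2]

theorem card_AA_le (hD : D.Ok) (S : Sc) : (AA S D).card ≤ S.Z ^ 2 := by
  have : Nontrivial (Ix n) := Fintype.one_lt_card_iff_nontrivial.1 (by
    have := hD.two
    rw [card_Ix]
    omega)
  obtain ⟨f, g, hfg⟩ := exists_pair_ne (Ix n)
  refine (card_le_card_of_injOn (t := Icc 1 S.Z ×ˢ Icc 1 S.Z) (fun l => (l f, l g))
    (fun l hl => ?_) fun l hl l' hl' e => ?_).trans_eq (by simp [sq])
  · have := (mem_AA.1 (mem_coe.1 hl)).1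
    exact mem_coe.2 (mem_product.2 ⟨mem_Icc.2 (this f), mem_Icc.2 (this g)⟩)
  · exact (mem_AA.1 (mem_coe.1 hl)).2.1.ext (mem_AA.1 (mem_coe.1 hl')).2.1 (hD.ne g f hfg.symm)
      (Prod.mk.inj e).1 (Prod.mk.inj e).2

theorem le_VV (hD : D.Ok) {Y : ℕ} (h : D.M ≤ Y) (l : Ix n → ℕ) :
    le Y (D.VV l) = D.V0 ∪ le Y (gens l) := by
  rw [le, Dat.VV, filter_union, filter_true_of_mem, le]
  exact fun a ha => (Nat.le_of_dvd hD.pos (hD.fix a ha).2).trans h

theorem md_VV (hD : D.Ok) {Y Y' : ℕ} (h : D.M ≤ Y) (l : Ix n → ℕ) :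
    md Y Y' (D.VV l) = md Y Y' (gens l) := by
  rw [md, Dat.VV, filter_union, filter_false_of_mem, empty_union, md]
  intro a ha
  have := Nat.le_of_dvd hD.pos (hD.fix a ha).2
  omega

theorem le_gens_subset {S : Sc} (hR : Rel n S) (h : l ∈ AA S D) :
    le S.Y (gens l) ⊆ TT n (PP S.M 0 S.Y0) := by
  intro a ha
  obtain ⟨h1, h2⟩ := mem_le.1 ha
  obtain ⟨k, e, h3⟩ := mem_gens.1 h1
  obtain ⟨c, P, hc, hP, hl, e'⟩ := (mem_AA.1 h).2.2.2.2 k
  have hp := Nat.prime_of_mem_primeFactors h3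
  have := hR.Y_le
  rw [e', hc.primeFactors_mul hP, mem_insert] at h3
  have h4 := h3.resolve_left (by omega)
  refine mem_TT.2 ⟨e ▸ tg_ne_none k, mem_PP.2 ⟨hp.pos, ?_, hp, fun hd => hp.ne_one
    (Nat.eq_one_of_dvd_coprimes hc.cop (Nat.dvd_of_mem_primeFactors h4) hd)⟩⟩
  have := hc.gap _ h4
  omega

theorem md_gens_subset {S : Sc} (h : l ∈ AA S D) :
    md S.Y S.Y' (gens l) ⊆ TT n (PP S.M S.Y S.Y') := by
  intro a ha
  obtain ⟨h1, h2, h2'⟩ := mem_md.1 ha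
  obtain ⟨k, e, h3⟩ := mem_gens.1 h1
  obtain ⟨c, P, hc, hP, hl, e'⟩ := (mem_AA.1 h).2.2.2.2 k
  have hp := Nat.prime_of_mem_primeFactors h3
  rw [e', hc.primeFactors_mul hP, mem_insert] at h3
  have h4 := h3.resolve_left (by omega)
  exact mem_TT.2 ⟨e ▸ tg_ne_none k, mem_PP.2 ⟨h2, h2', hp, fun hd => hp.ne_one
    (Nat.eq_one_of_dvd_coprimes hc.cop (Nat.dvd_of_mem_primeFactors h4) hd)⟩⟩

end

/-! ### surfaces -/

namespace Surf

variable (F : Surf n)

theorem L_cast (j : Ix n) (v : ℤ × ℤ) : F.L j ((v.1 : ℚ), (v.2 : ℚ)) = F.LZ j v := by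
  simp [L, LZ]

theorem D_cast (i : Fin 3) (v : ℤ × ℤ) : F.D i ((v.1 : ℚ), (v.2 : ℚ)) = F.DZ i v := by
  simp [D, DZ, L_cast]

theorem root_eq (j : Ix n) : F.root j = (((F.rootZ j).1 : ℚ), ((F.rootZ j).2 : ℚ)) := by
  simp [root, rootZ]

theorem L_root (j k : Ix n) : F.L j (F.root k) = F.LZ j (F.rootZ k) := by rw [root_eq, L_cast]

theorem D_root (i : Fin 3) (k : Ix n) : F.D i (F.root k) = F.DZ i (F.rootZ k) := by
  rw [root_eq, D_cast]

theorem LZ_self (j : Ix n) : F.LZ j (F.rootZ j) = 0 := by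
  simp [LZ, rootZ, mul_comm]

theorem gam_eq (k : Ix n) : F.gam k = ((if k.1 = 1 then -F.cZ k else F.cZ k : ℤ) : ℚ) := by
  obtain ⟨i, k⟩ := k
  fin_cases i <;> simp [gam, cZ, D_root]

/-- the values at two vectors of three forms are related by the resultants -/
theorem cramer (j k k' : Ix n) (v : ℤ × ℤ) :
    F.LZ k v * F.LZ k' (F.rootZ j) - F.LZ k' v * F.LZ k (F.rootZ j) =
      F.LZ j v * F.LZ k' (F.rootZ k) := by
  simp only [LZ, rootZ]; ring

variable {F}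

theorem Hyp.two {r : ℕ} (h : F.Hyp r) : 2 ≤ n := by
  obtain ⟨k, -⟩ := h.split
  obtain ⟨m, hm⟩ := h.ev
  have := k.pos
  omega

theorem Hyp.res_ne {r : ℕ} (h : F.Hyp r) {j k : Ix n} (hjk : j ≠ k) : F.LZ j (F.rootZ k) ≠ 0 := by
  have := h.ne j k hjk
  rw [L_root] at this
  exact_mod_cast this

theorem Hyp.sumZ {r : ℕ} (h : F.Hyp r) (v : ℤ × ℤ) : F.DZ 0 v = F.DZ 1 v - F.DZ 2 v := by
  have := h.sum (v.1, v.2)
  rw [D_cast, D_cast, D_cast] at this
  exact_mod_cast this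

end Surf

end Pool.Agent.MP_a43263_nt.RG
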