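import Mathlib.Analysis.Complex.ExponentialBounds
import Mathlib.Analysis.SpecialFunctions.Pow.Asymptotics
import Pool.Agent.MP_a43263_nt.RG.Basic

/-! PROJECT RANKG, module PAIR: one pair of inner variables, the centred part. -/

set_option autoImplicit false

noncomputable section

namespace Pool.Agent.MP_a43263_nt.RG

open Finset Filter
open R2 (pri kc mem_pri MERStmt SHIStmt CENStmt)

namespace Pair

theorem sum_Ico_range (n : ℕ) (g : ℤ → ℝ) :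
    ∑ i ∈ Ico (0 : ℤ) (0 + n), g i = ∑ i ∈ range n, g i := by
  induction n with
  | zero => simp
  | succ n ih =>
    have : Ico (0 : ℤ) (0 + (n + 1 : ℕ)) = insert (n : ℤ) (Ico (0 : ℤ) (0 + n)) := by
      ext x; simp only [mem_Ico, mem_insert]; omega
    rw [this, sum_insert (by simp), ih, sum_range_succ, add_comm]

/-- splitting an interval into residue classes -/
theorem split {D : ℕ} (hD : 1 ≤ D) (R : ℕ) (f : ℤ → ℝ) :
    ∑ r ∈ Icc 1 R, f r =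
      ∑ r₀ ∈ Icc 1 D, ∑ i ∈ Ico (0 : ℤ) (0 + ((R + D - r₀) / D : ℕ)), f (r₀ + D * i) := by
  simp only [sum_Ico_range]
  rw [sum_sigma']
  refine sum_nbij' (fun r => ⟨(r - 1) % D + 1, (r - 1) / D⟩) (fun x => x.1 + D * x.2) ?_ ?_ ?_ ?_ ?_
  · intro r hr
    have h1 := Nat.mod_lt (r - 1) hD
    have h2 := Nat.mod_add_div (r - 1) D
    simp only [mem_sigma, mem_Icc, mem_range] at hr ⊢
    refine ⟨by omega, Nat.lt_of_succ_le ((Nat.le_div_iff_mul_le hD).2 ?_)⟩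
    rw [Nat.succ_mul, mul_comm]
    omega
  · rintro ⟨a, i⟩ h
    simp only [mem_sigma, mem_Icc, mem_range] at h ⊢
    have := (Nat.le_div_iff_mul_le hD).1 (Nat.succ_le_of_lt h.2)
    rw [Nat.succ_mul, mul_comm] at this
    omega
  · intro r hr
    have h2 := Nat.mod_add_div (r - 1) D
    simp only [mem_Icc] at hr ⊢
    omega
  · rintro ⟨a, i⟩ h
    simp only [mem_sigma, mem_Icc, mem_range] at h ⊢
    have e : a + D * i - 1 = (a - 1) + D * i := by omega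
    have h1 : (a + D * i - 1) % D + 1 = a := by
      rw [e, Nat.add_mul_mod_self_left, Nat.mod_eq_of_lt (by omega)]; omega
    have h2 : (a + D * i - 1) / D = i := by
      rw [e, Nat.add_mul_div_left _ _ hD, Nat.div_eq_of_lt (by omega), zero_add]
    simp [h1, h2]
  · intro r hr
    have h2 := Nat.mod_add_div (r - 1) D
    simp only [mem_Icc] at hr
    congr 1
    have : r = (r - 1) % D + 1 + D * ((r - 1) / D) := by omega
    exact_mod_cast this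

theorem len_le {D : ℕ} (hD : 1 ≤ D) (R : ℕ) {r₀ : ℕ} :
    (((R + D - r₀) / D : ℕ) : ℝ) ≤ R / D + 1 := by
  have h0 : (0 : ℝ) < D := by exact_mod_cast hD
  refine Nat.cast_div_le.trans ?_
  rw [div_add_one h0.ne', div_le_div_iff_of_pos_right h0]
  exact_mod_cast Nat.sub_le _ _

theorem mem_len {D R r₀ : ℕ} (hD : 1 ≤ D) (h : r₀ ∈ Icc 1 D) {i : ℤ}
    (hi : i ∈ Ico (0 : ℤ) (0 + ((R + D - r₀) / D : ℕ))) :
    ∃ x : ℕ, (r₀ : ℤ) + D * i = x ∧ 1 ≤ x ∧ x ≤ R := by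
  obtain ⟨h1, h2⟩ := mem_Ico.1 hi
  lift i to ℕ using h1
  have h3 : i < (R + D - r₀) / D := by omega
  have := (Nat.le_div_iff_mul_le hD).1 (Nat.succ_le_of_lt h3)
  rw [Nat.succ_mul, mul_comm] at this
  rw [mem_Icc] at h
  exact ⟨r₀ + D * i, by push_cast; rfl, by omega, by omega⟩

/-- the number of admissible classes -/
theorem card_class {D m : ℕ} (hD : 1 ≤ D) (hm : m ∣ D) (v : ℤ) :
    (((Icc 1 D).filter fun q : ℕ => (q : ℤ) ≡ v [ZMOD m]).card : ℝ) ≤ D / m := by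
  obtain ⟨e, rfl⟩ := hm
  have hm : 0 < m := Nat.pos_of_mul_pos_right hD
  have : ((Icc 1 (m * e)).filter fun q : ℕ => (q : ℤ) ≡ v [ZMOD m]).card ≤ (range e).card := by
    refine card_le_card_of_injOn (fun q => (q - 1) / m) (fun q hq => ?_) fun q hq q' hq' h => ?_
    · simp only [coe_filter, mem_Icc, Set.mem_ofPred_eq, coe_range, Set.mem_Iio] at hq ⊢
      exact Nat.div_lt_of_lt_mul (by omega)
    · simp only [coe_filter, mem_Icc, Set.mem_ofPred_eq] at hq hq' h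
      have h1 : q ≡ q' [MOD m] := Int.natCast_modEq_iff.1 (hq.2.trans hq'.2.symm)
      have h2 : q - 1 ≡ q' - 1 [MOD m] := by
        refine Nat.ModEq.add_right_cancel' 1 ?_
        rwa [Nat.sub_add_cancel hq.1.1, Nat.sub_add_cancel hq'.1.1]
      have h3 := Nat.mod_add_div (q - 1) m
      have h4 := Nat.mod_add_div (q' - 1) m
      rw [h, h2] at h3
      omega
  rw [card_range] at this
  have h0 : (0 : ℝ) < m := by exact_mod_cast hm
  push_cast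
  rw [mul_div_cancel_left₀ _ h0.ne']
  exact_mod_cast this

/-- few large primes divide a given number -/
theorem card_dvd {Y n x : ℕ} (hY : 2 ≤ Y) {P : Finset ℕ} (hP : ∀ s ∈ P, s.Prime ∧ Y < s)
    (h1 : 1 ≤ x) (h2 : x ≤ Y ^ n) : (P.filter (· ∣ x)).card ≤ n := by
  have a1 : Y ^ (P.filter (· ∣ x)).card ≤ ∏ s ∈ P.filter (· ∣ x), s :=
    pow_card_le_prod _ _ _ fun s hs => (hP s (mem_filter.1 hs).1).2.le
  have a2 : ∏ s ∈ P.filter (· ∣ x), s ∣ x :=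
    Finset.prod_primes_dvd x (fun s hs => (hP s (mem_filter.1 hs).1).1.prime)
      fun s hs => (mem_filter.1 hs).2
  exact (Nat.pow_le_pow_iff_right hY).1 (a1.trans ((Nat.le_of_dvd h1 a2).trans h2))

theorem sum_inv (hM : MERStmt) : ∃ C : ℝ, 0 ≤ C ∧ ∀ (k Y Y' : ℕ) (P : Finset ℕ), 3 ≤ Y → Y ≤ Y' →
    Y' ≤ Y ^ k → (∀ s ∈ P, s.Prime ∧ Y < s ∧ s ≤ Y') → ∑ s ∈ P, 1 / (s : ℝ) ≤ k + C := by
  obtain ⟨C, hC⟩ := hM.2.1
  refine ⟨|C|, abs_nonneg C, fun k Y Y' P h1 h2 h3 hP => ?_⟩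
  have hY : (3 : ℝ) ≤ Y := by exact_mod_cast h1
  have hl : 1 ≤ Real.log Y := by
    rw [Real.le_log_iff_exp_le (by linarith)]
    exact Real.exp_one_lt_three.le.trans hY
  have a1 : Real.log Y * ∑ s ∈ P, 1 / (s : ℝ) ≤ ∑ p ∈ pri Y Y', Real.log p / p := by
    rw [mul_sum]
    refine (sum_le_sum fun s hs => ?_).trans (sum_le_sum_of_subset_of_nonneg (s := P)
      (fun s hs => mem_pri.2 ⟨(hP s hs).2.1, (hP s hs).2.2, (hP s hs).1⟩)
      fun p _ _ => div_nonneg (Real.log_natCast_nonneg p) (Nat.cast_nonneg p))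
    rw [mul_one_div]
    exact div_le_div_of_nonneg_right (Real.log_le_log (by linarith)
      (by exact_mod_cast (hP s hs).2.1.le)) (Nat.cast_nonneg s)
  have a2 : Real.log Y' ≤ k * Real.log Y := by
    rw [← Real.log_pow]
    exact Real.log_le_log (by exact_mod_cast (by omega : 0 < Y')) (by exact_mod_cast h3)
  have a3 := hC Y Y' (by omega)
  have a4 : C ≤ Real.log Y * |C| := (le_abs_self C).trans (le_mul_of_one_le_left (abs_nonneg C) hl)
  refine le_of_mul_le_mul_left ?_ (by linarith : 0 < Real.log Y)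
  nlinarith

theorem sum_abs {x : ℕ} (P : Finset ℕ) :
    ∑ s ∈ P, |(if (s : ℤ) ∣ (x : ℤ) then 1 else 0) - 1 / (s : ℝ)| ≤
      (P.filter (· ∣ x)).card + ∑ s ∈ P, 1 / (s : ℝ) := by
  rw [card_filter]
  push_cast
  rw [← sum_add_distrib]
  refine sum_le_sum fun s _ => (abs_sub _ _).trans ?_
  simp only [Int.natCast_dvd_natCast]
  rw [abs_of_nonneg (by positivity : (0 : ℝ) ≤ 1 / s)]
  split_ifs <;> simp

/-- the bound in one class -/
theorem one_class (hS : SHIStmt) (hC : CENStmt) (k : ℕ) : ∃ C : ℝ, 0 ≤ C ∧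
    ∀ (a Y Y' R Q D : ℕ) (q₀ : ℤ)
    (P : Finset ℕ) (c : ℕ → ℝ) (A B : Fin k → ℤ) (ψ : Fin k → ℤ → ℝ) (L u v : ℝ), 1 ≤ Y →
    Y ≤ Y' → (∀ s ∈ P, s.Prime ∧ Y < s ∧ s ≤ Y' ∧ ¬s ∣ D ∧ ∀ i, ¬(s : ℤ) ∣ A i) →
    (∀ s, |c s| ≤ 1) → (∀ i, |A i| ≤ (Y' : ℤ) ^ a ∧ |B i| ≤ (Y' : ℤ) ^ a) →
    (∀ i x, |ψ i x| ≤ 1) → 1 ≤ L →
    (∀ j ∈ Ico (0 : ℤ) (0 + Q),
      ∑ s ∈ P, |(if (s : ℤ) ∣ q₀ + D * j then 1 else 0) - 1 / (s : ℝ)| ≤ L) →
    R + 2 * (k + 1) * (Y' : ℝ) ^ (a + 1) ≤ u → Q + 2 * (k + 1) * (Y' : ℝ) ^ (a + 1) ≤ v →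
    (Y' : ℝ) ^ 2 ^ (k + 2) * Y ≤ v →
    (∑ i ∈ Ico (0 : ℤ) (0 + R), ∑ j ∈ Ico (0 : ℤ) (0 + Q),
      (∏ m, ψ m (A m * i + B m * j)) * kc P c (q₀ + D * j)) ^ 2 ^ (k + 1) ≤
      (u * v * L) ^ 2 ^ (k + 1) * (C / Y) := by
  obtain ⟨C, hC⟩ := hC (k + 1) (by omega)
  refine ⟨3 * |C|, by positivity, ?_⟩
  intro a Y Y' R Q D q₀ P c A B ψ L u v h1 h2 hP hc hA hψ hL hL' hu hv hv'
  have hY' : 1 ≤ Y' := h1.trans h2
  have e1 := hS (k + 1) Y' (Y' ^ a) R Q 0 0 (Fin.cons 1 A) (Fin.cons 0 B)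
    (Fin.cons (fun x => if x ∈ Ico (0 : ℤ) (0 + R) then 1 else 0) ψ)
    (fun i : ℤ => if i ∈ Ico (0 : ℤ) (0 + Q) then kc P c (q₀ + D * i) else 0) (by omega) hY'
    (fun m => by
      refine Fin.cases ?_ (fun m => ?_) m
      · simp only [Fin.cons_zero, abs_one, abs_zero]
        exact ⟨by exact_mod_cast Nat.one_le_pow _ _ hY', by positivity⟩
      · simpa using hA m)
    (fun m x => by
      refine Fin.cases ?_ (fun m => ?_) m
      · simp only [Fin.cons_zero]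
        split_ifs <;> simp
      · simpa using hψ m x)
    (fun i j h => by
      by_contra hc
      refine h ?_
      rw [Fin.prod_univ_succ]
      simp only [Fin.cons_zero, one_mul, zero_mul, add_zero, if_neg hc])
    (fun j h => by
      by_contra hc
      exact h (if_neg hc))
  have e2 := hC Y Y' Y' Q D q₀ 0 (0 - (k + 1 : ℕ) * (Y' ^ a : ℕ) * Y')
    (0 + Q + (k + 1 : ℕ) * (Y' ^ a : ℕ) * Y') P c (Fin.cons 1 A) L h1 hY'
    (fun s hs => ⟨(hP s hs).1, (hP s hs).2.1, (hP s hs).2.2.1, (hP s hs).2.2.2.1, fun m => by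
      refine Fin.cases ?_ (fun m => ?_) m
      · simp only [Fin.cons_zero]
        exact fun h => (hP s hs).1.one_lt.ne' (Nat.dvd_one.1 (by exact_mod_cast h))
      · simpa using (hP s hs).2.2.2.2 m⟩) hc hL hL'
  have e3 : ∑ i ∈ Ico (0 : ℤ) (0 + R), ∑ j ∈ Ico (0 : ℤ) (0 + Q),
      (∏ m : Fin (k + 1), (Fin.cons (fun x => if x ∈ Ico (0 : ℤ) (0 + R) then (1 : ℝ) else 0) ψ :
        Fin (k + 1) → ℤ → ℝ) m ((Fin.cons 1 A : Fin (k + 1) → ℤ) m * i + (Fin.cons 0 B : Fin (k + 1) → ℤ) m * j)) *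
        (fun i : ℤ => if i ∈ Ico (0 : ℤ) (0 + Q) then kc P c (q₀ + D * i) else 0) j =
      ∑ i ∈ Ico (0 : ℤ) (0 + R), ∑ j ∈ Ico (0 : ℤ) (0 + Q),
      (∏ m, ψ m (A m * i + B m * j)) * kc P c (q₀ + D * j) := by
    refine sum_congr rfl fun i hi => sum_congr rfl fun j hj => ?_
    rw [Fin.prod_univ_succ]
    simp only [Fin.cons_zero, Fin.cons_succ, one_mul, zero_mul, add_zero, if_pos hi, if_pos hj]
  rw [e3] at e1
  have y1 : (1 : ℝ) ≤ Y := by exact_mod_cast h1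
  have y2 : (Y : ℝ) ≤ Y' := by exact_mod_cast h2
  have y3 : (0 : ℝ) < Y' := by linarith
  have y4 : (Y' : ℝ) ≤ 2 * (k + 1) * (Y' : ℝ) ^ (a + 1) := by
    have h3 := le_self_pow₀ (y1.trans y2) (by omega : a + 1 ≠ 0)
    have h4 : (0 : ℝ) ≤ k * (Y' : ℝ) ^ (a + 1) := by positivity
    linarith
  have z1 : (R : ℝ) + 2 * (k + 1 : ℕ) * (Y' ^ a : ℕ) * Y' =
      R + 2 * (k + 1) * (Y' : ℝ) ^ (a + 1) := by
    push_cast; ring
  have z2 : (Q : ℝ) + 2 * (k + 1 : ℕ) * (Y' ^ a : ℕ) * Y' =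
      Q + 2 * (k + 1) * (Y' : ℝ) ^ (a + 1) := by
    push_cast; ring
  rw [z1, z2] at e1
  obtain ⟨n, hn⟩ : ∃ n, 2 ^ (k + 1) = n + 1 :=
    Nat.exists_eq_succ_of_ne_zero (by positivity)
  rw [show k + 1 + 1 = k + 2 from rfl] at e2
  have w0 : 0 ≤ (Y' : ℝ) ^ 2 ^ (k + 2) := by positivity
  generalize (Y' : ℝ) ^ 2 ^ (k + 2) = w at e2 hv' w0
  rw [hn] at e1 e2 ⊢
  rw [Nat.add_sub_cancel] at e1
  have l1 : 1 ≤ L ^ (n + 1) := one_le_pow₀ hL
  have v0 : 0 ≤ v := le_trans (by positivity) hv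
  have u0 : 0 ≤ u := le_trans (by positivity) hu
  have b1 : L ^ (n + 1) * (Q + Y') * (1 / Y + 1 / Y') + w ≤ L ^ (n + 1) * v * (3 / Y) := by
    have c1 : (1 : ℝ) / Y + 1 / Y' ≤ 2 / Y := by
      have := one_div_le_one_div_of_le (by linarith) y2
      calc (1 : ℝ) / Y + 1 / Y' ≤ 1 / Y + 1 / Y := by linarith
        _ = 2 / Y := by ring
    have c2 : L ^ (n + 1) * (Q + Y') * (1 / Y + 1 / Y') ≤ L ^ (n + 1) * v * (2 / Y) := by
      gcongr
      linarith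
    have c3 : w ≤ L ^ (n + 1) * v * (1 / Y) := by
      rw [mul_one_div, le_div_iff₀ (by linarith)]
      exact hv'.trans (le_mul_of_one_le_left v0 l1)
    calc _ ≤ L ^ (n + 1) * v * (2 / Y) + L ^ (n + 1) * v * (1 / Y) := add_le_add c2 c3
      _ = _ := by ring
  have b2 := e2.trans (show _ ≤ |C| * (Y' : ℝ) ^ (2 * (k + 1)) * (L ^ (n + 1) * v * (3 / Y)) by
    gcongr
    exact le_abs_self C)
  have b3 := (e1.trans (mul_le_mul_of_nonneg_left b2 (by positivity))).trans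
    (show _ ≤ (u * v) ^ n * u * (|C| * (Y' : ℝ) ^ (2 * (k + 1)) * (L ^ (n + 1) * v * (3 / Y))) by gcongr)
  refine le_of_mul_le_mul_right (b3.trans_eq ?_) (by positivity : 0 < (Y' : ℝ) ^ (2 * (k + 1)))
  ring

theorem per_eq {Per : ℤ → ℝ} {D : ℕ} (h : ∀ q, Per (q + D) = Per q) (q j : ℤ) :
    Per (q + D * j) = Per q := by
  have := (Function.Periodic.int_mul (f := Per) (c := (D : ℤ)) h j) q
  rwa [Int.cast_id, mul_comm] at this

theorem ev_small (k : ℕ) (C : ℝ) : ∀ᶠ Y : ℕ in atTop,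
    C / Y ≤ ((Y : ℝ) ^ (-(1 / 2 ^ (k + 2)) : ℝ)) ^ 2 ^ (k + 1) := by
  have h := ((tendsto_rpow_atTop (by norm_num : (0 : ℝ) < 1 / 2)).comp
    tendsto_natCast_atTop_atTop).eventually_ge_atTop C
  filter_upwards [h, eventually_ge_atTop 1] with Y h1 h2
  have h0 : (0 : ℝ) < Y := by exact_mod_cast h2
  rw [div_le_iff₀ h0, ← Real.rpow_natCast, ← Real.rpow_mul h0.le, ← Real.rpow_add_one h0.ne']
  refine h1.trans_eq ?_
  simp only [Function.comp]
  congr 1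
  push_cast
  field_simp
  ring

theorem size {k a lo Y' D R : ℕ} (hlo : 2 ^ (k + 2) + 2 * a + 10 ≤ lo) (hY : 2 * k + 3 ≤ Y')
    (hD : 1 ≤ D) (hD' : D ≤ Y' ^ a) (hR : Y' ^ lo ≤ R) :
    1 + 2 * (k + 1) * (Y' : ℝ) ^ (a + 1) ≤ R / D ∧ (Y' : ℝ) ^ 2 ^ (k + 2) * Y' ≤ R / D := by
  have h0 : (0 : ℝ) < D := by exact_mod_cast hD
  have key : ∀ n : ℕ, n + a ≤ lo → (Y' : ℝ) ^ n ≤ R / D := fun n hn => by
    rw [le_div_iff₀ h0]
    have : Y' ^ n * D ≤ R := (Nat.mul_le_mul_left _ hD').trans (by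
      rw [← pow_add]
      exact (Nat.pow_le_pow_right (by omega) hn).trans hR)
    exact_mod_cast this
  have hp : 0 ≤ 2 ^ (k + 2) := Nat.zero_le _
  refine ⟨le_trans ?_ (key (a + 2) (by omega)), ?_⟩
  · have h3 : (2 * k + 3 : ℝ) ≤ Y' := by exact_mod_cast hY
    have h4 : (0 : ℝ) ≤ k := Nat.cast_nonneg k
    have h5 : (1 : ℝ) ≤ (Y' : ℝ) ^ (a + 1) := one_le_pow₀ (by linarith)
    calc 1 + 2 * (k + 1) * (Y' : ℝ) ^ (a + 1) ≤ (2 * k + 3) * (Y' : ℝ) ^ (a + 1) := by linarith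
      _ ≤ Y' * (Y' : ℝ) ^ (a + 1) := by gcongr
      _ = _ := by ring
  · rw [← pow_succ]
    exact key _ (by omega)

end Pair

open Pair in
theorem pair : MERStmt → SHIStmt → CENStmt → PAIRStmt := by
  intro hM hS hC k a lo hi κ hlo
  obtain ⟨C₁, c1, h1⟩ := sum_inv hM
  obtain ⟨C₂, c2, h2⟩ := one_class hS hC k
  obtain ⟨L, hL⟩ : ∃ L : ℝ, L = 1 + (κ * hi : ℕ) + (κ + C₁) := ⟨_, rfl⟩
  have hL1 : 1 ≤ L := by
    have : (0 : ℝ) ≤ (κ * hi : ℕ) + (κ + C₁) := by positivity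
    linarith
  filter_upwards [eventually_ge_atTop (2 * k + 3), ev_small k ((4 * L) ^ 2 ^ (k + 1) * C₂)]
    with Y hY hs
  intro Y' R Q D m P c A B ψ Per ρ a1 a2 a3 a4 a5 a6 a7 a8 a9 a10 a11 a12 a13 a14 a15 a16
  obtain ⟨η, hη⟩ : ∃ η : ℝ, η = (Y : ℝ) ^ (-(1 / 2 ^ (k + 2)) : ℝ) := ⟨_, rfl⟩
  have η0 : 0 ≤ η := by rw [hη]; positivity
  rw [← hη] at hs ⊢
  have d0 : (0 : ℝ) < D := by exact_mod_cast a6
  have sR := size hlo (hY.trans a1) a6 a7 a3
  have sQ := size hlo (hY.trans a1) a6 a7 a4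
  have z0 : (0 : ℝ) ≤ R / D * (Q / D) :=
    mul_nonneg (div_nonneg (Nat.cast_nonneg _) d0.le) (div_nonneg (Nat.cast_nonneg _) d0.le)
  have key : ∀ r₀ ∈ Icc 1 D, ∀ q₀ ∈ Icc 1 D,
      |∑ i ∈ Ico (0 : ℤ) (0 + ((R + D - r₀) / D : ℕ)), ∑ j ∈ Ico (0 : ℤ) (0 + ((Q + D - q₀) / D : ℕ)),
        Per (q₀ + D * j) * (∏ m, ψ m (A m * (r₀ + D * i) + B m * (q₀ + D * j))) *
          kc P c (q₀ + D * j)| ≤
        if (q₀ : ℤ) ≡ ρ r₀ [ZMOD m] then R / D * (Q / D) * η else 0 := by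
    intro r₀ hr q₀ hq
    split_ifs with hc
    · have e := h2 a Y Y' ((R + D - r₀) / D) ((Q + D - q₀) / D) D q₀ P c A B
        (fun m x => ψ m (A m * r₀ + B m * q₀ + D * x)) L (2 * (R / D)) (2 * (Q / D)) (by omega) a1
        a9 a10 a11 (fun _ _ => a12 _ _) hL1
        (fun j hj => by
          obtain ⟨x, e, x1, x2⟩ := mem_len a6 hq hj
          rw [e]
          have b1 : ((P.filter (· ∣ x)).card : ℝ) ≤ (κ * hi : ℕ) := by
            exact_mod_cast card_dvd (by omega) (fun s hs => ⟨(a9 s hs).1, (a9 s hs).2.1⟩) x1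
              (x2.trans (a5.trans (by rw [pow_mul]; exact Nat.pow_le_pow_left a2 _)))
          have b2 := h1 κ Y Y' P (by omega) a1 a2 fun s hs =>
            ⟨(a9 s hs).1, (a9 s hs).2.1, (a9 s hs).2.2.1⟩
          have b3 := sum_abs (x := x) P
          linarith)
        (by have := len_le a6 R (r₀ := r₀); linarith [sR.1])
        (by have := len_le a6 Q (r₀ := q₀); linarith [sQ.1])
        (by
          have y2 : (Y : ℝ) ≤ Y' := by exact_mod_cast a1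
          have y3 : (0 : ℝ) ≤ Q / D := div_nonneg (Nat.cast_nonneg _) d0.le
          exact ((mul_le_mul_of_nonneg_left y2 (pow_nonneg (Nat.cast_nonneg _) _)).trans sQ.2).trans
            (le_mul_of_one_le_left y3 one_le_two))
      have e' := e.trans (show _ ≤ ((R : ℝ) / D * (Q / D) * η) ^ 2 ^ (k + 1) by
        generalize 2 ^ (k + 1) = n at hs ⊢
        calc _ = ((R : ℝ) / D * (Q / D)) ^ n * ((4 * L) ^ n * C₂ / Y) := by
              rw [show 2 * ((R : ℝ) / D) * (2 * (Q / D)) * L = R / D * (Q / D) * (4 * L) by ring,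
                mul_pow _ (4 * L)]
              ring
          _ ≤ _ := by
              rw [mul_pow _ η]
              exact mul_le_mul_of_nonneg_left hs (pow_nonneg z0 _))
      rw [← Even.pow_abs ⟨2 ^ k, by ring⟩] at e'
      have e'' := (pow_le_pow_iff_left₀ (abs_nonneg _) (mul_nonneg z0 η0) (by positivity)).1 e'
      simp only [per_eq a14, mul_assoc, ← mul_sum]
      rw [abs_mul]
      refine (mul_le_of_le_one_left (abs_nonneg _) (a13 _)).trans ?_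
      rw [← mul_assoc]
      refine le_of_eq_of_le ?_ e''
      congr 1
      refine sum_congr rfl fun i _ => sum_congr rfl fun j _ => ?_
      congr 1
      refine prod_congr rfl fun m _ => ?_
      congr 1
      ring
    · rw [sum_eq_zero fun i _ => sum_eq_zero fun j _ => ?_, abs_zero]
      by_contra h0
      have h3 := a16 _ _ fun l => prod_ne_zero_iff.1 (right_ne_zero_of_mul (left_ne_zero_of_mul h0))
        l (mem_univ l)
      rw [a15 _ r₀ (by simp [Int.ModEq])] at h3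
      refine hc (Int.ModEq.trans ?_ h3)
      exact (Int.modEq_iff_dvd.2 (by simpa using (Int.natCast_dvd_natCast.2 a8).mul_right j))
  have e1 := split a6 R fun r => ∑ q ∈ Icc 1 Q, Per q * (∏ i, ψ i (A i * r + B i * q)) * kc P c q
  have e2 := fun r : ℤ => split a6 Q fun q => Per q * (∏ i, ψ i (A i * r + B i * q)) * kc P c q
  rw [e1]
  simp only [e2]
  refine (abs_sum_le_sum_abs _ _).trans ((sum_le_sum (g := fun _ => D / m * (R / D * (Q / D) * η))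
    fun r₀ hr => ?_).trans_eq ?_)
  · rw [sum_comm]
    refine (abs_sum_le_sum_abs _ _).trans ((sum_le_sum fun q₀ hq => key r₀ hr q₀ hq).trans ?_)
    rw [← sum_filter, sum_const, nsmul_eq_mul]
    exact mul_le_mul_of_nonneg_right (card_class a6 a8 _) (mul_nonneg z0 η0)
  · rw [sum_const, Nat.card_Icc, Nat.add_sub_cancel, nsmul_eq_mul]
    field_simp

end Pool.Agent.MP_a43263_nt.RG

end
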