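import Mathlib.Analysis.Complex.ExponentialBounds
import Mathlib.Analysis.PSeries
import Pool.Agent.MP_a43263_nt.RG.Basic

/-! PROJECT RANKG: one new prime contracts the kernel on average; the Lyapunov function. -/

set_option autoImplicit false

noncomputable section

namespace Pool.Agent.MP_a43263_nt.RG

open Finset Filter
open R2 (Sgn chi Ker sg pri PP chs MERStmt mem_pri mem_PP mem_Ker symmDiff_mem_Ker prod_sgn
  Ker_card_le PP_union PP_eq_pri)

variable {n : ℕ}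

namespace Step

theorem sum_tags (F : Fin 3 → ℝ) :
    ∑ h ∈ (univ : Finset (Ix n)).image tg, F h.1 = n * (F 0 + F 1 + F 2) := by
  rw [sum_image fun _ _ _ _ e => tg_injective e, Fintype.sum_prod_type]
  simp [tg_cls, Fin.sum_univ_three]
  ring

/-- the row of a new prime on the kernel -/
theorem row (hK : KCStmt) (dg : Gen n → ℤ) {V x : Finset (Gen n)} (hV : Nice V)
    (hx : x ∈ Ker (gp dg) V) (h : Tag n) {p : ℕ} (hp : p.Prime) (h2 : p ≠ 2)
    (hn : ∀ a ∈ V, a.2 ≠ p) : ∏ a ∈ x, gp dg a (h, p) = jacobiSym (Gv h.1 x) p :=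
  (hK n).1 dg V x (h, p) (hV.insert hp h2 hn) (fun k => hn _ k rfl)
    (fun e => hp.ne_one (Prod.mk.inj e).2) h2 (mem_Ker.1 hx).1 ((mem_Ker.1 hx).2 _ hV.neg)

/-- the vectors of the kernel that live in one class -/
def Kj (dg : Gen n → ℤ) (V : Finset (Gen n)) (j : Fin 3) : Finset (Finset (Gen n)) :=
  (Ker (gp dg) V).filter fun x => Gv j x = 1

theorem Kj_mul (hK : KCStmt) (dg : Gen n → ℤ) {V : Finset (Gen n)} (hV : Nice V) {i j : Fin 3}
    (hij : i ≠ j) : (Kj dg V i).card * (Kj dg V j).card ≤ (Ker (gp dg) V).card := by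
  have key : ∀ {k : Fin 3} {x : Finset (Gen n)}, x ∈ Kj dg V k → ∀ a ∈ x, a.1.1 = k := fun hx =>
    ((hK n).2.2.1 V _ _ hV (mem_Ker.1 (mem_filter.1 hx).1).1).2.1 (mem_filter.1 hx).2
  rw [← card_product]
  refine card_le_card_of_injOn (fun p => symmDiff p.1 p.2) (fun p hp => ?_) ?_
  · obtain ⟨h1, h2⟩ := mem_product.1 hp
    exact symmDiff_mem_Ker (gp_sgn dg) (mem_filter.1 h1).1 (mem_filter.1 h2).1
  · intro p hp q hq e
    obtain ⟨h1, h2⟩ := mem_product.1 hp
    obtain ⟨h3, h4⟩ := mem_product.1 hq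
    have e' : ∀ a, a ∈ symmDiff p.1 p.2 ↔ a ∈ symmDiff q.1 q.2 := fun a => by
      rw [show symmDiff p.1 p.2 = symmDiff q.1 q.2 from e]
    simp only [mem_symmDiff] at e'
    have hp : ∀ {A B C D : Prop}, (A ∧ ¬B ∨ B ∧ ¬A ↔ C ∧ ¬D ∨ D ∧ ¬C) → ¬(A ∧ B) → ¬(C ∧ D) →
        ¬(A ∧ D) → ¬(C ∧ B) → (A ↔ C) ∧ (B ↔ D) := by
      intros
      tauto
    have := fun a => hp (e' a) (fun h => hij ((key h1 a h.1).symm.trans (key h2 a h.2)))
      (fun h => hij ((key h3 a h.1).symm.trans (key h4 a h.2)))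
      (fun h => hij ((key h1 a h.1).symm.trans (key h4 a h.2)))
      fun h => hij ((key h3 a h.1).symm.trans (key h2 a h.2))
    exact Prod.ext (Finset.ext fun a => (this a).1) (Finset.ext fun a => (this a).2)

theorem three {n a b c : ℝ} (hn : 10000 ≤ n) (ha : a ≤ n) (hb : b ≤ n) (hc : c ≤ n)
    (h1 : a * b ≤ n) (h2 : a * c ≤ n) (h3 : b * c ≤ n) : a + b + c ≤ 1.02 * n := by
  have key : ∀ x y : ℝ, x * y ≤ n → x ≤ n / 100 ∨ y ≤ n / 100 := by
    intro x y h
    by_contra hh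
    push Not at hh
    have := mul_lt_mul'' hh.1 hh.2 (by linarith) (by linarith)
    nlinarith
  rcases key _ _ h1 with k1 | k1 <;> rcases key _ _ h2 with k2 | k2 <;>
    rcases key _ _ h3 with k3 | k3 <;> linarith

theorem one (hB : BORStmt) (dg : Gen n → ℤ) (V : Finset (Gen n)) {b : Gen n} (hb : b ∉ V) :
    √((Ker (gp dg) (insert b V)).card) * (Ker (gp dg) V).card ≤
      0.71 * √((Ker (gp dg) V).card) * ((Ker (gp dg) V).card +
        ((∑ x ∈ Ker (gp dg) V, ∏ a ∈ x, gp dg a b : ℤ) : ℝ)) := by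
  obtain ⟨b1, b2, b3, -⟩ := hB _ _ (gp_sgn dg) V
  have s0 := Real.sqrt_nonneg ((Ker (gp dg) V).card : ℝ)
  have s1 := Real.sq_sqrt (Nat.cast_nonneg (α := ℝ) (Ker (gp dg) V).card)
  have s2 := Nat.cast_nonneg (α := ℝ) (Ker (gp dg) V).card
  rw [b3 b]
  split_ifs with h
  · have h1 := b1 {b}
    rw [union_comm, ← insert_eq, card_singleton, pow_one] at h1
    have h2 : ((Ker (gp dg) (insert b V)).card : ℝ) ≤ 2 * (Ker (gp dg) V).card := by
      exact_mod_cast h1
    have h3 : √((Ker (gp dg) (insert b V)).card) ≤ 1.42 * √((Ker (gp dg) V).card) :=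
      Real.sqrt_le_iff.2 ⟨by positivity, by rw [mul_pow, s1]; linarith⟩
    have := mul_le_mul_of_nonneg_right h3 s2
    push_cast
    linarith
  · push Not at h
    obtain ⟨x, hx, h⟩ := h
    have h1 := b2 b hb ⟨x, hx, (prod_sgn x fun a _ => (gp_sgn dg).2 a b).resolve_left h⟩
    have h2 : 2 * ((Ker (gp dg) (insert b V)).card : ℝ) = (Ker (gp dg) V).card := by
      exact_mod_cast h1
    have h3 : √((Ker (gp dg) (insert b V)).card) ≤ 0.71 * √((Ker (gp dg) V).card) :=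
      Real.sqrt_le_iff.2 ⟨by positivity, by rw [mul_pow, s1]; linarith⟩
    have := mul_le_mul_of_nonneg_right h3 s2
    push_cast
    linarith

end Step

theorem step : BORStmt → KCStmt → STEPStmt := by
  intro hB hK n dg V P w hV hP hn hch
  set N : ℝ := ((Ker (gp dg) V).card : ℝ) with hnd
  set δ := ∑ p ∈ P, w p with hδ
  have hδ0 : 0 ≤ δ := sum_nonneg fun p hp => (hP p hp).2.2.1
  have hn' : 10000 ≤ N := by rw [hnd]; exact_mod_cast hn
  have s0 := Real.sqrt_nonneg N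
  have tag : ∀ h : Tag n, (∑ p ∈ P, w p * √((Ker (gp dg) (insert (h, p) V)).card)) * N ≤
      0.71 * √N * (δ * (1.01 * N + (Step.Kj dg V h.1).card)) := by
    intro h
    have e1 : (∑ p ∈ P, w p * √((Ker (gp dg) (insert (h, p) V)).card)) * N ≤
        ∑ p ∈ P, 0.71 * √N * (w p * N +
          ∑ x ∈ Ker (gp dg) V, w p * jacobiSym (Gv h.1 x) p) := by
      rw [sum_mul]
      refine sum_le_sum fun p hp => ?_
      obtain ⟨p1, p2, p3, p4⟩ := hP p hp
      have := mul_le_mul_of_nonneg_left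
        (Step.one hB dg V (b := (h, p)) fun k => p4 _ k rfl) p3
      rw [sum_congr rfl fun x hx => Step.row hK dg hV hx h p1 p2 p4] at this
      push_cast at this
      rw [← mul_sum]
      linarith
    have e2 : ∑ p ∈ P, ∑ x ∈ Ker (gp dg) V, w p * (jacobiSym (Gv h.1 x) p : ℝ) ≤
        δ * (0.01 * N + (Step.Kj dg V h.1).card) := by
      rw [sum_comm]
      have : ∀ x ∈ Ker (gp dg) V, ∑ p ∈ P, w p * (jacobiSym (Gv h.1 x) p : ℝ) ≤
          δ / 100 + if Gv h.1 x = 1 then δ else 0 := by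
        intro x hx
        split_ifs with e
        · rw [e]
          simp only [jacobiSym.one_left, Int.cast_one, mul_one]
          linarith
        · linarith [(abs_le.1 (hch x (mem_Ker.1 hx).1 _ e)).2]
      refine (sum_le_sum this).trans (le_of_eq ?_)
      rw [sum_add_distrib, ← sum_filter, sum_const, sum_const, nsmul_eq_mul, nsmul_eq_mul]
      simp only [Step.Kj]
      ring
    rw [← mul_sum, sum_add_distrib, ← sum_mul] at e1
    refine e1.trans (mul_le_mul_of_nonneg_left ?_ (by positivity))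
    linarith
  have e3 := sum_le_sum fun h (_ : h ∈ (univ : Finset (Ix n)).image tg) => tag h
  rw [← sum_mul, Step.sum_tags fun j => 0.71 * √N * (δ * (1.01 * N + (Step.Kj dg V j).card))]
    at e3
  have kl : ∀ j, ((Step.Kj dg V j).card : ℝ) ≤ N := fun j =>
    Nat.cast_le.2 (card_filter_le _ _)
  have km : ∀ i j, i ≠ j → ((Step.Kj dg V i).card : ℝ) * (Step.Kj dg V j).card ≤ N :=
    fun i j h => by rw [hnd]; exact_mod_cast Step.Kj_mul hK dg hV h
  have e4 := Step.three hn' (kl 0) (kl 1) (kl 2) (km 0 1 (by decide)) (km 0 2 (by decide))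
    (km 1 2 (by decide))
  rw [TT, sum_product]
  refine le_of_mul_le_mul_right (e3.trans ?_) (by linarith : 0 < N)
  have e5 := mul_le_mul_of_nonneg_left e4
    (mul_nonneg (Nat.cast_nonneg (α := ℝ) n) (mul_nonneg s0 hδ0))
  have e6 : 0 ≤ n * (√N * δ) * N := by positivity
  nlinarith

namespace Lya

theorem sum_split {S T : Finset (Gen n)} (h : Disjoint S T) (F : Finset (Gen n) → ℝ) :
    ∑ W ∈ (S ∪ T).powerset, F W = ∑ U ∈ S.powerset, ∑ A ∈ T.powerset, F (U ∪ A) := by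
  rw [← sum_product']
  refine sum_nbij' (fun W => (W ∩ S, W ∩ T)) (fun p => p.1 ∪ p.2) ?_ ?_ ?_ ?_ ?_
  · intro W _
    simp
  · intro p hp
    obtain ⟨h1, h2⟩ := mem_product.1 hp
    exact mem_powerset.2 (union_subset_union (mem_powerset.1 h1) (mem_powerset.1 h2))
  · intro W hW
    show W ∩ S ∪ W ∩ T = W
    rw [← inter_union_distrib_left, inter_eq_left.2 (mem_powerset.1 hW)]
  · intro p hp
    obtain ⟨h1, h2⟩ := mem_product.1 hp
    have h1 := mem_powerset.1 h1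
    have h2 := mem_powerset.1 h2
    refine Prod.ext ?_ ?_
    · show (p.1 ∪ p.2) ∩ S = p.1
      rw [union_inter_distrib_right, inter_eq_left.2 h1,
        disjoint_iff_inter_eq_empty.1 (h.symm.mono_left h2), union_empty]
    · show (p.1 ∪ p.2) ∩ T = p.2
      rw [union_inter_distrib_right, inter_eq_left.2 h2,
        disjoint_iff_inter_eq_empty.1 (h.mono_left h1), empty_union]
  · intro W hW
    show F W = F (W ∩ S ∪ W ∩ T)
    rw [← inter_union_distrib_left, inter_eq_left.2 (mem_powerset.1 hW)]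

theorem one_add_sum_le (T : Finset (Gen n)) (w : Gen n → ℝ) (hw : ∀ b ∈ T, 0 ≤ w b) :
    1 + ∑ b ∈ T, w b ≤ ∏ b ∈ T, (1 + w b) := by
  induction T using Finset.induction_on with
  | empty => simp
  | insert a T ha ih =>
    rw [sum_insert ha, prod_insert ha]
    have h1 := ih fun b hb => hw b (mem_insert_of_mem hb)
    have h2 := hw a (mem_insert_self _ _)
    have h3 : 0 ≤ ∑ b ∈ T, w b := sum_nonneg fun b hb => hw b (mem_insert_of_mem hb)
    nlinarith

/-- the size of the kernel -/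
def kk (dg : Gen n → ℤ) (V : Finset (Gen n)) : ℝ := √((Ker (gp dg) V).card)

theorem kk_nonneg (dg : Gen n → ℤ) (V : Finset (Gen n)) : 0 ≤ kk dg V := Real.sqrt_nonneg _

theorem kk_union (hB : BORStmt) (dg : Gen n → ℤ) (V A : Finset (Gen n)) :
    kk dg (V ∪ A) ≤ √2 ^ A.card * kk dg V := by
  have h : ((Ker (gp dg) (V ∪ A)).card : ℝ) ≤ 2 ^ A.card * (Ker (gp dg) V).card := by
    exact_mod_cast (hB _ _ (gp_sgn dg) V).1 A
  refine Real.sqrt_le_iff.2 ⟨mul_nonneg (by positivity) (kk_nonneg dg V), ?_⟩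
  rw [mul_pow, ← pow_mul, mul_comm A.card, pow_mul, Real.sq_sqrt (by norm_num), kk,
    Real.sq_sqrt (by positivity)]
  exact h

theorem kk_le (dg : Gen n → ℤ) (V W : Finset (Gen n)) :
    kk dg (V ∪ W) ≤ 2 ^ V.card * 2 ^ W.card := by
  have h : ((Ker (gp dg) (V ∪ W)).card : ℝ) ≤ 2 ^ V.card * 2 ^ W.card := by
    have := (Ker_card_le (g := gp dg) (V ∪ W)).trans
      (Nat.pow_le_pow_right (by norm_num) (card_union_le V W))
    rw [pow_add] at this
    exact_mod_cast this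
  have h1 : (1 : ℝ) ≤ 2 ^ V.card * 2 ^ W.card :=
    one_le_mul_of_one_le_of_one_le (one_le_pow₀ (by norm_num)) (one_le_pow₀ (by norm_num))
  refine Real.sqrt_le_iff.2 ⟨by positivity, h.trans ?_⟩
  nlinarith

/-- the average over the new primes, in terms of the average over one new prime -/
theorem avg (hB : BORStmt) (dg : Gen n → ℤ) (V : Finset (Gen n)) (P : Finset ℕ)
    (hP : ∀ p ∈ P, 0 ≤ wt n p) (hm : 3 * n * ∑ p ∈ P, wt n p ≤ 0.007) :
    ∑ A ∈ (TT n P).powerset, Wt A * kk dg (V ∪ A) ≤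
      (1 + 2 * (3 * n * ∑ p ∈ P, wt n p) ^ 2) * kk dg V +
        ∑ b ∈ TT n P, wt n b.2 * kk dg (insert b V) := by
  set m := 3 * n * ∑ p ∈ P, wt n p with hmd
  have hw : ∀ b ∈ TT n P, 0 ≤ wt n b.2 := fun b hb => hP _ (mem_TT.1 hb).2
  have hm0 : 0 ≤ m := mul_nonneg (by positivity) (sum_nonneg hP)
  have hs : ∑ b ∈ TT n P, wt n b.2 = m := sum_TT P (wt n)
  have h2 : √2 ≤ 2 := Real.sqrt_le_iff.2 (by norm_num)
  have h20 : 0 ≤ √2 := Real.sqrt_nonneg 2
  have hQ : ∑ A ∈ (TT n P).powerset, Wt A * √2 ^ A.card ≤ 1 + √2 * m + 2 * m ^ 2 := by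
    have e1 : ∑ A ∈ (TT n P).powerset, Wt A * √2 ^ A.card =
        ∏ b ∈ TT n P, (1 + √2 * wt n b.2) := by
      rw [prod_one_add]
      refine sum_congr rfl fun A _ => ?_
      rw [prod_mul_distrib, prod_const, mul_comm]
      rfl
    have e2 : ∏ b ∈ TT n P, (1 + √2 * wt n b.2) ≤ Real.exp (√2 * m) := by
      rw [← hs, mul_sum, Real.exp_sum]
      refine prod_le_prod (fun b hb => ?_) fun b _ => ?_
      · have := mul_nonneg h20 (hw b hb)
        linarith
      · linarith [Real.add_one_le_exp (√2 * wt n b.2)]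
    have e3 := Real.abs_exp_sub_one_sub_id_le (x := √2 * m) (by
      rw [abs_of_nonneg (mul_nonneg h20 hm0)]
      nlinarith)
    rw [mul_pow, Real.sq_sqrt (by norm_num)] at e3
    rw [e1]
    linarith [(abs_le.1 e3).2]
  have h3 : ∑ b ∈ TT n P, wt n b.2 * (√2 * kk dg V - kk dg (insert b V)) ≤
      ∑ A ∈ (TT n P).powerset, Wt A * (√2 ^ A.card * kk dg V - kk dg (V ∪ A)) := by
    have := sum_le_sum_of_subset_of_nonneg
      (f := fun A => Wt A * (√2 ^ A.card * kk dg V - kk dg (V ∪ A)))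
      (s := (TT n P).map ⟨singleton, singleton_injective⟩) (t := (TT n P).powerset)
      (fun A hA => by
        obtain ⟨b, hb, rfl⟩ := mem_map.1 hA
        exact mem_powerset.2 (singleton_subset_iff.2 hb))
      (fun A hA _ => mul_nonneg (prod_nonneg fun b hb => hw b (mem_powerset.1 hA hb))
        (sub_nonneg.2 (kk_union hB dg V A)))
    rw [sum_map] at this
    refine le_trans (le_of_eq (sum_congr rfl fun b _ => ?_)) this
    simp [Wt]
  simp only [mul_sub, sum_sub_distrib, ← mul_assoc, ← sum_mul] at h3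
  rw [hs] at h3
  have h4 := mul_le_mul_of_nonneg_right hQ (kk_nonneg dg V)
  linarith

theorem avg_triv (hB : BORStmt) (dg : Gen n → ℤ) (V : Finset (Gen n)) (P : Finset ℕ)
    (hP : ∀ p ∈ P, 0 ≤ wt n p) (hm : 3 * n * ∑ p ∈ P, wt n p ≤ 0.007) :
    ∑ A ∈ (TT n P).powerset, Wt A * kk dg (V ∪ A) ≤ 2 * kk dg V := by
  have h1 := avg hB dg V P hP hm
  have h2 : √2 ≤ 2 := Real.sqrt_le_iff.2 (by norm_num)
  have h3 : ∑ b ∈ TT n P, wt n b.2 * kk dg (insert b V) ≤
      ∑ b ∈ TT n P, wt n b.2 * (2 * kk dg V) := by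
    refine sum_le_sum fun b hb => mul_le_mul_of_nonneg_left ?_ (hP _ (mem_TT.1 hb).2)
    have := kk_union hB dg V {b}
    rw [union_comm, ← insert_eq, card_singleton, pow_one] at this
    exact this.trans (mul_le_mul_of_nonneg_right h2 (kk_nonneg dg V))
  rw [← sum_mul, sum_TT P (wt n)] at h3
  have hm0 : 0 ≤ 3 * n * ∑ p ∈ P, wt n p := mul_nonneg (by positivity) (sum_nonneg hP)
  have h4 := kk_nonneg dg V
  set m := 3 * n * ∑ p ∈ P, wt n p
  have h5 : (1 + 2 * m ^ 2) + 2 * m ≤ 2 := by nlinarith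
  nlinarith

theorem chs_close {M a y : ℕ} (hn : 1 ≤ n) (hM : 0 < M) (hs : Sm n M) (hMa : M ≤ a) (hay : a ≤ y)
    (G : ℤ) : |∑ p ∈ PP M a y, wt n p * jacobiSym G p| ≤ |chs G a y| + 4 * n / a := by
  have hge : ∀ p ∈ pri a y, 12 * n < p := fun p hp => PP_gt hs (PP_eq_pri hM hMa ▸ hp)
  rw [PP_eq_pri hM hMa]
  have e : ∑ p ∈ pri a y, wt n p * jacobiSym G p =
      chs G a y + ∑ p ∈ pri a y, (wt n p - 1 / p) * jacobiSym G p := by
    rw [chs, ← sum_add_distrib]
    exact sum_congr rfl fun p _ => by ring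
  rw [e]
  refine (abs_add_le _ _).trans (add_le_add le_rfl ((abs_sum_le_sum_abs _ _).trans ?_))
  have h1 : ∑ p ∈ pri a y, |(wt n p - 1 / p) * jacobiSym G p| ≤
      ∑ p ∈ pri a y, 4 * n * ((p : ℝ) ^ 2)⁻¹ := by
    refine sum_le_sum fun p hp => ?_
    have a1 := le_wt hn (hge p hp)
    have a2 := wt_sub_le (hge p hp)
    have a3 : |(jacobiSym G p : ℝ)| ≤ 1 := by
      rcases jacobiSym.trichotomy G p with h | h | h <;> simp [h]
    rw [abs_mul, abs_of_nonneg (sub_nonneg.2 a1)]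
    exact (mul_le_of_le_one_right (sub_nonneg.2 a1) a3).trans a2
  have h2 : ∑ p ∈ pri a y, 4 * n * ((p : ℝ) ^ 2)⁻¹ ≤ ∑ p ∈ Ioc a y, 4 * n * ((p : ℝ) ^ 2)⁻¹ :=
    sum_le_sum_of_subset_of_nonneg (filter_subset _ _) fun _ _ _ => by positivity
  have h3 := sum_Ioc_inv_sq_le_sub (α := ℝ) (k := a) (n := y) (by omega) hay
  rw [← mul_sum (Ioc a y)] at h2
  have h4 : (0 : ℝ) ≤ (y : ℝ)⁻¹ := by positivity
  rw [div_eq_mul_inv]
  exact h1.trans (h2.trans (mul_le_mul_of_nonneg_left (by linarith) (by positivity)))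

open Classical in
theorem point (hB : BORStmt) (hK : KCStmt) (hS : STEPStmt) {D : Dat n} (hD : D.Ok) {a y : ℕ}
    (hMa : D.M ≤ a) (ha : 400000 * n ^ 2 ≤ a) (hay : a ≤ y)
    (h1 : 0.005 ≤ 3 * n * ∑ p ∈ PP D.M a y, wt n p) (h2 : 3 * n * ∑ p ∈ PP D.M a y, wt n p ≤ 0.007)
    {W : Finset (Gen n)} (hW : W ⊆ TT n (PP D.M 0 a)) (hd : Dist W) :
    ∑ A ∈ (TT n (PP D.M a y)).powerset, Wt A * kk D.dg (D.V0 ∪ W ∪ A) ≤
      0.9999 * Mass n (PP D.M a y) * kk D.dg (D.V0 ∪ W) + 200 +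
        if Exc D.M (0.000001 / n) a y W then 2 * 2 ^ D.V0.card * 2 ^ W.card else 0 := by
  have hP : ∀ p ∈ PP D.M a y, 0 ≤ wt n p := fun p hp => (wt_pos (PP_gt hD.sm hp)).le
  have t1 := avg_triv hB D.dg (D.V0 ∪ W) _ hP h2
  have t2 : 0 ≤ 0.9999 * Mass n (PP D.M a y) * kk D.dg (D.V0 ∪ W) :=
    mul_nonneg (mul_nonneg (by norm_num) (zero_le_one.trans (one_le_Mass hD.sm a y)))
      (kk_nonneg _ _)
  split_ifs with hE
  · have := kk_le D.dg D.V0 W
    linarith
  by_cases hk : (Ker (gp D.dg) (D.V0 ∪ W)).card < 10000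
  · have : kk D.dg (D.V0 ∪ W) ≤ 100 := by
      refine Real.sqrt_le_iff.2 ⟨by norm_num, ?_⟩
      have : ((Ker (gp D.dg) (D.V0 ∪ W)).card : ℝ) ≤ 10000 := by exact_mod_cast hk.le
      linarith
    linarith
  have hn := hD.two
  have hN := hD.nice_TT hd hW
  have s1 := hS n D.dg (D.V0 ∪ W) (PP D.M a y) (wt n) hN
    (fun p hp => by
      have e1 := PP_gt hD.sm hp
      obtain ⟨e2, -, e3, e4⟩ := mem_PP.1 hp
      refine ⟨e3, by omega, hP p hp, fun b hb e => ?_⟩
      rcases mem_union.1 hb with hb | hb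
      · exact e4 (e ▸ (hD.fix b hb).2)
      · have := (mem_PP.1 (mem_TT.1 (hW hb)).2).2.1
        omega) (not_lt.1 hk)
    (fun x hx j hj => by
      have e1 := chs_close (by omega) hD.pos hD.sm hMa hay (Gv j x)
      obtain ⟨k1, -, -, k2⟩ := (hK n).2.2.1 _ x j hN hx
      have e2 : |chs (Gv j x) a y| ≤ 0.000001 / n := not_lt.1 fun h => hE ⟨_, k1, hj, fun p hp => by
        obtain ⟨b, hb, rfl⟩ := k2 p hp
        rcases mem_union.1 (hx hb) with k | k
        · exact .inl (hD.fix b k).2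
        · exact .inr ⟨b.1, k⟩, h⟩
      have n0 : (2 : ℝ) ≤ n := by exact_mod_cast hn
      have e3 : 4 * (n : ℝ) / a ≤ 0.00001 / n := by
        have : 400000 * (n : ℝ) ^ 2 ≤ a := by exact_mod_cast ha
        rw [div_le_div_iff₀ (by nlinarith) (by linarith)]
        linarith
      refine (e1.trans (add_le_add e2 e3)).trans ?_
      rw [← add_div, div_le_iff₀ (by linarith)]
      linarith)
  have s2 := avg hB D.dg (D.V0 ∪ W) _ hP h2
  have s3 : 1 + 3 * n * ∑ p ∈ PP D.M a y, wt n p ≤ Mass n (PP D.M a y) := by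
    rw [← sum_TT _ (wt n), Mass, ← prod_TT _ fun p => 1 + wt n p]
    exact one_add_sum_le _ _ fun b hb => hP _ (mem_TT.1 hb).2
  set m := 3 * n * ∑ p ∈ PP D.M a y, wt n p
  have s4 : 1 + 2 * m ^ 2 + 0.96 * m ≤ 0.9999 * Mass n (PP D.M a y) := by nlinarith
  have s5 := mul_le_mul_of_nonneg_right s4 (kk_nonneg D.dg (D.V0 ∪ W))
  change ∑ b ∈ TT n (PP D.M a y), wt n b.2 * kk D.dg (insert b (D.V0 ∪ W)) ≤
    0.96 * m * kk D.dg (D.V0 ∪ W) at s1
  linarith

open Classical in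
/-- the quantity to be bounded -/
def LL (D : Dat n) (y : ℕ) : ℝ :=
  ∑ W ∈ (TT n (PP D.M 0 y)).powerset.filter Dist, Wt W * kk D.dg (D.V0 ∪ W)

open Classical in
theorem LL_nonneg {D : Dat n} (hD : D.Ok) (y : ℕ) : 0 ≤ LL D y :=
  sum_nonneg fun _ hW =>
    mul_nonneg (Wt_nonneg hD.sm (mem_powerset.1 (mem_filter.1 hW).1)) (kk_nonneg _ _)

open Classical in
theorem recur (hB : BORStmt) (hK : KCStmt) (hS : STEPStmt) {D : Dat n} (hD : D.Ok) {a y : ℕ}
    (hMa : D.M ≤ a) (ha : 400000 * n ^ 2 ≤ a) (hay : a ≤ y)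
    (h1 : 0.005 ≤ 3 * n * ∑ p ∈ PP D.M a y, wt n p) (h2 : 3 * n * ∑ p ∈ PP D.M a y, wt n p ≤ 0.007)
    (hE : ∑ Z ∈ (TT n (PP D.M 0 a)).powerset.filter (Exc D.M (0.000001 / n) a y),
      Wt Z * 2 ^ Z.card ≤ 1) :
    LL D y ≤ 0.9999 * Mass n (PP D.M a y) * LL D a + 200 * Mass n (PP D.M 0 a) +
      2 * 2 ^ D.V0.card := by
  obtain ⟨u1, u2⟩ := PP_union D.M (Nat.zero_le a) hay
  have u3 : TT n (PP D.M 0 y) = TT n (PP D.M 0 a) ∪ TT n (PP D.M a y) := by
    rw [u1, TT, product_union]; rfl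
  have u4 : Disjoint (TT n (PP D.M 0 a)) (TT n (PP D.M a y)) := disjoint_left.2 fun b h h' =>
    disjoint_left.1 u2 (mem_TT.1 h).2 (mem_TT.1 h').2
  have e1 : LL D y ≤ ∑ W ∈ (TT n (PP D.M 0 a)).powerset.filter Dist,
      Wt W * ∑ A ∈ (TT n (PP D.M a y)).powerset, Wt A * kk D.dg (D.V0 ∪ W ∪ A) := by
    rw [LL, sum_filter, u3, sum_split u4, sum_filter]
    refine sum_le_sum fun W hW => ?_
    split_ifs with hd
    · rw [mul_sum]
      refine sum_le_sum fun A hA => ?_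
      have e : Wt (W ∪ A) = Wt W * Wt A :=
        prod_union (u4.mono (mem_powerset.1 hW) (mem_powerset.1 hA))
      split_ifs
      · rw [e, union_assoc, mul_assoc]
      · exact mul_nonneg (Wt_nonneg hD.sm (mem_powerset.1 hW))
          (mul_nonneg (Wt_nonneg hD.sm (mem_powerset.1 hA)) (kk_nonneg _ _))
    · exact (sum_eq_zero fun A _ => if_neg fun h => hd (h.mono subset_union_left)).le
  have e2 := sum_le_sum fun W (hW : W ∈ (TT n (PP D.M 0 a)).powerset.filter Dist) =>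
    mul_le_mul_of_nonneg_left (point hB hK hS hD hMa ha hay h1 h2
      (mem_powerset.1 (mem_filter.1 hW).1) (mem_filter.1 hW).2)
      (Wt_nonneg hD.sm (mem_powerset.1 (mem_filter.1 hW).1))
  refine (e1.trans e2).trans ?_
  simp only [mul_add, sum_add_distrib]
  refine add_le_add (add_le_add (le_of_eq ?_) ?_) ?_
  · rw [LL, mul_sum]
    exact sum_congr rfl fun W _ => by ring
  · rw [← sum_mul, mul_comm, ← sum_Wt]
    exact mul_le_mul_of_nonneg_left (sum_le_sum_of_subset_of_nonneg (filter_subset _ _)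
      fun W hW _ => Wt_nonneg hD.sm (mem_powerset.1 hW)) (by norm_num)
  · have := mul_le_mul_of_nonneg_left hE (show (0 : ℝ) ≤ 2 * 2 ^ D.V0.card by positivity)
    rw [mul_one, mul_sum, sum_filter] at this
    refine le_trans (le_trans (sum_le_sum_of_subset_of_nonneg (filter_subset _ _) fun W hW _ =>
      mul_nonneg (Wt_nonneg hD.sm (mem_powerset.1 hW)) (by split_ifs <;> positivity))
      (le_of_eq (sum_congr rfl fun W _ => ?_))) this
    split_ifs <;> ring

/-- the choice of the previous scale -/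
theorem scale (hm : MERStmt) {M : ℕ} (hn : 1 ≤ n) (hM : 0 < M) (hs : Sm n M) (a₀ : ℕ) :
    ∃ y₁ : ℕ, ∀ y, y₁ ≤ y → ∃ a, a₀ ≤ a ∧ a < y ∧ y ≤ a ^ 3 ∧
      0.005 ≤ 3 * n * ∑ p ∈ PP M a y, wt n p ∧ 3 * n * ∑ p ∈ PP M a y, wt n p ≤ 0.007 := by
  classical
  obtain ⟨C, hC⟩ := hm.1
  obtain ⟨r₀, hr₀⟩ := eventually_atTop.1 ((Real.tendsto_log_atTop.comp
    tendsto_natCast_atTop_atTop).eventually_ge_atTop (2 * |C|))
  refine ⟨(r₀ + a₀ + M + 3000 * n) ^ 2, fun y hy => ?_⟩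
  have hr : r₀ + a₀ + M + 3000 * n ≤ y.sqrt := Nat.le_sqrt'.2 hy
  have r1 := Nat.sqrt_le' y
  have r2 := Nat.lt_succ_sqrt' y
  have r3 := Nat.sqrt_le_self y
  have n0 : (1 : ℝ) ≤ n := by exact_mod_cast hn
  set r := y.sqrt
  have hr0 : 0.005 ≤ 3 * n * ∑ p ∈ PP M r y, wt n p := by
    have e1 : ∑ p ∈ pri r y, (1 : ℝ) / p ≤ ∑ p ∈ PP M r y, wt n p := by
      rw [← PP_eq_pri hM (by omega : M ≤ r)]
      exact sum_le_sum fun p hp => le_wt hn (PP_gt hs hp)
    have e2 := (abs_le.1 (hC r y (by omega) r3)).1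
    have e3 : 2 * |C| ≤ Real.log r := hr₀ r (by omega)
    have e4 : 0 < Real.log r := Real.log_pos (by exact_mod_cast (by omega : 1 < r))
    have e5 : C / Real.log r ≤ 1 / 2 := by
      rw [div_le_iff₀ e4]
      linarith [le_abs_self C]
    have e6 : 2 ≤ Real.log y / Real.log r := by
      rw [le_div_iff₀ e4]
      have := Real.log_le_log (pow_pos (Nat.cast_pos.2 (by omega)) 2)
        (show (r : ℝ) ^ 2 ≤ y by exact_mod_cast r1)
      rw [Real.log_pow] at this
      exact_mod_cast this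
    have e7 := Real.log_le_log (by norm_num) e6
    have e8 : 0.1 ≤ ∑ p ∈ PP M r y, wt n p := by linarith [Real.log_two_gt_d9]
    nlinarith
  let a := Nat.findGreatest (fun a => 0.005 ≤ 3 * n * ∑ p ∈ PP M a y, wt n p) y
  have a1 : r ≤ a := Nat.le_findGreatest r3 hr0
  have a2 : 0.005 ≤ 3 * n * ∑ p ∈ PP M a y, wt n p :=
    Nat.findGreatest_spec (P := fun a => 0.005 ≤ 3 * n * ∑ p ∈ PP M a y, wt n p) r3 hr0
  have a3 : a ≤ y := Nat.findGreatest_le y
  have a4 : a < y := by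
    refine lt_of_le_of_ne a3 fun e => ?_
    rw [e, eq_empty_of_forall_notMem (s := PP M y y) fun p hp => by
      have := mem_PP.1 hp
      omega] at a2
    norm_num at a2
  have a5 : ¬ 0.005 ≤ 3 * n * ∑ p ∈ PP M (a + 1) y, wt n p :=
    Nat.findGreatest_is_greatest (P := fun a => 0.005 ≤ 3 * n * ∑ p ∈ PP M a y, wt n p)
      (Nat.lt_succ_self a) a4
  refine ⟨a, by omega, a4, ?_, a2, ?_⟩
  · have := Nat.pow_le_pow_left a1 3
    have h6 : 3000 ≤ r := by omega
    have : r.succ ^ 2 ≤ r ^ 3 := by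
      rw [Nat.succ_eq_add_one]
      nlinarith [Nat.mul_le_mul_left (r * r) h6]
    omega
  · have b1 : 12 * n < a + 1 := by omega
    have b2 : ∑ p ∈ PP M a y, wt n p ≤ ∑ p ∈ insert (a + 1) (PP M (a + 1) y), wt n p := by
      refine sum_le_sum_of_subset_of_nonneg (fun p hp => ?_) fun p hp _ => ?_
      · obtain ⟨k1, k2⟩ := mem_PP.1 hp
        by_cases e : p = a + 1
        · exact mem_insert.2 (.inl e)
        · exact mem_insert_of_mem (mem_PP.2 ⟨by omega, k2⟩)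
      · rcases mem_insert.1 hp with rfl | hp
        · exact (wt_pos b1).le
        · exact (wt_pos (PP_gt hs hp)).le
    rw [sum_insert fun h => lt_irrefl _ (mem_PP.1 h).1] at b2
    have b3 : wt n (a + 1) ≤ 2 / (3000 * n) := by
      refine (wt_le b1).trans (div_le_div_of_nonneg_left (by norm_num) (by positivity) ?_)
      exact_mod_cast (by omega : 3000 * n ≤ a + 1)
    rw [le_div_iff₀ (by positivity)] at b3
    have b4 := mul_le_mul_of_nonneg_left b2 (show (0 : ℝ) ≤ 3 * n by positivity)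
    linarith

end Lya

theorem lya : BORStmt → KCStmt → MERStmt → EXPStmt → STEPStmt → LYAStmt := by
  intro hB hK hm hE hS n D hD
  have hn := hD.two
  obtain ⟨a₀, ha₀⟩ := eventually_atTop.1 (hE n D.M 3 (0.000001 / n) 1 hD.pos hD.sm
    (div_pos (by norm_num) (Nat.cast_pos.2 (by omega))) one_pos)
  obtain ⟨y₁, hy₁⟩ := Lya.scale hm (by omega) hD.pos hD.sm (a₀ + D.M + 400000 * n ^ 2)
  set C : ℝ := 10000 * (200 + 2 * 2 ^ D.V0.card) + ∑ y ∈ range y₁, Lya.LL D y with hC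
  have hsum : 0 ≤ ∑ y ∈ range y₁, Lya.LL D y := sum_nonneg fun y _ => Lya.LL_nonneg hD y
  have hB0 : (0 : ℝ) ≤ 2 * 2 ^ D.V0.card := by positivity
  refine ⟨C, fun y => ?_⟩
  change Lya.LL D y ≤ _
  induction y using Nat.strong_induction_on with
  | _ y ih =>
  have m1 := one_le_Mass hD.sm 0 y
  by_cases hy : y < y₁
  · have := single_le_sum (f := Lya.LL D) (fun y _ => Lya.LL_nonneg hD y) (mem_range.2 hy)
    nlinarith
  obtain ⟨a, k1, k2, k3, k4, k5⟩ := hy₁ y (not_lt.1 hy)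
  have e1 := Lya.recur hB hK hS hD (by omega) (by omega) k2.le k4 k5
    (ha₀ a (by omega) a y le_rfl k3)
  have e2 := ih a k2
  have m2 := one_le_Mass hD.sm 0 a
  have m3 := one_le_Mass hD.sm a y
  have m4 : Mass n (PP D.M 0 y) = Mass n (PP D.M 0 a) * Mass n (PP D.M a y) := by
    obtain ⟨u1, u2⟩ := PP_union D.M (Nat.zero_le a) k2.le
    rw [u1, Mass, prod_union u2]; rfl
  have m5 : Mass n (PP D.M 0 a) ≤ Mass n (PP D.M 0 y) := by
    rw [m4]; nlinarith
  have e3 := mul_le_mul_of_nonneg_left e2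
    (show 0 ≤ 0.9999 * Mass n (PP D.M a y) by linarith)
  have e4 : 0.9999 * Mass n (PP D.M a y) * (C * Mass n (PP D.M 0 a)) =
      0.9999 * (C * Mass n (PP D.M 0 y)) := by
    rw [m4]; ring
  have e5 : (200 + 2 * 2 ^ D.V0.card) * Mass n (PP D.M 0 y) ≤
      0.0001 * (C * Mass n (PP D.M 0 y)) := by
    rw [← mul_assoc]
    exact mul_le_mul_of_nonneg_right (by linarith) (by linarith)
  nlinarith

end Pool.Agent.MP_a43263_nt.RG
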