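import Pool.Agent.MP_a43263_nt.RG.Kc

/-! PROJECT RANKG, module SYM: Jacobi symbols between linear forms. -/

set_option autoImplicit false

noncomputable section

namespace Pool.Agent.MP_a43263_nt.RG

open Finset
open R2 (sg chi)

namespace SYM

theorem jac_prod_right {ι : Type} (s : Finset ι) (f : ι → ℕ) (hf : ∀ i ∈ s, f i ≠ 0) (a : ℤ) :
    ∏ i ∈ s, jacobiSym a (f i) = jacobiSym a (∏ i ∈ s, f i) := by
  classical
  induction s using Finset.induction_on with
  | empty => simp [jacobiSym.one_right]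
  | insert i s hi ih =>
    have h := fun j hj => hf j (mem_insert_of_mem hj)
    rw [prod_insert hi, prod_insert hi,
      jacobiSym.mul_right' a (hf i (mem_insert_self _ _)) (prod_ne_zero_iff.2 h), ih h]

theorem jac_sqf {n : ℕ} (hn : Squarefree n) (a : ℤ) :
    ∏ p ∈ n.primeFactors, jacobiSym a p = jacobiSym a n := by
  rw [jac_prod_right _ _ fun p hp => (Nat.prime_of_mem_primeFactors hp).ne_zero,
    Nat.prod_primeFactors_of_squarefree hn]

/-- nonzero integers all of whose prime factors divide `M` -/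
def Sml (M : ℕ) (C : ℤ) : Prop := C ≠ 0 ∧ ∀ p : ℕ, p.Prime → (p : ℤ) ∣ C → p ∣ M

theorem Sml.neg {M : ℕ} {C : ℤ} (h : Sml M C) : Sml M (-C) :=
  ⟨neg_ne_zero.2 h.1, fun p hp hd => h.2 p hp (dvd_neg.1 hd)⟩

theorem Sml.one {M : ℕ} : Sml M 1 :=
  ⟨one_ne_zero, fun _ hp hd => absurd hd (Nat.prime_iff_prime_int.1 hp).not_dvd_one⟩

theorem Sml.gcd {M n : ℕ} {C : ℤ} (h : Sml M C) (hn : n.Coprime M) : C.gcd n = 1 := by
  rw [Int.gcd, Int.natAbs_natCast]
  exact Nat.coprime_of_dvd fun p hp d1 d2 => hp.ne_one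
    (Nat.eq_one_of_dvd_coprimes hn d2 (h.2 p hp (Int.natCast_dvd.2 d1)))

theorem odd_of {M m : ℕ} (h : m ≡ 1 [MOD 8 * M]) : m % 2 = 1 :=
  h.of_dvd (Dvd.dvd.mul_right (by norm_num) _)

theorem cop_of {M m : ℕ} (h : m ≡ 1 [MOD 8 * M]) : m.Coprime M := by
  have := (h.of_dvd (dvd_mul_left _ _)).gcd_eq
  rwa [Nat.gcd_one_left] at this

theorem jac_dvd {M m : ℕ} (h : m ≡ 1 [MOD 8 * M]) {a : ℤ} (hd : a.natAbs ∣ M) :
    jacobiSym a m = 1 := by
  have e : m % (4 * a.natAbs) = 1 % (4 * a.natAbs) :=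
    h.of_dvd (Nat.mul_dvd_mul (by norm_num) hd)
  rw [jacobiSym.mod_right a (Nat.odd_iff.2 (odd_of h)), e, ← jacobiSym.mod_right a odd_one,
    jacobiSym.one_right]

theorem jac_nat {M m : ℕ} (h : m ≡ 1 [MOD 8 * M]) (c : ℕ) : Sml M c → jacobiSym c m = 1 := by
  induction c using induction_on_primes with
  | zero => exact fun k => absurd rfl k.1
  | one => exact fun _ => jacobiSym.one_left m
  | prime_mul p a hp ih =>
    intro k
    have hM : p ∣ M := k.2 p hp (by simp)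
    have h2 : Sml M a := ⟨fun e => k.1 (by simp [e]), fun q hq hd => k.2 q hq
      (by push_cast; exact hd.mul_left _)⟩
    rw [Nat.cast_mul, jacobiSym.mul_left, ih h2, jac_dvd h (by simpa using hM), one_mul]

theorem jac_sml {M m : ℕ} (h : m ≡ 1 [MOD 8 * M]) {C : ℤ} (hC : Sml M C) :
    jacobiSym C m = 1 := by
  have h1 := jac_nat h C.natAbs ⟨by simpa using hC.1, fun p hp hd => hC.2 p hp
    (Int.dvd_natAbs.1 hd)⟩
  rcases Int.natAbs_eq C with e | e
  · rwa [← e] at h1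
  · rw [e, ← neg_one_mul, jacobiSym.mul_left, h1, jac_dvd h (by simp), one_mul]

variable {n : ℕ} {D : Dat n} {l : Ix n → ℕ}

theorem tg_inj : Function.Injective (tg : Ix n → Tag n) := fun _ _ e =>
  Prod.ext (Prod.ext_iff.1 e).1 (Option.some.inj (Prod.ext_iff.1 e).2)

theorem ones_eq (hD : D.Ok) (l : Ix n → ℕ) (y : Finset (Ix n)) : ones (D.VV l) y =
    y.biUnion fun h => (l h).primeFactors.image fun p => (tg h, p) := by
  ext a
  simp only [ones, Dat.VV, gens, mem_filter, mem_union, mem_biUnion, mem_image, mem_univ, true_and]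
  constructor
  · rintro ⟨h | ⟨h, p, hp, rfl⟩, k, hk, e⟩
    · have := (hD.fix a h).1
      rw [← e] at this
      exact absurd this (Option.some_ne_none _)
    · exact ⟨k, hk, p, tg_inj e ▸ hp, by rw [e]⟩
  · rintro ⟨h, hh, p, hp, rfl⟩
    exact ⟨.inr ⟨h, p, hp, rfl⟩, h, hh, rfl⟩

theorem mem_ones (hD : D.Ok) {y : Finset (Ix n)} {a : Gen n} (ha : a ∈ ones (D.VV l) y) :
    ∃ h ∈ y, ∃ p ∈ (l h).primeFactors, (tg h, p) = a := by
  simpa only [ones_eq hD, mem_biUnion, mem_image] using ha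

theorem prod_ones {R : Type} [CommMonoid R] (hD : D.Ok) (l : Ix n → ℕ) (y : Finset (Ix n))
    (F : Gen n → R) : ∏ a ∈ ones (D.VV l) y, F a =
      ∏ h ∈ y, ∏ p ∈ (l h).primeFactors, F (tg h, p) := by
  rw [ones_eq hD, prod_biUnion]
  · exact prod_congr rfl fun h _ => prod_image fun _ _ _ _ e => congrArg Prod.snd e
  · intro h _ k _ hk
    refine disjoint_left.2 fun a h1 h2 => hk ?_
    obtain ⟨p, -, rfl⟩ := mem_image.1 h1
    obtain ⟨q, -, e⟩ := mem_image.1 h2
    exact (tg_inj (congrArg Prod.fst e)).symm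

theorem sml_e (hD : D.Ok) {h k : Ix n} (hk : h ≠ k) : Sml D.M (D.e h - D.e k) :=
  ⟨sub_ne_zero.2 (hD.ne h k hk), fun _ _ hd => Int.natCast_dvd_natCast.1 (hd.trans (hD.dv h k hk))⟩

/-- modulo one form the other forms are proportional -/
theorem change (hD : D.Ok) (hl : Adm D l) (h : Ix n) {k k' : Ix n} (hk : k' ≠ k) {m : ℕ}
    (hm : m ∣ l k) : jacobiSym (l h) m = jacobiSym (D.e h - D.e k) m *
      (jacobiSym (D.e k' - D.e k) m * jacobiSym (l k') m) := by
  have h1 := jacobiSym.sq_one ((sml_e hD hk).gcd ((cop_of (hl.one k)).coprime_dvd_left hm))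
  have h2 : jacobiSym ((D.e k' - D.e k) * l h) m = jacobiSym ((D.e h - D.e k) * l k') m := by
    apply jacobiSym.mod_left'
    rw [hl.lin k k' h]
    obtain ⟨c, hc⟩ := hm
    rw [hc, Nat.cast_mul, mul_left_comm _ (m : ℤ), add_comm, Int.add_mul_emod_self_left]
  rw [jacobiSym.mul_left, jacobiSym.mul_left] at h2
  rw [mul_left_comm, ← h2, ← mul_assoc, ← sq, h1, one_mul]

theorem col (hD : D.Ok) (hl : Adm D l) {h k k' : Ix n} (hh : h ≠ k) (hk : k' ≠ k) :
    jacobiSym (l h) (l k) = jacobiSym (l k') (l k) := by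
  rw [change hD hl h hk dvd_rfl, jac_sml (hl.one k) (sml_e hD hh),
    jac_sml (hl.one k) (sml_e hD hk), one_mul, one_mul]

theorem all_eq (hD : D.Ok) (hl : Adm D l) {f g k k' : Ix n} (hfg : f ≠ g) (hk : k' ≠ k) :
    jacobiSym (l k') (l k) = jacobiSym (l g) (l f) := by
  by_cases e : k = f
  · subst e
    exact col hD hl hk hfg.symm
  · have h4 : l f % 4 = 1 := (hl.one f).of_dvd (Dvd.dvd.mul_right (by norm_num) _)
    rw [col hD hl hk (Ne.symm e), ← col hD hl e hfg.symm,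
      jacobiSym.quadratic_reciprocity_one_mod_four h4 (Nat.odd_iff.2 (odd_of (hl.one k)))]

theorem row_zero (hD : D.Ok) (hl : Adm D l) (y : Finset (Ix n)) {b : Gen n} (hb : b ∈ D.V0)
    (h0 : b.1.1 = 0) : ∏ a ∈ ones (D.VV l) y, D.g a b = 1 := by
  obtain ⟨h6, h1⟩ := hD.fix b hb
  have hv : Sml D.M (val b) := by
    rcases hD.nice.pr b hb with k | k
    · rw [k]
      exact Sml.one.neg
    · rw [KC.val_prime k]
      exact ⟨by exact_mod_cast k.ne_zero, fun q _ hd => (Int.natCast_dvd_natCast.1 hd).trans h1⟩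
  rw [prod_ones hD]
  refine prod_eq_one fun h _ => ?_
  have hne : ∀ p, (tg h, p) ≠ b := fun p e => by
    rw [← e] at h6
    exact Option.some_ne_none _ h6
  by_cases k0 : (tg h).1 = 0
  · exact prod_eq_one fun p _ => by simp only [Dat.g, gp, if_neg (hne p), k0, h0, if_true]
  · rw [← jac_sml (hl.one h) hv, ← jac_sqf (hl.sqf h)]
    refine prod_congr rfl fun p hp => ?_
    simp only [Dat.g, gp, if_neg (hne p), k0, h0, if_true, if_false]
    exact KC.sg_eq (jacobiSym.eq_one_or_neg_one (hv.gcd ((cop_of (hl.one h)).coprime_dvd_left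
      (Nat.dvd_of_mem_primeFactors hp))))

theorem Gv_ones (hD : D.Ok) (hl : Adm D l) (j : Fin 3) (y : Finset (Ix n)) :
    Gv j (ones (D.VV l) y) = ∏ h ∈ y.filter (fun h => h.1 ≠ j), (l h : ℤ) := by
  rw [Gv, prod_filter, prod_ones hD, prod_filter]
  refine prod_congr rfl fun h _ => ?_
  by_cases k0 : h.1 = j
  · rw [if_neg (not_not.2 k0)]
    exact prod_eq_one fun p _ => if_neg (not_not.2 k0)
  · rw [if_pos k0, prod_congr rfl fun p hp => (if_pos (show (tg h, p).1.1 ≠ j from k0)).trans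
      (KC.val_prime (a := (tg h, p)) (Nat.prime_of_mem_primeFactors hp)), ← Nat.cast_prod,
      Nat.prod_primeFactors_of_squarefree (hl.sqf h)]

theorem prime_odd (hl : Adm D l) {h : Ix n} {p : ℕ} (hd : p ∣ l h) : p % 2 = 1 :=
  Nat.odd_iff.1 ((Nat.odd_iff.2 (odd_of (hl.one h))).of_dvd_nat hd)

theorem part2 (hD : D.Ok) (hl : Adm D l) (y : Finset (Ix n)) {b : Gen n} (hb : b ∈ D.V0) :
    ∏ a ∈ ones (D.VV l) y, D.g a b = 1 := by
  by_cases h0 : b.1.1 = 0
  · exact row_zero hD hl y hb h0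
  have hp : b.2.Prime := (hD.nice.pr b hb).resolve_left fun e => h0 (by rw [e]; rfl)
  have h1 := (hD.fix b hb).2
  have h2 := row_zero hD hl y hD.nice.neg rfl
  unfold Dat.g at h2 ⊢
  rw [KC.row D.dg _ (fun a ha => ?_) hp (hD.nice.odd b hb h0), h2, ite_self, one_mul,
    Gv_ones hD hl, ← KC.jac_prod]
  · refine prod_eq_one fun h _ => ?_
    have e : (l h : ℤ) % b.2 = 1 % b.2 := by
      exact_mod_cast ((hl.one h).of_dvd (h1.mul_left _) : l h % b.2 = 1 % b.2)
    rw [jacobiSym.mod_left' e, jacobiSym.one_left]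
  · obtain ⟨h, -, p, hq, rfl⟩ := mem_ones hD ha
    have hd := Nat.dvd_of_mem_primeFactors hq
    have := prime_odd hl hd
    refine ⟨.inr (Nat.prime_of_mem_primeFactors hq), fun _ => by dsimp only; omega, fun e => ?_⟩
    exact hp.ne_one (Nat.eq_one_of_dvd_coprimes (cop_of (hl.one h)) (e ▸ hd) h1)

/-- the diagonal factor -/
def dc (D : Dat n) (y : Finset (Ix n)) (k : Ix n) : ℤ :=
  if k ∈ y then (if k.1 = 1 then -D.c k else D.c k) else 1

theorem sml_dc (hD : D.Ok) (y : Finset (Ix n)) (k : Ix n) : Sml D.M (dc D y k) := by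
  have h : Sml D.M (D.c k) := ⟨hD.c0 k, hD.cM k⟩
  unfold dc
  split_ifs
  exacts [h.neg, h, Sml.one]

theorem row0 (hD : D.Ok) (hl : Adm D l) (y : Finset (Ix n)) (k : Ix n) {p : ℕ} (hp : p.Prime)
    (hd : p ∣ l k) : ∏ a ∈ ones (D.VV l) y, D.g a (tg k, p) =
      jacobiSym (dc D y k) p * ∏ h ∈ y.filter (fun h => h.1 ≠ k.1), jacobiSym (l h) p := by
  have hpM := (cop_of (hl.one k)).coprime_dvd_left hd
  have hp1 := prime_odd hl hd
  have h3 := KC.row D.dg ((ones (D.VV l) y).erase (tg k, p)) (b := (tg k, p)) (fun a ha => by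
    obtain ⟨h, -, q, hq, rfl⟩ := mem_ones hD (mem_of_mem_erase ha)
    have hd' := Nat.dvd_of_mem_primeFactors hq
    have := prime_odd hl hd'
    refine ⟨.inr (Nat.prime_of_mem_primeFactors hq), fun _ => by dsimp only; omega, fun e => ?_⟩
    obtain rfl : q = p := e
    by_cases hk : h = k
    · exact ne_of_mem_erase ha (by rw [hk])
    · exact hp.ne_one (Nat.eq_one_of_dvd_coprimes (hl.cop h k hk) hd' hd)) hp
    (by dsimp only; omega)
  have h4 : Gv (tg k).1 ((ones (D.VV l) y).erase (tg k, p)) = Gv k.1 (ones (D.VV l) y) := by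
    rw [Gv, Gv, filter_erase, erase_eq_of_notMem (by simp)]
    rfl
  have h6 := row_zero hD hl y hD.nice.neg rfl
  unfold Dat.g at h6 ⊢
  dsimp only at h3
  rw [jacobiSym.mul_left, h4, Gv_ones hD hl, ← KC.jac_prod] at h3
  by_cases hy : k ∈ y
  · have hm : (tg k, p) ∈ ones (D.VV l) y := by
      rw [ones_eq hD]
      exact mem_biUnion.2 ⟨k, hy, mem_image_of_mem _
        (Nat.mem_primeFactors.2 ⟨hp, hd, (hl.sqf k).ne_zero⟩)⟩
    have h7 : gp D.dg (tg k, p) (tg k, p) = jacobiSym (D.c k) p := by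
      simp only [gp, if_true, if_neg hp.ne_one, hD.diag]
      exact KC.sg_eq (jacobiSym.eq_one_or_neg_one (Sml.gcd ⟨hD.c0 k, hD.cM k⟩ hpM))
    rw [← mul_prod_erase _ _ hm] at h6
    rw [← mul_prod_erase _ _ hm, h3, h7, ← mul_assoc, dc, if_pos hy]
    congr 1
    have h3 : ∀ j : Fin 3, j = 0 ∨ j = 1 ∨ j = 2 := by decide
    rcases h3 k.1 with h0 | h0 | h0
    · rw [KC.tau_zero D.dg (a := (tg k, p)) h0, one_mul] at h6
      rw [h6, ite_self, jacobiSym.one_left, mul_one, if_neg (by rw [h0]; decide)]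
    · have h8 : (tg k).1 = 1 := h0
      rw [KC.tau_eq D.dg (a := (tg k, p)) (by rw [h8]; decide) hp1] at h6
      rw [if_pos h0, if_neg (by rw [h8]; decide), ← neg_one_mul, jacobiSym.mul_left, mul_comm]
      congr 1
      dsimp only at h6
      by_cases h4 : p % 4 = 3
      · rw [if_pos h4, neg_one_mul, neg_eq_iff_eq_neg] at h6
        rw [h6]
      · rw [if_neg h4, one_mul] at h6
        rw [h6, KC.jac_neg_one hp1, if_neg h4, jacobiSym.one_left]
    · rw [if_pos (show (tg k).1 = 2 from h0), jacobiSym.one_left, mul_one,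
        if_neg (by rw [h0]; decide)]
  · rw [erase_eq_of_notMem fun e => hy ?_] at h3
    · rw [h3, h6, ite_self, dc, if_neg hy]
    · obtain ⟨h, hh, q, -, e'⟩ := mem_ones hD e
      exact tg_inj (congrArg Prod.fst e') ▸ hh

theorem row1 (hD : D.Ok) (hl : Adm D l) (y : Finset (Ix n)) {k k' : Ix n} (hk : k' ≠ k) {p : ℕ}
    (hp : p.Prime) (hd : p ∣ l k) : ∏ a ∈ ones (D.VV l) y, D.g a (tg k, p) =
      jacobiSym (Cy D y k) p *
        (jacobiSym (D.e k' - D.e k) p * jacobiSym (l k') p) ^ Yne k.1 y := by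
  rw [row0 hD hl y k hp hd, prod_congr rfl fun h _ => change hD hl h hk hd, prod_mul_distrib,
    prod_const, KC.jac_prod, ← mul_assoc, ← jacobiSym.mul_left]
  rfl

theorem jac_Cy (hD : D.Ok) (hl : Adm D l) (y : Finset (Ix n)) (k : Ix n) :
    jacobiSym (Cy D y k) (l k) = 1 := by
  rw [Cy, jacobiSym.mul_left, ← KC.jac_prod]
  rw [prod_eq_one fun h hh => jac_sml (hl.one k) (sml_e hD ?_), mul_one]
  · exact jac_sml (hl.one k) (sml_dc hD y k)
  · rintro rfl
    exact (mem_filter.1 hh).2 rfl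

theorem other (k : Ix n) : (k.1 + 1, k.2) ≠ k := fun e => by
  have h : ∀ j : Fin 3, j + 1 ≠ j := by decide
  exact h _ (congrArg Prod.fst e)

end SYM

open SYM in
theorem sym : KCStmt → SYMStmt := by
  intro _ n D hD
  refine ⟨fun y y' f g hfg => ⟨1, ∑ k ∈ y', Yne k.1 y, .inl rfl, fun l hl => ?_⟩,
    fun y b hb l hl => part2 hD hl y hb, fun y k k' hk => ⟨Cy D y k *
      (D.e k' - D.e k) ^ Yne k.1 y, fun l hl p hp hd => ?_⟩, fun y hy k l hl p hp hd => ?_⟩
  · rw [chi, prod_comm, prod_ones hD, one_mul, ← prod_pow_eq_pow_sum]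
    refine prod_congr rfl fun k _ => ?_
    rw [prod_congr rfl fun p hp => row1 hD hl y (other k) (Nat.prime_of_mem_primeFactors hp)
      (Nat.dvd_of_mem_primeFactors hp), prod_mul_distrib, prod_pow, prod_mul_distrib,
      jac_sqf (hl.sqf k), jac_sqf (hl.sqf k), jac_sqf (hl.sqf k), jac_Cy hD hl,
      jac_sml (hl.one k) (sml_e hD (other k)), one_mul, one_mul, all_eq hD hl hfg (other k)]
  · rw [row1 hD hl y hk.symm hp hd, jacobiSym.mul_left, jacobiSym.pow_left, mul_pow, mul_assoc]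
  · obtain ⟨m, hm⟩ := (mem_filter.1 hy).2 k.1
    have h1 := jacobiSym.sq_one ((sml_e hD (other k)).gcd
      ((cop_of (hl.one k)).coprime_dvd_left hd))
    have h2 := jacobiSym.sq_one (a := (l (k.1 + 1, k.2) : ℤ)) (b := p) (by
      rw [Int.gcd_natCast_natCast]
      exact (hl.cop _ _ (other k)).coprime_dvd_right hd)
    rw [row1 hD hl y (other k) hp hd, hm, ← two_mul, pow_mul, mul_pow, h1, h2, one_mul, one_pow,
      mul_one]

end Pool.Agent.MP_a43263_nt.RG
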