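import Pool.Agent.MP_a43263_nt.RG.Basic

/-! PROJECT RANKG, row BASE: base points of both parities close to the split fibre. -/

set_option autoImplicit false

namespace Pool.Agent.MP_a43263_nt.RG

open Finset

namespace Bas

/-- nonzero, and all primes divide `N` -/
def Gd (N : ℕ) (z : ℤ) : Prop := z ≠ 0 ∧ ∀ p : ℕ, p.Prime → (p : ℤ) ∣ z → p ∣ N

variable {N : ℕ} {y z : ℤ}

theorem Gd.mul (h : Gd N y) (h' : Gd N z) : Gd N (y * z) :=
  ⟨mul_ne_zero h.1 h'.1, fun p hp hd =>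
    ((Nat.prime_iff_prime_int.1 hp).dvd_or_dvd hd).elim (h.2 p hp) (h'.2 p hp)⟩

theorem Gd.of_dvd (h : Gd N z) (hd : y ∣ z) : Gd N y :=
  ⟨fun e => h.1 (zero_dvd_iff.1 (e ▸ hd)), fun p hp k => h.2 p hp (k.trans hd)⟩

theorem gd_one : Gd N 1 :=
  ⟨one_ne_zero, fun p hp k => absurd (Nat.dvd_one.1 (by exact_mod_cast k)) hp.ne_one⟩

theorem Gd.prod {ι : Type} (s : Finset ι) {f : ι → ℤ} (h : ∀ i ∈ s, Gd N (f i)) :
    Gd N (∏ i ∈ s, f i) :=
  prod_induction _ (Gd N) (fun _ _ => Gd.mul) gd_one h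

theorem gd_of_dvd (hN : 0 < N) (h : z.natAbs ∣ N) : Gd N z :=
  ⟨fun e => by simp [e, hN.ne'] at h, fun p _ k => (Int.natCast_dvd.1 k).trans h⟩

theorem gd_Q (hN : 0 < N) (h2 : 2 ∣ N) : Gd N ((128 * N : ℕ) : ℤ) := by
  have h := gd_of_dvd (z := 2) hN h2
  have e : ((128 * N : ℕ) : ℤ) = 2 * 2 * 2 * 2 * 2 * 2 * 2 * N := by push_cast; ring
  rw [e]
  exact ((((((h.mul h).mul h).mul h).mul h).mul h).mul h).mul (gd_of_dvd hN (by simp))

theorem Gd.cop (h : Gd N z) {s : ℕ} (hs : s ≡ 1 [MOD 128 * N]) : IsCoprime (s : ℤ) z := by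
  rw [Int.isCoprime_iff_gcd_eq_one, Int.gcd, Int.natAbs_natCast]
  refine Nat.eq_one_iff_not_exists_prime_dvd.2 fun p hp hd => ?_
  have h1 := h.2 p hp (Int.natCast_dvd.2 (hd.trans (Nat.gcd_dvd_right _ _)))
  have h2 := (hs.of_dvd (h1.mul_left 128)).dvd_iff dvd_rfl
  exact hp.ne_one (Nat.dvd_one.1 (h2.1 (hd.trans (Nat.gcd_dvd_left _ _))))

end Bas

open Bas in
theorem base (pty : PTYStmt) : BASEStmt := by
  classical
  intro n r F hF ε
  obtain ⟨k0, hsq⟩ := hF.split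
  set j0 : Ix n := (0, k0) with hj0
  have n1 : ∀ k, ((1, k) : Ix n) ≠ j0 := fun k e => by simp [hj0] at e
  have n2 : ∀ k, ((2, k) : Ix n) ≠ j0 := fun k e => by simp [hj0] at e
  have : Nonempty {j // j ≠ j0} := ⟨⟨_, n1 k0⟩⟩
  obtain ⟨P₁, hP⟩ := pty {j // j ≠ j0}
  set N : ℕ := 2 * P₁.factorial * (∏ i, (F.c i).natAbs) *
    ∏ j, ∏ k ∈ univ.erase j, (F.LZ j (F.rootZ k)).natAbs with hN
  have N0 : 0 < N := by
    refine Nat.mul_pos (Nat.mul_pos (Nat.mul_pos two_pos P₁.factorial_pos) ?_) ?_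
    · exact prod_pos fun i _ => Int.natAbs_pos.2 (hF.c0 i)
    · exact prod_pos fun j _ => prod_pos fun k hk =>
        Int.natAbs_pos.2 (hF.res_ne (ne_of_mem_erase hk).symm)
  have N2 : 2 ∣ N := ((dvd_mul_right _ _).mul_right _).mul_right _
  have gc : ∀ i, Gd N (F.c i) := fun i => gd_of_dvd N0
    (((dvd_prod_of_mem (fun i => (F.c i).natAbs) (mem_univ i)).mul_left _).mul_right _)
  have gr : ∀ j k, j ≠ k → Gd N (F.LZ j (F.rootZ k)) := fun j k h => gd_of_dvd N0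
    (((dvd_prod_of_mem (fun k => (F.LZ j (F.rootZ k)).natAbs)
      (mem_erase.2 ⟨h.symm, mem_univ k⟩)).trans (dvd_prod_of_mem
        (fun j => ∏ k ∈ univ.erase j, (F.LZ j (F.rootZ k)).natAbs) (mem_univ j))).mul_left _)
  have gQ := gd_Q N0 N2
  set Q : ℕ := 128 * N with hQ
  have hg0 : 0 < Int.gcd (F.A j0) (F.B j0) := by
    rw [Int.gcd_pos_iff]
    by_contra h
    push Not at h
    exact (gr _ _ (n1 k0)).1 (by simp [Surf.LZ, Surf.rootZ, h.1, h.2])
  obtain ⟨g0, α, β, -, hαβ, hA, hB⟩ := Int.exists_gcd_one' hg0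
  obtain ⟨x, y, hxy⟩ := Int.isCoprime_iff_gcd_eq_one.2 hαβ
  set ρ : ℤ × ℤ := (β, -α) with hρ
  have hL : ∀ j, F.LZ j (F.rootZ j0) = g0 * F.LZ j ρ := fun j => by
    simp only [Surf.LZ, Surf.rootZ, hρ, hA, hB]; ring
  have hL0 : F.LZ j0 ρ = 0 := by simp only [Surf.LZ, hρ, hA, hB]; ring
  have gm : ∀ j, j ≠ j0 → Gd N (F.LZ j ρ) := fun j h =>
    (gr j j0 h).of_dvd (hL j ▸ dvd_mul_left _ _)
  have gg0 : Gd N g0 := (gr _ j0 (n1 k0)).of_dvd (hL _ ▸ dvd_mul_right _ _)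
  obtain ⟨g, hg⟩ : IsSquare (F.DZ 1 ρ) := by
    have e1 : F.gam j0 = (F.DZ 1 (F.rootZ j0) : ℚ) := by simp [Surf.gam, hj0, Surf.D_root]
    have e2 : F.DZ 1 (F.rootZ j0) = g0 ^ n * F.DZ 1 ρ := by
      simp only [Surf.DZ, hL, prod_mul_distrib, prod_const, card_univ, Fintype.card_fin]; ring
    obtain ⟨m, hm⟩ := hF.ev
    obtain ⟨q, hq⟩ := hsq
    have h0 : (g0 : ℚ) ≠ 0 := by exact_mod_cast gg0.1
    refine Rat.isSquare_intCast_iff.1 ⟨q / g0 ^ m, ?_⟩
    have e3 : (g0 : ℤ) ^ n = g0 ^ m * g0 ^ m := by rw [← pow_add, ← hm]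
    rw [e1, e2, e3] at hq
    push_cast at hq
    field_simp
    linear_combination hq
  have hg2 : F.DZ 2 ρ = g * g := by
    have := hF.sumZ ρ
    rw [hg, Surf.DZ, prod_eq_zero (mem_univ k0) hL0, mul_zero] at this
    linarith
  have ggg : Gd N (g * g) := hg ▸ (gc 1).mul (Gd.prod _ fun k _ => gm _ (n1 k))
  set Q0 : ℤ := Q * (g * g) * ∏ j : {j // j ≠ j0}, F.LZ j.1 ρ with hQ0
  have gQ0 : Gd N Q0 := (gQ.mul ggg).mul (Gd.prod _ fun j _ => gm _ j.2)
  set κ : {j // j ≠ j0} → ℤ := fun j =>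
    Q * (g * g) * (∏ k ∈ univ.erase j, F.LZ k.1 ρ) * F.LZ j.1 (x, y) with hκ
  have hκ' : ∀ j : {j // j ≠ j0}, F.LZ j.1 ρ * κ j = Q0 * F.LZ j.1 (x, y) := fun j => by
    rw [hQ0, ← mul_prod_erase univ (fun j : {j // j ≠ j0} => F.LZ j.1 ρ) (mem_univ j), hκ]
    ring
  have gκ : ∀ i j, i ≠ j → Gd N (κ i - κ j) := fun i j h => by
    have e : F.LZ i.1 ρ * F.LZ j.1 ρ * (κ i - κ j) = Q0 * F.LZ j.1 (F.rootZ i.1) := by
      have e' : F.LZ i.1 (x, y) * F.LZ j.1 ρ - F.LZ j.1 (x, y) * F.LZ i.1 ρ =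
          F.LZ j.1 (F.rootZ i.1) := by
        simp only [Surf.LZ, Surf.rootZ, hρ]
        linear_combination (F.A j.1 * F.B i.1 - F.A i.1 * F.B j.1) * hxy
      linear_combination F.LZ j.1 ρ * hκ' i - F.LZ i.1 ρ * hκ' j + Q0 * e'
    exact (gQ0.mul (gr _ _ fun e => h (Subtype.ext e).symm)).of_dvd (e ▸ dvd_mul_left _ _)
  have Qκ : ∀ i, (Q : ℤ) ∣ κ i := fun i => ((dvd_mul_right _ _).mul_right _).mul_right _
  obtain ⟨s, t, a, hs, ht, ha, sqt, sqa, cop, par⟩ := hP κ Q (ε + 1 + N.primeFactors.card)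
    (by positivity)
    (fun p hp h => ((((Nat.dvd_factorial hp.pos h).mul_left 2).mul_right _).mul_right
      _).mul_left 128) Qκ
    fun i j h => ⟨sub_ne_zero.1 (gκ i j h).1, fun p hp k => ((gκ i j h).2 p hp k).mul_left _⟩
  set μ : Ix n → ℤ := fun j => if j = j0 then Q0 * g0 else F.LZ j ρ with hμ
  have gμ : ∀ j, Gd N (μ j) := fun j => by
    by_cases h : j = j0
    · simp only [hμ, if_pos h]; exact gQ0.mul gg0
    · simp only [hμ, if_neg h]; exact gm j h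
  have g0' : Gd N (F.c 0 * ∏ k, μ (0, k)) := (gc 0).mul (Gd.prod _ fun k _ => gμ _)
  obtain ⟨δ, hδ⟩ : g ^ 2 ∣ F.c 0 * ∏ k, μ (0, k) := by
    refine Dvd.dvd.mul_left (Dvd.dvd.trans ?_
      (dvd_prod_of_mem (fun k => μ (0, k)) (mem_univ k0))) _
    simp only [hμ, if_pos hj0.symm, hQ0, sq]
    exact ((dvd_mul_left _ _).mul_right _).mul_right _
  have gδ : Gd N δ := g0'.of_dvd (hδ ▸ dvd_mul_left _ _)
  have a0 : ∀ i, a i ≠ 0 := fun i => (sqa i).1.ne_zero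
  have e0 : ∀ i, (∏ k ∈ univ.erase i, (a k : ℤ)) ≠ 0 := fun i =>
    prod_ne_zero_iff.2 fun k _ => by exact_mod_cast a0 k
  have ea : ∀ i, (a i : ℤ) * ∏ k ∈ univ.erase i, (a k : ℤ) = ∏ k, (a k : ℤ) := fun i =>
    mul_prod_erase univ (fun k => (a k : ℤ)) (mem_univ i)
  refine ⟨⟨N, g, δ, (s * β + t * Q0 * x, -(s * α) + t * Q0 * y),
    ((∏ k, (a k : ℤ)) * β, -((∏ k, (a k : ℤ)) * α)), μ,
    fun j => if h : j = j0 then 0 else ∏ k ∈ univ.erase ⟨j, h⟩, (a k : ℤ),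
    fun j => if h : j = j0 then t else a ⟨j, h⟩⟩,
    ⟨N0, N2, fun j => ?_, fun j => ?_, ?_, fun j k hjk => ?_, fun j => (gμ j).1, gδ.1,
      fun i => (gc i).2, fun j k h => (gr j k h).2, fun j => (gμ j).2, gδ.2, hδ, ?_, ?_,
      fun j => ?_, fun j k hjk => ?_, fun j => ?_⟩, ?_⟩
  · by_cases h : j = j0
    · simp only [hμ, h, if_true, dif_pos, Surf.LZ, hA, hB]
      linear_combination (t * Q0 * g0 : ℤ) * hxy
    · simp only [hμ, if_neg h, dif_neg h, ha]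
      have := hκ' ⟨j, h⟩
      simp only [Surf.LZ, hρ] at this ⊢
      linear_combination (-t : ℤ) * this
  · by_cases h : j = j0
    · simp only [h, dif_pos, Surf.LZ, hA, hB]
      ring
    · simp only [hμ, if_neg h, dif_neg h, mul_assoc, ea, Surf.LZ, hρ]
      ring
  · have c1 : IsCoprime (s : ℤ) t := by
      have := Nat.isCoprime_iff_coprime.2 (sqa ⟨_, n1 k0⟩).2
      rw [ha] at this
      exact this.of_add_mul_right_left
    obtain ⟨u, u', hu⟩ := c1.mul_right (gQ0.cop hs)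
    exact ⟨u * y + u' * α, u' * β - u * x, by
      linear_combination hu + (u * s + u' * t * Q0) * hxy⟩
  · by_cases h : j = j0
    · have h' : k ≠ j0 := fun e => hjk (h.trans e.symm)
      simp only [dif_pos h, dif_neg h']
      exact (e0 _).symm
    · by_cases h' : k = j0
      · simp only [dif_pos h', dif_neg h]
        exact e0 _
      · simp only [dif_neg h', dif_neg h]
        intro e
        have e1 := (ea ⟨j, h⟩).trans (ea ⟨k, h'⟩).symm
        rw [e] at e1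
        have e2 := mul_right_cancel₀ (e0 _) e1
        rw [ha, ha, add_right_inj] at e2
        exact sub_ne_zero.1 (gκ ⟨j, h⟩ ⟨k, h'⟩ fun e => hjk (congrArg Subtype.val e)).1
          (mul_right_cancel₀ (by exact_mod_cast sqt.ne_zero) e2)
  · simp only [hμ, if_neg (n1 _), sq]
    exact hg
  · simp only [hμ, if_neg (n2 _), sq]
    exact hg2
  · by_cases h : j = j0
    · simp only [dif_pos h]; exact sqt
    · simp only [dif_neg h]; exact (sqa _).1
  · by_cases h : j = j0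
    · have h' : k ≠ j0 := fun e => hjk (h.trans e.symm)
      simp only [dif_pos h, dif_neg h']
      exact (sqa _).2.symm
    · by_cases h' : k = j0
      · simp only [dif_pos h', dif_neg h]
        exact (sqa _).2
      · simp only [dif_neg h', dif_neg h]
        exact cop _ _ fun e => hjk (congrArg Subtype.val e)
  · by_cases h : j = j0
    · simp only [dif_pos h]; exact ht
    · simp only [dif_neg h]
      refine Nat.ModEq.trans (Nat.modEq_iff_dvd.2 ?_) hs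
      rw [ha, sub_add_cancel_left, dvd_neg]
      exact (Qκ _).mul_right _
  · have e : ∑ j : Ix n, (if h : j = j0 then t else a ⟨j, h⟩).primeFactors.card =
        t.primeFactors.card + ∑ i, (a i).primeFactors.card := by
      rw [Fintype.sum_eq_add_sum_subtype_ne _ j0, dif_pos rfl]
      exact congrArg _ (sum_congr rfl fun i _ => by rw [dif_neg i.2])
    simp only [e]
    omega

end Pool.Agent.MP_a43263_nt.RG
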