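import Pool.Agent.MP_a43263_nt.RG.Basic

/-! PROJECT RANKG: the point of an admissible tuple, and the hypotheses of the descent. -/

set_option autoImplicit false

noncomputable section

namespace Pool.Agent.MP_a43263_nt.RG

open Finset
open R2 (Sgn chi Ker sg)

namespace Br

variable {n : ℕ} {F : Surf n} {B : Base n} {M : ℕ}

theorem nontriv (h : 2 ≤ n) : Nontrivial (Ix n) :=
  Fintype.one_lt_card_iff_nontrivial.1 (by rw [card_Ix]; omega)

theorem dvdM (h : 2 ≤ n) (hM : B.Fits M) : 128 * B.N ∣ M := by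
  have := nontriv h
  obtain ⟨f, g, hfg⟩ := exists_pair_ne (Ix n)
  have h1 := (dvd_mul_right _ _).trans (hM.dv f g hfg)
  exact_mod_cast h1

theorem NM (h : 2 ≤ n) (hM : B.Fits M) : B.N ∣ M := (dvd_mul_left _ _).trans (dvdM h hM)

theorem l_one (h : 2 ≤ n) (hM : B.Fits M) {l : Ix n → ℕ} (hl : Adm (B.dat F M) l) (j : Ix n) :
    l j ≡ 1 [MOD 128 * B.N] :=
  (hl.one j).of_dvd ((dvdM h hM).trans (dvd_mul_left _ _))

theorem cop_of_one {N a : ℕ} (h : a ≡ 1 [MOD 128 * N]) : a.Coprime N := by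
  have := (h.of_mul_left 128).gcd_eq
  rw [Nat.Coprime, this, Nat.gcd_one_left]

theorem ne_zero_of_one {N a : ℕ} (hN : 0 < N) (h : a ≡ 1 [MOD 128 * N]) : a ≠ 0 := by
  rintro rfl
  have := (Nat.modEq_iff_dvd' (Nat.zero_le 1)).1 h
  have := Nat.le_of_dvd one_pos this
  omega

/-- the numbers `a j * l j` are pairwise coprime -/
theorem cop_al (hB : B.Ok F) (hM : B.Fits M) {l : Ix n → ℕ} (hl : Adm (B.dat F M) l) {j k : Ix n}
    (hjk : j ≠ k) : (B.a j * l j).Coprime (B.a k * l k) := by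
  have h1 : ∀ j k, (B.a j).Coprime (l k) := fun j k =>
    ((hl.coprime_M k).coprime_dvd_right (hM.aM j)).symm
  exact Nat.Coprime.mul_left ((hB.cop j k hjk).mul_right (h1 j k))
    ((h1 k j).symm.mul_right (hl.cop j k hjk))

theorem al_one (h : 2 ≤ n) (hB : B.Ok F) (hM : B.Fits M) {l : Ix n → ℕ}
    (hl : Adm (B.dat F M) l) (j : Ix n) : B.a j * l j ≡ 1 [MOD 128 * B.N] := by
  simpa using (hB.one j).mul (l_one h hM hl j)

theorem not_dvd_of_cop {p a b : ℕ} (hp : p.Prime) (h : a.Coprime b) (ha : p ∣ a) : ¬p ∣ b :=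
  fun hb => hp.ne_one (Nat.eq_one_of_dvd_coprimes h ha hb)

theorem prod_modEq {ι : Type} (s : Finset ι) {f g : ι → ℤ} {m : ℤ}
    (h : ∀ i ∈ s, f i ≡ g i [ZMOD m]) : ∏ i ∈ s, f i ≡ ∏ i ∈ s, g i [ZMOD m] := by
  classical
  induction s using Finset.induction_on with
  | empty => simp
  | insert a s ha ih =>
    rw [prod_insert ha, prod_insert ha]
    exact (h a (mem_insert_self _ _)).mul (ih fun i hi => h i (mem_insert_of_mem hi))

/-! ### symbols -/

theorem jac_one {N m : ℕ} (hm : m ≡ 1 [MOD 128 * N]) {C : ℤ} (hC : C ≠ 0)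
    (hp : ∀ p : ℕ, p.Prime → (p : ℤ) ∣ C → p ∣ N) : jacobiSym C m = 1 := by
  have hodd : Odd m := by
    have := (hm.of_dvd (show 2 ∣ 128 * N from Dvd.dvd.mul_right (by norm_num) _))
    exact Nat.odd_iff.2 this
  have key : ∀ a : ℤ, 4 * a.natAbs ∣ 128 * N → a ≠ 0 → jacobiSym a m = 1 := by
    intro a ha h0
    have h1 : m % (4 * a.natAbs) = 1 := by
      have h2 : m % (4 * a.natAbs) = 1 % (4 * a.natAbs) := hm.of_dvd ha
      have h3 : 0 < a.natAbs := Int.natAbs_pos.2 h0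
      rw [h2, Nat.mod_eq_of_lt (by omega)]
    rw [jacobiSym.mod_right a hodd, h1, jacobiSym.one_right]
  have nat : ∀ c : ℕ, c ≠ 0 → (∀ p : ℕ, p.Prime → p ∣ c → p ∣ N) → jacobiSym c m = 1 := by
    intro c
    induction c using induction_on_primes with
    | zero => exact fun h => absurd rfl h
    | one => intro _ _; simp
    | prime_mul p a hpp ih =>
      intro h0 h1
      push_cast
      rw [jacobiSym.mul_left, ih (right_ne_zero_of_mul h0) fun q hq hd => h1 q hq (hd.mul_left _),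
        key p _ (by exact_mod_cast hpp.ne_zero), one_mul]
      rw [Int.natAbs_natCast]
      exact Nat.mul_dvd_mul (by norm_num) (h1 p hpp (dvd_mul_right _ _))
  have h2 := nat C.natAbs (Int.natAbs_ne_zero.2 hC) fun p hpp hd =>
    hp p hpp (Int.natCast_dvd.2 hd)
  rcases Int.natAbs_eq C with e | e
  · rw [e, h2]
  · rw [e, neg_eq_neg_one_mul, jacobiSym.mul_left, h2,
      key (-1) (Dvd.dvd.mul_right (by norm_num) _) (by norm_num), one_mul]

theorem jac_prod (C : ℤ) (s : Finset ℕ) (hs : ∀ p ∈ s, p ≠ 0) :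
    ∏ p ∈ s, jacobiSym C p = jacobiSym C (∏ p ∈ s, p) := by
  induction s using Finset.induction_on with
  | empty => simp
  | insert a s ha ih =>
    have h1 : ∀ p ∈ s, p ≠ 0 := fun p hp => hs p (mem_insert_of_mem hp)
    rw [prod_insert ha, prod_insert ha, ih h1,
      jacobiSym.mul_right' _ (hs a (mem_insert_self _ _)) (prod_ne_zero_iff.2 h1)]

theorem jac_sqf (C : ℤ) {m : ℕ} (hm : Squarefree m) :
    ∏ p ∈ m.primeFactors, jacobiSym C p = jacobiSym C m := by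
  rw [jac_prod C _ fun p hp => (Nat.prime_of_mem_primeFactors hp).ne_zero,
    Nat.prod_primeFactors_of_squarefree hm]

/-- equal symbols for numbers that agree up to squares of units -/
theorem jac_congr {p : ℕ} (hp : p.Prime) {x y s t : ℤ} (hs : ¬(p : ℤ) ∣ s) (ht : ¬(p : ℤ) ∣ t)
    (h : x * s ^ 2 ≡ y * t ^ 2 [ZMOD p]) : jacobiSym x p = jacobiSym y p := by
  have hp' : Prime (p : ℤ) := Nat.prime_iff_prime_int.1 hp
  have one : ∀ u : ℤ, ¬(p : ℤ) ∣ u → jacobiSym (u ^ 2) p = 1 := fun u hu =>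
    jacobiSym.sq_one' (Int.isCoprime_iff_gcd_eq_one.1
      ((hp'.irreducible.coprime_iff_not_dvd).2 hu).symm)
  have := jacobiSym.mod_left' h
  rwa [jacobiSym.mul_left, jacobiSym.mul_left, one s hs, one t ht, mul_one, mul_one] at this

/-! ### the fixed generators -/

theorem mem_V0 {x : Gen n} : x ∈ (B.dat F M).V0 ↔ x = neg ∨
    (∃ p ∈ B.N.primeFactors, x = ((0, none), p)) ∨
      ∃ j : Ix n, ∃ p ∈ (B.a j).primeFactors, x = ((j.1, none), p) := by
  simp only [Base.dat, mem_union, mem_insert, mem_image, mem_biUnion, mem_univ, true_and, or_assoc,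
    eq_comm]

theorem prod_V0 (hB : B.Ok F) {R : Type} [CommMonoid R] (φ : Gen n → R) :
    ∏ x ∈ (B.dat F M).V0, φ x = φ neg * (∏ p ∈ B.N.primeFactors, φ ((0, none), p)) *
      ∏ j : Ix n, ∏ p ∈ (B.a j).primeFactors, φ ((j.1, none), p) := by
  have e : (B.dat F M).V0 = insert neg (B.N.primeFactors.image fun p => ((0, none), p)) ∪
      univ.biUnion fun j : Ix n => (B.a j).primeFactors.image fun p => ((j.1, none), p) := rfl
  rw [e, prod_union, prod_insert, prod_biUnion, prod_image fun _ _ _ _ e => (Prod.mk.inj e).2]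
  · congr 1
    exact prod_congr rfl fun j _ => prod_image fun _ _ _ _ e => (Prod.mk.inj e).2
  · intro j _ k _ hjk
    simp only [Function.onFun, disjoint_left, mem_image]
    rintro _ ⟨p, hp, rfl⟩ ⟨q, hq, e⟩
    obtain rfl : q = p := (Prod.mk.inj e).2
    exact not_dvd_of_cop (Nat.prime_of_mem_primeFactors hp) (hB.cop j k hjk)
      (Nat.dvd_of_mem_primeFactors hp) (Nat.dvd_of_mem_primeFactors hq)
  · simp only [mem_image, not_exists, not_and]
    intro p hp e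
    exact (Nat.prime_of_mem_primeFactors hp).ne_one (Prod.mk.inj e).2
  · simp only [disjoint_left, mem_insert, mem_image, mem_biUnion, mem_univ, true_and, not_exists,
      not_and]
    rintro _ (rfl | ⟨p, hp, rfl⟩) j q hq e
    · exact (Nat.prime_of_mem_primeFactors hq).ne_one (Prod.mk.inj e).2
    · obtain rfl : q = p := (Prod.mk.inj e).2
      exact not_dvd_of_cop (Nat.prime_of_mem_primeFactors hp) (cop_of_one (hB.one j))
        (Nat.dvd_of_mem_primeFactors hq) (Nat.dvd_of_mem_primeFactors hp)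

theorem nice_V0 (hB : B.Ok F) : Nice (B.dat F M).V0 := by
  refine ⟨mem_V0.2 (.inl rfl), fun a ha => ?_, fun a ha b hb e => ?_, fun a ha h0 => ?_⟩
  · rcases mem_V0.1 ha with rfl | ⟨p, hp, rfl⟩ | ⟨j, p, hp, rfl⟩
    · exact .inl rfl
    · exact .inr (Nat.prime_of_mem_primeFactors hp)
    · exact .inr (Nat.prime_of_mem_primeFactors hp)
  · rcases mem_V0.1 ha with rfl | ⟨p, hp, rfl⟩ | ⟨j, p, hp, rfl⟩ <;>
      rcases mem_V0.1 hb with rfl | ⟨q, hq, rfl⟩ | ⟨k, q, hq, rfl⟩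
    · rfl
    · exact absurd e.symm (Nat.prime_of_mem_primeFactors hq).ne_one
    · exact absurd e.symm (Nat.prime_of_mem_primeFactors hq).ne_one
    · exact absurd e (Nat.prime_of_mem_primeFactors hp).ne_one
    · obtain rfl : p = q := e
      rfl
    · obtain rfl : p = q := e
      exact absurd (Nat.dvd_of_mem_primeFactors hp) (not_dvd_of_cop
        (Nat.prime_of_mem_primeFactors hp) (cop_of_one (hB.one k)) (Nat.dvd_of_mem_primeFactors hq))
    · exact absurd e (Nat.prime_of_mem_primeFactors hp).ne_one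
    · obtain rfl : p = q := e
      exact absurd (Nat.dvd_of_mem_primeFactors hq) (not_dvd_of_cop
        (Nat.prime_of_mem_primeFactors hp) (cop_of_one (hB.one j)) (Nat.dvd_of_mem_primeFactors hp))
    · obtain rfl : p = q := e
      by_cases hjk : j = k
      · rw [hjk]
      · exact absurd (Nat.dvd_of_mem_primeFactors hq) (not_dvd_of_cop
          (Nat.prime_of_mem_primeFactors hp) (hB.cop j k hjk) (Nat.dvd_of_mem_primeFactors hp))
  · rcases mem_V0.1 ha with rfl | ⟨p, hp, rfl⟩ | ⟨j, p, hp, rfl⟩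
    · exact absurd rfl h0
    · exact absurd rfl h0
    · rintro (rfl : p = 2)
      exact not_dvd_of_cop Nat.prime_two (cop_of_one (hB.one j)) (Nat.dvd_of_mem_primeFactors hp)
        hB.two

/-- the diagonal constants are values of `DZ` of another class, up to sign -/
theorem cZ_eq (j : Ix n) : ∃ i : Fin 3, i ≠ j.1 ∧ i ≠ 0 ∧ ∃ s : ℤ, (s = 1 ∨ s = -1) ∧
    F.cZ j = s * F.DZ i (F.rootZ j) ∧ ∀ l : Ix n → ℕ,
      ![(B.pr l 1 : ℤ), B.pr l 2, -B.pr l 1] j.1 = s * B.pr l i := by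
  obtain ⟨i, k⟩ := j
  fin_cases i
  · exact ⟨1, by simp, by simp, 1, .inl rfl, by simp [Surf.cZ], fun l => by simp⟩
  · exact ⟨2, by simp, by simp, 1, .inl rfl, by simp [Surf.cZ], fun l => by simp⟩
  · exact ⟨1, by simp, by simp, -1, .inr rfl, by simp [Surf.cZ], fun l => by simp⟩

theorem cZ_ne {r : ℕ} (hF : F.Hyp r) (j : Ix n) : F.cZ j ≠ 0 := by
  obtain ⟨i, hi, -, s, hs, e, -⟩ := cZ_eq (F := F) (B := ⟨0, 0, 0, 0, 0, 0, 0, 0⟩) j
  rw [e]
  refine mul_ne_zero (by rcases hs with rfl | rfl <;> norm_num) (mul_ne_zero (hF.c0 i) ?_)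
  exact prod_ne_zero_iff.2 fun k _ => hF.res_ne fun e => hi (congrArg Prod.fst e)

theorem cZ_N (hB : B.Ok F) (j : Ix n) (p : ℕ) (hp : p.Prime) (hd : (p : ℤ) ∣ F.cZ j) :
    p ∣ B.N := by
  have hp' : Prime (p : ℤ) := Nat.prime_iff_prime_int.1 hp
  obtain ⟨i, hi, -, s, hs, e, -⟩ := cZ_eq (F := F) (B := B) j
  have h1 : (p : ℤ) ∣ F.DZ i (F.rootZ j) := by
    rw [e] at hd
    rcases hs with rfl | rfl
    · simpa using hd
    · simpa using hd
  rcases hp'.dvd_or_dvd h1 with h | h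
  · exact hB.cN i p hp h
  · obtain ⟨k, -, hk⟩ := (hp'.dvd_finsetProd_iff _).1 h
    exact hB.rN _ _ (fun e => hi (congrArg Prod.fst e)) p hp hk

theorem ok {r : ℕ} (hF : F.Hyp r) (hB : B.Ok F) (hM : B.Fits M) : (B.dat F M).Ok := by
  refine ⟨hF.two, hM.pos, hM.sm, hB.ne, fun h k hk => (dvd_mul_left _ _).trans (hM.dv h k hk),
    cZ_ne hF, fun h p hp hd => (cZ_N hB h p hp hd).trans (NM hF.two hM), nice_V0 hB,
    fun a ha => ?_, fun _ _ => rfl⟩
  rcases mem_V0.1 ha with rfl | ⟨p, hp, rfl⟩ | ⟨j, p, hp, rfl⟩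
  · exact ⟨rfl, one_dvd _⟩
  · exact ⟨rfl, (Nat.dvd_of_mem_primeFactors hp).trans (NM hF.two hM)⟩
  · exact ⟨rfl, (Nat.dvd_of_mem_primeFactors hp).trans (hM.aM j)⟩

theorem prod_VV (hB : B.Ok F) (hD : (B.dat F M).Ok) (l : Ix n → ℕ) {R : Type} [CommMonoid R]
    (φ : Gen n → R) : ∏ x ∈ (B.dat F M).VV l, φ x =
      φ neg * (∏ p ∈ B.N.primeFactors, φ ((0, none), p)) *
        (∏ j : Ix n, ∏ p ∈ (B.a j).primeFactors, φ ((j.1, none), p)) *
          ∏ j : Ix n, ∏ p ∈ (l j).primeFactors, φ (tg j, p) := by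
  rw [Dat.VV, prod_union (hD.disjoint l), prod_V0 hB, prod_gens]

/-- products over the generators of one class that do not divide `N` -/
theorem prod_cls (hB : B.Ok F) (hD : (B.dat F M).Ok) {l : Ix n → ℕ}
    (hl : ∀ j, (l j).Coprime B.N) (i : Fin 3) {R : Type} [CommMonoid R] (φ : Gen n → R) :
    ∏ x ∈ ((B.dat F M).VV l).filter (fun x => x.1.1 = i ∧ x ≠ neg ∧ ¬x.2 ∣ B.N), φ x =
      ∏ k, (∏ p ∈ (B.a (i, k)).primeFactors, φ ((i, none), p)) *
        ∏ p ∈ (l (i, k)).primeFactors, φ (tg (i, k), p) := by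
  have h1 : ∀ (c : Ix n → ℕ) (t : Ix n → Tag n), (∀ j, (c j).Coprime B.N) → (∀ j, (t j).1 = j.1) →
      ∏ j : Ix n, ∏ p ∈ (c j).primeFactors,
        (if (t j, p).1.1 = i ∧ (t j, p) ≠ neg ∧ ¬(t j, p).2 ∣ B.N then φ (t j, p) else 1) =
      ∏ k, ∏ p ∈ (c (i, k)).primeFactors, φ (t (i, k), p) := by
    intro c t hc ht
    rw [Fintype.prod_prod_type, prod_eq_single i]
    · refine prod_congr rfl fun k _ => prod_congr rfl fun p hp => if_pos ⟨ht _, fun e => ?_, ?_⟩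
      · exact (Nat.prime_of_mem_primeFactors hp).ne_one (Prod.mk.inj e).2
      · exact not_dvd_of_cop (Nat.prime_of_mem_primeFactors hp) (hc _)
          (Nat.dvd_of_mem_primeFactors hp)
    · intro i' _ hi
      exact prod_eq_one fun k _ => prod_eq_one fun p _ => if_neg fun h => hi ((ht _).symm.trans h.1)
    · exact fun h => absurd (mem_univ i) h
  rw [prod_filter, prod_VV hB hD, if_neg (fun h => h.2.1 rfl),
    prod_eq_one fun p hp => if_neg fun h => h.2.2 (Nat.dvd_of_mem_primeFactors hp),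
    h1 B.a (fun j => (j.1, none)) (fun j => cop_of_one (hB.one j)) fun _ => rfl,
    h1 l tg hl fun _ => rfl, one_mul, one_mul, prod_mul_distrib]

theorem filter_cls (hB : B.Ok F) {l : Ix n → ℕ} (hl : ∀ j, (l j).Coprime B.N) {i : Fin 3}
    (hi : i ≠ 0) : ((B.dat F M).VV l).filter (fun x => x.1.1 = i) =
      ((B.dat F M).VV l).filter (fun x => x.1.1 = i ∧ x ≠ neg ∧ ¬x.2 ∣ B.N) := by
  refine filter_congr fun x hx => ⟨fun h => ⟨h, ?_, ?_⟩, fun h => h.1⟩
  · rintro rfl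
    exact hi h.symm
  · rcases mem_VV.1 hx with hx | hx
    · rcases mem_V0.1 hx with rfl | ⟨p, hp, rfl⟩ | ⟨j, p, hp, rfl⟩
      · exact absurd h.symm hi
      · exact absurd h.symm hi
      · exact not_dvd_of_cop (Nat.prime_of_mem_primeFactors hp) (cop_of_one (hB.one j))
          (Nat.dvd_of_mem_primeFactors hp)
    · obtain ⟨j, -, hp⟩ := mem_gens.1 hx
      exact not_dvd_of_cop (Nat.prime_of_mem_primeFactors hp) (hl j)
        (Nat.dvd_of_mem_primeFactors hp)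

theorem prod_pr (hB : B.Ok F) (hD : (B.dat F M).Ok) {l : Ix n → ℕ}
    (hl : ∀ j, (l j).Coprime B.N) (hs : ∀ j, Squarefree (l j)) (i : Fin 3) :
    ∏ x ∈ ((B.dat F M).VV l).filter (fun x => x.1.1 = i ∧ x ≠ neg ∧ ¬x.2 ∣ B.N), x.2 =
      B.pr l i := by
  rw [prod_cls hB hD hl i fun x => x.2]
  exact prod_congr rfl fun k _ => by
    rw [Nat.prod_primeFactors_of_squarefree (hB.sqf _), Nat.prod_primeFactors_of_squarefree (hs _)]

theorem dg_a (hB : B.Ok F) {j : Ix n} {p : ℕ} (hp : p ∈ (B.a j).primeFactors) (i : Fin 3) :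
    (B.dat F M).dg ((i, none), p) = jacobiSym (F.cZ j) p := by
  have e : univ.filter (fun k => p ∣ B.a k) = {j} := by
    ext k
    simp only [mem_filter, mem_univ, true_and, mem_singleton]
    refine ⟨fun h => ?_, fun h => h ▸ Nat.dvd_of_mem_primeFactors hp⟩
    by_contra hk
    exact not_dvd_of_cop (Nat.prime_of_mem_primeFactors hp) (hB.cop k j hk) h
      (Nat.dvd_of_mem_primeFactors hp)
  change ∏ k ∈ univ.filter (fun k => p ∣ B.a k), jacobiSym (F.cZ k) p = _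
  rw [e, prod_singleton]

theorem DZ_eq {l : Ix n → ℕ} {v : ℤ × ℤ} (hv : ∀ j, F.LZ j v = B.μ j * B.a j * l j) (i : Fin 3) :
    F.DZ i v = (F.c i * ∏ k, B.μ (i, k)) * B.pr l i := by
  simp only [Surf.DZ, hv, Base.pr, Nat.cast_prod, Nat.cast_mul, mul_assoc, prod_mul_distrib]

/-- the diagonal symbol at a prime of `a j * l j` -/
theorem diag {r : ℕ} (hF : F.Hyp r) (hB : B.Ok F) (hM : B.Fits M) {l : Ix n → ℕ}
    (hl : Adm (B.dat F M) l) {v : ℤ × ℤ} (hv : ∀ j, F.LZ j v = B.μ j * B.a j * l j) (j : Ix n)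
    {p : ℕ} (hp : p.Prime) (hd : p ∣ B.a j * l j) :
    jacobiSym (F.cZ j) p = jacobiSym (![(B.pr l 1 : ℤ), B.pr l 2, -B.pr l 1] j.1) p := by
  have hp' : Prime (p : ℤ) := Nat.prime_iff_prime_int.1 hp
  have hN : ¬p ∣ B.N := not_dvd_of_cop hp (cop_of_one (al_one hF.two hB hM hl j)) hd
  have := nontriv hF.two
  obtain ⟨k0, hk0⟩ := exists_ne j
  obtain ⟨i, -, hi0, s, -, e1, e2⟩ := cZ_eq (F := F) (B := B) j
  obtain ⟨m, hm⟩ := hF.ev
  have hg : F.c i * ∏ k, B.μ (i, k) = B.g ^ 2 := by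
    have h3 : ∀ i : Fin 3, i = 0 ∨ i = 1 ∨ i = 2 := by decide
    rcases h3 i with rfl | rfl | rfl
    · exact absurd rfl hi0
    · exact hB.p1
    · exact hB.p2
  have hgp : ¬(p : ℤ) ∣ B.g := fun h => by
    have h1 : (p : ℤ) ∣ F.c i * ∏ k, B.μ (i, k) := hg ▸ h.trans (dvd_pow_self _ two_ne_zero)
    rcases hp'.dvd_or_dvd h1 with h | h
    · exact hN (hB.cN i p hp h)
    · obtain ⟨k, -, hk⟩ := (hp'.dvd_finsetProd_iff _).1 h
      exact hN (hB.mN _ p hp hk)
  have hr : ¬(p : ℤ) ∣ F.LZ k0 (F.rootZ j) := fun h => hN (hB.rN _ _ hk0 p hp h)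
  have ht : ¬(p : ℤ) ∣ F.LZ k0 v := fun h => by
    rw [hv, mul_assoc] at h
    rcases hp'.dvd_or_dvd h with h | h
    · exact hN (hB.mN _ p hp h)
    · exact not_dvd_of_cop hp (cop_al hB hM hl hk0.symm) hd (by exact_mod_cast h)
  have hj : (p : ℤ) ∣ F.LZ j v := by
    rw [hv, mul_assoc]
    exact Dvd.dvd.mul_left (by exact_mod_cast hd) _
  have hk : ∀ k : Ix n, F.LZ k0 v * F.LZ k (F.rootZ j) ≡ F.LZ k v * F.LZ k0 (F.rootZ j) [ZMOD p] :=
    fun k => (Int.modEq_iff_dvd.2 (by rw [F.cramer]; exact hj.mul_right _))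
  have hP : ∏ k, F.LZ k0 v * F.LZ (i, k) (F.rootZ j) ≡
      ∏ k, F.LZ (i, k) v * F.LZ k0 (F.rootZ j) [ZMOD p] := prod_modEq _ fun k _ => hk (i, k)
  rw [prod_mul_distrib, prod_mul_distrib, prod_const, prod_const, card_univ, Fintype.card_fin]
    at hP
  rw [e1, e2]
  refine jac_congr hp (s := F.LZ k0 v ^ m) (t := B.g * F.LZ k0 (F.rootZ j) ^ m)
    (fun h => ht (hp'.dvd_of_dvd_pow h)) (fun h => (hp'.dvd_or_dvd h).elim hgp
      fun h => hr (hp'.dvd_of_dvd_pow h)) ?_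
  have h5 := DZ_eq hv i
  rw [hg, Surf.DZ] at h5
  have h6 := hP.mul_left (s * F.c i)
  have h7 : ∀ x : ℤ, x ^ n = (x ^ m) ^ 2 := fun x => by rw [sq, ← pow_add, ← hm]
  rw [h7, h7] at h6
  convert h6 using 1
  · rw [Surf.DZ]; ring
  · linear_combination (-s * (F.LZ k0 (F.rootZ j) ^ m) ^ 2) * h5

end Br

open Br

theorem pt : PTStmt := by
  intro n F B M h2 hB hM l hl
  have := nontriv h2
  obtain ⟨f, g, hfg⟩ := exists_pair_ne (Ix n)
  have h1 : 128 * B.N * (B.e g - B.e f) ∣ (l g : ℤ) - l f := by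
    refine (hM.dv g f hfg.symm).trans (Dvd.dvd.trans ?_ ((hl.one f).trans (hl.one g).symm).dvd)
    change (M : ℤ) ∣ ((8 * M : ℕ) : ℤ)
    push_cast
    exact dvd_mul_left _ _
  obtain ⟨d, hd⟩ := h1
  have hlin : ∀ j, (l j : ℤ) = l f + (B.e j - B.e f) * (128 * B.N * d) := fun j => by
    refine mul_left_cancel₀ (sub_ne_zero.2 (hB.ne g f hfg.symm)) ?_
    have h3 : (B.e g - B.e f) * l j = (B.e g - B.e j) * l f + (B.e j - B.e f) * l g :=
      hl.lin f g j
    linear_combination h3 + (B.e j - B.e f) * hd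
  obtain ⟨D, hD⟩ : ∃ D : ℤ, D = 128 * B.N * d := ⟨_, rfl⟩
  obtain ⟨X, hX⟩ : ∃ X : ℤ, X = l f - B.e f * D := ⟨_, rfl⟩
  have hv : ∀ j, F.LZ j (X * B.v0.1 + D * B.v1.1, X * B.v0.2 + D * B.v1.2) =
      B.μ j * B.a j * l j := fun j => by
    have h3 := hB.l0 j
    have h4 := hB.l1 j
    simp only [Surf.LZ] at h3 h4 ⊢
    rw [hlin j, ← hD]
    linear_combination X * h3 + D * h4 + B.μ j * B.a j * hX
  refine ⟨_, ?_, hv⟩
  refine Int.isCoprime_iff_gcd_eq_one.2 (Nat.coprime_of_dvd fun p hp d1 d2 => ?_)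
  have hp' : Prime (p : ℤ) := Nat.prime_iff_prime_int.1 hp
  replace d1 : (p : ℤ) ∣ X * B.v0.1 + D * B.v1.1 := Int.natCast_dvd.2 d1
  replace d2 : (p : ℤ) ∣ X * B.v0.2 + D * B.v1.2 := Int.natCast_dvd.2 d2
  by_cases hN : p ∣ B.N
  · have hpD : (p : ℤ) ∣ D := by
      rw [hD]
      exact ((Int.natCast_dvd_natCast.2 hN).mul_left _).mul_right _
    have hpX : ¬(p : ℤ) ∣ X := fun h => by
      have h3 : (p : ℤ) ∣ l f := by
        have : (l f : ℤ) = X + B.e f * D := by rw [hX]; ring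
        rw [this]
        exact dvd_add h (hpD.mul_left _)
      exact not_dvd_of_cop hp (cop_of_one (l_one h2 hM hl f)) (Int.natCast_dvd_natCast.1 h3) hN
    have e1 := (hp'.dvd_or_dvd ((dvd_add_left (hpD.mul_right _)).1 d1)).resolve_left hpX
    have e2 := (hp'.dvd_or_dvd ((dvd_add_left (hpD.mul_right _)).1 d2)).resolve_left hpX
    exact hp'.not_isUnit (hB.prim.isUnit_of_dvd' e1 e2)
  · have h3 : ∀ j, p ∣ B.a j * l j := fun j => by
      have h4 : (p : ℤ) ∣ B.μ j * (B.a j * l j) := by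
        rw [← mul_assoc, ← hv j]
        exact dvd_add (d1.mul_left _) (d2.mul_left _)
      have := (hp'.dvd_or_dvd h4).resolve_left fun h => hN (hB.mN j p hp h)
      exact_mod_cast this
    exact not_dvd_of_cop hp (cop_al hB hM hl hfg) (h3 f) (h3 g)

theorem br (pt : PTStmt) : BRStmt := by
  intro n r F B M hF hB hM
  have hD := ok hF hB hM
  refine ⟨hD, fun l hl => ?_⟩
  obtain ⟨v, -, hv⟩ := pt n F B M hF.two hB hM l hl
  have hN : ∀ j, (l j).Coprime B.N := fun j => cop_of_one (l_one hF.two hM hl j)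
  have hone : ∀ i, B.pr l i ≡ 1 [MOD 128 * B.N] := fun i => by
    exact prod_induction _ (· ≡ 1 [MOD 128 * B.N]) (fun _ _ h h' => by simpa using h.mul h') rfl
      fun k _ => al_one hF.two hB hM hl (i, k)
  refine ⟨⟨hl.nice hD, hB.pos, hB.two, fun p hp hd => ⟨?_, ?_⟩, ?_, ?_, ?_, hB.d0, hB.dN, hone 1,
    hone 2, fun x hx h1 h2 => ?_⟩, ?_, ?_⟩
  · exact mem_VV.2 (.inl (mem_V0.2 (.inr (.inl
      ⟨p, Nat.mem_primeFactors.2 ⟨hp, hd, hB.pos.ne'⟩, rfl⟩))))
  · change ∏ k ∈ univ.filter (fun k => p ∣ B.a k), jacobiSym (F.cZ k) p = 1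
    exact prod_eq_one fun k hk =>
      absurd hd (not_dvd_of_cop hp (cop_of_one (hB.one k)) (mem_filter.1 hk).2)
  · rw [filter_cls hB hN (by decide), prod_pr hB hD hN hl.sqf]
  · rw [filter_cls hB hN (by decide), prod_pr hB hD hN hl.sqf]
  · have h1 := hF.sumZ v
    rw [DZ_eq hv, DZ_eq hv, DZ_eq hv, hB.p0, hB.p1, hB.p2] at h1
    have hg : B.g ^ 2 ≠ 0 := by
      rw [← hB.p1]
      exact mul_ne_zero (hF.c0 1) (prod_ne_zero_iff.2 fun k _ => hB.m0 _)
    rw [← Nat.cast_prod, zer, prod_pr hB hD hN hl.sqf]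
    exact mul_left_cancel₀ hg (by linear_combination -h1)
  · rcases mem_VV.1 hx with hx | hx
    · rcases mem_V0.1 hx with rfl | ⟨p, hp, rfl⟩ | ⟨j, p, hp, rfl⟩
      · exact absurd rfl h1
      · exact absurd (Nat.dvd_of_mem_primeFactors hp) h2
      · rw [dg_a hB hp]
        exact diag hF hB hM hl hv j (Nat.prime_of_mem_primeFactors hp)
          ((Nat.dvd_of_mem_primeFactors hp).mul_right _)
    · obtain ⟨t, p⟩ := x
      obtain ⟨j, rfl, hp⟩ := mem_gens.1 hx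
      exact diag hF hB hM hl hv j (Nat.prime_of_mem_primeFactors hp)
        ((Nat.dvd_of_mem_primeFactors hp).mul_left _)
  · rw [zer, prod_cls hB hD hN]
    refine prod_eq_one fun k _ => ?_
    rw [prod_congr rfl fun p hp => dg_a hB hp 0, prod_congr rfl fun p _ => hD.diag (0, k) p,
      jac_sqf _ (hB.sqf _), jac_sqf _ (hl.sqf _)]
    change jacobiSym (F.cZ (0, k)) _ * jacobiSym (F.cZ (0, k)) _ = 1
    rw [jac_one (hB.one _) (cZ_ne hF _) (cZ_N hB _),
      jac_one (l_one hF.two hM hl _) (cZ_ne hF _) (cZ_N hB _), one_mul]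
  · have := prod_VV hB hD l fun _ => Multiplicative.ofAdd (1 : ℕ)
    simpa using congrArg Multiplicative.toAdd this

end Pool.Agent.MP_a43263_nt.RG
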