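import Pool.Agent.MP_a43263_nt.RG.Spec

/-! PROJECT RANKG: certificates for the hypotheses `card` and `sol` of the main theorem. -/

set_option autoImplicit false

noncomputable section

namespace Pool.Agent.MP_a43263_nt.RG

namespace Cert

open Finset

section
variable {K : Type} [Field K] {a b d2 d3 e2 e3 : K}

theorem law2 {z0 z2 z3 t w0 w2 w3 s : K}
    (h1 : d2 * d3 * z0 ^ 2 - d2 * z2 ^ 2 = a * t ^ 2) (h2 : d2 * d3 * z0 ^ 2 - d3 * z3 ^ 2 = b * t ^ 2)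
    (k1 : e2 * e3 * w0 ^ 2 - e2 * w2 ^ 2 = a * s ^ 2) (k2 : e2 * e3 * w0 ^ 2 - e3 * w3 ^ 2 = b * s ^ 2)
    (hn : ¬Cover a b (d2 * e2) (d3 * e3)) :
    t * z0 * w2 * w3 - s * w0 * z2 * z3 = 0 ∧
      t ^ 2 * e2 * e3 * w0 ^ 2 - s ^ 2 * d2 * d3 * z0 ^ 2 = 0 := by
  by_contra h
  refine hn ⟨t * z0 * w2 * w3 - s * w0 * z2 * z3, t * z2 * e3 * w0 * w3 - s * w2 * d3 * z0 * z3,
    t * z3 * e2 * w0 * w2 - s * w3 * d2 * z0 * z2,
    t ^ 2 * e2 * e3 * w0 ^ 2 - s ^ 2 * d2 * d3 * z0 ^ 2, fun h' => h ⟨h'.1, h'.2.2.2⟩, ?_, ?_⟩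
  · linear_combination ((-1)*d3*e2*e3*z3^2*w0^2*s^2 + (1)*e2*e3^2*t^2*w0^2*w3^2) * h1 + ((1)*a*e2*e3*t^2*w0^2*s^2 + (-1)*d2*d3*e2*e3*z0^2*w0^2*s^2 + (1)*d2*d3*e2*z0^2*w2^2*s^2) * h2 + ((-1)*b*d2*d3*z0^2*t^2*s^2 + (1)*d2^2*d3^2*z0^4*s^2 + (-1)*d2*d3*e3*z0^2*t^2*w3^2) * k1 + ((1)*a*d2*d3*z0^2*t^2*s^2 + (-1)*a*e2*e3*t^4*w0^2) * k2
  · linear_combination ((1)*d2*d3*e3*z0^2*w3^2*s^2 + (-1)*d3*e2*e3*z3^2*w0^2*s^2) * h1 + ((1)*a*e2*e3*t^2*w0^2*s^2 + (-1)*d2*d3*e2*e3*z0^2*w0^2*s^2 + (1)*e2^2*e3*t^2*w0^2*w2^2) * h2 + ((-1)*b*e2*e3*t^4*w0^2 + (1)*d2*d3*e2*e3*z0^2*t^2*w0^2 + (-1)*d2*d3*e3*z0^2*t^2*w3^2) * k1 + ((1)*d2^2*d3^2*z0^4*s^2 + (-1)*d2*d3*e2*e3*z0^2*t^2*w0^2) * k2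

theorem law1 {z0 z2 z3 t w0 w2 w3 s : K}
    (h1 : d2 * d3 * z0 ^ 2 - d2 * z2 ^ 2 = a * t ^ 2) (h2 : d2 * d3 * z0 ^ 2 - d3 * z3 ^ 2 = b * t ^ 2)
    (k1 : e2 * e3 * w0 ^ 2 - e2 * w2 ^ 2 = a * s ^ 2) (k2 : e2 * e3 * w0 ^ 2 - e3 * w3 ^ 2 = b * s ^ 2)
    (hn : ¬Cover a b (d2 * e2) (d3 * e3)) :
    d2 * e2 * (d3 * e3) * z0 ^ 2 * w0 ^ 2 - a * b * t ^ 2 * s ^ 2 = 0 := by
  by_contra h
  refine hn ⟨d2 * e2 * (d3 * e3) * z0 ^ 2 * w0 ^ 2 - a * b * t ^ 2 * s ^ 2,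
    d3 * e3 * (d2 * e2 * z0 * w0 * z2 * w2 - a * t * s * z3 * w3),
    d2 * e2 * (d3 * e3 * z0 * w0 * z3 * w3 - b * t * s * z2 * w2),
    d2 * e2 * (d3 * e3) * (t * z0 * w2 * w3 + s * w0 * z2 * z3), fun h' => h h'.1, ?_, ?_⟩
  · linear_combination ((1)*a*d2*d3^2*e2^2*e3^2*z3^2*w0^2*s^2 + (1)*d2^2*d3^2*e2^3*e3^2*z0^2*w0^2*w2^2) * h1 + ((-1)*a^2*d2*d3*e2^2*e3^2*t^2*w0^2*s^2 + (1)*a^2*d2*d3*e2*e3^2*t^2*w3^2*s^2 + (1)*a*d2^2*d3^2*e2^2*e3^2*z0^2*w0^2*s^2) * h2 + ((-1)*a*d2^2*d3^2*e2^2*e3^2*z0^2*t^2*w0^2 + (1)*a*d2^2*d3^2*e2*e3^2*z0^2*t^2*w3^2 + (1)*d2^3*d3^3*e2^2*e3^2*z0^4*w0^2) * k1 + ((-1)*a^2*b*d2*d3*e2*e3*t^4*s^2 + (1)*a*d2^2*d3^2*e2^2*e3^2*z0^2*t^2*w0^2) * k2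
  · linear_combination ((1)*b^2*d2*d3*e2^2*e3*t^2*w2^2*s^2 + (1)*b*d2*d3^2*e2^2*e3^2*z3^2*w0^2*s^2) * h1 + ((-1)*a*b*d2*d3*e2^2*e3^2*t^2*w0^2*s^2 + (1)*b*d2^2*d3^2*e2^2*e3^2*z0^2*w0^2*s^2 + (1)*d2^2*d3^2*e2^2*e3^3*z0^2*w0^2*w3^2) * h2 + ((-1)*a*b^2*d2*d3*e2*e3*t^4*s^2 + (1)*b^2*d2^2*d3^2*e2*e3*z0^2*t^2*s^2 + (1)*b*d2^2*d3^2*e2*e3^2*z0^2*t^2*w3^2) * k1 + ((-1)*a*b*d2^2*d3^2*e2*e3*z0^2*t^2*s^2 + (1)*d2^3*d3^3*e2^2*e3^2*z0^4*w0^2) * k2

theorem nz {z0 z2 z3 t : K} (n2 : d2 ≠ 0) (n3 : d3 ≠ 0) (hz : ¬(z0 = 0 ∧ z2 = 0 ∧ z3 = 0 ∧ t = 0))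
    (h1 : d2 * d3 * z0 ^ 2 - d2 * z2 ^ 2 = a * t ^ 2) (h2 : d2 * d3 * z0 ^ 2 - d3 * z3 ^ 2 = b * t ^ 2)
    (ht : t = 0) : z0 ≠ 0 := by
  rintro rfl
  subst ht
  exact hz ⟨rfl, by simpa [n2] using h1, by simpa [n3] using h2, rfl⟩

theorem cover_mul [CharZero K] (ha : a ≠ 0) (hb : b ≠ 0) (hab : a ≠ b) (n2 : d2 ≠ 0) (n3 : d3 ≠ 0)
    (m2 : e2 ≠ 0) (m3 : e3 ≠ 0) (h : Cover a b d2 d3) (k : Cover a b e2 e3) :
    Cover a b (d2 * e2) (d3 * e3) := by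
  by_contra hn
  obtain ⟨z0, z2, z3, t, hz, h1, h2⟩ := h
  obtain ⟨w0, w2, w3, s, hw, k1, k2⟩ := k
  obtain ⟨p1, p2⟩ := law2 h1 h2 k1 k2 hn
  obtain ⟨p3, -⟩ := law2 (s := -s) h1 h2 (k1.trans (by ring)) (k2.trans (by ring)) hn
  have p4 := law1 h1 h2 k1 k2 hn
  have ht : t ≠ 0 := fun ht => by
    have q := nz n2 n3 hz h1 h2 ht
    subst ht
    have hs : s = 0 := by simpa [n2, n3, q] using p2
    have q' := nz m2 m3 hw k1 k2 hs
    simp [n2, n3, m2, m3, q, q'] at p4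
  have hs : s ≠ 0 := fun hs => by
    have q := nz m2 m3 hw k1 k2 hs
    subst hs
    simp [m2, m3, q, ht] at p2
  have q1 : s * w0 * z2 * z3 = 0 := by
    have : (2 : K) * (s * w0 * z2 * z3) = 0 := by linear_combination p3 - p1
    simpa using this
  have q2 : (d2 * d3 * z0 ^ 2) ^ 2 = a * b * t ^ 4 := by
    apply mul_left_cancel₀ (pow_ne_zero 2 hs)
    linear_combination t ^ 2 * p4 - d2 * d3 * z0 ^ 2 * p2
  have hab' : a - b ≠ 0 := sub_ne_zero.2 hab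
  simp only [mul_eq_zero, hs, false_or] at q1
  rcases q1 with (rfl | rfl) | rfl
  · simp [ha, hb, ht, hs] at p4
  · have : a * (a - b) * t ^ 4 = 0 := by
      linear_combination q2 - (d2 * d3 * z0 ^ 2 + a * t ^ 2) * h1
    simp [ha, hab', ht] at this
  · have : b * (a - b) * t ^ 4 = 0 := by
      linear_combination (d2 * d3 * z0 ^ 2 + b * t ^ 2) * h2 - q2
    simp [hb, hab', ht] at this

theorem cover_sq {p q : K} (hp : p ≠ 0) (hq : q ≠ 0) (h : Cover a b (d2 * p ^ 2) (d3 * q ^ 2)) :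
    Cover a b d2 d3 := by
  obtain ⟨z0, z2, z3, t, hz, h1, h2⟩ := h
  refine ⟨p * q * z0, p * z2, q * z3, t, fun h => hz ?_, by linear_combination h1,
    by linear_combination h2⟩
  simpa [hp, hq] using h

end

theorem prod_sd {ι M : Type} [DecidableEq ι] [CommMonoid M] (f : ι → M) (y y' : Finset ι) :
    (∏ j ∈ y, f j) * ∏ j ∈ y', f j = (∏ j ∈ symmDiff y y', f j) * (∏ j ∈ y ∩ y', f j) ^ 2 := by
  rw [symmDiff_def, sup_eq_union, prod_union disjoint_sdiff_sdiff,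
    ← prod_inter_mul_prod_sdiff y y', ← prod_inter_mul_prod_sdiff y' y, inter_comm y' y, sq]
  ac_rfl

theorem sq_of {x s : ℚ} (hs : s ≠ 0) (h : IsSquare (x * s ^ 2)) : IsSquare x := by
  obtain ⟨r, hr⟩ := h
  exact ⟨r / s, by field_simp; linear_combination hr⟩

variable {n : ℕ} (F : Surf n)

/-- the generic point -/
abbrev gen : RatFunc ℚ × RatFunc ℚ := (RatFunc.X, 1)

def Sol (u : Fin 3 → ℚ) (y : Finset (Ix n)) : Prop :=
  Cover (F.D 1 gen) (F.D 2 gen) (F.del u y 2 gen) (F.del u y 1 gen)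

def Gd (y : Finset (Ix n)) : Prop := ∃ u, F.InS u y ∧ Sol F u y

structure Pre : Prop where
  pos : 0 < n
  c0 : ∀ i, F.c i ≠ 0
  ne : ∀ j k, j ≠ k → F.LZ j (F.rootZ k) ≠ 0
  sum : ∀ (K : Type) [Field K] (v : K × K), F.D 0 v = F.D 1 v - F.D 2 v

def gamZ (j : Ix n) : ℤ := ![F.DZ 1 (F.rootZ j), -F.DZ 2 (F.rootZ j), -F.DZ 1 (F.rootZ j)] j.1

def AZ (y : Finset (Ix n)) (j : Ix n) : ℤ :=
  (∏ k ∈ y.filter (fun k => k.1 ≠ j.1), F.LZ k (F.rootZ j)) * if j ∈ y then gamZ F j else 1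

theorem L_root (j k : Ix n) : F.L j (F.root k) = (F.LZ j (F.rootZ k) : ℚ) := by
  simp [Surf.L, Surf.LZ, Surf.root, Surf.rootZ]

theorem D_root (i : Fin 3) (k : Ix n) : F.D i (F.root k) = (F.DZ i (F.rootZ k) : ℚ) := by
  simp [Surf.D, Surf.DZ, L_root]

theorem gam_eq (j : Ix n) : F.gam j = (gamZ F j : ℚ) := by
  obtain ⟨i, k⟩ := j
  fin_cases i <;> simp [Surf.gam, gamZ, D_root]

theorem inS_iff (u : Fin 3 → ℚ) (y : Finset (Ix n)) : F.InS u y ↔ (∀ i, u i ≠ 0) ∧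
    IsSquare (u 0 * u 1 * u 2) ∧ (∀ i, Even (y.filter fun j => j.1 ≠ i).card) ∧
    ∀ j, IsSquare (u j.1 * AZ F y j) := by
  have : ∀ j, (F.del u y j.1 (F.root j) * if j ∈ y then F.gam j else 1) = u j.1 * AZ F y j := by
    intro j
    simp only [Surf.del, AZ, L_root, gam_eq, Rat.cast_id]
    push_cast
    ring
  simp only [Surf.InS, this]

variable {F}

theorem Pre.gam (h : Pre F) (j : Ix n) : gamZ F j ≠ 0 := by
  have key : ∀ i : Fin 3, i ≠ j.1 → F.DZ i (F.rootZ j) ≠ 0 := fun i hi =>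
    mul_ne_zero (h.c0 i) (prod_ne_zero_iff.2 fun k _ => h.ne _ _ fun e => hi (congrArg Prod.fst e))
  obtain ⟨i, k⟩ := j
  fin_cases i <;> simp [gamZ] <;> exact key _ (by simp)

theorem Pre.L (h : Pre F) (j : Ix n) : F.L j gen ≠ 0 := by
  intro e
  have e' : algebraMap (Polynomial ℚ) (RatFunc ℚ)
      (Polynomial.C (F.A j : ℚ) * Polynomial.X + Polynomial.C (F.B j : ℚ)) = 0 := by
    simpa [Surf.L] using e
  rw [map_eq_zero_iff _ (RatFunc.algebraMap_injective ℚ)] at e'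
  have b0 : F.B j = 0 := by simpa using congrArg (Polynomial.eval 0) e'
  have a0 : F.A j = 0 := by simpa [b0] using congrArg (Polynomial.eval 1) e'
  refine h.ne j (j.1 + 1, j.2) (fun e => ?_) (by simp [Surf.LZ, a0, b0])
  have := congrArg Prod.fst e
  simp at this

theorem Pre.D (h : Pre F) (i : Fin 3) : F.D i gen ≠ 0 :=
  mul_ne_zero (by exact_mod_cast h.c0 i) (prod_ne_zero_iff.2 fun _ _ => h.L _)

theorem Pre.del (h : Pre F) {u : Fin 3 → ℚ} (hu : ∀ i, u i ≠ 0) (y : Finset (Ix n)) (i : Fin 3) :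
    F.del u y i gen ≠ 0 :=
  mul_ne_zero (by exact_mod_cast hu i) (prod_ne_zero_iff.2 fun _ _ => h.L _)

theorem prod_sd' {M : Type} [CommMonoid M] (f : Ix n → M) (i : Fin 3) (y y' : Finset (Ix n)) :
    (∏ j ∈ y.filter (fun j => j.1 ≠ i), f j) * ∏ j ∈ y'.filter (fun j => j.1 ≠ i), f j =
      (∏ j ∈ (symmDiff y y').filter (fun j => j.1 ≠ i), f j) *
        (∏ j ∈ (y ∩ y').filter (fun j => j.1 ≠ i), f j) ^ 2 := by
  simp only [prod_filter]
  exact prod_sd _ y y'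

theorem inS_mul (h : Pre F) {u u' : Fin 3 → ℚ} {y y' : Finset (Ix n)} (p : F.InS u y)
    (q : F.InS u' y') : F.InS (u * u') (symmDiff y y') := by
  rw [inS_iff] at p q ⊢
  refine ⟨fun i => mul_ne_zero (p.1 i) (q.1 i), ?_, fun i => ?_, fun j => ?_⟩
  · have := p.2.1.mul q.2.1
    rwa [show u 0 * u 1 * u 2 * (u' 0 * u' 1 * u' 2) = (u * u') 0 * (u * u') 1 * (u * u') 2 by
      simp only [Pi.mul_apply]; ring] at this
  · have := prod_sd' (fun _ => (-1 : ℤ)) i y y'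
    simp only [prod_const, (p.2.2.1 i).neg_one_pow, (q.2.2.1 i).neg_one_pow] at this
    rw [← pow_mul, mul_comm _ 2, pow_mul, neg_one_sq, one_pow, mul_one, mul_one] at this
    exact (neg_one_pow_eq_one_iff_even (R := ℤ) (by norm_num)).1 this.symm
  · have e1 := prod_sd' (fun k => F.LZ k (F.rootZ j)) j.1 y y'
    have e2 : ∃ s : ℤ, s ≠ 0 ∧ ((if j ∈ y then gamZ F j else 1) * if j ∈ y' then gamZ F j else 1) =
        (if j ∈ symmDiff y y' then gamZ F j else 1) * s ^ 2 := by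
      by_cases a : j ∈ y <;> by_cases b : j ∈ y'
      · exact ⟨gamZ F j, h.gam j, by simp [mem_symmDiff, a, b, sq]⟩
      all_goals exact ⟨1, one_ne_zero, by simp [mem_symmDiff, a, b]⟩
    obtain ⟨s, s0, e2⟩ := e2
    have hp : (∏ k ∈ (y ∩ y').filter (fun k => k.1 ≠ j.1), F.LZ k (F.rootZ j)) ≠ 0 :=
      prod_ne_zero_iff.2 fun k hk => h.ne _ _ fun e => (mem_filter.1 hk).2 (congrArg Prod.fst e)
    have e3 : AZ F y j * AZ F y' j = AZ F (symmDiff y y') j *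
        ((∏ k ∈ (y ∩ y').filter (fun k => k.1 ≠ j.1), F.LZ k (F.rootZ j)) * s) ^ 2 := by
      unfold AZ
      rw [mul_mul_mul_comm, e1, e2]
      ring
    refine sq_of (Int.cast_ne_zero.2 (mul_ne_zero hp s0)) ?_
    have := (p.2.2.2 j).mul (q.2.2.2 j)
    rw [mul_mul_mul_comm, ← Int.cast_mul, e3] at this
    rwa [Pi.mul_apply, mul_assoc, ← Int.cast_pow, ← Int.cast_mul]

theorem del_mul (u u' : Fin 3 → ℚ) (y y' : Finset (Ix n)) (i : Fin 3) :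
    F.del u y i gen * F.del u' y' i gen = F.del (u * u') (symmDiff y y') i gen *
      (∏ j ∈ (y ∩ y').filter (fun j => j.1 ≠ i), F.L j gen) ^ 2 := by
  unfold Surf.del
  rw [mul_mul_mul_comm, prod_sd', Pi.mul_apply, Rat.cast_mul]
  ring

theorem Gd.mul (h : Pre F) {y y' : Finset (Ix n)} (p : Gd F y) (q : Gd F y') :
    Gd F (symmDiff y y') := by
  obtain ⟨u, p, p'⟩ := p
  obtain ⟨u', q, q'⟩ := q
  refine ⟨u * u', inS_mul h p q, ?_⟩
  have := cover_mul (h.D 1) (h.D 2) (fun e => h.D 0 (by rw [h.sum, e, sub_self])) (h.del p.1 y 2)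
    (h.del p.1 y 1) (h.del q.1 y' 2) (h.del q.1 y' 1) p' q'
  rw [del_mul, del_mul] at this
  exact cover_sq (prod_ne_zero_iff.2 fun _ _ => h.L _) (prod_ne_zero_iff.2 fun _ _ => h.L _) this

theorem Gd.sol (h : Pre F) {y : Finset (Ix n)} (p : Gd F y) {u : Fin 3 → ℚ} (q : F.InS u y) :
    Sol F u y := by
  obtain ⟨u', p, p'⟩ := p
  have e := (inS_iff F _ _).1 (inS_mul h p q)
  have key : ∀ i, ∃ s : RatFunc ℚ, s ≠ 0 ∧ F.del u' y i gen = F.del u y i gen * s ^ 2 := by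
    intro i
    obtain ⟨r, hr⟩ := e.2.2.2 (i, ⟨0, h.pos⟩)
    simp only [symmDiff_self, AZ, bot_eq_empty, filter_empty, prod_empty, notMem_empty, if_false,
      mul_one, Int.cast_one, Pi.mul_apply] at hr
    have u0 := q.1 i
    have r0 : r ≠ 0 := by
      rintro rfl
      exact mul_ne_zero (p.1 i) u0 (by simpa using hr)
    have : u' i = u i * (r / u i) ^ 2 := by field_simp; linear_combination hr
    refine ⟨((r / u i : ℚ) : RatFunc ℚ), by exact_mod_cast div_ne_zero r0 u0, ?_⟩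
    unfold Surf.del
    rw [this, Rat.cast_mul, Rat.cast_pow]
    ring
  obtain ⟨s2, a2, b2⟩ := key 2
  obtain ⟨s1, a1, b1⟩ := key 1
  unfold Sol at p' ⊢
  rw [b2, b1] at p'
  exact cover_sq a2 a1 p'

theorem gd_empty : Gd F ∅ := by
  refine ⟨1, (inS_iff F _ _).2 ⟨by simp, by simp, by simp, by simp [AZ]⟩, 1, 1, 1, 0, by simp, ?_, ?_⟩ <;>
    simp [Surf.del]

/-- sums of basis vectors -/
def sm {s : ℕ} (b : Fin s → Finset (Ix n)) (T : Finset (Fin s)) : Finset (Ix n) :=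
  univ.filter fun j => Odd (T.filter fun i => j ∈ b i).card

theorem sm_gd (h : Pre F) {s : ℕ} {b : Fin s → Finset (Ix n)} (hb : ∀ i, Gd F (b i))
    (T : Finset (Fin s)) : Gd F (sm b T) := by
  induction T using Finset.induction_on with
  | empty => simpa [sm] using gd_empty
  | insert i T hi ih =>
    have : sm b (insert i T) = symmDiff (b i) (sm b T) := by
      ext j
      by_cases hj : j ∈ b i
      · simp [sm, mem_symmDiff, filter_insert, hj, hi, Nat.odd_add_one]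
      · simp [sm, mem_symmDiff, filter_insert, hj]
    rw [this]
    exact (hb i).mul h ih

theorem pv_sm {s : ℕ} {b : Fin s → Finset (Ix n)} {pv : Fin s → Ix n}
    (hpv : ∀ i k, pv i ∈ b k ↔ i = k) (T : Finset (Fin s)) (i : Fin s) : pv i ∈ sm b T ↔ i ∈ T := by
  by_cases hi : i ∈ T <;> simp [sm, hpv, filter_eq, hi]

theorem cert (h : Pre F) {s : ℕ} {b : Fin s → Finset (Ix n)} {pv : Fin s → Ix n}
    (hpv : ∀ i k, pv i ∈ b k ↔ i = k) (hb : ∀ i, Gd F (b i))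
    (h0 : ∀ u y, F.InS u y → (∀ i, pv i ∉ y) → y = ∅) :
    {y | ∃ u, F.InS u y}.ncard = 2 ^ s ∧ ∀ u y, F.InS u y → Sol F u y := by
  have key : ∀ u y, F.InS u y → ∃ T, y = sm b T := by
    intro u y hy
    obtain ⟨u', p, -⟩ := sm_gd h hb (univ.filter fun i => pv i ∈ y)
    refine ⟨_, symmDiff_eq_bot.1 (h0 _ _ (inS_mul h hy p) fun i => ?_)⟩
    simp [mem_symmDiff, pv_sm hpv]
  refine ⟨?_, fun u y hy => ?_⟩
  · have : {y | ∃ u, F.InS u y} = Set.range (sm b) := by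
      ext y
      constructor
      · rintro ⟨u, hu⟩
        exact (key u y hu).imp fun _ e => e.symm
      · rintro ⟨T, rfl⟩
        exact (sm_gd h hb T).imp fun _ e => e.1
    rw [this, Set.ncard_range_of_injective]
    · simp
    · intro T T' e
      ext i
      rw [← pv_sm hpv, e, pv_sm hpv]
  · obtain ⟨T, rfl⟩ := key u y hy
    exact (sm_gd h hb T).sol h hy

/-! ### finite tests -/

/-- `z` is a square modulo the members of `Q` -/
def msq (Q : List ℕ) (z : ℤ) : Bool :=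
  decide (0 ≤ z) && Q.all fun q => (List.range q).any fun x => decide (((x : ℤ) * x - z) % q = 0)

theorem msq_of {Q : List ℕ} (hQ : ∀ q ∈ Q, 0 < q) {z : ℤ} (h : IsSquare (z : ℚ)) : msq Q z = true := by
  obtain ⟨r, rfl⟩ := Rat.isSquare_intCast_iff.1 h
  simp only [msq, Bool.and_eq_true, decide_eq_true_eq, List.all_eq_true, List.any_eq_true,
    List.mem_range]
  refine ⟨mul_self_nonneg r, fun q hq => ?_⟩
  have q0 : (0 : ℤ) < q := by exact_mod_cast hQ q hq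
  have h1 := Int.emod_nonneg r q0.ne'
  have h2 := Int.emod_lt_of_pos r q0
  refine ⟨(r % q).toNat, by omega, ?_⟩
  rw [Int.toNat_of_nonneg h1]
  apply Int.emod_eq_zero_of_dvd
  have : (q : ℤ) ∣ r % q - r := (Int.mod_modEq r q).symm.dvd
  exact (show r % q * (r % q) - r * r = (r % q - r) * (r % q + r) by ring) ▸ this.mul_right _

/-- Newton iteration for the square root -/
def nrt (m : ℕ) : ℕ → ℕ → ℕ
  | 0, x => x
  | f + 1, x => if (x + m / x) / 2 < x then nrt m f ((x + m / x) / 2) else x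

def isq (z : ℤ) : Bool := decide ((nrt z.toNat 2000 z.toNat : ℤ) * nrt z.toNat 2000 z.toNat = z)

theorem of_isq {z : ℤ} (h : isq z = true) : IsSquare (z : ℚ) :=
  Rat.isSquare_intCast_iff.2 ⟨_, (of_decide_eq_true h).symm⟩

variable (F)

/-- a necessary condition for membership in the residue group -/
def Test (Q : List ℕ) (k : Fin n) (y : Finset (Ix n)) : Prop :=
  (∀ i, Even (y.filter fun j => j.1 ≠ i).card) ∧
    (∀ j, msq Q (AZ F y (j.1, k) * AZ F y j) = true) ∧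
    msq Q (AZ F y (0, k) * AZ F y (1, k) * AZ F y (2, k)) = true

instance (Q : List ℕ) (k : Fin n) (y : Finset (Ix n)) : Decidable (Test F Q k y) := by
  unfold Test; infer_instance

/-- a sufficient condition for membership in the residue group -/
def Chk (u : Fin 3 → ℤ) (y : Finset (Ix n)) : Prop :=
  (∀ i, u i ≠ 0) ∧ isq (u 0 * u 1 * u 2) = true ∧ (∀ i, Even (y.filter fun j => j.1 ≠ i).card) ∧
    ∀ j, isq (u j.1 * AZ F y j) = true

instance (u : Fin 3 → ℤ) (y : Finset (Ix n)) : Decidable (Chk F u y) := by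
  unfold Chk; infer_instance

variable {F}

theorem test_of {Q : List ℕ} (hQ : ∀ q ∈ Q, 0 < q) (k : Fin n) {u : Fin 3 → ℚ} {y : Finset (Ix n)}
    (h : F.InS u y) : Test F Q k y := by
  obtain ⟨h1, h2, h3, h4⟩ := (inS_iff F _ _).1 h
  refine ⟨h3, fun j => msq_of hQ (sq_of (h1 j.1) ?_), msq_of hQ
    (sq_of (mul_ne_zero (mul_ne_zero (h1 0) (h1 1)) (h1 2)) ?_)⟩
  · have := (h4 (j.1, k)).mul (h4 j)
    push_cast
    rwa [show ∀ a b c : ℚ, a * b * (a * c) = b * c * a ^ 2 from fun _ _ _ => by ring] at this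
  · have := (((h4 (0, k)).mul (h4 (1, k))).mul (h4 (2, k))).mul h2
    push_cast
    rwa [show ∀ a b c d e f : ℚ, a * b * (c * d) * (e * f) * (a * c * e) =
      b * d * f * (a * c * e) ^ 2 from fun _ _ _ _ _ _ => by ring] at this

theorem of_chk {u : Fin 3 → ℤ} {y : Finset (Ix n)} (h : Chk F u y) : F.InS (fun i => u i) y := by
  refine (inS_iff F _ _).2 ⟨fun i => by exact_mod_cast h.1 i, ?_, h.2.2.1, fun j => ?_⟩
  · exact_mod_cast of_isq h.2.1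
  · exact_mod_cast of_isq (h.2.2.2 j)

/-- the product of the forms of `y` in the group `i` -/
def PP (F : Surf n) (y : Finset (Ix n)) (i : Fin 3) : RatFunc ℚ :=
  ∏ k, if (i, k) ∈ y then F.L (i, k) gen else 1

theorem gd_of (h : Pre F) (u : Fin 3 → ℤ) (y : Finset (Ix n)) (hc : Chk F u y)
    (w0 w2 w3 : RatFunc ℚ) (t : ℤ) (ht : t ≠ 0)
    (h2 : u 1 * u 2 * PP F y 1 * PP F y 2 * w0 ^ 2 - u 2 * PP F y 0 * PP F y 1 * w2 ^ 2 =
      F.D 1 gen * t ^ 2)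
    (h3 : u 1 * u 2 * PP F y 1 * PP F y 2 * w0 ^ 2 - u 1 * PP F y 0 * PP F y 2 * w3 ^ 2 =
      F.D 2 gen * t ^ 2) : Gd F y := by
  have key : ∀ i, ∏ j ∈ y.filter (fun j => j.1 ≠ i), F.L j gen =
      ∏ i', if i' ≠ i then PP F y i' else 1 := by
    intro i
    rw [← univ_inter y, ← filter_mem_eq_inter, filter_filter, prod_filter, Fintype.prod_prod_type]
    refine prod_congr rfl fun i' _ => ?_
    by_cases e : i' = i <;> simp [PP, e]
  have p0 : PP F y 0 ≠ 0 := prod_ne_zero_iff.2 fun k _ => by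
    split_ifs
    exacts [h.L _, one_ne_zero]
  refine ⟨_, of_chk hc, w0, PP F y 0 * w2, PP F y 0 * w3, PP F y 0 * t, fun e => ?_, ?_, ?_⟩
  · exact mul_ne_zero p0 (by exact_mod_cast ht) e.2.2.2
  · simp only [Surf.del, key, Fin.prod_univ_three, Rat.cast_intCast]
    simp
    linear_combination PP F y 0 ^ 2 * h2
  · simp only [Surf.del, key, Fin.prod_univ_three, Rat.cast_intCast]
    simp
    linear_combination PP F y 0 ^ 2 * h3

/-- the number `AZ` for a list -/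
def AL (F : Surf n) (l : List (Ix n)) (j : Ix n) : ℤ :=
  ((l.filter fun k => k.1 ≠ j.1).map fun k => F.LZ k (F.rootZ j)).prod * if j ∈ l then gamZ F j else 1

def TestL (F : Surf n) (Q : List ℕ) (k : Fin n) (l : List (Ix n)) : Prop :=
  (∀ i, (l.filter fun j => j.1 ≠ i).length % 2 = 0) ∧
    (∀ i k', msq Q (AL F l (i, k) * AL F l (i, k')) = true) ∧
    msq Q (AL F l (0, k) * AL F l (1, k) * AL F l (2, k)) = true

instance (F : Surf n) (Q : List ℕ) (k : Fin n) (l : List (Ix n)) : Decidable (TestL F Q k l) := by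
  unfold TestL; infer_instance

theorem testL_of {Q : List ℕ} {k : Fin n} {l : List (Ix n)} (hl : l.Nodup)
    (h : Test F Q k l.toFinset) : TestL F Q k l := by
  have e : ∀ i : Fin 3, l.toFinset.filter (fun j => j.1 ≠ i) =
      (l.filter fun j => j.1 ≠ i).toFinset := fun i => by
    ext j
    simp
  have e' : ∀ j, AZ F l.toFinset j = AL F l j := fun j => by
    simp only [AZ, AL, e, List.prod_toFinset _ (hl.filter _), List.mem_toFinset]
  obtain ⟨h1, h2, h3⟩ := h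
  simp only [e', e, List.toFinset_card_of_nodup (hl.filter _)] at h1 h2 h3
  exact ⟨fun i => Nat.even_iff.1 (h1 i), fun i k' => h2 (i, k'), h3⟩

theorem cert' (h : Pre F) {s : ℕ} {b : Fin s → Finset (Ix n)} {pv : Fin s → Ix n}
    (hpv : ∀ i k, pv i ∈ b k ↔ i = k) (hb : ∀ i, Gd F (b i)) (Q : List ℕ) (hQ : ∀ q ∈ Q, 0 < q)
    (k : Fin n) (fr : List (Ix n)) (hf : fr.Nodup ∧ ∀ j, j ∈ fr ∨ ∃ i, pv i = j)
    (h0 : (fr.sublists'.all fun l => l.isEmpty || !decide (TestL F Q k l)) = true) :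
    {y | ∃ u, F.InS u y}.ncard = 2 ^ s ∧ ∀ u y, F.InS u y → Sol F u y :=
  cert h hpv hb fun u y hy hp => by
    have e : (fr.filter (· ∈ y)).toFinset = y := by
      ext j
      simp only [List.mem_toFinset, List.mem_filter, decide_eq_true_eq, and_iff_right_iff_imp]
      intro hj
      rcases hf.2 j with a | ⟨i, rfl⟩
      exacts [a, absurd hj (hp i)]
    have t := test_of hQ k hy
    rw [← e] at t
    have := List.all_eq_true.1 h0 _ (List.mem_sublists'.2 (List.filter_sublist (p := (· ∈ y))))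
    simp only [testL_of (hf.1.filter _) t, decide_true, Bool.not_true, Bool.or_false,
      List.isEmpty_iff] at this
    rw [← e, this, List.toFinset_nil]

theorem hyp_of (h : Pre F) {r : ℕ} (ev : Even n) (k : Fin n) (sp : isq (gamZ F (0, k)) = true)
    (hc : {y | ∃ u, F.InS u y}.ncard = 2 ^ (r + 2) ∧ ∀ u y, F.InS u y → Sol F u y) : F.Hyp r where
  ev := ev
  c0 := h.c0
  ne := fun j k e => by rw [L_root]; exact_mod_cast h.ne j k e
  sum := h.sum ℚ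
  split := ⟨k, by rw [gam_eq]; exact of_isq sp⟩
  card := hc.1
  sol := hc.2

end Cert

end Pool.Agent.MP_a43263_nt.RG
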