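import Mathlib.Analysis.SpecialFunctions.Pow.NthRootLemmas
import Pool.Agent.MP_a43263_nt.RG.Basic

/-! PROJECT RANKG: the final assembly, and pairwise different j-invariants. -/

set_option autoImplicit false

noncomputable section

namespace Pool.Agent.MP_a43263_nt.RG

open Finset Filter Polynomial
open R2 (Ker Sc Core Shape)

namespace FIN

variable {n : ℕ}

/-- scales exist for every large `Z` -/
theorem exists_scale (n M J t : ℕ) : ∀ᶠ Z : ℕ in atTop, ∃ S : Sc, S.M = M ∧ S.J = J ∧ t ≤ S.Y0 ∧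
    Rel n S ∧ S.Z = Z := by
  have h0 := EE_pos n
  have hE : EE n * 128 ^ J * EE n ≠ 0 := by positivity
  filter_upwards [eventually_ge_atTop ((t + 2) ^ (EE n * 128 ^ J * EE n))] with Z hZ
  have h1 := (Nat.le_nthRoot_iff hE).2 hZ
  have h2 := (Nat.pow_nthRoot_le_iff (n := EE n * 128 ^ J * EE n) (a := Z)).2 (Or.inl hE)
  have h3 := Nat.lt_pow_nthRoot_add_one hE Z
  generalize Nat.nthRoot (EE n * 128 ^ J * EE n) Z = y at h1 h2 h3
  have h4 : y + 1 ≤ y ^ 2 := by nlinarith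
  have h5 : Z ≤ ((y ^ EE n) ^ 128 ^ J) ^ (2 * EE n) := by
    refine (h3.le.trans (Nat.pow_le_pow_left h4 _)).trans (le_of_eq ?_)
    simp only [← pow_mul]
    congr 1
    ring
  rw [pow_mul, pow_mul] at h2
  exact ⟨⟨M, y, y ^ EE n, (y ^ EE n) ^ 128 ^ J, Z, J, 0⟩, rfl, rfl, by simp only; omega,
    ⟨rfl, rfl, h2, h5⟩, rfl⟩

/-- admissible moduli exist -/
theorem exists_fits {F : Surf n} {B : Base n} (hB : B.Ok F) (P : ℕ) :
    ∃ M : ℕ, B.Fits M ∧ ∀ p : ℕ, p.Prime → p ≤ P → p ∣ M := by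
  classical
  set R : ℕ := ∏ q ∈ (univ : Finset (Ix n)).offDiag, (B.e q.1 - B.e q.2).natAbs with hR
  have hR0 : 0 < R := prod_pos fun q hq =>
    Int.natAbs_pos.2 (sub_ne_zero.2 (hB.ne _ _ (mem_offDiag.1 hq).2.2))
  have ha : 0 < ∏ j, B.a j := prod_pos fun j _ => Nat.pos_of_ne_zero (hB.sqf j).ne_zero
  have hN := hB.pos
  have hp : ∀ p : ℕ, p.Prime → p ≤ P + 12 * n →
      p ∣ 128 * B.N * R * ((∏ j, B.a j) * (P + 12 * n).factorial) := fun p hp h =>
    ((Nat.dvd_factorial hp.pos h).mul_left _).mul_left _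
  refine ⟨128 * B.N * R * ((∏ j, B.a j) * (P + 12 * n).factorial),
    ⟨by positivity, fun p h1 h2 => hp p h1 (by omega), fun h k hk => ?_, fun j => ?_⟩,
    fun p h1 h2 => hp p h1 (by omega)⟩
  · have h1 : B.e h - B.e k ∣ (R : ℤ) := Int.natAbs_dvd.1 (Int.natCast_dvd_natCast.2
      (dvd_prod_of_mem (fun q : Ix n × Ix n => (B.e q.1 - B.e q.2).natAbs) (a := (h, k))
        (mem_offDiag.2 ⟨mem_univ _, mem_univ _, hk⟩)))
    rw [Nat.cast_mul, Nat.cast_mul, Nat.cast_mul]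
    exact (mul_dvd_mul_left _ h1).mul_right _
  · exact ((dvd_prod_of_mem _ (mem_univ j)).mul_right _).mul_left _

/-- a vector is bounded by the values of the forms -/
theorem exists_bound {r : ℕ} {F : Surf n} (hF : F.Hyp r) (w : Ix n → ℤ) : ∃ C : ℕ, 0 < C ∧
    ∀ (Z : ℕ) (l : Ix n → ℕ) (v : ℤ × ℤ), (∀ j, l j ≤ Z) → (∀ j, F.LZ j v = w j * l j) →
      |v.1| ≤ C * Z ∧ |v.2| ≤ C * Z := by
  have h2 := hF.two
  obtain ⟨j, k, hjk⟩ : ∃ j k : Ix n, j ≠ k := ⟨(0, ⟨0, by omega⟩), (1, ⟨0, by omega⟩), by simp⟩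
  have hr := Int.one_le_abs (hF.res_ne hjk)
  refine ⟨((|F.A k| + |F.B k|) * |w j| + (|F.A j| + |F.B j|) * |w k|).natAbs + 1, by omega,
    fun Z l v hl hv => ?_⟩
  have b : ∀ i, |F.LZ i v| ≤ |w i| * Z := fun i => by
    rw [hv, abs_mul, Nat.abs_cast]
    exact mul_le_mul_of_nonneg_left (by exact_mod_cast hl i) (abs_nonneg _)
  have key : ∀ x p q : ℤ, x * F.LZ j (F.rootZ k) = p * F.LZ j v + q * F.LZ k v →
      |x| ≤ (|p| * |w j| + |q| * |w k|) * Z := fun x p q h => by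
    calc |x| ≤ |x| * |F.LZ j (F.rootZ k)| := le_mul_of_one_le_right (abs_nonneg _) hr
      _ = |p * F.LZ j v + q * F.LZ k v| := by rw [← abs_mul, h]
      _ ≤ |p| * |F.LZ j v| + |q| * |F.LZ k v| := by
          rw [← abs_mul, ← abs_mul]; exact abs_add_le _ _
      _ ≤ |p| * (|w j| * Z) + |q| * (|w k| * Z) := by gcongr <;> exact b _
      _ = _ := by ring
  have k1 := key v.1 (F.B k) (-F.B j) (by simp only [Surf.LZ, Surf.rootZ]; ring)
  have k2 := key v.2 (-F.A k) (F.A j) (by simp only [Surf.LZ, Surf.rootZ]; ring)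
  rw [abs_neg] at k1 k2
  have hZ : (0 : ℤ) ≤ Z := Nat.cast_nonneg _
  have p1 := mul_nonneg (abs_nonneg (F.A k)) (abs_nonneg (w j))
  have p2 := mul_nonneg (abs_nonneg (F.B k)) (abs_nonneg (w j))
  have p3 := mul_nonneg (abs_nonneg (F.A j)) (abs_nonneg (w k))
  have p4 := mul_nonneg (abs_nonneg (F.B j)) (abs_nonneg (w k))
  rw [Nat.cast_add, Int.natAbs_of_nonneg (by positivity), Nat.cast_one]
  constructor
  · refine k1.trans (mul_le_mul_of_nonneg_right ?_ hZ); nlinarith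
  · refine k2.trans (mul_le_mul_of_nonneg_right ?_ hZ); nlinarith

theorem curve_c4 (a b : ℚ) : (curve a b).c₄ = 16 * (a ^ 2 - a * b + b ^ 2) := by
  simp only [curve, WeierstrassCurve.c₄, WeierstrassCurve.b₂, WeierstrassCurve.b₄]; ring

theorem curve_Δ (a b : ℚ) : (curve a b).Δ = 16 * a ^ 2 * b ^ 2 * (a - b) ^ 2 := by
  simp only [curve, WeierstrassCurve.Δ, WeierstrassCurve.b₂, WeierstrassCurve.b₄,
    WeierstrassCurve.b₆, WeierstrassCurve.b₈]; ring

def jv (E : WeierstrassCurve ℚ) : ℚ := E.Δ⁻¹ * E.c₄ ^ 3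

theorem j_eq_jv (E : WeierstrassCurve ℚ) [E.IsElliptic] : E.j = jv E := by
  rw [WeierstrassCurve.j, Units.val_inv_eq_inv_val, WeierstrassCurve.coe_Δ', jv]

/-- the product of the forms of one class as a polynomial -/
def pol (F : Surf n) (i : Fin 3) : ℚ[X] :=
  C (F.c i : ℚ) * ∏ k, (C (F.A (i, k) : ℚ) * X + C (F.B (i, k) : ℚ))

theorem eval_pol (F : Surf n) (i : Fin 3) {x y : ℚ} (hy : y ≠ 0) :
    F.D i (x, y) = y ^ n * (pol F i).eval (x / y) := by
  have : ∀ k, F.L (i, k) (x, y) = y * ((F.A (i, k) : ℚ) * (x / y) + F.B (i, k)) := fun k => by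
    simp only [Surf.L]; field_simp
  simp only [Surf.D, pol, eval_mul, eval_C, eval_prod, eval_add, eval_X, this, prod_mul_distrib,
    prod_const, card_univ, Fintype.card_fin]
  ring

theorem exists_root {r : ℕ} {F : Surf n} (hF : F.Hyp r) :
    ∃ t : ℚ, (pol F 1).eval t = 0 ∧ (pol F 2).eval t ≠ 0 := by
  have h2 := hF.two
  obtain ⟨k, hk⟩ : ∃ k : Fin n, F.A (1, k) ≠ 0 := by
    by_contra h
    push Not at h
    refine hF.res_ne (j := (1, ⟨0, by omega⟩)) (k := (1, ⟨1, by omega⟩)) (by simp) ?_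
    simp [Surf.LZ, Surf.rootZ, h]
  have hy : -(F.A (1, k) : ℚ) ≠ 0 := by simpa using hk
  refine ⟨F.B (1, k) / -(F.A (1, k) : ℚ), ?_, fun h => ?_⟩
  · have h1 := eval_pol F 1 (x := F.B (1, k)) hy
    have h3 : F.D 1 ((F.B (1, k) : ℚ), -(F.A (1, k) : ℚ)) = 0 := by
      rw [Surf.D, prod_eq_zero (mem_univ k), mul_zero]
      simp only [Surf.L]; ring
    rw [h3] at h1
    exact (mul_eq_zero.1 h1.symm).resolve_left (pow_ne_zero _ hy)
  · have h1 := eval_pol F 2 (x := F.B (1, k)) hy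
    rw [h, mul_zero, Surf.D, mul_eq_zero, prod_eq_zero_iff] at h1
    rcases h1 with h1 | ⟨i, -, h1⟩
    · exact hF.c0 2 (by exact_mod_cast h1)
    · exact hF.ne (2, i) (1, k) (by simp) h1

theorem fibre_jv {r : ℕ} {F : Surf n} (hF : F.Hyp r) : ∃ K : ℕ, 0 < K ∧
    ∀ (T : Finset (ℤ × ℤ)) (j : ℚ), (∀ v ∈ T, IsCoprime v.1 v.2 ∧ (F.fibre v).IsElliptic ∧
      jv (F.fibre v) = j) → T.card ≤ K := by
  classical
  set a := pol F 1
  set b := pol F 2
  set p : ℚ[X] := (C 16 * (a ^ 2 - a * b + b ^ 2)) ^ 3 with hp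
  set q : ℚ[X] := C 16 * a ^ 2 * b ^ 2 * (a - b) ^ 2 with hq
  refine ⟨(max p.natDegree q.natDegree + 1) * 8, by omega, fun T j hT => ?_⟩
  have h0 : p - C j * q ≠ 0 := fun h => by
    obtain ⟨t, t1, t2⟩ := exists_root hF
    have : (p - C j * q).eval t = (16 * b.eval t ^ 2) ^ 3 := by
      simp only [hp, hq, eval_sub, eval_mul, eval_add, eval_pow, eval_C, show a.eval t = 0 from t1]
      ring
    rw [h, eval_zero] at this
    exact absurd this.symm (by positivity)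
  have h1 : (p - C j * q).natDegree ≤ max p.natDegree q.natDegree :=
    (natDegree_sub_le _ _).trans (max_le_max le_rfl (natDegree_C_mul_le _ _))
  have h2 : (insert 0 (p - C j * q).roots.toFinset).card ≤ max p.natDegree q.natDegree + 1 :=
    (card_insert_le _ _).trans (Nat.succ_le_succ
      ((Multiset.toFinset_card_le _).trans ((card_roots' _).trans h1)))
  refine (card_le_card_of_injOn (t := insert 0 (p - C j * q).roots.toFinset ×ˢ univ)
    (fun v => ((v.1 : ℚ) / v.2, (decide (0 < v.1), decide (0 < v.2), decide (v.2 = 0))))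
    (fun v hv => ?_) fun v hv w hw e => ?_).trans ?_
  · obtain ⟨-, k2, k3⟩ := hT v hv
    refine mem_coe.2 (mem_product.2 ⟨?_, mem_univ _⟩)
    by_cases k5 : (v.2 : ℚ) = 0
    · simp [k5]
    have k4 : (F.fibre v).Δ ≠ 0 := k2.isUnit.ne_zero
    rw [jv, inv_mul_eq_iff_eq_mul₀ k4, Surf.fibre, curve_c4, curve_Δ, eval_pol F 1 k5,
      eval_pol F 2 k5] at k3
    refine mem_insert_of_mem ?_
    rw [Multiset.mem_toFinset, mem_roots h0, IsRoot]
    simp only [hp, hq, eval_sub, eval_mul, eval_add, eval_pow, eval_C]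
    refine (mul_eq_zero.1 (?_ : ((v.2 : ℚ) ^ n) ^ 6 * _ = 0)).resolve_left (by positivity)
    linear_combination k3
  · obtain ⟨k1, -⟩ := hT v hv
    obtain ⟨l1, -⟩ := hT w hw
    simp only [Prod.mk.injEq, decide_eq_decide] at e
    obtain ⟨e0, e1, e2, e3⟩ := e
    have e4 : v.1 * w.2 = w.1 * v.2 := by
      by_cases h : v.2 = 0
      · rw [h, e3.1 h, mul_zero, mul_zero]
      · have h' : w.2 ≠ 0 := fun k => h (e3.2 k)
        rw [div_eq_div_iff (by exact_mod_cast h) (by exact_mod_cast h')] at e0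
        exact_mod_cast e0
    have d1 := Int.associated_iff.1 (associated_of_dvd_dvd
      (k1.dvd_of_dvd_mul_right (Dvd.intro _ e4)) (l1.dvd_of_dvd_mul_right (Dvd.intro _ e4.symm)))
    have d2 := Int.associated_iff.1 (associated_of_dvd_dvd
      (k1.symm.dvd_of_dvd_mul_left (Dvd.intro_left _ e4.symm))
      (l1.symm.dvd_of_dvd_mul_left (Dvd.intro_left _ e4)))
    exact Prod.ext (by omega) (by omega)
  · rw [card_product]
    exact Nat.mul_le_mul h2 (by simp)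

end FIN

open FIN in
theorem fin : PARStmt → POSStmt → MKVStmt → BASEStmt → PTStmt → BRStmt → GEOStmt → GOODStmt →
    Main0Stmt := by
  classical
  intro par pos mkv base pt br geo good n r F hF
  obtain ⟨B, hB, hpar⟩ := base n r F hF r
  obtain ⟨P₀, J₀, hpos⟩ := pos n B.e
  obtain ⟨M, hM, hP⟩ := exists_fits hB P₀
  obtain ⟨hD, hbr⟩ := br n r F B M hF hB hM
  obtain ⟨δ, hδ, hpos⟩ := hpos _ hD rfl hP
  obtain ⟨J₁, hJ₁⟩ := mkv n _ r δ hD (geo n r F B M hF hB hD) (fun l hl he => by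
    obtain ⟨h1, h2, h3⟩ := hbr l hl
    obtain ⟨κ, k1, k2⟩ := par n _ _ _ _ _ _ h1 h2
    obtain ⟨m, hm⟩ := he
    exact ⟨κ, k1, by omega⟩) hF.ev hδ
  have h2 := hF.two
  obtain ⟨j₀⟩ : Nonempty (Ix n) := ⟨(0, ⟨0, by omega⟩)⟩
  obtain ⟨t, ht⟩ := ((hpos (J₀ + J₁) (Nat.le_add_right _ _)).and
    (hJ₁ (J₀ + J₁) (Nat.le_add_left _ _)).par).and (ev_ge (F.A j₀).natAbs)
  obtain ⟨C, hC, hCb⟩ := exists_bound hF fun j => B.μ j * B.a j
  choose! v hv using pt n F B M h2 hB hM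
  have hC' : (0 : ℝ) < C := by exact_mod_cast hC
  have hw : ∀ j, B.μ j * B.a j ≠ 0 := fun j =>
    mul_ne_zero (hB.m0 j) (by exact_mod_cast (hB.sqf j).ne_zero)
  refine ⟨δ / 32 / (2 * C) ^ 2, by positivity, ?_⟩
  filter_upwards [(Nat.tendsto_div_const_atTop (n := C) (by omega)).eventually
    (exists_scale n M (J₀ + J₁) t), eventually_ge_atTop C] with H hS hH
  obtain ⟨S, h1, h3, h4, hR, hZ⟩ := hS
  obtain ⟨⟨⟨e, hA⟩, hG⟩, hY⟩ := ht S h1 h3 h4 hR
  have hG' := hG e hA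
  have hZH : C * S.Z ≤ H := hZ ▸ Nat.mul_div_le _ _
  have hHZ : (H : ℝ) ≤ 2 * C * S.Z := by
    have k1 : H < C * (S.Z + 1) := hZ ▸ Nat.lt_mul_div_succ _ hC
    have k2 : 1 ≤ S.Z := hZ ▸ Nat.div_pos hH hC
    have k3 : H ≤ 2 * C * S.Z := by nlinarith
    exact_mod_cast k3
  refine le_trans ?_ (hG'.trans (Nat.cast_le.2 (card_le_card_of_injOn v (fun l hl => ?_)
    fun l hl l' hl' h => ?_)))
  · rw [div_mul_eq_mul_div, div_le_iff₀ (by positivity)]
    calc δ / 32 * (H : ℝ) ^ 2 ≤ δ / 32 * (2 * C * S.Z) ^ 2 := by gcongr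
      _ = _ := by ring
  · obtain ⟨hl, hK⟩ := mem_filter.1 (mem_coe.1 hl)
    have ad := adm_of_mem (hR.par e) hl
    obtain ⟨b1, -, -, -, hsh⟩ := mem_AA.1 hl
    obtain ⟨v1, v2⟩ := hv l ad
    obtain ⟨c1, c2⟩ := hCb S.Z l (v l) (fun j => (b1 j).2) v2
    have c3 : (C * S.Z : ℤ) ≤ H := by exact_mod_cast hZH
    refine mem_coe.2 (mem_filter.2 ⟨mem_product.2 ⟨mem_Icc.2 (abs_le.1 (c1.trans c3)),
      mem_Icc.2 (abs_le.1 (c2.trans c3))⟩, v1,
      good n r F B M hF hB hM l ad (fun j => (hsh j).one_lt) hK _ v2 fun h0 => ?_⟩)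
    rw [h0, isCoprime_zero_right] at v1
    have d1 := v2 j₀
    rw [Surf.LZ, h0, mul_zero, add_zero] at d1
    have d2 : (l j₀ : ℤ) ∣ F.A j₀ := v1.dvd_mul_right.1 (Dvd.intro_left _ d1.symm)
    have d3 : F.A j₀ ≠ 0 := fun k => by
      rw [k, zero_mul] at d1
      exact mul_ne_zero (hw j₀) (by have := (b1 j₀).1; positivity) d1.symm
    have d4 := Nat.le_of_dvd (Int.natAbs_pos.2 d3) (Int.natCast_dvd.1 d2)
    obtain ⟨c, P, hc, -, hP, e'⟩ := hsh j₀
    have d5 : P ≤ l j₀ := e' ▸ Nat.le_mul_of_pos_left _ hc.pos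
    have d6 : S.Y' < P := hP
    have := hR.Y0_le.trans hR.Y_le
    omega
  · have a1 := (hv l (adm_of_mem (hR.par e) (mem_filter.1 (mem_coe.1 hl)).1)).2
    have a2 := (hv l' (adm_of_mem (hR.par e) (mem_filter.1 (mem_coe.1 hl')).1)).2
    funext j
    refine Nat.cast_injective (R := ℤ) (mul_left_cancel₀ (hw j) ?_)
    rw [← a1, ← a2, h]

open FIN in
theorem jin : Main0Stmt → MainStmt := by
  classical
  intro h n r F hF
  obtain ⟨c, hc, h⟩ := h n r F hF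
  obtain ⟨K, hK, hj⟩ := fibre_jv hF
  have hK' : (0 : ℝ) < K := by exact_mod_cast hK
  refine ⟨c / K, by positivity, h.mono fun H h => ?_⟩
  set G := (Icc (-H : ℤ) H ×ˢ Icc (-H : ℤ) H).filter fun v : ℤ × ℤ =>
    IsCoprime v.1 v.2 ∧ Good r (F.fibre v) with hG
  obtain ⟨T, t1, t2, t3⟩ := exists_subset_injOn_image_eq_of_surjOn (G : Set (ℤ × ℤ))
    (G.image fun v => jv (F.fibre v)) (f := fun v => jv (F.fibre v))
    (by rw [coe_image]; exact Set.surjOn_image _ _)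
  have h1 := card_le_mul_card_image (f := fun v => jv (F.fibre v)) G K fun j _ =>
    hj _ j fun v hv => by
      obtain ⟨k1, k2⟩ := mem_filter.1 hv
      obtain ⟨-, k4, k5⟩ := mem_filter.1 k1
      exact ⟨k4, k5.1, k2⟩
  rw [← t3, card_image_of_injOn t2] at h1
  have h2 : (G.card : ℝ) ≤ K * T.card := by exact_mod_cast h1
  refine ⟨T, fun v hv => (mem_filter.1 (t1 hv)).1, ?_, fun v hv => (mem_filter.1 (t1 hv)).2,
    fun v hv w hw _ _ e => t2 hv hw (by rwa [j_eq_jv, j_eq_jv] at e)⟩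
  rw [div_mul_eq_mul_div, div_le_iff₀ hK']
  linarith

end Pool.Agent.MP_a43263_nt.RG
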