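import Pool.Agent.MP_a43263_nt.RG.Spec

/-! PROJECT RANKG, row GEO: geometric classes satisfy the residue conditions. -/

set_option autoImplicit false

noncomputable section

namespace Pool.Agent.MP_a43263_nt.RG

open Finset

namespace GeoP

variable {n : ℕ}

/-- every index lies outside exactly two of the three classes -/
theorem prod_three {α R : Type} [CommMonoid R] (s : Finset α) (c : α → Fin 3) (f : α → R) :
    (∏ a ∈ s.filter (fun a => c a ≠ 0), f a) * (∏ a ∈ s.filter (fun a => c a ≠ 1), f a) *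
      (∏ a ∈ s.filter (fun a => c a ≠ 2), f a) = (∏ a ∈ s, f a) * ∏ a ∈ s, f a := by
  simp only [prod_filter, ← prod_mul_distrib]
  refine prod_congr rfl fun a _ => ?_
  have h : c a = 0 ∨ c a = 1 ∨ c a = 2 := by
    generalize c a = x
    revert x
    decide
  rcases h with h | h | h <;> simp [h]

theorem Gv_mul (j : Fin 3) (U U' : Finset (Gen n)) :
    Gv j U * Gv j U' = Gv j (symmDiff U U') * (Gv j (U ∩ U') * Gv j (U ∩ U')) := by
  classical
  have key : ∀ W : Finset (Gen n), W ⊆ U ∪ U' →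
      Gv j W = ∏ a ∈ U ∪ U', if a ∈ W ∧ a.1.1 ≠ j then val a else 1 := by
    intro W hW
    unfold Gv
    rw [← prod_filter]
    refine prod_congr ?_ fun _ _ => rfl
    ext a
    simp only [mem_filter]
    constructor
    · rintro ⟨h1, h2⟩
      exact ⟨hW h1, h1, h2⟩
    · rintro ⟨_, h1, h2⟩
      exact ⟨h1, h2⟩
  rw [key U subset_union_left, key U' subset_union_right, key (symmDiff U U') symmDiff_subset_union,
    key (U ∩ U') inter_subset_union]
  simp only [← prod_mul_distrib]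
  refine prod_congr rfl fun a ha => ?_
  by_cases h1 : a ∈ U <;> by_cases h2 : a ∈ U' <;> by_cases h3 : a.1.1 = j <;>
    simp [h1, h2, h3, mem_symmDiff]

theorem Cy_ne (D : Dat n) (hD : D.Ok) (y : Finset (Ix n)) (k : Ix n) : Cy D y k ≠ 0 := by
  unfold Cy
  refine mul_ne_zero ?_ (prod_ne_zero_iff.2 fun j hj => ?_)
  · have := hD.c0 k
    split_ifs <;> simp [this]
  · have hjk : j ≠ k := fun h => (mem_filter.1 hj).2 (by rw [h])
    exact sub_ne_zero.2 (hD.ne j k hjk)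

theorem sq_of_mul {a b c : ℤ} (hb : b ≠ 0) (hc : c ≠ 0) {x y : ℤ} (hx : IsSquare (x * c))
    (hy : IsSquare (y * c)) (h : x * y = a * (b * b)) : IsSquare a := by
  obtain ⟨s, hs⟩ := hx
  obtain ⟨t, ht⟩ := hy
  rw [← Rat.isSquare_intCast_iff]
  have hb' : (b : ℚ) ≠ 0 := by exact_mod_cast hb
  have hc' : (c : ℚ) ≠ 0 := by exact_mod_cast hc
  have hs' : (x : ℚ) * c = s * s := by exact_mod_cast hs
  have ht' : (y : ℚ) * c = t * t := by exact_mod_cast ht
  have h' : (x : ℚ) * y = a * (b * b) := by exact_mod_cast h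
  refine ⟨s * t / (b * c), ?_⟩
  field_simp
  linear_combination (-(c : ℚ) ^ 2) * h' + (y * c) * hs' + (s * s) * ht'

theorem Gv_ne (kc : KCStmt) {V x : Finset (Gen n)} (hV : Nice V) (hx : x ⊆ V) (j : Fin 3) :
    Gv j x ≠ 0 := by
  have h := ((kc n).2.2.1 V x j hV hx).1.ne_zero
  exact fun h0 => h (by rw [h0]; rfl)

/-- the fixed generators are determined by the forms -/
theorem inj (kc : KCStmt) (D : Dat n) (hD : D.Ok) (y : Finset (Ix n)) {U U' : Finset (Gen n)}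
    (hU : U ⊆ D.V0) (hU' : U' ⊆ D.V0) (h : Geo D y U) (h' : Geo D y U') : U = U' := by
  classical
  have hn : 0 < n := lt_of_lt_of_le (by norm_num) hD.two
  have hS : symmDiff U U' ⊆ D.V0 := symmDiff_subset_union.trans (union_subset hU hU')
  have hI : U ∩ U' ⊆ D.V0 := inter_subset_left.trans hU
  have key : ∀ j : Fin 3, ∀ a ∈ symmDiff U U', a.1.1 = j := by
    intro j
    have hsq : IsSquare (Gv j (symmDiff U U')) :=
      sq_of_mul (Gv_ne kc hD.nice hI j) (Cy_ne D hD y (j, ⟨0, hn⟩)) (h (j, ⟨0, hn⟩))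
        (h' (j, ⟨0, hn⟩)) (Gv_mul j U U')
    obtain ⟨-, h1, h2, -⟩ := (kc n).2.2.1 D.V0 (symmDiff U U') j hD.nice hS
    by_cases hG : Gv j (symmDiff U U') = 1
    · exact h1 hG
    · exact absurd hsq (h2 hG)
  have hE : symmDiff U U' = ∅ := by
    refine eq_empty_of_forall_notMem fun a ha => ?_
    have h0 := key 0 a ha
    have h1 := key 1 a ha
    rw [h0] at h1
    exact absurd h1 (by decide)
  exact symmDiff_eq_bot.1 hE

/-- the values of the forms at a root -/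
theorem root_val {r : ℕ} (F : Surf n) (B : Base n) (hF : F.Hyp r) (hB : B.Ok F) (k : Ix n) :
    ∃ τ : ℚ, τ ≠ 0 ∧ ∀ j, F.L j (F.root k) = τ * (((B.μ j : ℚ) * B.a j) * (B.e j - B.e k)) := by
  obtain ⟨k', hk'⟩ : ∃ k' : Ix n, k' ≠ k := by
    refine ⟨(k.1 + 1, k.2), fun h => ?_⟩
    have h1 : k.1 + 1 = k.1 := congrArg Prod.fst h
    revert h1
    generalize k.1 = x
    revert x
    decide
  have h0 : ∀ j, (F.A j : ℚ) * B.v0.1 + F.B j * B.v0.2 = B.μ j * B.a j := fun j => by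
    exact_mod_cast hB.l0 j
  have h1 : ∀ j, (F.A j : ℚ) * B.v1.1 + F.B j * B.v1.2 = B.μ j * B.a j * B.e j := fun j => by
    exact_mod_cast hB.l1 j
  have hne : ((B.μ k' : ℚ) * B.a k') * (B.e k' - B.e k) ≠ 0 := by
    refine mul_ne_zero (mul_ne_zero ?_ ?_) ?_
    · exact_mod_cast hB.m0 k'
    · exact_mod_cast (hB.sqf k').ne_zero
    · exact_mod_cast sub_ne_zero.2 (hB.ne k' k hk')
  refine ⟨F.L k' (F.root k) / (((B.μ k' : ℚ) * B.a k') * (B.e k' - B.e k)),
    div_ne_zero (hF.ne k' k hk') hne, fun j => ?_⟩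
  rw [div_mul_eq_mul_div, eq_div_iff hne]
  simp only [Surf.L, Surf.root]
  linear_combination
    (-((F.A j : ℚ) * F.B k + F.B j * -F.A k)) * (h1 k' - (B.e k : ℚ) * h0 k') +
      ((F.A k' : ℚ) * F.B k + F.B k' * -F.A k) * (h1 j - (B.e k : ℚ) * h0 j) +
      ((F.A j : ℚ) * F.B k' - F.A k' * F.B j) * (h1 k - (B.e k : ℚ) * h0 k)

theorem D_root (F : Surf n) (i : Fin 3) (k : Ix n) :
    F.D i (F.root k) = (F.DZ i (F.rootZ k) : ℚ) := by
  simp [Surf.D, Surf.DZ, Surf.L, Surf.LZ, Surf.root, Surf.rootZ]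

theorem gam_eq (F : Surf n) (k : Ix n) :
    F.gam k = ((if k.1 = 1 then -F.cZ k else F.cZ k : ℤ) : ℚ) := by
  obtain ⟨i, k⟩ := k
  fin_cases i <;> simp [Surf.gam, Surf.cZ, D_root]

/-- a geometric class gives an element of the residue group -/
theorem mem {r : ℕ} (kc : KCStmt) (F : Surf n) (B : Base n) (M : ℕ) (hF : F.Hyp r) (hB : B.Ok F)
    (hD : (B.dat F M).Ok) {y : Finset (Ix n)} (hy : y ∈ Yc n) {U : Finset (Gen n)}
    (hU : U ⊆ (B.dat F M).V0) (h : Geo (B.dat F M) y U) : ∃ u, F.InS u y := by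
  have hev : ∀ i, Even (y.filter fun j => j.1 ≠ i).card := (mem_filter.1 hy).2
  refine ⟨fun i => (Gv i U : ℚ) * ∏ j ∈ y.filter (fun j => j.1 ≠ i), ((B.μ j : ℚ) * B.a j),
    fun i => ?_, ?_, hev, fun k => ?_⟩
  · refine mul_ne_zero ?_ (prod_ne_zero_iff.2 fun j _ => mul_ne_zero ?_ ?_)
    · exact_mod_cast Gv_ne kc hD.nice hU i
    · exact_mod_cast hB.m0 j
    · exact_mod_cast (hB.sqf j).ne_zero
  · have e1 := prod_three U (fun a => a.1.1) val
    have e2 := prod_three y (fun j => j.1) fun j => ((B.μ j : ℚ) * B.a j)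
    have e1' : (Gv 0 U : ℚ) * Gv 1 U * Gv 2 U =
        ((∏ a ∈ U, val a : ℤ) : ℚ) * ((∏ a ∈ U, val a : ℤ) : ℚ) := by
      exact_mod_cast e1
    refine ⟨((∏ a ∈ U, val a : ℤ) : ℚ) * ∏ j ∈ y, ((B.μ j : ℚ) * B.a j), ?_⟩
    rw [mul_mul_mul_comm ((∏ a ∈ U, val a : ℤ) : ℚ), ← e1', ← e2]
    ring
  · obtain ⟨τ, -, hτ⟩ := root_val F B hF hB k
    obtain ⟨m, hm⟩ := hev k.1
    obtain ⟨s, hs⟩ := h k
    have hs' : (Gv k.1 U : ℚ) * ((if k ∈ y then F.gam k else 1) *
        ∏ j ∈ y.filter (fun j => j.1 ≠ k.1), ((B.e j : ℚ) - B.e k)) = s * s := by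
      have := congrArg (fun z : ℤ => (z : ℚ)) hs
      simp only [Cy, Base.dat, Int.cast_mul, Int.cast_prod, Int.cast_sub] at this
      rw [← this, gam_eq]
      split_ifs <;> simp
    refine ⟨s * τ ^ m * ∏ j ∈ y.filter (fun j => j.1 ≠ k.1), ((B.μ j : ℚ) * B.a j), ?_⟩
    simp only [Surf.del, hτ, prod_mul_distrib, prod_const, hm, pow_add, Rat.cast_id]
    linear_combination (τ ^ m * τ ^ m *
      ((∏ j ∈ y.filter (fun j => j.1 ≠ k.1), (B.μ j : ℚ)) *
        ∏ j ∈ y.filter (fun j => j.1 ≠ k.1), (B.a j : ℚ)) ^ 2) * hs'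

end GeoP

theorem geo : KCStmt → GEOStmt := by
  intro kc n r F B M hF hB hD
  classical
  rw [← hF.card, ← Set.ncard_coe_finset]
  refine Set.ncard_le_ncard_of_injOn Prod.fst (fun x hx => ?_) (fun x hx x' hx' hxx => ?_)
    (Set.toFinite _)
  · obtain ⟨hx1, hx2⟩ := mem_filter.1 (mem_coe.1 hx)
    obtain ⟨hy, hU⟩ := mem_product.1 hx1
    exact GeoP.mem kc F B M hF hB hD hy (mem_powerset.1 hU) hx2
  · obtain ⟨hx1, hx2⟩ := mem_filter.1 (mem_coe.1 hx)
    obtain ⟨hx1', hx2'⟩ := mem_filter.1 (mem_coe.1 hx')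
    refine Prod.ext hxx ?_
    rw [← hxx] at hx2'
    exact GeoP.inj kc _ hD x.1 (mem_powerset.1 (mem_product.1 hx1).2)
      (mem_powerset.1 (mem_product.1 hx1').2) hx2 hx2'

end Pool.Agent.MP_a43263_nt.RG
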