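import Mathlib.NumberTheory.Padics.PadicVal.Basic
import Pool.Agent.MP_a43263_nt.RG.Spec

/-! PROJECT RANKG: specialisation of points over the function field, and good fibres. -/

set_option autoImplicit false

noncomputable section

namespace Pool.Agent.MP_a43263_nt.RG

open Finset

namespace GoodAux

open Polynomial

/-- scaling by squares -/
theorem cover_scale {a b d₂ d₃ s s₂ s₃ : ℚ} (hs : s ≠ 0) (h₂ : s₂ ≠ 0) (h₃ : s₃ ≠ 0)
    (h : Cover a b d₂ d₃) : Cover (s ^ 2 * a) (s ^ 2 * b) (s₂ ^ 2 * d₂) (s₃ ^ 2 * d₃) := by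
  obtain ⟨z₀, z₂, z₃, t, hne, e₁, e₂⟩ := h
  refine ⟨z₀ / (s₂ * s₃), z₂ / s₂, z₃ / s₃, t / s, ?_, ?_, ?_⟩
  · rintro ⟨g₀, g₂, g₃, g⟩
    refine hne ⟨?_, ?_, ?_, ?_⟩
    · exact (div_eq_zero_iff.1 g₀).resolve_right (mul_ne_zero h₂ h₃)
    · exact (div_eq_zero_iff.1 g₂).resolve_right h₂
    · exact (div_eq_zero_iff.1 g₃).resolve_right h₃
    · exact (div_eq_zero_iff.1 g).resolve_right hs
  · have : s ^ 2 * a * (t / s) ^ 2 = a * t ^ 2 := by field_simp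
    rw [this, ← e₁]
    field_simp
  · have : s ^ 2 * b * (t / s) ^ 2 = b * t ^ 2 := by field_simp
    rw [this, ← e₂]
    field_simp

/-- polynomial points specialise -/
theorem cover_poly (a b d₂ d₃ : ℚ[X]) (x : ℚ) : ∀ (m : ℕ) (z₀ z₂ z₃ t : ℚ[X]),
    z₀.natDegree + z₂.natDegree + z₃.natDegree + t.natDegree < m →
    ¬(z₀ = 0 ∧ z₂ = 0 ∧ z₃ = 0 ∧ t = 0) →
    d₂ * d₃ * z₀ ^ 2 - d₂ * z₂ ^ 2 = a * t ^ 2 → d₂ * d₃ * z₀ ^ 2 - d₃ * z₃ ^ 2 = b * t ^ 2 →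
    Cover (a.eval x) (b.eval x) (d₂.eval x) (d₃.eval x) := by
  intro m
  induction m with
  | zero => intro z₀ z₂ z₃ t h; omega
  | succ m ih =>
    intro z₀ z₂ z₃ t hm hne e₁ e₂
    by_cases hv : z₀.eval x = 0 ∧ z₂.eval x = 0 ∧ z₃.eval x = 0 ∧ t.eval x = 0
    · obtain ⟨g₀, g₂, g₃, g⟩ := hv
      obtain ⟨w₀, rfl⟩ := dvd_iff_isRoot.2 g₀
      obtain ⟨w₂, rfl⟩ := dvd_iff_isRoot.2 g₂
      obtain ⟨w₃, rfl⟩ := dvd_iff_isRoot.2 g₃
      obtain ⟨w, rfl⟩ := dvd_iff_isRoot.2 g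
      have hX : (X - C x : ℚ[X]) ≠ 0 := X_sub_C_ne_zero x
      have hle : ∀ q : ℚ[X], q.natDegree ≤ ((X - C x) * q).natDegree := fun q => by
        by_cases hq : q = 0
        · simp [hq]
        · rw [natDegree_mul hX hq]; omega
      have hlt : ∀ q : ℚ[X], q ≠ 0 → q.natDegree < ((X - C x) * q).natDegree := fun q hq => by
        rw [natDegree_mul hX hq, natDegree_X_sub_C]; omega
      have hne' : ¬(w₀ = 0 ∧ w₂ = 0 ∧ w₃ = 0 ∧ w = 0) := by
        rintro ⟨rfl, rfl, rfl, rfl⟩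
        exact hne (by simp)
      refine ih w₀ w₂ w₃ w ?_ hne' ?_ ?_
      · have k₀ := hle w₀
        have k₂ := hle w₂
        have k₃ := hle w₃
        have k := hle w
        by_cases j₀ : w₀ = 0
        · by_cases j₂ : w₂ = 0
          · by_cases j₃ : w₃ = 0
            · have := hlt w fun j => hne' ⟨j₀, j₂, j₃, j⟩
              omega
            · have := hlt w₃ j₃
              omega
          · have := hlt w₂ j₂
            omega
        · have := hlt w₀ j₀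
          omega
      · apply mul_left_cancel₀ (pow_ne_zero 2 hX)
        linear_combination e₁
      · apply mul_left_cancel₀ (pow_ne_zero 2 hX)
        linear_combination e₂
    · refine ⟨z₀.eval x, z₂.eval x, z₃.eval x, t.eval x, hv, ?_, ?_⟩
      · simpa using congrArg (eval x) e₁
      · simpa using congrArg (eval x) e₂

/-- points over the function field specialise -/
theorem cover_rat (a b d₂ d₃ : ℚ[X]) (x : ℚ)
    (h : Cover (algebraMap ℚ[X] (RatFunc ℚ) a) (algebraMap ℚ[X] (RatFunc ℚ) b)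
      (algebraMap ℚ[X] (RatFunc ℚ) d₂) (algebraMap ℚ[X] (RatFunc ℚ) d₃)) :
    Cover (a.eval x) (b.eval x) (d₂.eval x) (d₃.eval x) := by
  obtain ⟨z₀, z₂, z₃, t, hne, e₁, e₂⟩ := h
  obtain ⟨q, hq⟩ := IsLocalization.exist_integer_multiples_of_finite
    (nonZeroDivisors ℚ[X]) (![z₀, z₂, z₃, t] : Fin 4 → RatFunc ℚ)
  obtain ⟨w₀, k₀⟩ := hq 0
  obtain ⟨w₂, k₂⟩ := hq 1
  obtain ⟨w₃, k₃⟩ := hq 2
  obtain ⟨w, k⟩ := hq 3
  have inj := IsFractionRing.injective ℚ[X] (RatFunc ℚ)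
  have hq0 : algebraMap ℚ[X] (RatFunc ℚ) q ≠ 0 :=
    (map_ne_zero_iff _ inj).2 (nonZeroDivisors.coe_ne_zero q)
  simp only [Algebra.smul_def] at k₀ k₂ k₃ k
  change _ = _ * z₀ at k₀
  change _ = _ * z₂ at k₂
  change _ = _ * z₃ at k₃
  change _ = _ * t at k
  refine cover_poly a b d₂ d₃ x _ w₀ w₂ w₃ w (Nat.lt_succ_self _) ?_ ?_ ?_
  · rintro ⟨rfl, rfl, rfl, rfl⟩
    rw [map_zero] at k₀ k₂ k₃ k
    exact hne ⟨(mul_eq_zero.1 k₀.symm).resolve_left hq0, (mul_eq_zero.1 k₂.symm).resolve_left hq0,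
      (mul_eq_zero.1 k₃.symm).resolve_left hq0, (mul_eq_zero.1 k.symm).resolve_left hq0⟩
  · apply inj
    simp only [map_sub, map_mul, map_pow, k₀, k₂, k]
    linear_combination (algebraMap ℚ[X] (RatFunc ℚ) q) ^ 2 * e₁
  · apply inj
    simp only [map_sub, map_mul, map_pow, k₀, k₃, k]
    linear_combination (algebraMap ℚ[X] (RatFunc ℚ) q) ^ 2 * e₂

variable {n : ℕ} (F : Surf n)

/-- the linear form as a polynomial -/
def pL (j : Ix n) : ℚ[X] := C (F.A j : ℚ) * X + C (F.B j : ℚ)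

theorem pL_map (j : Ix n) :
    algebraMap ℚ[X] (RatFunc ℚ) (pL F j) = F.L j ((RatFunc.X : RatFunc ℚ), 1) := by
  simp [pL, Surf.L]

theorem pL_eval (j : Ix n) (x : ℚ) : (pL F j).eval x = F.L j (x, 1) := by
  simp [pL, Surf.L]

theorem prod_map (c : ℚ) (s : Finset (Ix n)) :
    algebraMap ℚ[X] (RatFunc ℚ) (C c * ∏ j ∈ s, pL F j) =
      (c : RatFunc ℚ) * ∏ j ∈ s, F.L j ((RatFunc.X : RatFunc ℚ), 1) := by
  rw [map_mul, map_prod, RatFunc.algebraMap_C, eq_ratCast]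
  simp only [pL_map]

theorem L_scale (j : Ix n) (v : ℚ × ℚ) (hv : v.2 ≠ 0) :
    F.L j v = v.2 * F.L j (v.1 / v.2, 1) := by
  simp only [Surf.L]
  field_simp

theorem D_map (i : Fin 3) :
    algebraMap ℚ[X] (RatFunc ℚ) (C (F.c i : ℚ) * ∏ k, pL F (i, k)) =
      F.D i ((RatFunc.X : RatFunc ℚ), 1) := by
  rw [map_mul, map_prod, RatFunc.algebraMap_C, map_intCast]
  simp only [pL_map, Surf.D]

theorem D_eval (i : Fin 3) (x : ℚ) :
    (C (F.c i : ℚ) * ∏ k, pL F (i, k)).eval x = F.D i (x, 1) := by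
  rw [eval_mul, eval_C, eval_prod]
  simp only [pL_eval, Surf.D]

theorem del_eval (u : Fin 3 → ℚ) (y : Finset (Ix n)) (i : Fin 3) (x : ℚ) :
    (C (u i) * ∏ j ∈ y.filter (fun j => j.1 ≠ i), pL F j).eval x = F.del u y i (x, 1) := by
  rw [eval_mul, eval_C, eval_prod]
  simp only [pL_eval, Surf.del, Rat.cast_id]

theorem D_scale (i : Fin 3) (m : ℕ) (hm : n = m + m) (v : ℚ × ℚ) (hv : v.2 ≠ 0) :
    F.D i v = (v.2 ^ m) ^ 2 * F.D i (v.1 / v.2, 1) := by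
  simp only [Surf.D]
  rw [prod_congr rfl fun k _ => L_scale F (i, k) v hv, prod_mul_distrib, prod_const, card_univ,
    Fintype.card_fin, ← pow_mul, show m * 2 = n by omega]
  ring

theorem del_scale (u : Fin 3 → ℚ) (y : Finset (Ix n)) (i : Fin 3) (m : ℕ)
    (hm : (y.filter fun j => j.1 ≠ i).card = m + m) (v : ℚ × ℚ) (hv : v.2 ≠ 0) :
    F.del u y i v = (v.2 ^ m) ^ 2 * F.del u y i (v.1 / v.2, 1) := by
  simp only [Surf.del]
  rw [prod_congr rfl fun j _ => L_scale F j v hv, prod_mul_distrib, prod_const, hm, ← pow_mul,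
    show m * 2 = m + m by omega]
  ring

end GoodAux

open GoodAux in
theorem spe : SPEStmt := by
  intro n F u y hn hy h v hv
  obtain ⟨m, hm⟩ := hn
  obtain ⟨m₂, h₂⟩ := hy 2
  obtain ⟨m₁, h₁⟩ := hy 1
  rw [D_scale F 1 m hm v hv, D_scale F 2 m hm v hv, del_scale F u y 2 m₂ h₂ v hv,
    del_scale F u y 1 m₁ h₁ v hv]
  refine cover_scale (pow_ne_zero _ hv) (pow_ne_zero _ hv) (pow_ne_zero _ hv) ?_
  rw [← D_eval, ← D_eval, ← del_eval, ← del_eval]
  apply cover_rat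
  rw [D_map, D_map, prod_map, prod_map]
  exact h

namespace GoodAux

/-- nonzero with even valuation -/
def Evn (p : ℕ) (x : ℚ) : Prop := x ≠ 0 ∧ Even (padicValRat p x)

/-- nonzero with odd valuation -/
def Od (p : ℕ) (x : ℚ) : Prop := x ≠ 0 ∧ Odd (padicValRat p x)

section val

variable {p : ℕ} [Fact p.Prime]

omit [Fact p.Prime] in
theorem Evn.one : Evn p 1 := ⟨one_ne_zero, by simp⟩

theorem Evn.mul {x y : ℚ} (hx : Evn p x) (hy : Evn p y) : Evn p (x * y) :=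
  ⟨mul_ne_zero hx.1 hy.1, by rw [padicValRat.mul hx.1 hy.1]; exact hx.2.add hy.2⟩

omit [Fact p.Prime] in
theorem Evn.neg {x : ℚ} (hx : Evn p x) : Evn p (-x) :=
  ⟨neg_ne_zero.2 hx.1, by rw [padicValRat.neg]; exact hx.2⟩

theorem Od.mul {x y : ℚ} (hx : Od p x) (hy : Evn p y) : Od p (x * y) :=
  ⟨mul_ne_zero hx.1 hy.1, by rw [padicValRat.mul hx.1 hy.1]; exact hx.2.add_even hy.2⟩

theorem Evn.prod {ι : Type} {s : Finset ι} {f : ι → ℚ} (h : ∀ i ∈ s, Evn p (f i)) :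
    Evn p (∏ i ∈ s, f i) :=
  prod_induction f (Evn p) (fun _ _ => Evn.mul) Evn.one h

theorem Evn.of_sq {x : ℚ} (hx : x ≠ 0) (h : IsSquare x) : Evn p x := by
  obtain ⟨r, rfl⟩ := h
  have hr : r ≠ 0 := left_ne_zero_of_mul hx
  exact ⟨hx, by rw [padicValRat.mul hr hr]; exact ⟨_, rfl⟩⟩

theorem Evn.left {x y : ℚ} (h : Evn p (x * y)) (hy : Evn p y) : Evn p x := by
  have hx : x ≠ 0 := left_ne_zero_of_mul h.1
  have h2 := h.2
  rw [padicValRat.mul hx hy.1] at h2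
  exact ⟨hx, (Int.even_add.1 h2).2 hy.2⟩

theorem Od.not_sq {x : ℚ} (hx : Od p x) : ¬IsSquare x := fun h =>
  Int.not_even_iff_odd.2 hx.2 (Evn.of_sq hx.1 h).2

omit [Fact p.Prime] in
theorem Evn.int {z : ℤ} (h : ¬(p : ℤ) ∣ z) : Evn p (z : ℚ) := by
  have hz : z ≠ 0 := by
    rintro rfl
    exact h (dvd_zero _)
  refine ⟨by exact_mod_cast hz, ?_⟩
  rw [padicValRat.of_int, padicValInt.eq_zero_of_not_dvd h]
  simp

omit [Fact p.Prime] in
theorem Evn.nat {z : ℕ} (h : ¬p ∣ z) : Evn p (z : ℚ) := by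
  have := Evn.int (p := p) (z := (z : ℤ)) (by exact_mod_cast h)
  simpa using this

theorem Od.self : Od p (p : ℚ) :=
  ⟨by exact_mod_cast (Fact.out : p.Prime).ne_zero, by
    rw [padicValRat.self (Fact.out : p.Prime).one_lt]; exact odd_one⟩

theorem Od.nat {z : ℕ} (hs : Squarefree z) (h : p ∣ z) : Od p (z : ℚ) := by
  obtain ⟨m, rfl⟩ := h
  have hm : ¬p ∣ m := fun hm =>
    (Fact.out : p.Prime).not_isUnit (hs p (Nat.mul_dvd_mul_left p hm))
  rw [Nat.cast_mul]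
  exact Od.self.mul (Evn.nat hm)

end val

variable {n : ℕ} {F : Surf n}

theorem L_cast (j : Ix n) (v : ℤ × ℤ) : F.L j ((v.1 : ℚ), (v.2 : ℚ)) = (F.LZ j v : ℚ) := by
  simp [Surf.L, Surf.LZ]

theorem L_root (j k : Ix n) : F.L j (F.root k) = (F.LZ j (F.rootZ k) : ℚ) := by
  simp [Surf.L, Surf.LZ, Surf.root, Surf.rootZ]

variable {B : Base n} {p : ℕ} [Fact p.Prime]

theorem evn_root (hB : B.Ok F) (hp : ¬p ∣ B.N) {j k : Ix n} (h : j.1 ≠ k.1) :
    Evn p (F.L j (F.root k)) := by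
  rw [L_root]
  exact Evn.int fun hd => hp (hB.rN j k (fun e => h (congrArg Prod.fst e)) p Fact.out hd)

theorem evn_D (hB : B.Ok F) (hp : ¬p ∣ B.N) {i : Fin 3} {k : Ix n} (h : i ≠ k.1) :
    Evn p (F.D i (F.root k)) :=
  (Evn.int fun hd => hp (hB.cN i p Fact.out hd)).mul (Evn.prod fun _ _ => evn_root hB hp h)

theorem evn_gam (hB : B.Ok F) (hp : ¬p ∣ B.N) (k : Ix n) : Evn p (F.gam k) := by
  obtain ⟨i, k⟩ := k
  fin_cases i
  · exact evn_D (i := 1) (k := (0, k)) hB hp (by simp)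
  · exact (evn_D (i := 2) (k := (1, k)) hB hp (by simp)).neg
  · exact (evn_D (i := 1) (k := (2, k)) hB hp (by simp)).neg

theorem evn_u (hB : B.Ok F) (hp : ¬p ∣ B.N) {u : Fin 3 → ℚ} {y : Finset (Ix n)} (h : F.InS u y)
    (k : Ix n) : Evn p (u k.1) := by
  have h1 : Evn p (∏ j ∈ y.filter (fun j => j.1 ≠ k.1), F.L j (F.root k)) :=
    Evn.prod fun j hj => evn_root hB hp (mem_filter.1 hj).2
  have h2 : Evn p (if k ∈ y then F.gam k else 1) := by
    split_ifs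
    · exact evn_gam hB hp k
    · exact Evn.one
  have h3 := h.2.2.2 k
  simp only [Surf.del, Rat.cast_id] at h3
  exact ((Evn.of_sq (mul_ne_zero (mul_ne_zero (h.1 _) h1.1) h2.1) h3).left h2).left h1

/-- the classes stay different after specialisation -/
theorem sub_of_sq {M : ℕ} (hB : B.Ok F) (hM : B.Fits M) {l : Ix n → ℕ}
    (hl : Adm (B.dat F M) l) (h1 : ∀ j, 1 < l j) {v : ℤ × ℤ}
    (hv : ∀ j, F.LZ j v = B.μ j * B.a j * l j) {u u' : Fin 3 → ℚ} {y y' : Finset (Ix n)}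
    (hy : F.InS u y) (hy' : F.InS u' y')
    (h₂ : IsSquare (F.del u y 2 ((v.1 : ℚ), (v.2 : ℚ)) * F.del u' y' 2 ((v.1 : ℚ), (v.2 : ℚ))))
    (h₁ : IsSquare (F.del u y 1 ((v.1 : ℚ), (v.2 : ℚ)) * F.del u' y' 1 ((v.1 : ℚ), (v.2 : ℚ)))) :
    y ⊆ y' := by
  intro j hj
  by_contra hj'
  obtain ⟨q, hq, hql⟩ := Nat.exists_prime_and_dvd (h1 j).ne'
  have : Fact q.Prime := ⟨hq⟩
  have hqM : ¬q ∣ M := fun hd => by
    have h8 : q ∣ 8 * M := hd.mul_left 8
    have := ((hl.one j).of_dvd h8).symm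
    rw [Nat.ModEq, Nat.mod_eq_zero_of_dvd hql, Nat.mod_eq_of_lt hq.one_lt] at this
    exact one_ne_zero this
  have hqN : ¬q ∣ B.N := fun hd => by
    have hne : j ≠ (j.1 + 1, j.2) := fun e => by
      have := congrArg Prod.fst e
      simp at this
    have h := hM.dv j _ hne
    have h' : (q : ℤ) ∣ (M : ℤ) :=
      (((Int.natCast_dvd_natCast.2 hd).mul_left 128).mul_right _).trans h
    exact hqM (Int.natCast_dvd_natCast.1 h')
  have hma : ∀ k, Evn q ((B.μ k : ℚ) * (B.a k : ℚ)) := fun k =>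
    (Evn.int fun hd => hqN (hB.mN k q hq hd)).mul (Evn.nat fun hd => hqM (hd.trans (hM.aM k)))
  have hL : ∀ k, F.L k ((v.1 : ℚ), (v.2 : ℚ)) = (l k : ℚ) * ((B.μ k : ℚ) * (B.a k : ℚ)) :=
    fun k => by
      rw [L_cast, hv k]
      push_cast
      ring
  have hk : ∀ k, k ≠ j → Evn q (F.L k ((v.1 : ℚ), (v.2 : ℚ))) := fun k hk => by
    rw [hL]
    refine (Evn.nat fun hd => hq.one_lt.ne' ?_).mul (hma k)
    exact Nat.eq_one_of_dvd_coprimes (hl.cop k j hk) hd hql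
  have hjo : Od q (F.L j ((v.1 : ℚ), (v.2 : ℚ))) := by
    rw [hL]
    exact (Od.nat (hl.sqf j) hql).mul (hma j)
  have key : ∀ i : Fin 3, j.1 ≠ i → ¬IsSquare
      (F.del u y i ((v.1 : ℚ), (v.2 : ℚ)) * F.del u' y' i ((v.1 : ℚ), (v.2 : ℚ))) := by
    intro i hi
    have e1 : Evn q (F.del u' y' i ((v.1 : ℚ), (v.2 : ℚ))) := by
      simp only [Surf.del, Rat.cast_id]
      exact (evn_u hB hqN hy' (i, j.2)).mul (Evn.prod fun k hk' =>
        hk k fun e => hj' (e ▸ (mem_filter.1 hk').1))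
    have e2 : Od q (F.del u y i ((v.1 : ℚ), (v.2 : ℚ))) := by
      simp only [Surf.del, Rat.cast_id]
      rw [← mul_prod_erase _ _ (mem_filter.2 ⟨hj, hi⟩), mul_left_comm]
      exact hjo.mul ((evn_u hB hqN hy (i, j.2)).mul (Evn.prod fun k hk' =>
        hk k (ne_of_mem_erase hk')))
    exact (e2.mul e1).not_sq
  by_cases hc : j.1 = 1
  · exact key 2 (by rw [hc]; decide) h₂
  · exact key 1 hc h₁

theorem D_val {l : Ix n → ℕ} {v : ℤ × ℤ} (hv : ∀ j, F.LZ j v = B.μ j * B.a j * l j) (i : Fin 3)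
    (hg : F.c i * ∏ k, B.μ (i, k) = B.g ^ 2) :
    F.D i ((v.1 : ℚ), (v.2 : ℚ)) = (B.g : ℚ) ^ 2 * (B.pr l i : ℚ) := by
  have h : ((F.c i * ∏ k, B.μ (i, k) : ℤ) : ℚ) = ((B.g ^ 2 : ℤ) : ℚ) := by rw [hg]
  push_cast at h
  simp only [Surf.D, L_cast, hv, Base.pr]
  push_cast
  rw [← h, mul_assoc, ← prod_mul_distrib]
  simp only [mul_assoc]

end GoodAux

open GoodAux in
theorem good (alg : ALGStmt) (br : BRStmt) (sp : SPEStmt) : GOODStmt := by
  classical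
  intro n r F B M hF hB hM l hl h1 hK v hv hv2
  have hloc := ((br n r F B M hF hB hM).2 l hl).1
  have hg : (B.g : ℚ) ≠ 0 := by
    have h0 : B.g ^ 2 ≠ 0 := by
      rw [← hB.p1]
      exact mul_ne_zero (hF.c0 1) (prod_ne_zero_iff.2 fun k _ => hB.m0 _)
    exact_mod_cast (pow_ne_zero_iff two_ne_zero).1 h0
  obtain ⟨u, hu⟩ : ∃ u : Finset (Ix n) → Fin 3 → ℚ, ∀ y, (∃ w, F.InS w y) → F.InS (u y) y :=
    ⟨fun y => if h : ∃ w, F.InS w y then h.choose else 0, fun y h => by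
      simp only [dif_pos h]
      exact h.choose_spec⟩
  have hL : ∀ j, F.L j ((v.1 : ℚ), (v.2 : ℚ)) ≠ 0 := fun j => by
    rw [L_cast, hv j]
    have h2 := (hB.sqf j).ne_zero
    have h3 := h1 j
    exact_mod_cast mul_ne_zero (mul_ne_zero (hB.m0 j) (by exact_mod_cast h2)) (by omega)
  have hd : ∀ y, (∃ w, F.InS w y) → ∀ i, F.del (u y) y i ((v.1 : ℚ), (v.2 : ℚ)) ≠ 0 :=
    fun y hy i => by
      simp only [Surf.del, Rat.cast_id]
      exact mul_ne_zero ((hu y hy).1 i) (prod_ne_zero_iff.2 fun j _ => hL j)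
  unfold Surf.fibre
  rw [D_val hv 1 hB.p1, D_val hv 2 hB.p2]
  refine alg n B.N B.δ _ _ _ _ B.g r (Finset (Ix n)) (univ.filter fun y => ∃ w, F.InS w y)
    (fun y => F.del (u y) y 2 ((v.1 : ℚ), (v.2 : ℚ)))
    (fun y => F.del (u y) y 1 ((v.1 : ℚ), (v.2 : ℚ))) hloc hg ?_ ?_ ?_ hK
  · rw [← hF.card, ← Set.ncard_coe_finset]
    congr 1
    ext y
    simp
  · intro y hy
    have hy' := (mem_filter.1 hy).2
    refine ⟨hd y hy' 2, hd y hy' 1, ?_⟩
    rw [← D_val hv 1 hB.p1, ← D_val hv 2 hB.p2]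
    exact sp n F (u y) y hF.ev (hu y hy').2.2.1 (hF.sol _ _ (hu y hy')) _
      (Int.cast_ne_zero.2 hv2)
  · intro y hy y' hy' h₂ h₁
    have a := hu y (mem_filter.1 hy).2
    have a' := hu y' (mem_filter.1 hy').2
    refine Subset.antisymm (sub_of_sq hB hM hl h1 hv a a' h₂ h₁)
      (sub_of_sq hB hM hl h1 hv a' a ?_ ?_)
    · rwa [mul_comm]
    · rwa [mul_comm]

end Pool.Agent.MP_a43263_nt.RG
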