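import Pool.Agent.MP_a43263_nt.RG.Spec
import Pool.Agent.MP_a43263_nt.R2.LocP

/-! PROJECT RANKG, module LOC: the local conditions of the 2-descent. -/

set_option autoImplicit false

noncomputable section

namespace Pool.Agent.MP_a43263_nt.RG

open Finset
open R2 (Ker sg Sol2 ELS)
open R2.Loc (exists_sqf scale swap real_aux int_good int_one int_zero cls_one even_iff val_one
  norm_int jac_of_Q extract gcd_one)

namespace LocH

variable {n : ℕ}

theorem sg_eq {j : ℤ} (h : j = 1 ∨ j = -1) : sg j = j := by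
  rcases h with rfl | rfl <;> simp [sg]

theorem jac_prod (m : ℤ) (s : Finset (Gen n)) (h : ∀ a ∈ s, a.2 ≠ 0) :
    jacobiSym m (∏ a ∈ s, a.2) = ∏ a ∈ s, jacobiSym m a.2 := by
  induction s using Finset.induction_on with
  | empty => simp [jacobiSym.one_right]
  | insert a s ha ih =>
    rw [prod_insert ha, prod_insert ha, jacobiSym.mul_right' m (h a (mem_insert_self _ _))
      (prod_ne_zero_iff.2 fun b hb => h b (mem_insert_of_mem hb)),
      ih fun b hb => h b (mem_insert_of_mem hb)]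

theorem val_prime {a : Gen n} (h : a.2.Prime) : val a = a.2 := by simp [val, h.ne_one]

theorem prod_eq {m : ℤ} (hn : Squarefree m) {S : Finset (Gen n)} (hd : Dist S)
    (h1 : (neg : Gen n) ∈ S ↔ m < 0) (h2 : ∀ a ∈ S, a ≠ neg → a.2.Prime ∧ (a.2 : ℤ) ∣ m)
    (h3 : ∀ p : ℕ, p.Prime → (p : ℤ) ∣ m → ∃ a ∈ S, a.2 = p) : ∏ a ∈ S, val a = m := by
  have e : ∏ a ∈ S.erase neg, val a = (m.natAbs : ℤ) := by
    rw [← Nat.prod_primeFactors_of_squarefree (Int.squarefree_natAbs.2 hn), Nat.cast_prod]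
    refine prod_bij (fun a _ => a.2) (fun a ha => ?_) (fun a ha b hb h => ?_) (fun q hq => ?_)
      (fun a ha => ?_)
    · obtain ⟨k1, k2⟩ := h2 a (mem_of_mem_erase ha) (ne_of_mem_erase ha)
      exact Nat.mem_primeFactors.2 ⟨k1, Int.natCast_dvd.1 k2, Int.natAbs_ne_zero.2 hn.ne_zero⟩
    · exact hd a (mem_of_mem_erase ha) b (mem_of_mem_erase hb) h
    · obtain ⟨k1, k2, -⟩ := Nat.mem_primeFactors.1 hq
      obtain ⟨a, ha, rfl⟩ := h3 q k1 (Int.natCast_dvd.2 k2)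
      exact ⟨a, mem_erase.2 ⟨by rintro rfl; exact Nat.not_prime_one k1, ha⟩, rfl⟩
    · exact val_prime (h2 a (mem_of_mem_erase ha) (ne_of_mem_erase ha)).1
  by_cases h : m < 0
  · rw [← mul_prod_erase S _ (h1.2 h), e]
    simp only [val, neg, if_true]
    omega
  · rw [erase_eq_of_notMem (mt h1.1 h)] at e
    omega

theorem Gv_mul (y : Finset (Gen n)) :
    Gv 2 y * Gv 1 y = Gv 0 y * (∏ a ∈ y.filter (fun a => a.1.1 = 0), val a) ^ 2 := by
  simp only [Gv, prod_filter, ← prod_pow, ← prod_mul_distrib]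
  refine prod_congr rfl fun a _ => ?_
  generalize a.1.1 = j
  fin_cases j <;> simp [sq]

theorem assemble (kc : KCStmt) (dg : Gen n → ℤ) {V : Finset (Gen n)} (hV : Nice V)
    (h62 : ((0, none), 2) ∈ V) (d2 : dg ((0, none), 2) = 1)
    {n₂ n₃ : ℤ} (s2 : Squarefree n₂) (s3 : Squarefree n₃) (hs : n₂ < 0 ↔ n₃ < 0)
    (g2 : ∀ p : ℕ, p.Prime → (p : ℤ) ∣ n₂ → ∃ a ∈ V, a.2 = p ∧ a.1.1 ≠ 2)
    (g3 : ∀ p : ℕ, p.Prime → (p : ℤ) ∣ n₃ → ∃ a ∈ V, a.2 = p ∧ a.1.1 ≠ 1)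
    (c0 : ∀ a ∈ V, a ≠ neg → a.1.1 = 0 → ((a.2 : ℤ) ∣ n₂ ↔ (a.2 : ℤ) ∣ n₃) ∧
      ∀ d e : ℤ, n₂ * n₃ = d * e ^ 2 → ¬(a.2 : ℤ) ∣ d →
        if a.2 = 2 then d % 8 = 1
        else (if (a.2 : ℤ) ∣ n₂ then dg a else 1) * jacobiSym d a.2 = 1)
    (c1 : ∀ a ∈ V, a.1.1 = 1 → ¬(a.2 : ℤ) ∣ n₃ ∧
      (if (a.2 : ℤ) ∣ n₂ then dg a * jacobiSym (-1) a.2 else 1) * jacobiSym n₃ a.2 = 1)
    (c2 : ∀ a ∈ V, a.1.1 = 2 → ¬(a.2 : ℤ) ∣ n₂ ∧
      (if (a.2 : ℤ) ∣ n₃ then dg a else 1) * jacobiSym n₂ a.2 = 1) :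
    ∃ y ∈ Ker (gp dg) V, Gv 2 y = n₂ ∧ Gv 1 y = n₃ := by
  let y := V.filter fun a : Gen n => if a = neg then n₂ < 0 else (a.2 : ℤ) ∣ n₂ ∨ (a.2 : ℤ) ∣ n₃
  have hyV : y ⊆ V := filter_subset _ _
  have hy1 : neg ∈ y ↔ n₂ < 0 := by simp [y, hV.neg]
  have hy : ∀ a ∈ V, a ≠ neg → (a ∈ y ↔ (a.2 : ℤ) ∣ n₂ ∨ (a.2 : ℤ) ∣ n₃) := fun a ha h => by
    simp [y, ha, h]
  clear_value y
  have pr : ∀ a ∈ V, a ≠ neg → a.2.Prime := fun a ha h => (hV.pr a ha).resolve_left h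
  have tri : ∀ j : Fin 3, j = 0 ∨ j = 1 ∨ j = 2 := by decide
  have c61 : (neg : Gen n).1.1 = 0 := rfl
  have n61 : ∀ a : Gen n, a.1.1 ≠ 0 → a ≠ neg := by rintro a h rfl; exact h rfl
  have dist : ∀ P : Gen n → Prop, ∀ _ : DecidablePred P, Dist (y.filter P) :=
    fun P _ a ha b hb =>
      hV.dist a (hyV (mem_of_mem_filter a ha)) b (hyV (mem_of_mem_filter b hb))
  have G2 : Gv 2 y = n₂ := by
    refine prod_eq s2 (dist _ _) (by simp [hy1, c61]) (fun a ha h => ?_) fun q hq h => ?_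
    · obtain ⟨ha, hc⟩ := mem_filter.1 ha
      refine ⟨pr a (hyV ha) h, ((hy a (hyV ha) h).1 ha).elim id fun k => ?_⟩
      rcases tri a.1.1 with t | t | t
      · exact (c0 a (hyV ha) h t).1.2 k
      · exact absurd k (c1 a (hyV ha) t).1
      · exact absurd t hc
    · obtain ⟨a, ha, rfl, hc⟩ := g2 q hq h
      exact ⟨a, mem_filter.2 ⟨(hy a ha (by rintro rfl; exact Nat.not_prime_one hq)).2 (Or.inl h),
        hc⟩, rfl⟩
  have G1 : Gv 1 y = n₃ := by
    refine prod_eq s3 (dist _ _) (by simp [hy1, c61, hs]) (fun a ha h => ?_) fun q hq h => ?_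
    · obtain ⟨ha, hc⟩ := mem_filter.1 ha
      refine ⟨pr a (hyV ha) h, ((hy a (hyV ha) h).1 ha).elim (fun k => ?_) id⟩
      rcases tri a.1.1 with t | t | t
      · exact (c0 a (hyV ha) h t).1.1 k
      · exact absurd t hc
      · exact absurd k (c2 a (hyV ha) t).1
    · obtain ⟨a, ha, rfl, hc⟩ := g3 q hq h
      exact ⟨a, mem_filter.2 ⟨(hy a ha (by rintro rfl; exact Nat.not_prime_one hq)).2 (Or.inr h),
        hc⟩, rfl⟩
  have hm := Gv_mul y
  rw [G2, G1] at hm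
  obtain ⟨d, hd⟩ : ∃ d : ℕ, d = ∏ a ∈ y.filter (fun a => a.1.1 ≠ 0), a.2 := ⟨_, rfl⟩
  have G0 : Gv 0 y = d := by
    rw [hd, Nat.cast_prod]
    exact prod_congr rfl fun a ha =>
      val_prime (pr a (hyV (mem_filter.1 ha).1) (n61 a (mem_filter.1 ha).2))
  have z0 : ∀ b ∈ V, b ≠ neg → b.1.1 = 0 → if b.2 = 2 then (d : ℤ) % 8 = 1
      else (if (b.2 : ℤ) ∣ n₂ then dg b else 1) * jacobiSym d b.2 = 1 := fun b hb h t => by
    refine (c0 b hb h t).2 d _ (by rw [hm, G0]) fun k => ?_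
    rw [Int.natCast_dvd_natCast, hd, (pr b hb h).prime.dvd_finsetProd_iff] at k
    obtain ⟨a, ha, k⟩ := k
    obtain ⟨ha, hc⟩ := mem_filter.1 ha
    have := (Nat.prime_dvd_prime_iff_eq (pr b hb h) (pr a (hyV ha) (n61 a hc))).1 k
    exact hc (hV.dist b hb a (hyV ha) this ▸ t)
  have d8 : d % 8 = 1 := by
    have := z0 ((0, none), 2) h62 (by simp [neg]) rfl
    simp only [if_true] at this
    omega
  have dodd : Odd d := Nat.odd_iff.2 (by omega)
  have row : ∀ b : Gen n, b.1.1 = 0 → gp dg b b = 1 → val b = -1 ∨ val b = 2 →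
      ∏ a ∈ y, gp dg a b = jacobiSym (val b) d := fun b t hbb hb => by
    rw [hd, jac_prod _ _ fun a ha =>
      (pr a (hyV (mem_filter.1 ha).1) (n61 a (mem_filter.1 ha).2)).ne_zero, prod_filter]
    refine prod_congr rfl fun a ha => ?_
    by_cases k : a.1.1 = 0
    · by_cases hab : a = b
      · rw [hab, hbb, if_neg (not_not.2 t)]
      · simp [gp, k, t, hab]
    · have hab : a ≠ b := by rintro rfl; exact k t
      have hp := pr a (hyV ha) (n61 a k)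
      have := Fact.mk hp
      simp only [gp, hab, k, t, if_true, if_false, ne_eq, not_false_eq_true]
      refine sg_eq (jacobiSym.eq_one_or_neg_one (gcd_one fun h => ?_))
      rcases hb with hb | hb <;> rw [hb] at h
      · exact hp.not_dvd_one (by exact_mod_cast (dvd_neg.1 h))
      · exact hV.odd a (hyV ha) k ((Nat.prime_dvd_prime_iff_eq hp Nat.prime_two).1
          (by exact_mod_cast h))
  have row1 : ∏ a ∈ y, gp dg a neg = 1 := by
    rw [row neg rfl (by simp [gp, neg]) (Or.inl rfl)]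
    change jacobiSym (-1) d = 1
    rw [jacobiSym.at_neg_one dodd, ZMod.χ₄_nat_one_mod_four (by omega)]
  refine ⟨y, mem_filter.2 ⟨mem_powerset.2 hyV, fun b hb => ?_⟩, G2, G1⟩
  by_cases b1 : b = neg
  · rw [b1, row1]
  by_cases b2 : b.2 = 2
  · rw [hV.dist b hb ((0, none), 2) h62 b2, row ((0, none), 2) rfl (by simp [gp, d2, sg])
      (Or.inr rfl)]
    change jacobiSym 2 d = 1
    rw [jacobiSym.at_two dodd, ZMod.χ₈_nat_eq_if_mod_eight]
    simp [d8, Nat.odd_iff.1 dodd]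
  have K := (kc n).2.1 dg (V.erase b) (y.erase b) b (by rwa [insert_erase hb]) (notMem_erase _ _)
    b1 b2 (erase_subset_erase _ hyV)
  have hG : Gv b.1.1 (y.erase b) = Gv b.1.1 y := by
    unfold Gv
    rw [filter_erase, erase_eq_of_notMem (by simp)]
  rw [hG] at K
  have hyb := hy b hb b1
  by_cases hby : b ∈ y
  · rw [← mul_prod_erase y _ hby] at row1 ⊢
    rw [K]
    generalize ∏ a ∈ y.erase b, gp dg a neg = σ at row1 ⊢
    have e1 : gp dg b b = sg (dg b) := by simp [gp, (pr b hb b1).ne_one]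
    rw [e1]
    rcases tri b.1.1 with t | t | t
    · have k2 := z0 b hb b1 t
      rw [if_neg b2, if_pos ((hyb.1 hby).elim id (c0 b hb b1 t).1.2)] at k2
      have e2 : gp dg b neg = 1 := by simp [gp, t, b1, c61]
      rw [e2, one_mul] at row1
      rw [t, if_neg (by decide), row1, one_mul, G0,
        sg_eq (Int.eq_one_or_neg_one_of_mul_eq_one k2)]
      exact k2
    · obtain ⟨k1, k2⟩ := c1 b hb t
      rw [if_pos ((hyb.1 hby).resolve_right k1), mul_assoc] at k2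
      have e2 : gp dg b neg = sg (jacobiSym (-1) b.2) := by
        simp only [gp, t, b1, c61, if_false, if_true, one_ne_zero]
        rfl
      rw [e2] at row1
      rw [t, if_neg (by decide), G1, jacobiSym.mul_left]
      have e3 : jacobiSym σ b.2 = jacobiSym (-1) b.2 := by
        rcases jacobiSym.trichotomy (-1) b.2 with u | u | u <;> rw [u] at row1 k2 ⊢
        · simp at k2
        · have : σ = 1 := by simpa [sg] using row1
          rw [this, jacobiSym.one_left]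
        · have : σ = -1 := by simp [sg] at row1; omega
          rw [this, u]
      rw [e3, sg_eq (Int.eq_one_or_neg_one_of_mul_eq_one k2)]
      exact k2
    · obtain ⟨k1, k2⟩ := c2 b hb t
      rw [if_pos ((hyb.1 hby).resolve_left k1)] at k2
      rw [t, if_pos rfl, G2, one_mul, sg_eq (Int.eq_one_or_neg_one_of_mul_eq_one k2)]
      exact k2
  · rw [erase_eq_of_notMem hby, row1, ite_self, one_mul] at K
    rw [K]
    rw [hyb, not_or] at hby
    rcases tri b.1.1 with t | t | t <;> rw [t]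
    · simpa [b2, G0, hby.1] using z0 b hb b1 t
    · simpa [hby.1, G1] using (c1 b hb t).2
    · simpa [hby.2, G2] using (c2 b hb t).2

/-- the root `a` moved to the origin -/
theorem shift {K : Type} [Field K] {a b d₂ d₃ : K} (h2 : d₃ ≠ 0) (h : Sol2 a b d₂ d₃) :
    Sol2 (b - a) (-a) d₃ (d₂ * d₃) := by
  obtain ⟨z₀, z₂, z₃, t, hne, e2, e3⟩ := h
  refine ⟨z₂, d₃ * z₃, d₃ * z₀, d₃ * t, fun h => hne ?_, by linear_combination d₃ ^ 2 * (e3 - e2),
    by linear_combination -d₃ ^ 2 * e2⟩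
  simp only [mul_eq_zero, h2, false_or] at h
  exact ⟨h.2.2.1, h.1, h.2.1, h.2.2.2⟩

theorem int_zer {p : ℕ} [hp : Fact p.Prime] {a b n₂ n₃ : ℤ} (h2 : Squarefree n₂)
    (h3 : Squarefree n₃) (h : Sol2 (a : ℚ_[p]) b n₂ n₃) (ha : ¬(p : ℤ) ∣ a) (h1 : (p : ℤ) ∣ a - b)
    (hs : ¬(p : ℤ) ^ 2 ∣ a - b) : ((p : ℤ) ∣ n₂ ↔ (p : ℤ) ∣ n₃) ∧
      ∀ d e : ℤ, n₂ * n₃ = d * e ^ 2 → ¬(p : ℤ) ∣ d →
        (if (p : ℤ) ∣ n₂ then jacobiSym a p else 1) * jacobiSym d p = 1 := by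
  have g2 : (n₂ : ℚ_[p]) ≠ 0 := by exact_mod_cast h2.ne_zero
  have g3 : (n₃ : ℚ_[p]) ≠ 0 := by exact_mod_cast h3.ne_zero
  rw [dvd_sub_comm] at h1 hs
  have h0 : b - a ≠ 0 := fun k => hs (k ▸ dvd_zero _)
  obtain ⟨ev, k⟩ := cls_one g3 (mul_ne_zero g2 g3) (shift g3 h) (by exact_mod_cast h0)
    (by exact_mod_cast val_one h1 hs) (by rw [norm_neg]; exact norm_int ha)
  rw [Padic.valuation_mul g2 g3, Int.even_add, even_iff h2, even_iff h3] at ev
  have e : (p : ℤ) ∣ n₂ ↔ (p : ℤ) ∣ n₃ := by tauto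
  refine ⟨e, fun d r hd hn => ?_⟩
  have hd' : (n₂ : ℚ_[p]) * n₃ = d * r ^ 2 := by exact_mod_cast hd
  rcases k with ⟨o, q⟩ | ⟨o, q⟩
  · rw [← Int.not_even_iff_odd, even_iff h3, not_not] at o
    rw [if_pos (e.2 o), ← jacobiSym.mul_left]
    refine jac_of_Q (fun k => ?_) (q.cancel le_rfl (r := r) (by rw [hd']; push_cast; ring))
    exact ((Nat.prime_iff_prime_int.1 hp.out).dvd_or_dvd k).elim ha hn
  · rw [even_iff h3] at o
    rw [if_neg (mt e.1 o), one_mul]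
    exact jac_of_Q hn (q.cancel le_rfl (r := r) hd')

theorem dvd_pr {S : Finset (Gen n)} (hS : ∀ x ∈ S, x.2.Prime) {p : ℕ} (hp : p.Prime)
    (h : (p : ℤ) ∣ ∏ x ∈ S, (x.2 : ℤ)) : ∃ x ∈ S, x.2 = p := by
  rw [← Nat.cast_prod, Int.natCast_dvd_natCast, hp.prime.dvd_finsetProd_iff] at h
  obtain ⟨x, hx, h⟩ := h
  exact ⟨x, hx, ((Nat.prime_dvd_prime_iff_eq hp (hS x hx)).1 h).symm⟩

theorem exact_pr {S : Finset (Gen n)} (hS : ∀ x ∈ S, x.2.Prime) (hd : Dist S) {x : Gen n}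
    (hx : x ∈ S) {δ : ℤ} (hδ : ¬(x.2 : ℤ) ∣ δ) : (x.2 : ℤ) ∣ δ * ∏ x ∈ S, (x.2 : ℤ) ∧
      ¬(x.2 : ℤ) ^ 2 ∣ δ * ∏ x ∈ S, (x.2 : ℤ) := by
  have hp := hS x hx
  refine ⟨(dvd_prod_of_mem _ hx).mul_left _, fun h => ?_⟩
  rw [← mul_prod_erase S _ hx, mul_left_comm, sq,
    mul_dvd_mul_iff_left (by exact_mod_cast hp.ne_zero)] at h
  refine ((Nat.prime_iff_prime_int.1 hp).dvd_or_dvd h).elim hδ fun h => ?_
  obtain ⟨z, hz, e⟩ := dvd_pr (fun z hz => hS z (mem_of_mem_erase hz)) hp h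
  exact ne_of_mem_erase hz (hd z (mem_of_mem_erase hz) x hx e)

end LocH

open LocH in
/-- the local conditions -/
theorem loc : KCStmt → LOCStmt := by
  intro kc n N δ V dg a b F d₂ d₃ h2 h3 els
  obtain ⟨n₂, s, s2, hs, e2⟩ := exists_sqf h2
  obtain ⟨n₃, r, s3, hr, e3⟩ := exists_sqf h3
  have hV := F.nice
  have pr : ∀ x ∈ V, x ≠ neg → x.2.Prime := fun x hx h => (hV.pr x hx).resolve_left h
  have n61 : ∀ x : Gen n, x.1.1 ≠ 0 → x ≠ neg := by rintro x h rfl; exact h rfl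
  have dist : ∀ P : Gen n → Prop, ∀ _ : DecidablePred P, Dist (V.filter P) :=
    fun P _ x hx y hy => hV.dist x (mem_of_mem_filter x hx) y (mem_of_mem_filter y hy)
  have p1 : ∀ x ∈ V.filter (fun x => x.1.1 = 1), x.2.Prime := fun x hx =>
    pr x (mem_filter.1 hx).1 (n61 x (by rw [(mem_filter.1 hx).2]; decide))
  have p2 : ∀ x ∈ V.filter (fun x => x.1.1 = 2), x.2.Prime := fun x hx =>
    pr x (mem_filter.1 hx).1 (n61 x (by rw [(mem_filter.1 hx).2]; decide))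
  have p0 : ∀ x ∈ zer N V, x.2.Prime := fun x hx =>
    pr x (mem_filter.1 hx).1 (mem_filter.1 hx).2.2.1
  have ha : (a : ℤ) = 1 * ∏ x ∈ V.filter (fun x => x.1.1 = 1), (x.2 : ℤ) := by
    rw [F.ha, Nat.cast_prod, one_mul]
  have hb : (b : ℤ) = 1 * ∏ x ∈ V.filter (fun x => x.1.1 = 2), (x.2 : ℤ) := by
    rw [F.hb, Nat.cast_prod, one_mul]
  have da : ∀ x ∈ V, x ≠ neg → x.1.1 ≠ 1 → ¬(x.2 : ℤ) ∣ a := fun x hx h t k => by
    rw [ha, one_mul] at k
    obtain ⟨z, hz, e⟩ := dvd_pr p1 (pr x hx h) k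
    exact t (hV.dist z (mem_filter.1 hz).1 x hx e ▸ (mem_filter.1 hz).2)
  have db : ∀ x ∈ V, x ≠ neg → x.1.1 ≠ 2 → ¬(x.2 : ℤ) ∣ b := fun x hx h t k => by
    rw [hb, one_mul] at k
    obtain ⟨z, hz, e⟩ := dvd_pr p2 (pr x hx h) k
    exact t (hV.dist z (mem_filter.1 hz).1 x hx e ▸ (mem_filter.1 hz).2)
  have fx : ∀ x ∈ V, x ≠ neg → x.2 ∣ N → x = ((0, none), x.2) := fun x hx h k =>
    hV.dist x hx _ (F.fix _ (pr x hx h) k).1 rfl
  have nN : ∀ x ∈ V, x.1.1 ≠ 0 → ¬x.2 ∣ N := fun x hx t k =>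
    t (by rw [fx x hx (n61 x t) k])
  have n1 : ∀ {p : ℕ}, p.Prime → ¬(p : ℤ) ∣ 1 := fun hp k =>
    hp.not_dvd_one (by exact_mod_cast k)
  have S : ∀ (p : ℕ) [Fact p.Prime], Sol2 ((a : ℤ) : ℚ_[p]) ((b : ℤ) : ℚ_[p]) n₂ n₃ :=
    fun p _ => by
      have := scale (n₂ := (n₂ : ℚ_[p])) (n₃ := n₃) (s := (s : ℚ_[p])) (r := (r : ℚ_[p]))
        (by exact_mod_cast hs) (by exact_mod_cast hr) (by exact_mod_cast e2)
        (by exact_mod_cast e3) (els.2 p)
      exact_mod_cast this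
  have c1 : ∀ x ∈ V, x.1.1 = 1 → ¬(x.2 : ℤ) ∣ n₃ ∧
      (if (x.2 : ℤ) ∣ n₂ then dg x * jacobiSym (-1) x.2 else 1) * jacobiSym n₃ x.2 = 1 := by
    intro x hx t
    have t0 : x.1.1 ≠ 0 := by rw [t]; decide
    have hp := pr x hx (n61 x t0)
    have := Fact.mk hp
    have k := exact_pr p1 (dist _ _) (mem_filter.2 ⟨hx, t⟩) (n1 hp)
    rw [← ha] at k
    obtain ⟨k1, k2⟩ := int_one s2 s3 (S x.2) k.1 k.2 (db x hx (n61 x t0) (by rw [t]; decide))
    refine ⟨k1, ?_⟩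
    rw [F.dg x hx (n61 x t0) (nN x hx t0), t]
    rw [jacobiSym.mul_left] at k2
    split_ifs at k2 ⊢
    · rw [← jacobiSym.mul_left, mul_neg_one]; exact k2
    · rwa [jacobiSym.one_left] at k2
  have c2 : ∀ x ∈ V, x.1.1 = 2 → ¬(x.2 : ℤ) ∣ n₂ ∧
      (if (x.2 : ℤ) ∣ n₃ then dg x else 1) * jacobiSym n₂ x.2 = 1 := by
    intro x hx t
    have t0 : x.1.1 ≠ 0 := by rw [t]; decide
    have hp := pr x hx (n61 x t0)
    have := Fact.mk hp
    have k := exact_pr p2 (dist _ _) (mem_filter.2 ⟨hx, t⟩) (n1 hp)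
    rw [← hb] at k
    obtain ⟨k1, k2⟩ := int_one s3 s2 (swap (S x.2)) k.1 k.2
      (da x hx (n61 x t0) (by rw [t]; decide))
    refine ⟨k1, ?_⟩
    rw [F.dg x hx (n61 x t0) (nN x hx t0), t]
    rw [jacobiSym.mul_left] at k2
    split_ifs at k2 ⊢
    · exact k2
    · rwa [jacobiSym.one_left] at k2
  have cover : ∀ p : ℕ, p.Prime → (p : ℤ) ∣ n₂ ∨ (p : ℤ) ∣ n₃ → ∃ x ∈ V, x.2 = p :=
    fun p hp h => by
      by_contra k
      have := Fact.mk hp
      have ka : ¬(p : ℤ) ∣ a := fun j => by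
        rw [ha, one_mul] at j
        obtain ⟨z, hz, e⟩ := dvd_pr p1 hp j
        exact k ⟨z, (mem_filter.1 hz).1, e⟩
      have kb : ¬(p : ℤ) ∣ b := fun j => by
        rw [hb, one_mul] at j
        obtain ⟨z, hz, e⟩ := dvd_pr p2 hp j
        exact k ⟨z, (mem_filter.1 hz).1, e⟩
      have kd : ¬(p : ℤ) ∣ a - b := fun j => by
        rw [F.hd] at j
        rcases (Nat.prime_iff_prime_int.1 hp).dvd_or_dvd j with j | j
        · exact k ⟨_, (F.fix p hp (F.dN p hp j)).1, rfl⟩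
        · obtain ⟨z, hz, e⟩ := dvd_pr p0 hp j
          exact k ⟨z, (mem_filter.1 hz).1, e⟩
      exact h.elim (int_good s2 s3 (S p) ka kb kd)
        (int_good s3 s2 (swap (S p)) kb ka (by rwa [dvd_sub_comm]))
  have SR : Sol2 (a : ℝ) (b : ℝ) n₂ n₃ := by
    have := scale (n₂ := (n₂ : ℝ)) (n₃ := n₃) (s := (s : ℝ)) (r := (r : ℝ))
      (by exact_mod_cast hs) (by exact_mod_cast hr) (by exact_mod_cast e2) (by exact_mod_cast e3)
      els.1
    exact_mod_cast this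
  have pa : (0 : ℝ) < a := by
    rw [Nat.cast_pos, F.ha]; exact prod_pos fun x hx => (p1 x hx).pos
  have pb : (0 : ℝ) < b := by
    rw [Nat.cast_pos, F.hb]; exact prod_pos fun x hx => (p2 x hx).pos
  have ma : ((128 * N : ℕ) : ℤ) ∣ a - 1 ^ 2 := by simpa using F.a1.symm.dvd
  have md : ((128 * N : ℕ) : ℤ) ∣ a - b := (F.b1.trans F.a1.symm).dvd
  push_cast at ma md
  obtain ⟨y, hy, G2, G1⟩ := assemble kc dg hV (F.fix 2 Nat.prime_two F.two).1
    (F.fix 2 Nat.prime_two F.two).2 s2 s3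
    ⟨fun h => by_contra fun k => real_aux pb
        (by exact_mod_cast lt_of_le_of_ne (not_lt.1 k) s3.ne_zero.symm) (by exact_mod_cast h)
        (swap SR),
      fun h => by_contra fun k => real_aux pa
        (by exact_mod_cast lt_of_le_of_ne (not_lt.1 k) s2.ne_zero.symm) (by exact_mod_cast h) SR⟩
    (fun p hp h => by
      obtain ⟨x, hx, rfl⟩ := cover p hp (Or.inl h)
      exact ⟨x, hx, rfl, fun k => (c2 _ hx k).1 h⟩)
    (fun p hp h => by
      obtain ⟨x, hx, rfl⟩ := cover p hp (Or.inr h)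
      exact ⟨x, hx, rfl, fun k => (c1 _ hx k).1 h⟩)
    (by
      intro x hx h61 t
      have hp := pr x hx h61
      have hD := da x hx h61 (by rw [t]; decide)
      by_cases hN : x.2 ∣ N
      · have hdg : dg x = 1 := by rw [fx x hx h61 hN]; exact (F.fix _ hp hN).2
        rw [hdg, ite_self]
        generalize x.2 = p at hp hD hN
        have := Fact.mk hp
        by_cases q2 : p = 2
        · subst q2
          have lt : ∀ (k : ℕ) (m : ℤ), 2 ^ k ∣ m →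
              ‖(m : ℚ_[2])‖ < ((2 : ℕ) : ℝ) ^ (-(k : ℤ) + 1) :=
            fun k m h => (Padic.norm_le_pow_iff_norm_lt_pow_add_one _ _).1
              ((Padic.norm_int_le_pow_iff_dvd m k).2 h)
          obtain ⟨k1, k2⟩ := int_zero s2 s3 (S 2) (η := ((2 : ℕ) : ℝ) ^ (-((3 : ℕ) : ℤ) + 1))
            (by norm_num) (by norm_num) hD (r := 1)
            (lt 3 _ (Dvd.dvd.trans ⟨16 * N, by ring⟩ ma))
            ((lt 5 _ (Dvd.dvd.trans ⟨4 * N, by ring⟩ md)).trans_eq (by norm_num))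
          refine ⟨k1, fun d e hd hn => ?_⟩
          obtain ⟨r, hr⟩ := extract (k := 3) (by norm_num) hn (k2 d e hd)
          have hn' : ¬(2 : ℤ) ∣ d := hn
          have hr' : (8 : ℤ) ∣ d - r ^ 2 := hr
          rcases Int.even_or_odd r with ⟨j, hj⟩ | ⟨j, hj⟩
          · have : r ^ 2 = 4 * j ^ 2 := by rw [hj]; ring
            omega
          · obtain ⟨i, hi⟩ := Int.even_mul_succ_self j
            have : r ^ 2 = 8 * i + 1 := by rw [hj]; linear_combination 4 * hi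
            rw [if_pos rfl]
            omega
        · have hN' : (p : ℤ) ∣ 128 * N := (Int.natCast_dvd_natCast.2 hN).mul_left _
          obtain ⟨k1, k2⟩ := int_zero s2 s3 (S p) one_pos le_rfl hD (r := 1)
            (Padic.norm_intCast_lt_one_iff.2 (hN'.trans ma)) (by
              rw [one_pow, Padic.norm_intCast_lt_one_iff]
              exact hN'.trans md)
          exact ⟨k1, fun d e hd hn => by
            rw [if_neg q2, one_mul]; exact jac_of_Q hn (k2 d e hd)⟩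
      · have := Fact.mk hp
        have k := exact_pr p0 (dist _ _) (x := x) (mem_filter.2 ⟨hx, t, h61, hN⟩)
          (fun j => hN (F.dN _ hp j))
        rw [← F.hd] at k
        obtain ⟨k1, k2⟩ := int_zer s2 s3 (S x.2) hD k.1 k.2
        refine ⟨k1, fun d e hd hn => ?_⟩
        rw [if_neg fun j : x.2 = 2 => hN (j ▸ F.two), F.dg x hx h61 hN, t]
        exact k2 d e hd hn) c1 c2
  exact ⟨y, hy, ⟨n₂ * s, by rw [G2, e2]; ring⟩, ⟨n₃ * r, by rw [G1, e3]; ring⟩⟩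

end Pool.Agent.MP_a43263_nt.RG
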