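import Pool.Agent.MP_a43263_nt.RG.Spec
import Pool.Agent.MP_a43263_nt.R2.Desc
import Pool.Agent.MP_a43263_nt.R2.LocP

/-! PROJECT RANKG, modules RANK and ALG: a small kernel gives the rank and a trivial 2-part of
the Tate-Shafarevich group. -/

set_option autoImplicit false

namespace Pool.Agent.MP_a43263_nt.RG

open Two R2.Desc
open R2 (Ecv Sol2 ELS Ker SHAStmt)

theorem rank : RANKStmt := by
  intro a b r ι I d₂ d₃ ha hb hab hI hg hi hs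
  classical
  choose P hP using fun i : I =>
    gd_of_sol ha hb hab (hg i i.2).1 (hg i i.2).2.1 (hg i i.2).2.2
  have hΔ := (isE ha hb hab ℚ).delta
  have : ((Ecv a b).baseChange ℚ).IsElliptic := ⟨hΔ.isUnit⟩
  refine ⟨(⟨IsUnit.mk0 _ (by simpa [WeierstrassCurve.baseChange] using hΔ)⟩ :
    (Ecv a b).IsElliptic), ?_⟩
  show Module.rank ℤ (Pt (Ecv a b) ℚ) = r
  have h1 : (nsmulAddMonoidHom (α := Pt (Ecv a b) ℚ) 2).range.index = 2 ^ (r + 2) := by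
    rw [← hI, ← Fintype.card_coe, ← Nat.card_eq_fintype_card, AddSubgroup.index_eq_card]
    refine (Nat.card_eq_of_bijective
      (fun i : I => (QuotientAddGroup.mk (P i) : Pt (Ecv a b) ℚ ⧸ _))
      ⟨fun i j h => ?_, fun q => ?_⟩).symm
    · obtain ⟨Z, hZ⟩ := QuotientAddGroup.eq.1 h
      rw [nsmulAddMonoidHom_apply] at hZ
      obtain ⟨h₂, h₃⟩ := (((hP i).mul ha hb hab (hP j)).iff ha hb hab).2
        ⟨Z + P i, by rw [smul_add, hZ]; abel⟩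
      exact Subtype.ext (hi i i.2 j j.2 h₂ h₃)
    · obtain ⟨Q, rfl⟩ := QuotientAddGroup.mk_surjective q
      obtain ⟨e₂, e₃, hQ⟩ := exists_gd ha hb hab Q
      obtain ⟨i, hiI, h⟩ := hs e₂ e₃ hQ.1 hQ.2.1 (hQ.sol ha hb hab)
      obtain ⟨Z, hZ⟩ := ((hQ.mul ha hb hab (hP ⟨i, hiI⟩)).iff ha hb hab).1 h
      exact ⟨⟨i, hiI⟩, QuotientAddGroup.eq.2 ⟨Z - P ⟨i, hiI⟩, by
        rw [nsmulAddMonoidHom_apply, smul_sub, ← hZ]; abel⟩⟩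
  obtain ⟨C, hC⟩ := parallelogram (V := ((Ecv a b).baseChange ℚ).toAffine)
  have := northcott (V := ((Ecv a b).baseChange ℚ).toAffine)
  obtain ⟨n, h2, h3⟩ := index_two (AddCommGroup.fg_of_descent' ⟨by rw [h1]; positivity⟩
    (fun P : Pt (Ecv a b) ℚ => Height.logHeight_nonneg P.xRep) hC)
  rw [h1, card_two ha hb hab, ← pow_add] at h3
  have := Nat.pow_right_injective le_rfl h3
  rw [h2, show n = r by omega]

namespace AlgAux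

theorem unscale {K : Type} [Field K] {q a b d₂ d₃ : K} (hq : q ≠ 0)
    (h : Sol2 (q ^ 2 * a) (q ^ 2 * b) d₂ d₃) : Sol2 a b d₂ d₃ := by
  obtain ⟨z₀, z₂, z₃, t, hne, e₂, e₃⟩ := h
  exact ⟨z₀, z₂, z₃, q * t, fun k => hne ⟨k.1, k.2.1, k.2.2.1, (mul_eq_zero.1 k.2.2.2).resolve_left hq⟩,
    by rw [e₂]; ring, by rw [e₃]; ring⟩

theorem cast {a b d₂ d₃ : ℚ} (h : Sol2 a b d₂ d₃) (K : Type) [Field K] [CharZero K] :
    Sol2 (a : K) b d₂ d₃ := by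
  obtain ⟨z₀, z₂, z₃, t, hne, e₂, e₃⟩ := h
  exact ⟨z₀, z₂, z₃, t, by exact_mod_cast hne, by exact_mod_cast e₂, by exact_mod_cast e₃⟩

theorem unscale' {q a b d₂ d₃ : ℚ} (hq : q ≠ 0) (K : Type) [Field K] [CharZero K]
    (h : Sol2 ((q ^ 2 * a : ℚ) : K) ((q ^ 2 * b : ℚ) : K) d₂ d₃) : Sol2 (a : K) b d₂ d₃ := by
  rw [Rat.cast_mul, Rat.cast_mul, Rat.cast_pow] at h
  exact unscale (Rat.cast_ne_zero.2 hq) h

theorem sq_of {x y g : ℚ} (hg : g ≠ 0) (h : IsSquare (x * g)) (h' : IsSquare (y * g)) :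
    IsSquare (x * y) := by
  obtain ⟨s, hs⟩ := h
  obtain ⟨t, ht⟩ := h'
  refine ⟨s * t / g, ?_⟩
  rw [div_mul_div_comm, eq_div_iff (mul_ne_zero hg hg)]
  linear_combination y * g * hs + s * s * ht

theorem split {e d : ℚ} (he : e ≠ 0) (hd : d ≠ 0) (h : IsSquare (e * d)) :
    ∃ s, s ≠ 0 ∧ d = e * s ^ 2 := by
  obtain ⟨s, hs⟩ := h
  refine ⟨s / e, div_ne_zero (fun k => mul_ne_zero he hd (by rw [hs, k, mul_zero])) he, ?_⟩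
  rw [div_pow, sq s, ← hs]
  field_simp

theorem ne_zero {m a : ℕ} (hm : 0 < m) (h : a ≡ 1 [MOD 128 * m]) : a ≠ 0 := by
  rintro rfl
  have := Nat.le_of_dvd one_pos ((Nat.modEq_zero_iff_dvd).1 h.symm)
  omega

end AlgAux

open AlgAux

theorem alg : KCStmt → SHAStmt → RANKStmt → LOCStmt → ALGStmt := by
  intro kc sha rank loc n N δ V dg a b q r ι I d₂ d₃ hL hq hI hg hi hK
  classical
  have ha : (a : ℚ) ≠ 0 := Nat.cast_ne_zero.2 (ne_zero hL.pos hL.a1)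
  have hb : (b : ℚ) ≠ 0 := Nat.cast_ne_zero.2 (ne_zero hL.pos hL.b1)
  have hab : (a : ℚ) ≠ b := by
    intro h
    have h0 := hL.hd
    rw [Nat.cast_injective h, sub_self] at h0
    refine mul_ne_zero hL.d0 (Finset.prod_ne_zero_iff.2 fun x hx => ?_) h0.symm
    obtain ⟨hx, -, hn, -⟩ := Finset.mem_filter.1 hx
    exact Nat.cast_ne_zero.2 ((hL.nice.pr x hx).resolve_left hn).ne_zero
  have hq2 := pow_ne_zero 2 hq
  have ha' := mul_ne_zero hq2 ha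
  have hb' := mul_ne_zero hq2 hb
  have hab' : q ^ 2 * a ≠ q ^ 2 * b := fun h => hab (mul_left_cancel₀ hq2 h)
  have hG : ∀ y ∈ Ker (gp dg) V, ∀ j, (Gv j y : ℚ) ≠ 0 := fun y hy j =>
    Int.cast_ne_zero.2 (Int.natAbs_ne_zero.1 ((kc n).2.2.1 V y j hL.nice
      (Finset.mem_powerset.1 (Finset.mem_filter.1 hy).1)).1.ne_zero)
  have els : ∀ e₂ e₃ : ℚ, Sol2 (q ^ 2 * a) (q ^ 2 * b) e₂ e₃ → ELS a b e₂ e₃ := fun e₂ e₃ h =>
    ⟨cast (unscale hq h) ℝ, fun p _ => cast (unscale hq h) ℚ_[p]⟩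
  choose y hy h₂ h₃ using fun i (h : i ∈ I) =>
    loc n N δ V dg a b hL _ _ (hg i h).1 (hg i h).2.1 (els _ _ (hg i h).2.2)
  have key : ∀ e₂ e₃ : ℚ, e₂ ≠ 0 → e₃ ≠ 0 → ELS a b e₂ e₃ →
      ∃ i ∈ I, IsSquare (e₂ * d₂ i) ∧ IsSquare (e₃ * d₃ i) := by
    intro e₂ e₃ n₂ n₃ h
    obtain ⟨z, hz, k₂, k₃⟩ := loc n N δ V dg a b hL _ _ n₂ n₃ h
    obtain ⟨i, hiI, rfl⟩ := Finset.surj_on_of_inj_on_of_card_le y hy (fun i j u v e =>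
      hi i u j v (sq_of (hG _ (hy j v) 2) (e ▸ h₂ i u) (h₂ j v))
        (sq_of (hG _ (hy j v) 1) (e ▸ h₃ i u) (h₃ j v))) (hK.trans_eq hI.symm) z hz
    exact ⟨i, hiI, sq_of (hG _ hz 2) k₂ (h₂ i hiI), sq_of (hG _ hz 1) k₃ (h₃ i hiI)⟩
  obtain ⟨hE, hr⟩ := rank _ _ r ι I d₂ d₃ ha' hb' hab' hI hg hi fun e₂ e₃ n₂ n₃ h =>
    key e₂ e₃ n₂ n₃ (els _ _ h)
  refine ⟨hE, hr, sha _ _ ha' hb' hab' fun e₂ e₃ n₂ n₃ h => ?_⟩
  obtain ⟨i, hiI, k₂, k₃⟩ := key e₂ e₃ n₂ n₃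
    ⟨unscale' hq ℝ h.1, fun p _ => unscale' hq ℚ_[p] (h.2 p)⟩
  obtain ⟨s, hs, f₂⟩ := split n₂ (hg i hiI).1 k₂
  obtain ⟨t, ht, f₃⟩ := split n₃ (hg i hiI).2.1 k₃
  exact R2.Loc.scale hs ht f₂ f₃ (hg i hiI).2.2

end Pool.Agent.MP_a43263_nt.RG
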