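import Pool.Agent.MP_a43263_nt.R2.Box
import Pool.Agent.MP_a43263_nt.RG.Basic

/-! PROJECT RANKG, modules BOR and PAR: bordering, and the parity of the corank of the descent
matrix. -/

set_option autoImplicit false
set_option linter.unusedSectionVars false

noncomputable section

namespace Pool.Agent.MP_a43263_nt.RG

open Finset
open R2 (Sgn chi Ker sg sg_sgn sg_eq prod_sgn chi_eq_rows chi_comm mem_Ker)

namespace Par

theorem part4 {ι : Type} [DecidableEq ι] {g : ι → ι → ℤ} (hg : Sgn g) (V w : Finset ι)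
    (hw : w ⊆ V) (hd : ∀ a ∈ V, g a a = ∏ t ∈ w, g t a) (hc : chi g w w = 1) :
    ∃ κ : ℕ, (Ker g V).card = 2 ^ κ ∧ κ % 2 = V.card % 2 := by
  set g' : ι → ι → ℤ := fun a b => g a b * if g a a = -1 ∧ g b b = -1 then -1 else 1 with hg'def
  have hg' : Sgn g' := by
    refine ⟨fun a b => ?_, fun a b => ?_⟩
    · simp only [hg'def, hg.1 a b, and_comm]
    · simp only [hg'def]
      rcases hg.2 a b with h | h <;> rw [h] <;> split_ifs <;> norm_num
  have hd' : ∀ a, g' a a = 1 := by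
    intro a
    simp only [hg'def]
    rcases hg.2 a a with h | h <;> rw [h] <;> norm_num
  have hrow : ∀ (x : Finset ι) (b : ι), ∏ a ∈ x, g' a b =
      (∏ a ∈ x, g a b) * if g b b = -1 then ∏ a ∈ x, g a a else 1 := by
    intro x b
    simp only [hg'def]
    rw [prod_mul_distrib]
    congr 1
    by_cases hb : g b b = -1
    · rw [if_pos hb]
      refine prod_congr rfl fun a _ => ?_
      rcases hg.2 a a with h | h <;> rw [h] <;> simp [hb]
    · rw [if_neg hb]
      exact prod_eq_one fun a _ => if_neg fun h => hb h.2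
  have hdiag : ∀ x ⊆ V, ∏ a ∈ x, g a a = ∏ b ∈ w, ∏ a ∈ x, g a b := by
    intro x hx
    rw [← chi_eq_rows, chi_comm hg, chi_eq_rows]
    exact prod_congr rfl fun a ha => hd a (hx ha)
  have e : Ker g V = Ker g' V := by
    ext x
    simp only [mem_Ker]
    refine and_congr_right fun hx => ⟨fun h b hb => ?_, fun h => ?_⟩
    · rw [hrow, h b hb, hdiag x hx, prod_eq_one fun c hc => h c (hw hc)]
      simp
    · rcases prod_sgn x (fun a _ => hg.2 a a) with h1 | h1
      · intro b hb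
        have h2 := h b hb
        rw [hrow, h1] at h2
        simpa using h2
      · exfalso
        have h2 : ∀ b ∈ V, ∏ a ∈ x, g a b = g b b := by
          intro b hb
          have h3 := h b hb
          rw [hrow, h1] at h3
          rcases hg.2 b b with h4 | h4 <;> rw [h4] at h3 ⊢ <;> norm_num at h3 <;> linarith
        rw [hdiag x hx, Finset.prod_congr rfl fun b hb => h2 b (hw hb), hdiag w hw,
          ← chi_eq_rows, hc] at h1
        norm_num at h1
  rw [e]
  exact R2.Bor.alt hg' hd' V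

theorem jac_prod {ι : Type} [DecidableEq ι] (w : Finset ι) (f : ι → ℤ) (p : ℕ) :
    jacobiSym (∏ t ∈ w, f t) p = ∏ t ∈ w, jacobiSym (f t) p := by
  induction w using Finset.induction_on with
  | empty => simp
  | insert b w hb ih => rw [prod_insert hb, prod_insert hb, jacobiSym.mul_left, ih]

variable {n N : ℕ} {δ : ℤ} {V : Finset (Gen n)} {dg : Gen n → ℤ} {a b : ℕ}

theorem mem_zer {x : Gen n} : x ∈ zer N V ↔ x ∈ V ∧ x.1.1 = 0 ∧ x ≠ neg ∧ ¬x.2 ∣ N := mem_filter

theorem val_prime {x : Gen n} (h : x.2.Prime) : val x = x.2 := if_neg h.one_lt.ne'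

/-- the diagonal is trivial at the fixed generators of class zero -/
theorem diag_fix (L : Loc N δ V dg a b) {x : Gen n} (hx : x ∈ V) (h0 : x.1.1 = 0)
    (hz : x ∉ zer N V) : gp dg x x = 1 := by
  unfold gp
  rw [if_pos rfl]
  split_ifs with h1
  · rfl
  · have hn : x ≠ neg := fun e => h1 (by rw [e]; rfl)
    have hp := (L.nice.pr x hx).resolve_left hn
    have hN : x.2 ∣ N := by
      by_contra hc
      exact hz (mem_zer.2 ⟨hx, h0, hn, hc⟩)
    obtain ⟨h2, h3⟩ := L.fix x.2 hp hN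
    rw [L.nice.dist x hx _ h2 rfl, h3]
    rfl

/-- the characteristic vector -/
theorem exists_w (L : Loc N δ V dg a b) : ∃ (w : Finset (Gen n)) (s : ℕ), w ⊆ V ∧
    zer N V ⊆ w ∧ (∀ t ∈ w, t.1.1 = 0) ∧ (b : ℤ) - a = (s : ℤ) ^ 2 * ∏ t ∈ w, val t ∧
    ∀ p : ℕ, p.Prime → p ∣ s → p ∣ N := by
  obtain ⟨r, s, e, hr⟩ := Nat.sq_mul_squarefree δ.natAbs
  have hδ : ∀ p : ℕ, p.Prime → p ∣ δ.natAbs → p ∣ N := fun p hp h =>
    L.dN p hp (Int.natCast_dvd.2 h)
  have hrN : ∀ p ∈ r.primeFactors, p.Prime ∧ p ∣ N := fun p hp =>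
    ⟨Nat.prime_of_mem_primeFactors hp, hδ p (Nat.prime_of_mem_primeFactors hp)
      (e ▸ Dvd.dvd.mul_left (Nat.dvd_of_mem_primeFactors hp) _)⟩
  set R : Finset (Gen n) := r.primeFactors.image fun p => ((0, none), p) with hR
  have hRm : ∀ t ∈ R, t ∈ V ∧ t.1.1 = 0 ∧ t.2.Prime ∧ t.2 ∣ N := by
    intro t ht
    obtain ⟨p, hp, rfl⟩ := mem_image.1 ht
    exact ⟨(L.fix p (hrN p hp).1 (hrN p hp).2).1, rfl, hrN p hp⟩
  have hdis : Disjoint (zer N V) R := by
    rw [disjoint_left]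
    intro t h1 h2
    exact (mem_zer.1 h1).2.2.2 (hRm t h2).2.2.2
  have p1 : ∏ t ∈ R, val t = r := by
    rw [hR, prod_image fun _ _ _ _ e => (Prod.mk.inj e).2,
      prod_congr rfl fun p hp => val_prime (x := ((0, none), p)) (hrN p hp).1]
    exact_mod_cast congrArg (Nat.cast (R := ℤ)) (Nat.prod_primeFactors_of_squarefree hr)
  have p2 : ∏ t ∈ zer N V, val t = ∏ t ∈ zer N V, (t.2 : ℤ) :=
    prod_congr rfl fun t ht => val_prime
      ((L.nice.pr t (mem_zer.1 ht).1).resolve_left (mem_zer.1 ht).2.2.1)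
  have p3 : ∏ t ∈ zer N V ∪ R, val t = (∏ t ∈ zer N V, (t.2 : ℤ)) * r := by
    rw [prod_union hdis, p1, p2]
  have hsub : zer N V ∪ R ⊆ V :=
    union_subset (fun t ht => (mem_zer.1 ht).1) fun t ht => (hRm t ht).1
  have hcl : ∀ t ∈ zer N V ∪ R, t.1.1 = 0 := fun t ht =>
    (mem_union.1 ht).elim (fun h => (mem_zer.1 h).2.1) fun h => (hRm t h).2.1
  have hs : ∀ p : ℕ, p.Prime → p ∣ s → p ∣ N := fun p hp h =>
    hδ p hp (e ▸ Dvd.dvd.mul_right (dvd_pow h two_ne_zero) _)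
  have e' : (s : ℤ) ^ 2 * r = |δ| := by rw [← Int.natCast_natAbs]; exact_mod_cast e
  have hd := L.hd
  rcases le_total δ 0 with h | h
  · refine ⟨zer N V ∪ R, s, hsub, subset_union_left, hcl, ?_, hs⟩
    rw [abs_of_nonpos h] at e'
    rw [p3]
    linear_combination -hd - (∏ t ∈ zer N V, (t.2 : ℤ)) * e'
  · have hn : neg ∉ zer N V ∪ R := by
      intro ht
      rcases mem_union.1 ht with h | h
      · exact (mem_zer.1 h).2.2.1 rfl
      · exact Nat.not_prime_one (hRm _ h).2.2.1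
    refine ⟨insert neg (zer N V ∪ R), s, insert_subset L.nice.neg hsub,
      subset_union_left.trans (subset_insert _ _), ?_, ?_, hs⟩
    · rw [forall_mem_insert]
      exact ⟨rfl, hcl⟩
    · rw [abs_of_nonneg h] at e'
      rw [prod_insert hn, p3, show val (neg : Gen n) = -1 from rfl]
      linear_combination -hd + (∏ t ∈ zer N V, (t.2 : ℤ)) * e'

theorem not_dvd {c p : ℕ} (hc : c ≡ 1 [MOD 128 * N]) (hp : p.Prime) (h : p ∣ c) : ¬p ∣ N := by
  intro hN
  have h1 : c ≡ 1 [MOD p] := hc.of_dvd (Dvd.dvd.mul_left hN _)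
  exact hp.one_lt.ne' (Nat.dvd_one.1 ((h1.dvd_iff dvd_rfl).1 h))

/-- the diagonal at the generators of the classes one and two -/
theorem diag_pos (L : Loc N δ V dg a b) {w : Finset (Gen n)} {s : ℕ} (hw : w ⊆ V)
    (h0 : ∀ t ∈ w, t.1.1 = 0) (e : (b : ℤ) - a = (s : ℤ) ^ 2 * ∏ t ∈ w, val t)
    (hs : ∀ p : ℕ, p.Prime → p ∣ s → p ∣ N) {x : Gen n} (hx : x ∈ V) (hc : x.1.1 ≠ 0) :
    gp dg x x = ∏ t ∈ w, gp dg t x := by
  have hn : x ≠ neg := fun e => hc (by rw [e]; rfl)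
  have hp := (L.nice.pr x hx).resolve_left hn
  have key : ¬x.2 ∣ N ∧ jacobiSym (![(a : ℤ), b, -a] x.1.1) x.2 = jacobiSym (b - a) x.2 := by
    have h3 : ∀ j : Fin 3, j ≠ 0 → j = 1 ∨ j = 2 := by decide
    rcases h3 _ hc with h | h
    · have h1 : x.2 ∣ a := L.ha ▸ dvd_prod_of_mem _ (mem_filter.2 ⟨hx, h⟩)
      refine ⟨not_dvd L.a1 hp h1, ?_⟩
      rw [h]
      refine jacobiSym.mod_left' (Int.ModEq.symm ?_)
      simpa using (Int.ModEq.refl (b : ℤ)).sub
        (Int.modEq_zero_iff_dvd.2 (Int.natCast_dvd_natCast.2 h1))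
    · have h1 : x.2 ∣ b := L.hb ▸ dvd_prod_of_mem _ (mem_filter.2 ⟨hx, h⟩)
      refine ⟨not_dvd L.b1 hp h1, ?_⟩
      rw [h]
      refine jacobiSym.mod_left' (Int.ModEq.symm ?_)
      simpa using (Int.modEq_zero_iff_dvd.2 (Int.natCast_dvd_natCast.2 h1)).sub
        (Int.ModEq.refl (a : ℤ))
  have hrow : ∀ t ∈ w, gp dg t x = jacobiSym (val t) x.2 := by
    intro t ht
    have hne : t ≠ x := fun e => hc (e ▸ h0 t ht)
    unfold gp
    rw [if_neg hne, if_pos (h0 t ht), if_neg hc]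
    refine sg_eq (jacobiSym.eq_one_or_neg_one ?_)
    rcases L.nice.pr t (hw ht) with h | h
    · rw [h, show val (neg : Gen n) = -1 from rfl]
      simp
    · rw [val_prime h, Int.gcd_natCast_natCast]
      exact (Nat.coprime_primes h hp).2 fun e => hne (L.nice.dist t (hw ht) x hx e)
  have hsq : jacobiSym ((s : ℤ) ^ 2) x.2 = 1 := by
    refine jacobiSym.sq_one' ?_
    rw [Int.gcd_natCast_natCast]
    exact ((Nat.Prime.coprime_iff_not_dvd hp).2 fun h => key.1 (hs _ hp h)).symm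
  have hdg : dg x = ∏ t ∈ w, gp dg t x := by
    rw [L.dg x hx hn key.1, key.2, e, jacobiSym.mul_left, hsq, one_mul, jac_prod,
      prod_congr rfl hrow]
  rw [← hdg]
  unfold gp
  rw [if_pos rfl, if_neg hp.one_lt.ne']
  refine sg_eq ?_
  rw [hdg]
  exact prod_sgn w fun t _ => (gp_sgn dg).2 t x

end Par

theorem bor : BORStmt := fun _ _ _ hg V =>
  ⟨R2.Bor.part1 hg V, R2.Bor.part2 hg V, R2.Bor.part3 hg V,
    fun w hw hd hc => Par.part4 hg V w hw hd hc⟩

theorem par : BORStmt → PARStmt := by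
  intro hB n N δ V dg a b L h1
  obtain ⟨w, s, hw, hz, h0, e, hs⟩ := Par.exists_w L
  have hd : ∀ x ∈ V, gp dg x x = ∏ t ∈ w, gp dg t x := by
    intro x hx
    by_cases hc : x.1.1 = 0
    · have hoff : ∀ t ∈ w, t ≠ x → gp dg t x = 1 := by
        intro t ht hne
        unfold gp
        rw [if_neg hne, if_pos (h0 t ht), if_pos hc]
      by_cases hxw : x ∈ w
      · exact (prod_eq_single_of_mem x hxw hoff).symm
      · rw [Par.diag_fix L hx hc fun h => hxw (hz h)]
        exact (prod_eq_one fun t ht => hoff t ht fun e => hxw (e ▸ ht)).symm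
    · exact Par.diag_pos L hw h0 e hs hx hc
  refine (hB _ (gp dg) (gp_sgn dg) V).2.2.2 w hw hd ?_
  rw [chi_eq_rows, ← prod_congr rfl fun x hx => hd x (hw hx),
    ← prod_subset hz fun x hx hxz => Par.diag_fix L (hw hx) (h0 x hx) hxz, ← h1]
  refine prod_congr rfl fun x hx => ?_
  obtain ⟨hV, -, hn, -⟩ := Par.mem_zer.1 hx
  unfold gp
  rw [if_pos rfl, if_neg ((L.nice.pr x hV).resolve_left hn).one_lt.ne']
  exact sg_eq (Int.isUnit_iff.1 (isUnit_of_dvd_one (h1 ▸ dvd_prod_of_mem _ hx)))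

end Pool.Agent.MP_a43263_nt.RG
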