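import Pool.Agent.MP_a43263_nt.RG.Spec
import Mathlib.Analysis.PSeries

/-! PROJECT RANKG: positivity. Szemeredi's theorem gives many tuples of good numbers; the tuples
that are not coprime are few. -/

set_option autoImplicit false

noncomputable section

namespace Pool.Agent.MP_a43263_nt.RG

open Finset Filter
open R2 (Sc Shape)

namespace Pos

theorem card_res (N Q p : ℕ) (hp : p.Prime) :
    ((range N).filter fun k => p ∣ 1 + Q * k).card ≤ N / p + 1 := by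
  rw [← card_range (N / p + 1)]
  refine card_le_card_of_injOn (fun k => k / p) (fun k hk => ?_) (fun k hk k' hk' h => ?_)
  · exact mem_coe.2 (mem_range.2 (Nat.lt_succ_of_le
      (Nat.div_le_div_right (mem_range.1 (mem_filter.1 (mem_coe.1 hk)).1).le)))
  · have a := (mem_filter.1 (mem_coe.1 hk)).2
    have b := (mem_filter.1 (mem_coe.1 hk')).2
    have c : p.Coprime Q := by
      rw [hp.coprime_iff_not_dvd]
      exact fun d => hp.not_dvd_one ((Nat.dvd_add_left (d.mul_right k)).1 a)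
    have m : k ≡ k' [MOD p] := Nat.ModEq.cancel_left_of_coprime c (Nat.ModEq.add_left_cancel' 1
      ((Nat.modEq_zero_iff_dvd.2 a).trans (Nat.modEq_zero_iff_dvd.2 b).symm))
    have h' : k / p = k' / p := h
    have m' : k % p = k' % p := m
    rw [← Nat.div_add_mod k p, ← Nat.div_add_mod k' p, h', m']

open Classical in
/-- pairs with a large common prime are few -/
theorem card_bad (N Q P : ℕ) (hP : P ≠ 0) :
    ((((range N ×ˢ Icc 1 N).filter fun x : ℕ × ℕ =>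
      ∃ p : ℕ, p.Prime ∧ P < p ∧ p ∣ x.2 ∧ p ∣ 1 + Q * x.1).card : ℕ) : ℝ) ≤ 2 * (N : ℝ) ^ 2 / P := by
  have h1 : ((range N ×ˢ Icc 1 N).filter fun x : ℕ × ℕ =>
      ∃ p : ℕ, p.Prime ∧ P < p ∧ p ∣ x.2 ∧ p ∣ 1 + Q * x.1) ⊆
      ((Ioc P N).filter Nat.Prime).biUnion fun p =>
        ((range N).filter fun k => p ∣ 1 + Q * k) ×ˢ ((Ioc 0 N).filter fun d => p ∣ d) := by
    intro x hx
    obtain ⟨hx, p, hp, k1, k2, k3⟩ := mem_filter.1 hx
    obtain ⟨a, b⟩ := mem_product.1 hx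
    obtain ⟨b1, b2⟩ := mem_Icc.1 b
    exact mem_biUnion.2 ⟨p, mem_filter.2 ⟨mem_Ioc.2 ⟨k1, (Nat.le_of_dvd b1 k2).trans b2⟩, hp⟩,
      mem_product.2 ⟨mem_filter.2 ⟨a, k3⟩, mem_filter.2 ⟨mem_Ioc.2 ⟨b1, b2⟩, k2⟩⟩⟩
  have h2 : ∀ p ∈ (Ioc P N).filter Nat.Prime,
      (((((range N).filter fun k => p ∣ 1 + Q * k) ×ˢ ((Ioc 0 N).filter fun d => p ∣ d)).card : ℕ) : ℝ)
        ≤ 2 * (N : ℝ) ^ 2 * ((p : ℝ) ^ 2)⁻¹ := by
    intro p hp
    obtain ⟨a, hp⟩ := mem_filter.1 hp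
    have b : 1 ≤ N / p := (Nat.le_div_iff_mul_le hp.pos).2 (by rw [one_mul]; exact (mem_Ioc.1 a).2)
    have c : (((range N).filter fun k => p ∣ 1 + Q * k) ×ˢ ((Ioc 0 N).filter fun d => p ∣ d)).card ≤
        2 * (N / p) * (N / p) := by
      rw [card_product, Nat.Ioc_filter_dvd_card_eq_div]
      exact Nat.mul_le_mul_right _ ((card_res N Q p hp).trans (by omega))
    have d : ((N / p : ℕ) : ℝ) ≤ N / p := Nat.cast_div_le
    have e : (0 : ℝ) ≤ (N / p : ℕ) := Nat.cast_nonneg _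
    calc _ ≤ ((2 * (N / p) * (N / p) : ℕ) : ℝ) := Nat.cast_le.2 c
      _ = 2 * ((N / p : ℕ) : ℝ) ^ 2 := by push_cast; ring
      _ ≤ 2 * ((N : ℝ) / p) ^ 2 := by gcongr
      _ = _ := by rw [div_pow, div_eq_mul_inv, mul_assoc]
  have h3 : ∑ p ∈ (Ioc P N).filter Nat.Prime, ((p : ℝ) ^ 2)⁻¹ ≤ (P : ℝ)⁻¹ := by
    refine (sum_le_sum_of_subset_of_nonneg (filter_subset _ _) fun _ _ _ => by positivity).trans ?_
    rcases le_total P N with h | h
    · exact (sum_Ioc_inv_sq_le_sub hP h).trans (sub_le_self _ (by positivity))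
    · rw [Ioc_eq_empty_of_le h, sum_empty]
      positivity
  calc _ ≤ (((((Ioc P N).filter Nat.Prime).biUnion fun p =>
        ((range N).filter fun k => p ∣ 1 + Q * k) ×ˢ ((Ioc 0 N).filter fun d => p ∣ d)).card : ℕ) : ℝ) :=
        Nat.cast_le.2 (card_le_card h1)
    _ ≤ ∑ p ∈ (Ioc P N).filter Nat.Prime, 2 * (N : ℝ) ^ 2 * ((p : ℝ) ^ 2)⁻¹ := by
        refine (Nat.cast_le.2 card_biUnion_le).trans ?_
        rw [Nat.cast_sum]
        exact sum_le_sum h2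
    _ ≤ _ := by
        rw [← mul_sum, div_eq_mul_inv]
        gcongr

theorem le_Z {n : ℕ} {S : Sc} (h : Rel n S) : S.Y0 ≤ S.Z := by
  have e : EE n ≠ 0 := by unfold EE; positivity
  calc S.Y0 ≤ S.Y := h.hY ▸ Nat.le_self_pow e _
    _ ≤ S.Y' := h.hY' ▸ Nat.le_self_pow (by positivity) _
    _ ≤ S.Y' ^ EE n := Nat.le_self_pow e _
    _ ≤ S.Z := h.lo

/-- a pattern of natural numbers with the same differences -/
theorem exists_pat {ι : Type} [Finite ι] (e : ι → ℤ) :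
    ∃ f : ι → ℕ, ∀ a b, (f a : ℤ) - f b = e a - e b := by
  obtain ⟨m, hm⟩ := (Set.finite_range e).bddBelow
  refine ⟨fun a => (e a - m).toNat, fun a b => ?_⟩
  rw [Int.toNat_of_nonneg (sub_nonneg.2 (hm ⟨a, rfl⟩)),
    Int.toNat_of_nonneg (sub_nonneg.2 (hm ⟨b, rfl⟩))]
  ring

/-- the tuple of a pair -/
def tup {n : ℕ} (Q : ℕ) (f : Ix n → ℕ) (x : ℕ × ℕ) : Ix n → ℕ := fun h => 1 + Q * (x.1 + f h * x.2)

theorem tup_inj {n Q : ℕ} {f : Ix n → ℕ} (hQ : 0 < Q) {a b : Ix n} (hf : f a ≠ f b) :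
    Function.Injective (tup Q f) := by
  intro x y h
  have k : ∀ c, (x.1 : ℤ) + f c * x.2 = y.1 + f c * y.2 := fun c => by
    have := Nat.eq_of_mul_eq_mul_left hQ (Nat.add_left_cancel (congrFun h c))
    exact_mod_cast this
  have h2 : (x.2 : ℤ) = y.2 := by
    have : ((f a : ℤ) - f b) * (x.2 - y.2) = 0 := by linear_combination k a - k b
    rcases mul_eq_zero.1 this with t | t
    · exact absurd (Nat.cast_injective (sub_eq_zero.1 t)) hf
    · exact sub_eq_zero.1 t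
  have h1 : (x.1 : ℤ) = y.1 := by linear_combination k a - f a * h2
  exact Prod.ext (Nat.cast_injective h1) (Nat.cast_injective h2)

theorem tup_lin {n : ℕ} (Q : ℕ) {f : Ix n → ℕ} {e : Ix n → ℤ}
    (hf : ∀ a b, (f a : ℤ) - f b = e a - e b) (x : ℕ × ℕ) : Lin e (tup Q f x) := by
  intro a b c
  rw [← hf, ← hf, ← hf]
  unfold tup
  push_cast
  ring

theorem tup_cop {n M : ℕ} {f : Ix n → ℕ} {a b : Ix n} (hd : (f a : ℤ) - f b ∣ M) {x : ℕ × ℕ}
    {p : ℕ} (hp : p.Prime) (h1 : p ∣ tup (8 * M) f x a) (h2 : p ∣ tup (8 * M) f x b) :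
    ¬p ∣ M ∧ p ∣ x.2 ∧ p ∣ 1 + 8 * M * x.1 := by
  have c : ¬p ∣ 8 * M := fun d => hp.not_dvd_one ((Nat.dvd_add_left (d.mul_right _)).1 h1)
  have c' : ¬p ∣ M := fun d => c (d.mul_left _)
  have d : (p : ℤ) ∣ (8 * M : ℕ) * ((f a - f b) * x.2) := by
    have := dvd_sub (Int.natCast_dvd_natCast.2 h1) (Int.natCast_dvd_natCast.2 h2)
    unfold tup at this
    push_cast at this ⊢
    exact this.trans (Dvd.intro 1 (by ring))
  have q := Nat.prime_iff_prime_int.1 hp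
  have e : p ∣ x.2 := by
    rcases q.dvd_or_dvd d with t | t
    · exact absurd (Int.natCast_dvd_natCast.1 t) c
    · rcases q.dvd_or_dvd t with t | t
      · exact absurd (Int.natCast_dvd_natCast.1 (t.trans hd)) c'
      · exact Int.natCast_dvd_natCast.1 t
  refine ⟨c', e, (Nat.dvd_add_left ((e.mul_left (f a)).mul_left (8 * M))).1 ?_⟩
  rw [add_assoc, ← mul_add]
  exact h1

end Pos

open Pos in
theorem pos : DH.SZStmt → DENStmt → POSStmt := by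
  classical
  intro sz den n e
  obtain ⟨δ, J₀, hδ, den⟩ := den n
  obtain ⟨f, hf⟩ := exists_pat e
  obtain ⟨c, hc, N₀, sz⟩ := sz (Ix n) f δ hδ
  obtain ⟨P, hP⟩ := exists_nat_gt (4 / c)
  have P0 : (0 : ℝ) < P := (by positivity : (0 : ℝ) < 4 / c).trans hP
  refine ⟨P, J₀, fun D hD he hM => ?_⟩
  have M0 : (0 : ℝ) < D.M := Nat.cast_pos.2 hD.pos
  have Q0 : 0 < 8 * D.M := Nat.mul_pos (by norm_num) hD.pos
  refine ⟨c / 2 / (16 * D.M) ^ 2, by positivity, fun J hJ => ?_⟩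
  obtain ⟨t, ht⟩ := den D.M J hD.pos (hD.sm 2 Nat.prime_two (by have := hD.two; omega)) hJ
  refine ⟨max t (8 * D.M * (N₀ + 1)), fun S h1 h2 h3 h4 => ?_⟩
  obtain ⟨ε, hε⟩ := ht S h1 h2 ((le_max_left _ _).trans h3) h4
  refine ⟨ε, ?_⟩
  have hZ : 8 * D.M * (N₀ + 1) ≤ S.Z := ((le_max_right _ _).trans h3).trans (le_Z h4)
  obtain ⟨N, hN⟩ : ∃ N, N = S.Z / (8 * D.M) := ⟨_, rfl⟩
  rw [← hN] at hε
  have n1 : N₀ + 1 ≤ N := hN ▸ (Nat.le_div_iff_mul_le Q0).2 (by rwa [mul_comm])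
  have n2 : 8 * D.M * N ≤ S.Z := hN ▸ Nat.mul_div_le _ _
  have n3 : S.Z ≤ 16 * D.M * N := by
    have : S.Z < 8 * D.M * (N + 1) := hN ▸ Nat.lt_mul_div_succ _ Q0
    have t : 8 * D.M * (N + 1) ≤ 8 * D.M * (2 * N) := Nat.mul_le_mul_left _ (by omega)
    calc S.Z ≤ 8 * D.M * (2 * N) := this.le.trans t
      _ = _ := by ring
  have k1 := sz N (by omega) (fun k => k < N ∧ Shape { S with e := ε } (1 + 8 * D.M * k))
    (hε.trans (Nat.cast_le.2 (card_le_card fun k hk => by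
      simp only [mem_filter] at hk ⊢
      exact ⟨hk.1, mem_range.1 hk.1, hk.2⟩)))
  have k2 := card_bad N (8 * D.M) P (Nat.cast_pos.1 P0).ne'
  obtain ⟨T, k1, hT⟩ : ∃ T : Finset (ℕ × ℕ), c * (N : ℝ) ^ 2 ≤ T.card ∧ ∀ x ∈ T,
      x ∈ range N ×ˢ Icc 1 N ∧ ∀ a, x.1 + f a * x.2 < N ∧
        Shape { S with e := ε } (1 + 8 * D.M * (x.1 + f a * x.2)) :=
    ⟨_, k1, fun x hx => by simpa only [mem_filter] using hx⟩
  obtain ⟨B, k2, hB⟩ : ∃ B : Finset (ℕ × ℕ), (B.card : ℝ) ≤ 2 * (N : ℝ) ^ 2 / P ∧ ∀ x,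
      x ∈ range N ×ˢ Icc 1 N ∧ (∃ p : ℕ, p.Prime ∧ P < p ∧ p ∣ x.2 ∧ p ∣ 1 + 8 * D.M * x.1) →
        x ∈ B :=
    ⟨_, k2, fun x hx => by simpa only [mem_filter] using hx⟩
  have a0 : ((0, ⟨0, by have := hD.two; omega⟩) : Ix n) ≠ (1, ⟨0, by have := hD.two; omega⟩) :=
    fun h => (by decide : (0 : Fin 3) ≠ 1) (congrArg Prod.fst h)
  have k3 : (T \ B).card ≤ (AA { S with e := ε } D).card := by
    refine card_le_card_of_injOn (tup (8 * D.M) f) (fun x hx => ?_)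
      (tup_inj Q0 (fun h => hD.ne _ _ a0 (sub_eq_zero.1 (by
        rw [he, ← hf, h, sub_self])))).injOn
    obtain ⟨x1, x2⟩ := mem_sdiff.1 (mem_coe.1 hx)
    replace x1 := hT x x1
    refine mem_coe.2 (mem_filter.2 ⟨Fintype.mem_piFinset.2 fun h => mem_Icc.2
      ⟨Nat.le_add_right _ _, ?_⟩, he ▸ tup_lin _ hf x, fun h => ?_, fun h k hk => ?_,
      fun h => (x1.2 h).2⟩)
    · calc tup (8 * D.M) f x h ≤ 8 * D.M * (x.1 + f h * x.2 + 1) := by
            unfold tup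
            rw [mul_add (8 * D.M) _ 1]
            omega
        _ ≤ 8 * D.M * N := Nat.mul_le_mul_left _ (x1.2 h).1
        _ ≤ _ := n2
    · exact (Nat.modEq_iff_dvd' (Nat.le_add_right _ _)).2
        (by rw [Nat.add_sub_cancel_left]; exact Dvd.intro _ rfl) |>.symm
    · refine Nat.coprime_of_dvd fun p hp d1 d2 => x2 (hB x ⟨x1.1, p, hp, ?_⟩)
      obtain ⟨u1, u2, u3⟩ := tup_cop (by rw [hf, ← he]; exact hD.dv h k hk) hp d1 d2
      exact ⟨not_le.1 fun t => u1 (hM p hp t), u2, u3⟩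
  have k4 : (T.card : ℝ) ≤ (T \ B).card + B.card := by exact_mod_cast card_le_card_sdiff_add_card
  have k5 : 2 * (N : ℝ) ^ 2 / P ≤ c / 2 * (N : ℝ) ^ 2 := by
    rw [div_lt_iff₀ hc] at hP
    rw [div_le_iff₀ P0]
    nlinarith [sq_nonneg (N : ℝ)]
  have k6 : (S.Z : ℝ) ≤ 16 * D.M * N := by exact_mod_cast n3
  calc c / 2 / (16 * D.M) ^ 2 * (S.Z : ℝ) ^ 2 ≤ c / 2 / (16 * D.M) ^ 2 * (16 * D.M * N) ^ 2 := by
        gcongr
    _ = c / 2 * (N : ℝ) ^ 2 := by field_simp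
    _ ≤ (T \ B).card := by linarith
    _ ≤ _ := Nat.cast_le.2 k3

end Pool.Agent.MP_a43263_nt.RG
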