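import Mathlib.Analysis.PSeries
import Pool.Agent.MP_a43263_nt.RG.Basic

/-! PROJECT RANKG: the total mass, and exceptional configurations are rare. -/

set_option autoImplicit false

noncomputable section

namespace Pool.Agent.MP_a43263_nt.RG

open Finset Filter
open R2 (pri PP chs MERStmt EXCStmt mem_pri mem_PP)

theorem mes : MERStmt → MESStmt := by
  intro mer n
  obtain ⟨C, hC⟩ := mer.2.2.1 1
  refine ⟨(C * Real.exp (8 * n)) ^ (3 * n), fun M a y hM hy => ?_⟩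
  rw [Mass, prod_pow, ← mul_pow]
  have h0 : ∀ p ∈ PP M a y, 0 ≤ 1 + wt n p := fun p hp => by
    have := wt_pos (PP_gt hM hp)
    positivity
  refine pow_le_pow_left₀ (prod_nonneg h0) ?_ _
  have h1 : ∏ p ∈ PP M a y, (1 + wt n p) ≤
      ∏ p ∈ PP M a y, (1 + (1 : ℝ) / p) * Real.exp (4 * n / (p : ℝ) ^ 2) := by
    refine prod_le_prod h0 fun p hp => ?_
    have k1 := wt_sub_le (PP_gt hM hp)
    have k2 := Real.add_one_le_exp (4 * n / (p : ℝ) ^ 2)
    have k3 : (0 : ℝ) ≤ 4 * n / (p : ℝ) ^ 2 := by positivity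
    have k4 : (0 : ℝ) ≤ 1 / p := by positivity
    nlinarith [mul_nonneg k4 (Real.exp_pos (4 * n / (p : ℝ) ^ 2)).le]
  have h2 : ∏ p ∈ PP M a y, (1 + (1 : ℝ) / p) ≤ C * Real.log y := by
    have := hC y hy
    rw [Nat.cast_one, pow_one] at this
    refine le_trans (prod_le_prod_of_subset_of_one_le (fun p hp => ?_) (fun p _ => by positivity)
      fun p _ _ => le_add_of_nonneg_right (by positivity)) this
    obtain ⟨-, k1, k2, -⟩ := mem_PP.1 hp
    exact mem_pri.2 ⟨k2.pos, k1, k2⟩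
  have h3 : ∑ p ∈ PP M a y, 4 * (n : ℝ) / (p : ℝ) ^ 2 ≤ 8 * (n : ℝ) := by
    have k1 : ∑ p ∈ PP M a y, ((p : ℝ) ^ 2)⁻¹ ≤ ∑ p ∈ Ioo 0 (y + 1), ((p : ℝ) ^ 2)⁻¹ := by
      refine sum_le_sum_of_subset_of_nonneg (fun p hp => ?_) fun p _ _ => by positivity
      obtain ⟨-, k1, k2, -⟩ := mem_PP.1 hp
      exact mem_Ioo.2 ⟨k2.pos, by omega⟩
    have k2 := sum_Ioo_inv_sq_le (α := ℝ) 0 (y + 1)
    simp only [div_eq_mul_inv, ← mul_sum]
    have k3 : (0 : ℝ) ≤ n := Nat.cast_nonneg _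
    norm_num at k2
    nlinarith
  rw [prod_mul_distrib, ← Real.exp_sum] at h1
  have h4 : 0 ≤ C * Real.log y := le_trans (prod_nonneg fun p _ => by positivity) h2
  calc _ ≤ _ := h1
    _ ≤ C * Real.log y * Real.exp (8 * n) := by gcongr
    _ = _ := by ring

namespace Exp

variable {n : ℕ}

theorem ev_log_ge (c : ℝ) : ∀ᶠ y : ℕ in atTop, c ≤ Real.log y :=
  (Real.tendsto_log_atTop.comp tendsto_natCast_atTop_atTop).eventually_ge_atTop c

/-- the union bound -/
theorem union_bound {α β : Type} (s u : Finset α) (I : Finset β) (r : β → α → Prop)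
    [∀ i, DecidablePred (r i)] (f : α → ℝ) (hf : ∀ a ∈ u, 0 ≤ f a) (hs : s ⊆ u)
    (h : ∀ a ∈ s, ∃ i ∈ I, r i a) :
    ∑ a ∈ s, f a ≤ ∑ i ∈ I, ∑ a ∈ u.filter (r i), f a := by
  simp only [sum_filter]
  rw [sum_comm]
  have h0 : ∀ a ∈ u, ∀ i ∈ I, 0 ≤ if r i a then f a else 0 := fun a ha i _ => by
    split_ifs
    · exact hf a ha
    · rfl
  refine le_trans (sum_le_sum fun a ha => ?_)
    (sum_le_sum_of_subset_of_nonneg hs fun a ha _ => sum_nonneg (h0 a ha))
  obtain ⟨i, hi, hr⟩ := h a ha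
  refine le_trans ?_ (single_le_sum (h0 a (hs ha)) hi)
  rw [if_pos hr]

/-- configurations that contain prescribed primes -/
theorem meets (P : Finset ℕ) (w : ℕ → ℝ) (hw : ∀ p ∈ P, 0 ≤ w p) (F : Finset ℕ)
    (hF : ∀ p ∈ F, 0 ≤ w p) :
    ∑ Z ∈ (TT n P).powerset.filter (fun Z => ∀ p ∈ F, ∃ a ∈ Z, a.2 = p), ∏ a ∈ Z, w a.2 ≤
      (∏ p ∈ F, 3 * n * w p) * ∏ p ∈ P, (1 + w p) ^ (3 * n) := by
  have hnn : ∀ Z ∈ (TT n P).powerset, 0 ≤ ∏ a ∈ Z, w a.2 := fun Z hZ =>
    prod_nonneg fun a ha => hw _ (mem_TT.1 (mem_powerset.1 hZ ha)).2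
  induction F using Finset.induction_on with
  | empty =>
    rw [filter_true_of_mem (by simp), prod_empty, one_mul, ← prod_TT P fun p => 1 + w p,
      prod_one_add]
  | insert p F hp ih =>
    have ih' := ih fun q hq => hF q (mem_insert_of_mem hq)
    have hwp := hF p (mem_insert_self _ _)
    have h1 := union_bound
      ((TT n P).powerset.filter (fun Z => ∀ q ∈ insert p F, ∃ a ∈ Z, a.2 = q)) (TT n P).powerset
      ((univ : Finset (Ix n)).image tg) (fun t Z => (t, p) ∈ Z ∧ ∀ q ∈ F, ∃ a ∈ Z, a.2 = q)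
      (fun Z => ∏ a ∈ Z, w a.2) hnn (filter_subset _ _) (fun Z hZ => by
        obtain ⟨k1, k2⟩ := mem_filter.1 hZ
        obtain ⟨a, ha, rfl⟩ := k2 p (mem_insert_self _ _)
        exact ⟨a.1, (mem_product.1 (mem_powerset.1 k1 ha)).1, ha,
          fun q hq => k2 q (mem_insert_of_mem hq)⟩)
    refine h1.trans ?_
    have h2 : ∀ t ∈ (univ : Finset (Ix n)).image tg,
        ∑ Z ∈ (TT n P).powerset.filter (fun Z => (t, p) ∈ Z ∧ ∀ q ∈ F, ∃ a ∈ Z, a.2 = q),
          ∏ a ∈ Z, w a.2 ≤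
          w p * ((∏ p ∈ F, 3 * n * w p) * ∏ p ∈ P, (1 + w p) ^ (3 * n)) := by
      intro t _
      have e1 : ∀ Z ∈ (TT n P).powerset.filter
          (fun Z => (t, p) ∈ Z ∧ ∀ q ∈ F, ∃ a ∈ Z, a.2 = q),
          ∏ a ∈ Z, w a.2 = w p * ∏ a ∈ Z.erase (t, p), w a.2 := fun Z hZ =>
        (mul_prod_erase Z (fun a : Gen n => w a.2) (mem_filter.1 hZ).2.1).symm
      rw [sum_congr rfl e1, ← mul_sum]
      refine mul_le_mul_of_nonneg_left (le_trans ?_ ih') hwp
      rw [← sum_image (f := fun Z : Finset (Gen n) => ∏ a ∈ Z, w a.2)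
        (g := fun Z : Finset (Gen n) => Z.erase (t, p))]
      · refine sum_le_sum_of_subset_of_nonneg ?_ fun Z hZ _ => hnn Z (mem_filter.1 hZ).1
        intro Z hZ
        obtain ⟨Z', hZ', rfl⟩ := mem_image.1 hZ
        obtain ⟨k1, k2, k3⟩ := mem_filter.1 hZ'
        refine mem_filter.2 ⟨mem_powerset.2 ((erase_subset _ _).trans (mem_powerset.1 k1)),
          fun q hq => ?_⟩
        obtain ⟨a, ha, rfl⟩ := k3 q hq
        exact ⟨a, mem_erase.2 ⟨fun e => hp (by rw [e] at hq; exact hq), ha⟩, rfl⟩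
      · intro Z hZ Z' hZ' e
        rw [← insert_erase (mem_filter.1 hZ).2.1, ← insert_erase (mem_filter.1 hZ').2.1]
        exact congrArg _ e
    refine (sum_le_sum h2).trans (le_of_eq ?_)
    rw [sum_const, prod_insert hp, card_tags, nsmul_eq_mul]
    push_cast
    ring

/-- the weight of the primes of `G` outside `M` -/
theorem out_le {M m : ℕ} (hM : 0 < M) (hS : Sm n M) (hm : Squarefree m) :
    ∏ p ∈ m.primeFactors.filter (fun p => ¬p ∣ M), 3 * n * (2 * wt n p) ≤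
      M * ((12 * n + 1 : ℕ) ^ m.primeFactors.card / (m : ℝ)) := by
  have hn : (0 : ℝ) ≤ n := Nat.cast_nonneg _
  have h1 : ∏ p ∈ m.primeFactors.filter (fun p => ¬p ∣ M), 3 * n * (2 * wt n p) ≤
      ∏ p ∈ m.primeFactors.filter (fun p => ¬p ∣ M), (12 * n + 1 : ℝ) / p := by
    refine prod_le_prod (fun p hp => ?_) fun p hp => ?_
    · have := wt_pos (hS.lt (Nat.prime_of_mem_primeFactors (mem_filter.1 hp).1)
        (mem_filter.1 hp).2)
      positivity
    · have := wt_le (hS.lt (Nat.prime_of_mem_primeFactors (mem_filter.1 hp).1)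
        (mem_filter.1 hp).2)
      calc 3 * n * (2 * wt n p) ≤ 3 * n * (2 * (2 / (p : ℝ))) := by gcongr
        _ = 12 * n / p := by ring
        _ ≤ _ := by gcongr; linarith
  refine h1.trans ?_
  have h2 := prod_filter_mul_prod_filter_not m.primeFactors (fun p => p ∣ M) fun p => p
  rw [Nat.prod_primeFactors_of_squarefree hm] at h2
  have h3 : ∏ p ∈ m.primeFactors.filter (fun p => p ∣ M), p ≤ M := by
    refine Nat.le_of_dvd hM (dvd_trans (prod_dvd_prod_of_subset _ _ _ fun p hp => ?_)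
      (Nat.prod_primeFactors_dvd M))
    exact Nat.mem_primeFactors.2 ⟨Nat.prime_of_mem_primeFactors (mem_filter.1 hp).1,
      (mem_filter.1 hp).2, hM.ne'⟩
  have h4 : 0 < ∏ p ∈ m.primeFactors.filter (fun p => ¬p ∣ M), p :=
    prod_pos fun p hp => (Nat.prime_of_mem_primeFactors (mem_filter.1 hp).1).pos
  have h5 : (m : ℝ) ≤ M * ((∏ p ∈ m.primeFactors.filter (fun p => ¬p ∣ M), p : ℕ) : ℝ) := by
    have : m ≤ M * ∏ p ∈ m.primeFactors.filter (fun p => ¬p ∣ M), p := by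
      conv_lhs => rw [← h2]
      exact Nat.mul_le_mul_right _ h3
    exact_mod_cast this
  have hm0 : (0 : ℝ) < m := Nat.cast_pos.2 (Nat.pos_of_ne_zero hm.ne_zero)
  rw [prod_div_distrib, prod_const, ← Nat.cast_prod, ← mul_div_assoc,
    div_le_div_iff₀ (Nat.cast_pos.2 h4) hm0]
  calc (12 * n + 1 : ℝ) ^ (m.primeFactors.filter (fun p => ¬p ∣ M)).card * m
      ≤ (12 * n + 1) ^ m.primeFactors.card *
        (M * ((∏ p ∈ m.primeFactors.filter (fun p => ¬p ∣ M), p : ℕ) : ℝ)) := by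
        gcongr
        · linarith
        · exact filter_subset _ _
    _ = _ := by push_cast; ring

end Exp

open Exp in
theorem expo_main : MERStmt → EXCStmt → EXPStmt := by
  classical
  intro mer hexc n M k ε η hM hS hε hη
  obtain ⟨C, hC⟩ := mes mer n
  filter_upwards [hexc k (12 * n + 1) (6 * n + 1) ε hε, ev_log_ge 1, ev_log_ge (M * C ^ 2 / η),
    eventually_ge_atTop 2, eventually_ge_atTop M] with y h1 h2 h3 hy hMy y₀ y' hy₀ hy'
  set P := PP M 0 y with hP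
  set B : ℕ := ∏ p ∈ Icc 1 y, p with hB
  set E : Finset ℤ := (Icc (-B : ℤ) B).filter fun G => Squarefree G.natAbs ∧ G ≠ 1 ∧
    (∀ p ∈ G.natAbs.primeFactors, p ≤ y) ∧ ε < |chs G y y'| with hE
  have hE1 : ∀ G ∈ E, Squarefree G.natAbs ∧ G ≠ 1 ∧ (∀ p ∈ G.natAbs.primeFactors, p ≤ y) ∧
      ε < |chs G y y'| := fun G hG => (mem_filter.1 hG).2
  have hsub : TT n (PP M 0 y₀) ⊆ TT n P := fun a ha => by
    obtain ⟨k1, k2⟩ := mem_TT.1 ha
    obtain ⟨k3, k4, k5⟩ := mem_PP.1 k2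
    exact mem_TT.2 ⟨k1, mem_PP.2 ⟨k3, k4.trans hy₀, k5⟩⟩
  have hw : ∀ p ∈ P, 0 ≤ 2 * wt n p := fun p hp => by
    have := wt_pos (PP_gt hS hp)
    positivity
  have hW : ∀ Z : Finset (Gen n), Wt Z * 2 ^ Z.card = ∏ a ∈ Z, 2 * wt n a.2 := fun Z => by
    rw [prod_mul_distrib, prod_const, Wt, mul_comm]
  simp only [hW]
  refine (union_bound _ (TT n P).powerset E
    (fun G Z => ∀ p ∈ G.natAbs.primeFactors.filter (fun p => ¬p ∣ M), ∃ a ∈ Z, a.2 = p)
    (fun Z => ∏ a ∈ Z, 2 * wt n a.2)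
    (fun Z hZ => prod_nonneg fun a ha => hw _ (mem_TT.1 (mem_powerset.1 hZ ha)).2)
    (fun Z hZ => mem_powerset.2 ((mem_powerset.1 (mem_filter.1 hZ).1).trans hsub))
    fun Z hZ => ?_).trans ?_
  · obtain ⟨k1, G, k2, k3, k4, k5⟩ := mem_filter.1 hZ
    have k6 := (mem_powerset.1 k1).trans hsub
    have k7 : ∀ p ∈ G.natAbs.primeFactors, p ≤ y := fun p hp => by
      rcases k4 p hp with h | ⟨t, h⟩
      · exact (Nat.le_of_dvd hM h).trans hMy
      · exact (mem_PP.1 (mem_TT.1 (k6 h)).2).2.1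
    have k8 : G.natAbs ≤ B := by
      rw [← Nat.prod_primeFactors_of_squarefree k2]
      refine Nat.le_of_dvd (prod_pos fun p hp => (mem_Icc.1 hp).1)
        (prod_dvd_prod_of_subset _ _ _ fun p hp => ?_)
      exact mem_Icc.2 ⟨(Nat.prime_of_mem_primeFactors hp).pos, k7 p hp⟩
    refine ⟨G, mem_filter.2 ⟨mem_Icc.2 (by omega), k2, k3, k7, k5⟩, fun p hp => ?_⟩
    obtain ⟨t, ht⟩ := (k4 p (mem_filter.1 hp).1).resolve_left (mem_filter.1 hp).2
    exact ⟨_, ht, rfl⟩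
  · have hmass : ∏ p ∈ P, (1 + 2 * wt n p) ^ (3 * n) ≤ (C * Real.log y ^ (3 * n)) ^ 2 := by
      calc ∏ p ∈ P, (1 + 2 * wt n p) ^ (3 * n) ≤ ∏ p ∈ P, ((1 + wt n p) ^ (3 * n)) ^ 2 := by
            refine prod_le_prod (fun p hp => pow_nonneg (by linarith [hw p hp]) _) fun p hp => ?_
            have := hw p hp
            rw [← pow_mul, mul_comm (3 * n) 2, pow_mul _ 2]
            have k1 : 0 ≤ 1 + 2 * wt n p := by linarith
            have k2 : 1 + 2 * wt n p ≤ (1 + wt n p) ^ 2 := by nlinarith [sq_nonneg (wt n p)]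
            exact pow_le_pow_left₀ k1 k2 _
        _ = Mass n P ^ 2 := by rw [prod_pow, Mass]
        _ ≤ _ := by
            have := one_le_Mass hS 0 y
            gcongr
            exact hC M 0 y hS hy
    have hG : ∀ G ∈ E, ∑ Z ∈ (TT n P).powerset.filter
        (fun Z => ∀ p ∈ G.natAbs.primeFactors.filter (fun p => ¬p ∣ M), ∃ a ∈ Z, a.2 = p),
          ∏ a ∈ Z, 2 * wt n a.2 ≤ (M * (C * Real.log y ^ (3 * n)) ^ 2) *
            (((12 * n + 1 : ℕ) : ℝ) ^ G.natAbs.primeFactors.card / |(G : ℝ)|) := by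
      intro G hG
      refine (meets P (fun p => 2 * wt n p) hw _ fun p hp => ?_).trans ?_
      · have := wt_pos (hS.lt (Nat.prime_of_mem_primeFactors (mem_filter.1 hp).1)
          (mem_filter.1 hp).2)
        positivity
      · have k1 := out_le hM hS (hE1 G hG).1
        rw [← Int.cast_abs, Int.abs_eq_natAbs, Int.cast_natCast]
        calc _ ≤ (M * ((12 * n + 1 : ℕ) ^ G.natAbs.primeFactors.card / (G.natAbs : ℝ))) *
              (C * Real.log y ^ (3 * n)) ^ 2 :=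
              mul_le_mul k1 hmass (prod_nonneg fun p hp => pow_nonneg (by linarith [hw p hp]) _)
                (by positivity)
          _ = _ := by ring
    refine (sum_le_sum hG).trans ?_
    rw [← mul_sum]
    have hL : 0 < Real.log y := by linarith
    calc _ ≤ (M * (C * Real.log y ^ (3 * n)) ^ 2) * (1 / Real.log y ^ (6 * n + 1)) := by
          gcongr
          exact h1 y' E hy' hE1
      _ = (M * C ^ 2 / η) * η / Real.log y := by field_simp; ring
      _ ≤ Real.log y * η / Real.log y := by gcongr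
      _ = η := by field_simp

end Pool.Agent.MP_a43263_nt.RG
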