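import Mathlib.NumberTheory.Chebyshev
import Pool.Agent.MP_a43263_nt.RG.Basic

/-! PROJECT RANKG, modules FIB and DOM: the upper bound sieve on the fibres and the domination by
a product measure. -/

set_option autoImplicit false

noncomputable section

namespace Pool.Agent.MP_a43263_nt.RG

open Finset Filter
open R2 (pri PP Sc Core Shape MERStmt PMStmt SVStmt mem_pri mem_PP)

namespace Fib

theorem card_primes (X y : ℕ) (hy : 1 ≤ y) :
    (((Ioc 0 X).filter fun P => P.Prime ∧ y < P).card : ℝ) * Real.log y ≤ 3 * X := by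
  have h1 := Chebyshev.theta_le_log4_mul_x (x := (X : ℝ)) (Nat.cast_nonneg X)
  have h2 : Real.log 4 ≤ 3 := by
    have := Real.log_le_sub_one_of_pos (x := 4) (by norm_num)
    linarith
  have h3 : Real.log 4 * X ≤ 3 * X := mul_le_mul_of_nonneg_right h2 (Nat.cast_nonneg X)
  refine le_trans ?_ (h1.trans h3)
  rw [Chebyshev.theta, Nat.floor_natCast, ← nsmul_eq_mul, ← sum_const]
  refine le_trans (sum_le_sum (g := fun p : ℕ => Real.log p) fun p hp => ?_)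
    (sum_le_sum_of_subset_of_nonneg (fun p hp => ?_) fun p _ _ => Real.log_natCast_nonneg p)
  · have := (mem_filter.1 hp).2.2
    exact Real.log_le_log (by exact_mod_cast hy) (by exact_mod_cast this.le)
  · exact mem_filter.2 ⟨(mem_filter.1 hp).1, (mem_filter.1 hp).2.1⟩

theorem card_lin {p : ℕ} (hp : p.Prime) {u : ℤ} (v : ℤ) (hu : ¬(p : ℤ) ∣ u) :
    ((range p).filter fun r : ℕ => (p : ℤ) ∣ u * r + v).card = 1 := by
  have := Fact.mk hp
  have hu' : (u : ZMod p) ≠ 0 := fun h => hu ((ZMod.intCast_zmod_eq_zero_iff_dvd u p).1 h)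
  refine card_eq_one.2 ⟨(-(v : ZMod p) * (u : ZMod p)⁻¹).val, ?_⟩
  ext r
  rw [mem_filter, mem_range, mem_singleton, ← ZMod.intCast_zmod_eq_zero_iff_dvd]
  push_cast
  constructor
  · rintro ⟨h1, h2⟩
    have : -(v : ZMod p) * (u : ZMod p)⁻¹ = r := by
      field_simp
      linear_combination -h2
    rw [this, ZMod.val_natCast, Nat.mod_eq_of_lt h1]
  · rintro rfl
    refine ⟨ZMod.val_lt _, ?_⟩
    rw [ZMod.natCast_zmod_val]
    field_simp
    ring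

theorem prod_sub_le {s t : Finset ℕ} {f : ℕ → ℝ} (h : s ⊆ t) (h1 : ∀ p ∈ t, 1 ≤ f p) :
    ∏ p ∈ s, f p ≤ ∏ p ∈ t, f p := by
  rw [← prod_sdiff h]
  have a1 : 1 ≤ ∏ p ∈ t \ s, f p := by
    have := prod_le_prod (s := t \ s) (f := fun _ => (1 : ℝ)) (g := f) (fun _ _ => zero_le_one)
      fun p hp => h1 p (mem_sdiff.1 hp).1
    simpa using this
  exact le_mul_of_one_le_left (prod_nonneg fun p hp => zero_le_one.trans (h1 p (h hp))) a1

theorem w_nonneg {ω p : ℕ} (hp : 4 * ω < p) : (0 : ℝ) ≤ ω / ((p : ℝ) - ω) := by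
  have : (4 * ω : ℝ) < p := by exact_mod_cast hp
  have h0 : (0 : ℝ) ≤ ω := Nat.cast_nonneg _
  exact div_nonneg h0 (by linarith)

theorem prod_w_pos {ω : ℕ} {P : Finset ℕ} (hP : ∀ p ∈ P, 4 * ω < p) :
    0 < ∏ p ∈ P, (1 + (ω : ℝ) / ((p : ℝ) - ω)) :=
  prod_pos fun p hp => by have := w_nonneg (hP p hp); linarith

/-- the sets with a small product carry half of the mass -/
theorem half_mass (pm : PMStmt) {ω : ℕ} (hω : 0 < ω) (P : Finset ℕ) (y : ℕ) (hy : 2 ≤ y)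
    (hP : ∀ p ∈ P, 4 * ω < p)
    (hS : ∑ p ∈ P, Real.log p * (ω / ((p : ℝ) - ω)) ≤ 2 * ω * Real.log y) :
    ∏ p ∈ P, (1 + (ω : ℝ) / ((p : ℝ) - ω)) ≤
      2 * ∑ q ∈ P.powerset.filter (fun q => ∏ p ∈ q, p ≤ y ^ (4 * ω)),
        ∏ p ∈ q, (ω : ℝ) / ((p : ℝ) - ω) := by
  have hL0 : 0 < Real.log y := Real.log_pos (by exact_mod_cast hy)
  have hω' : (0 : ℝ) < ω := by exact_mod_cast hω
  have hL : 0 < 2 * ω * Real.log y := by positivity
  have h1 := (pm P (fun p => (ω : ℝ) / ((p : ℝ) - ω)) fun p hp => w_nonneg (hP p hp)).1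
    (fun p => Real.log p) (4 * ω * Real.log y) fun p _ => Real.log_natCast_nonneg p
  have h0 := (prod_w_pos hP).le
  have h2 := prod_one_add (f := fun p : ℕ => (ω : ℝ) / ((p : ℝ) - ω)) P
  rw [← sum_filter_add_sum_filter_not P.powerset fun q => ∏ p ∈ q, p ≤ y ^ (4 * ω)] at h2
  have h3 : ∑ q ∈ P.powerset.filter (fun q => ¬ ∏ p ∈ q, p ≤ y ^ (4 * ω)),
      ∏ p ∈ q, (ω : ℝ) / ((p : ℝ) - ω) ≤
      ∑ q ∈ P.powerset.filter (fun q => 4 * ω * Real.log y < ∑ p ∈ q, Real.log (p : ℕ)),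
        ∏ p ∈ q, (ω : ℝ) / ((p : ℝ) - ω) := by
    refine sum_le_sum_of_subset_of_nonneg (fun q hq => ?_) fun q hq _ =>
      prod_nonneg fun p hp => w_nonneg (hP p (mem_powerset.1 (mem_filter.1 hq).1 hp))
    obtain ⟨a1, a2⟩ := mem_filter.1 hq
    refine mem_filter.2 ⟨a1, ?_⟩
    rw [← Real.log_prod fun p hp => by
      have := hP p (mem_powerset.1 a1 hp)
      exact_mod_cast (by omega : p ≠ 0)]
    have a3 : ((y : ℝ)) ^ (4 * ω) < ∏ p ∈ q, (p : ℝ) := by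
      rw [← Nat.cast_prod, ← Nat.cast_pow]
      exact Nat.cast_lt.2 (not_le.1 a2)
    have := Real.log_lt_log (by positivity) a3
    rw [Real.log_pow] at this
    exact_mod_cast this
  have h4 := mul_le_mul_of_nonneg_right hS h0
  have h5 := mul_le_mul_of_nonneg_left h3 (by positivity : 0 ≤ 4 * ω * Real.log y)
  have h6 : 2 * ω * Real.log y *
      (2 * ∑ q ∈ P.powerset.filter (fun q => ¬ ∏ p ∈ q, p ≤ y ^ (4 * ω)),
      ∏ p ∈ q, (ω : ℝ) / ((p : ℝ) - ω)) ≤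
      2 * ω * Real.log y * ∏ p ∈ P, (1 + (ω : ℝ) / ((p : ℝ) - ω)) := by
    linarith
  have := le_of_mul_le_mul_left h6 hL
  linarith

/-- the sieve for `ω` linear forms -/
theorem sieve (pm : PMStmt) (sv : SVStmt) {ι : Type} {I : Finset ι} {ω : ℕ} (hω : 0 < ω)
    (hI : I.card = ω) (u v : ι → ℤ) (P : Finset ℕ) (y N : ℕ) (a : ℤ) (hy : 2 ≤ y)
    (hP : ∀ p ∈ P, p.Prime ∧ 4 * ω < p ∧ (∀ h ∈ I, ¬(p : ℤ) ∣ u h) ∧ ∀ h ∈ I, ∀ k ∈ I, h ≠ k →
      ∀ n : ℤ, (p : ℤ) ∣ u h * n + v h → ¬(p : ℤ) ∣ u k * n + v k)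
    (hS : ∑ p ∈ P, Real.log p * (ω / ((p : ℝ) - ω)) ≤ 2 * ω * Real.log y) (T : Finset ℤ)
    (hT : ∀ n ∈ T, a ≤ n ∧ n < a + N ∧ ∀ p ∈ P, ∀ h ∈ I, ¬(p : ℤ) ∣ u h * n + v h) :
    (T.card : ℝ) ≤ 2 * N / ∏ p ∈ P, (1 + (ω : ℝ) / ((p : ℝ) - ω)) + 2 * (y : ℝ) ^ (24 * ω) := by
  classical
  have h1 := sv P (fun p n => ∃ h ∈ I, (p : ℤ) ∣ u h * n + v h) (fun _ => ω)
    (P.powerset.filter fun q => ∏ p ∈ q, p ≤ y ^ (4 * ω)) a N (y ^ (4 * ω))
    (fun p hp => (hP p hp).1)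
    (fun p _ n => by
      refine exists_congr fun h => and_congr_right fun _ => ?_
      rw [show u h * (n + p) + v h = (u h * n + v h) + p * u h by ring]
      exact dvd_add_left (dvd_mul_right _ _))
    (fun p hp => by
      obtain ⟨a1, a2, a3, a4⟩ := hP p hp
      refine ⟨?_, by omega⟩
      have e : (I.biUnion fun h => (range p).filter fun r : ℕ => (p : ℤ) ∣ u h * r + v h).card
          = ω := by
        rw [card_biUnion, sum_congr rfl fun h hh => card_lin a1 (v h) (a3 h hh)]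
        · simp [hI]
        · intro h hh k hk hn
          exact disjoint_left.2 fun r b1 b2 =>
            a4 h hh k hk hn r (mem_filter.1 b1).2 (mem_filter.1 b2).2
      rw [← e]
      congr 1
      ext r
      simp only [mem_filter, mem_biUnion]
      exact ⟨fun ⟨b1, h, b2, b3⟩ => ⟨h, b2, b1, b3⟩, fun ⟨h, b2, b1, b3⟩ => ⟨b1, h, b2, b3⟩⟩)
    (mem_filter.2 ⟨empty_mem_powerset _, by simpa using Nat.one_le_pow _ _ (by omega)⟩)
    (fun q hq => ⟨mem_powerset.1 (mem_filter.1 hq).1, (mem_filter.1 hq).2⟩)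
  have h2 := half_mass pm hω P y hy (fun p hp => (hP p hp).2.1) hS
  have h0 := prod_w_pos fun p hp => (hP p hp).2.1
  refine le_trans (Nat.cast_le.2 (card_le_card fun n hn => ?_)) (h1.trans ?_)
  · obtain ⟨a1, a2, a3⟩ := hT n hn
    simp only [mem_filter, mem_Ico]
    exact ⟨⟨a1, a2⟩, fun p hp ⟨h, b1, b2⟩ => a3 p hp h b1 b2⟩
  · push_cast
    rw [← pow_mul, show 4 * ω * 6 = 24 * ω by ring]
    refine add_le_add ?_ le_rfl
    rw [div_le_div_iff₀ (by linarith) h0]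
    have := mul_le_mul_of_nonneg_left h2 (Nat.cast_nonneg N : (0 : ℝ) ≤ N)
    linarith

theorem pow_le_w {ω p : ℕ} (hp : 4 * ω < p) :
    (1 + (1 : ℝ) / p) ^ ω ≤ 1 + (ω : ℝ) / ((p : ℝ) - ω) := by
  have h : (4 * ω : ℝ) + 1 ≤ p := by exact_mod_cast hp
  have h0 : (0 : ℝ) ≤ ω := Nat.cast_nonneg _
  have h1 : (0 : ℝ) < p := by linarith
  have h2 : (0 : ℝ) < p - ω := by linarith
  have h3 : (1 : ℝ) / p ≤ 1 := by rw [div_le_one h1]; linarith
  have h4 : (0 : ℝ) < 1 / p := by positivity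
  have b := one_add_mul_le_pow (a := -((1 : ℝ) / p)) (by linarith) ω
  have c : (1 + (1 : ℝ) / p) ^ ω * (1 + -((1 : ℝ) / p)) ^ ω ≤ 1 := by
    rw [← mul_pow]
    exact pow_le_one₀ (mul_nonneg (by linarith) (by linarith)) (by nlinarith)
  have d := (mul_le_mul_of_nonneg_left b (by positivity : 0 ≤ (1 + (1 : ℝ) / p) ^ ω)).trans c
  have e1 : 1 + (ω : ℝ) / ((p : ℝ) - ω) = p / (p - ω) := by field_simp; ring
  have e2 : 1 + (ω : ℝ) * -((1 : ℝ) / p) = (p - ω) / p := by field_simp; ring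
  rw [e2, ← mul_div_assoc, div_le_one h1] at d
  rwa [e1, le_div_iff₀ h2]

theorem mul_wt {n ω p : ℕ} (hω : 3 * n = ω + 1) (hp : 4 * ω < p) :
    p * wt n p = 1 + (ω : ℝ) / ((p : ℝ) - ω) := by
  have h : (4 * ω : ℝ) + 1 ≤ p := by exact_mod_cast hp
  have h0 : (0 : ℝ) ≤ ω := Nat.cast_nonneg _
  have h1 : (p : ℝ) - ω ≠ 0 := by linarith
  have h2 : (3 * n : ℝ) = ω + 1 := by exact_mod_cast hω
  rw [wt, h2, show (p : ℝ) + 1 - (ω + 1) = p - ω by ring]
  field_simp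
  ring

/-- the Euler product without the primes of `M` and of `F` -/
theorem prod_low {ω M : ℕ} (hM : ∀ p : ℕ, p.Prime → ¬p ∣ M → 4 * ω < p) (h0 : 0 < M) (y : ℕ)
    (F : Finset ℕ) (hF : ∀ p ∈ F, 4 * ω < p) :
    (∏ p ∈ pri 1 y, (1 + (1 : ℝ) / p)) ^ ω ≤ (2 ^ ω) ^ M.primeFactors.card *
      ((∏ p ∈ F, (1 + (ω : ℝ) / ((p : ℝ) - ω))) *
        ∏ p ∈ (pri 1 y).filter (fun p => ¬p ∣ M ∧ p ∉ F), (1 + (ω : ℝ) / ((p : ℝ) - ω))) := by
  have hpr : ∀ p ∈ pri 1 y, p.Prime := fun p hp => (mem_filter.1 hp).2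
  have hnn : ∀ s : Finset ℕ, 0 ≤ ∏ p ∈ s, (1 + (1 : ℝ) / p) ^ ω := fun s =>
    prod_nonneg fun p _ => by positivity
  rw [← prod_pow, ← prod_filter_mul_prod_filter_not (pri 1 y) (fun p => p ∣ M),
    ← prod_filter_mul_prod_filter_not ((pri 1 y).filter fun p => ¬p ∣ M) (fun p => p ∈ F),
    filter_filter, filter_filter]
  refine mul_le_mul ?_ (mul_le_mul ?_ ?_ (hnn _) (prod_w_pos hF).le)
    (mul_nonneg (hnn _) (hnn _)) (by positivity)
  · rw [← prod_const]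
    refine le_trans (prod_le_prod (g := fun _ => (2 : ℝ) ^ ω) (fun p _ => by positivity)
      fun p hp => ?_) (prod_sub_le (fun p hp => ?_) fun _ _ => one_le_pow₀ (by norm_num))
    · have a1 : (1 : ℝ) ≤ p := by exact_mod_cast (hpr p (mem_filter.1 hp).1).one_le
      have a2 : (1 : ℝ) / p ≤ 1 := by rw [div_le_one (by linarith)]; exact a1
      exact pow_le_pow_left₀ (by positivity) (by linarith) ω
    · exact Nat.mem_primeFactors.2 ⟨hpr p (mem_filter.1 hp).1, (mem_filter.1 hp).2, h0.ne'⟩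
  · exact le_trans (prod_le_prod (g := fun p : ℕ => 1 + (ω : ℝ) / ((p : ℝ) - ω))
      (fun p _ => by positivity) fun p hp => pow_le_w (hF p (mem_filter.1 hp).2.2))
      (prod_sub_le (fun p hp => (mem_filter.1 hp).2.2) fun p hp =>
        le_add_of_nonneg_right (w_nonneg (hF p hp)))
  · exact prod_le_prod (fun p _ => by positivity) fun p hp =>
      pow_le_w (hM p (hpr p (mem_filter.1 hp).1) (mem_filter.1 hp).2.1)

variable {n : ℕ} {D : Dat n}

theorem big (hD : D.Ok) {ω : ℕ} (hω : 3 * n = ω + 1) (p : ℕ) (hp : p.Prime) (h : ¬p ∣ D.M) :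
    4 * ω < p := by
  have := hD.sm.lt hp h
  omega

theorem not_dvd_e (hD : D.Ok) {h k : Ix n} (hn : h ≠ k) {p : ℕ} (hp : ¬p ∣ D.M) :
    ¬(p : ℤ) ∣ D.e h - D.e k := fun e => hp (Int.natCast_dvd_natCast.1 (e.trans (hD.dv h k hn)))

/-- the count of the tuples with a given entry -/
theorem fibre (pm : PMStmt) (sv : SVStmt) (hD : D.Ok) {ω : ℕ} (hω : 3 * n = ω + 1) (f : Ix n)
    {y Z : ℕ} {c : Ix n → ℕ} (hy : 2 ≤ y) (hc : ∀ h, 0 < c h ∧ (c h).Coprime D.M)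
    (hcc : ∀ h k, h ≠ k → (c h).Coprime (c k))
    (P : Finset ℕ) (hP : ∀ p ∈ P, p.Prime ∧ p ≤ y ∧ ¬p ∣ D.M ∧ ∀ h, ¬p ∣ c h)
    (hs : ∑ p ∈ P, Real.log p * (ω / ((p : ℝ) - ω)) ≤ 2 * ω * Real.log y) (b : ℕ)
    (T : Finset (Ix n → ℕ))
    (hT : ∀ l ∈ T, (∀ h, l h ≤ Z) ∧ l f = b ∧ Lin D.e l ∧ (∀ h, l h ≡ 1 [MOD 8 * D.M]) ∧
      ∀ h, ∃ P : ℕ, P.Prime ∧ y < P ∧ l h = c h * P) :
    (T.card : ℝ) ≤ 2 * (2 * (Z / ∏ h ∈ univ.erase f, c h) + 1 : ℕ) /
      ∏ p ∈ P, (1 + (ω : ℝ) / ((p : ℝ) - ω)) + 2 * (y : ℝ) ^ (24 * ω) := by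
  classical
  have h11 : ∀ p ∈ P, 4 * ω < p := fun p hp => big hD hω p (hP p hp).1 (hP p hp).2.2.1
  have hn := hD.two
  rcases T.eq_empty_or_nonempty with rfl | ⟨l0, hm⟩
  · have h0 := prod_w_pos h11
    simp only [card_empty, Nat.cast_zero]
    positivity
  set Q := ∏ h ∈ univ.erase f, c h with hQ
  have hQ0 : 0 < Q := prod_pos fun h _ => (hc h).1
  have hnd : ∀ l ∈ T, ∀ p ∈ P, ∀ h, ¬p ∣ l h := by
    intro l ha p hp h hd
    obtain ⟨R, q1, q2, q3⟩ := (hT l ha).2.2.2.2 h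
    rw [q3] at hd
    rcases ((hP p hp).1.dvd_mul).1 hd with e | e
    · exact (hP p hp).2.2.2 h e
    · have := (Nat.prime_dvd_prime_iff_eq (hP p hp).1 q1).1 e
      have := (hP p hp).2.1
      omega
  obtain ⟨d0, hd0⟩ := (hT l0 hm).2.2.1.exists hD (hT l0 hm).2.2.2.1 f
  have hdiv : ∀ l ∈ T, ∃ m : ℤ, ∀ j, (l j : ℤ) = (D.e j - D.e f) * Q * m + l0 j := by
    intro l ha
    obtain ⟨d, hd⟩ := (hT l ha).2.2.1.exists hD (hT l ha).2.2.2.1 f
    have e0 : ∀ j, (l j : ℤ) = (D.e j - D.e f) * (d - d0) + l0 j := fun j => by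
      rw [hd j, hd0 j, (hT l ha).2.1, (hT l0 hm).2.1]
      ring
    have h2 : (Q : ℤ) ∣ d - d0 := by
      rw [hQ, Nat.cast_prod]
      refine prod_dvd_of_coprime (fun h _ k _ hn => Nat.isCoprime_iff_coprime.2 (hcc h k hn))
        fun h hh => ?_
      obtain ⟨R, -, -, q3⟩ := (hT l ha).2.2.2.2 h
      obtain ⟨R', -, -, q4⟩ := (hT l0 hm).2.2.2.2 h
      have h3 : IsCoprime (c h : ℤ) (D.e h - D.e f) :=
        (Nat.isCoprime_iff_coprime.2 (hc h).2).of_isCoprime_of_dvd_right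
          (hD.dv h f (mem_erase.1 hh).1)
      refine h3.dvd_of_dvd_mul_left ⟨R - R', ?_⟩
      have := e0 h
      rw [q3, q4] at this
      push_cast at this
      linear_combination -this
    obtain ⟨m, e⟩ := h2
    exact ⟨m, fun j => by rw [e0 j, e, mul_assoc]⟩
  choose! m hmm using hdiv
  have hinj : Set.InjOn m T := fun l ha l' ha' e => funext fun j =>
    Nat.cast_injective (R := ℤ) (by rw [hmm l ha j, hmm l' ha' j, e])
  rw [← card_image_of_injOn hinj]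
  refine sieve pm sv (I := univ.erase f) (by omega)
    (by rw [card_erase_of_mem (mem_univ _), card_univ, card_Ix]; omega)
    (fun h => (D.e h - D.e f) * Q) (fun h => l0 h) P y _ (-(Z / Q : ℕ)) hy
    (fun p hp => ⟨(hP p hp).1, h11 p hp, fun h hh e => ?_, fun h hh k hk hn t e1 e2 => ?_⟩)
    hs _ fun t ht => ?_
  · rcases (Nat.prime_iff_prime_int.1 (hP p hp).1).dvd_or_dvd e with e1 | e1
    · exact not_dvd_e hD (mem_erase.1 hh).1 (hP p hp).2.2.1 e1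
    · obtain ⟨k, -, e2⟩ := ((hP p hp).1.prime.dvd_finsetProd_iff _).1
        (Int.natCast_dvd_natCast.1 e1)
      exact (hP p hp).2.2.2 k e2
  · have e3 : (p : ℤ) ∣ (D.e k - D.e h) * l0 f := by
      have := dvd_sub (e1.mul_left (D.e k - D.e f)) (e2.mul_left (D.e h - D.e f))
      have e0 : (D.e k - D.e f) * ((D.e h - D.e f) * Q * t + l0 h) -
          (D.e h - D.e f) * ((D.e k - D.e f) * Q * t + l0 k) = (D.e k - D.e h) * l0 f := by
        rw [hd0 h, hd0 k]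
        ring
      exact e0 ▸ this
    rcases (Nat.prime_iff_prime_int.1 (hP p hp).1).dvd_or_dvd e3 with e4 | e4
    · exact not_dvd_e hD hn.symm (hP p hp).2.2.1 e4
    · exact hnd l0 hm p hp f (Int.natCast_dvd_natCast.1 e4)
  · obtain ⟨l, ha, rfl⟩ := mem_image.1 ht
    have : Nontrivial (Ix n) := Fintype.one_lt_card_iff_nontrivial.1 (by
      rw [card_Ix]
      omega)
    obtain ⟨g, hg⟩ := exists_ne f
    have a1 : (m l).natAbs ≤ Z / Q := by
      rw [Nat.le_div_iff_mul_le hQ0]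
      have b1 : 1 ≤ (D.e g - D.e f).natAbs :=
        Int.natAbs_pos.2 (sub_ne_zero.2 (hD.ne g f hg))
      have b2 : ((D.e g - D.e f) * Q * m l).natAbs ≤ Z := by
        have := hmm l ha g
        have := (hT l ha).1 g
        have := (hT l0 hm).1 g
        omega
      rw [Int.natAbs_mul, Int.natAbs_mul, Int.natAbs_natCast, mul_assoc, mul_comm Q] at b2
      exact (Nat.le_mul_of_pos_left _ b1).trans b2
    refine ⟨by omega, by omega, fun p hp h _ e => hnd l ha p hp h ?_⟩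
    rw [← Int.natCast_dvd_natCast, hmm l ha h]
    exact e

end Fib

open Fib Classical in
theorem fib : MERStmt → PMStmt → SVStmt → FIBStmt := by
  rintro ⟨-, ⟨C2, m2⟩, -, ⟨c0, hc0, m4⟩, -⟩ pm sv n D hD
  have hn := hD.two
  obtain ⟨ω, hω⟩ : ∃ ω, 3 * n = ω + 1 := ⟨3 * n - 1, by omega⟩
  have f : Ix n := (0, ⟨0, by omega⟩)
  refine ⟨3 * (6 * (2 ^ ω) ^ D.M.primeFactors.card / c0 ^ ω + 2), ?_⟩
  have ev : ∀ᶠ y : ℕ in atTop, 2 * C2 ≤ Real.log y :=
    (Real.tendsto_log_atTop.comp tendsto_natCast_atTop_atTop).eventually_ge_atTop _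
  filter_upwards [ev, eventually_ge_atTop 2] with y hy1 hy Z c hZ hc hcc
  have hL : 0 < Real.log y := Real.log_pos (by exact_mod_cast hy)
  have hy0 : (0 : ℝ) < y := by exact_mod_cast (by omega : 0 < y)
  have hω0 : (0 : ℝ) ≤ ω := Nat.cast_nonneg _
  have hpos : ∀ h, 0 < c h := fun h => Nat.pos_of_ne_zero (hc h).1.ne_zero
  have h11 : ∀ h, ∀ p ∈ (c h).primeFactors, 4 * ω < p := fun h p hp =>
    have hp' := Nat.mem_primeFactors.1 hp
    big hD hω p hp'.1 fun e =>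
      hp'.1.one_lt.ne' (Nat.eq_one_of_dvd_coprimes (hc h).2.1 hp'.2.1 e)
  set F := univ.biUnion fun h => (c h).primeFactors with hF
  have hF11 : ∀ p ∈ F, 4 * ω < p := fun p hp => by
    obtain ⟨h, -, e⟩ := mem_biUnion.1 hp
    exact h11 h p e
  set P := (pri 1 y).filter fun p => ¬p ∣ D.M ∧ p ∉ F with hP
  have hP' : ∀ p ∈ P, p.Prime ∧ p ≤ y ∧ ¬p ∣ D.M ∧ ∀ h, ¬p ∣ c h := fun p hp => by
    obtain ⟨a1, a2, a3⟩ := mem_filter.1 hp
    obtain ⟨a4, a5⟩ := mem_filter.1 a1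
    exact ⟨a5, (mem_Ioc.1 a4).2, a2, fun h e => a3 (mem_biUnion.2 ⟨h, mem_univ _,
      Nat.mem_primeFactors.2 ⟨a5, e, (hpos h).ne'⟩⟩)⟩
  have hP11 : ∀ p ∈ P, 4 * ω < p := fun p hp => big hD hω p (hP' p hp).1 (hP' p hp).2.2.1
  have hs : ∑ p ∈ P, Real.log p * (ω / ((p : ℝ) - ω)) ≤ 2 * ω * Real.log y := by
    have a1 : ∑ p ∈ P, Real.log p * (ω / ((p : ℝ) - ω)) ≤
        ∑ p ∈ P, 4 / 3 * ω * (Real.log p / p) := by
      refine sum_le_sum fun p hp => ?_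
      have h : (4 * ω : ℝ) < p := by exact_mod_cast hP11 p hp
      have : ω / ((p : ℝ) - ω) ≤ 4 / 3 * ω / p := by
        rw [div_le_div_iff₀ (by linarith) (by linarith)]
        nlinarith
      calc Real.log p * (ω / ((p : ℝ) - ω)) ≤ Real.log p * (4 / 3 * ω / p) :=
            mul_le_mul_of_nonneg_left this (Real.log_natCast_nonneg p)
        _ = 4 / 3 * ω * (Real.log p / p) := by ring
    rw [← mul_sum] at a1
    have a2 : ∑ p ∈ P, Real.log p / p ≤ ∑ p ∈ pri 1 y, Real.log p / p :=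
      sum_le_sum_of_subset_of_nonneg (filter_subset _ _) fun p _ _ =>
        div_nonneg (Real.log_natCast_nonneg p) (Nat.cast_nonneg p)
    have a3 := m2 1 y (by omega)
    have a4 : ∑ p ∈ P, Real.log p / p ≤ 3 / 2 * Real.log y := by linarith
    have := mul_le_mul_of_nonneg_left a4 hω0
    linarith
  set G := ∏ p ∈ P, (1 + (ω : ℝ) / ((p : ℝ) - ω)) with hG
  have hG0 : 0 < G := prod_w_pos hP11
  set E := ∏ p ∈ F, (1 + (ω : ℝ) / ((p : ℝ) - ω)) with hE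
  have hE1 : 1 ≤ E := by
    simpa using prod_sub_le (empty_subset F) fun p hp =>
      le_add_of_nonneg_right (w_nonneg (hF11 p hp))
  set K : ℝ := (2 ^ ω) ^ D.M.primeFactors.card with hK
  have hK0 : 0 < K := by positivity
  have hlow : (c0 * Real.log y) ^ ω ≤ K * (E * G) := by
    refine le_trans (pow_le_pow_left₀ (by positivity) ?_ ω)
      (prod_low (big hD hω) hD.pos y F hF11)
    simpa using m4 1 y le_rfl (by omega)
  set Q := ∏ h ∈ univ.erase f, c h with hQ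
  have hQ0 : (0 : ℝ) < Q := by exact_mod_cast prod_pos fun h _ => hpos h
  have hQ1 : Q ≤ y ^ (6 * ω) := by
    have := prod_le_pow_card (univ.erase f) c (y ^ 6) fun h _ => (hc h).2.2.1
    rwa [card_erase_of_mem (mem_univ _), card_univ, card_Ix, hω, Nat.add_sub_cancel,
      ← pow_mul] at this
  have hZ1 : (y : ℝ) ^ (200 * n) ≤ Z := by exact_mod_cast hZ
  have hQ2 : (Q : ℝ) ≤ (y : ℝ) ^ (6 * ω) := by exact_mod_cast hQ1
  have hy1' : (1 : ℝ) ≤ y := by exact_mod_cast (by omega : 1 ≤ y)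
  have hZ0 : (0 : ℝ) < Z := lt_of_lt_of_le (by positivity) hZ1
  have hEe : E = (c f : ℝ) * Q * ∏ h, ∏ p ∈ (c h).primeFactors, wt n p := by
    rw [hE, ← prod_congr rfl fun p hp => mul_wt hω (hF11 p hp), hF,
      prod_biUnion fun h _ k _ hn => (hcc h k hn).disjoint_primeFactors, hQ,
      Nat.cast_prod, mul_prod_erase univ (fun h => (c h : ℝ)) (mem_univ f), ← prod_mul_distrib]
    refine prod_congr rfl fun h _ => ?_
    rw [prod_mul_distrib, ← Nat.cast_prod, Nat.prod_primeFactors_of_squarefree (hc h).1]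
  have hb : 2 * ((2 * (Z / Q) + 1 : ℕ) : ℝ) / G + 2 * (y : ℝ) ^ (24 * ω) ≤
      (6 * K / c0 ^ ω + 2) * (Z * E / (Q * Real.log y ^ ω)) := by
    have a1 : ((2 * (Z / Q) + 1 : ℕ) : ℝ) ≤ 3 * (Z / Q) := by
      have b1 : ((Z / Q : ℕ) : ℝ) ≤ Z / Q := Nat.cast_div_le
      have b2 : (1 : ℝ) ≤ Z / Q := by
        rw [le_div_iff₀ hQ0, one_mul]
        exact hQ2.trans ((pow_le_pow_right₀ hy1' (by omega)).trans hZ1)
      push_cast
      linarith
    have a2 : 1 / G ≤ K * E / (c0 * Real.log y) ^ ω := by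
      rw [div_le_div_iff₀ hG0 (by positivity)]
      linarith
    have a3 : 2 * ((2 * (Z / Q) + 1 : ℕ) : ℝ) / G ≤
        6 * K / c0 ^ ω * (Z * E / (Q * Real.log y ^ ω)) := by
      calc 2 * ((2 * (Z / Q) + 1 : ℕ) : ℝ) / G
          = 2 * ((2 * (Z / Q) + 1 : ℕ) : ℝ) * (1 / G) := by ring
        _ ≤ 2 * (3 * (Z / Q)) * (K * E / (c0 * Real.log y) ^ ω) :=
          mul_le_mul (by linarith) a2 (by positivity) (by positivity)
        _ = _ := by rw [mul_pow]; field_simp; ring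
    have a4 : (y : ℝ) ^ (24 * ω) ≤ Z * E / (Q * Real.log y ^ ω) := by
      rw [le_div_iff₀ (by positivity)]
      have b1 : Real.log y ^ ω ≤ (y : ℝ) ^ ω :=
        pow_le_pow_left₀ hL.le ((Real.log_le_sub_one_of_pos hy0).trans (by linarith)) ω
      calc (y : ℝ) ^ (24 * ω) * (Q * Real.log y ^ ω)
          ≤ (y : ℝ) ^ (24 * ω) * ((y : ℝ) ^ (6 * ω) * (y : ℝ) ^ ω) := by gcongr
        _ = (y : ℝ) ^ (31 * ω) := by ring
        _ ≤ Z := (pow_le_pow_right₀ hy1' (by omega)).trans hZ1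
        _ ≤ Z * E := le_mul_of_one_le_right hZ0.le hE1
    linarith
  have hc1 : (0 : ℝ) < c f := by exact_mod_cast hpos f
  have hpr : (((Ioc 0 (Z / c f)).filter fun R => R.Prime ∧ y < R).card : ℝ) ≤
      3 * Z / (c f * Real.log y) := by
    have a1 := card_primes (Z / c f) y (by omega)
    have a2 : ((Z / c f : ℕ) : ℝ) ≤ Z / c f := Nat.cast_div_le
    rw [← div_div, le_div_iff₀ hL, mul_div_assoc]
    linarith
  rw [card_eq_sum_card_fiberwise (f := fun l : Ix n → ℕ => l f / c f)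
    (t := (Ioc 0 (Z / c f)).filter fun R => R.Prime ∧ y < R) (fun l hl => by
      obtain ⟨a1, -, -, a2⟩ := mem_filter.1 hl
      obtain ⟨R, q1, q2, q3⟩ := a2 f
      have a3 := (mem_Icc.1 (Fintype.mem_piFinset.1 a1 f)).2
      have a4 : l f / c f = R := by rw [q3, Nat.mul_div_cancel_left _ (hpos f)]
      refine mem_filter.2 ⟨mem_Ioc.2 ⟨?_, Nat.div_le_div_right a3⟩, ?_⟩ <;>
        simp only [a4]
      · omega
      · exact ⟨q1, q2⟩), Nat.cast_sum]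
  refine le_trans (sum_le_card_nsmul _ _
    ((6 * K / c0 ^ ω + 2) * (Z * E / (Q * Real.log y ^ ω))) fun R _ => le_trans ?_ hb) ?_
  · refine fibre pm sv hD hω f hy (fun h => ⟨hpos h, (hc h).2.1⟩) hcc P hP' hs (c f * R) _
      fun l hl => ?_
    obtain ⟨a1, a2⟩ := mem_filter.1 hl
    obtain ⟨a3, a4, a5, a6⟩ := mem_filter.1 a1
    refine ⟨fun h => (mem_Icc.1 (Fintype.mem_piFinset.1 a3 h)).2, ?_, a4, a5, a6⟩
    obtain ⟨R', -, -, q3⟩ := a6 f
    rw [← a2, q3, Nat.mul_div_cancel_left _ (hpos f)]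
  · rw [nsmul_eq_mul]
    refine le_trans (mul_le_mul_of_nonneg_right hpr (by positivity)) (le_of_eq ?_)
    rw [hEe, hω, pow_succ (Real.log y)]
    field_simp

namespace Dom

variable {n : ℕ}

theorem gens_inj {c c' : Ix n → ℕ} (h1 : ∀ h, Squarefree (c h)) (h2 : ∀ h, Squarefree (c' h))
    (e : gens c = gens c') : c = c' := by
  funext h
  rw [← Nat.prod_primeFactors_of_squarefree (h1 h), ← Nat.prod_primeFactors_of_squarefree (h2 h)]
  congr 1
  ext p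
  rw [← mk_mem_gens, ← mk_mem_gens, e]

theorem le_union_md {Y Y' : ℕ} (h : Y ≤ Y') (V : Finset (Gen n)) :
    le Y V ∪ md Y Y' V = le Y' V := by
  ext a
  simp only [le, md, mem_union, mem_filter]
  constructor
  · rintro (⟨h1, h2⟩ | ⟨h1, h2⟩)
    · exact ⟨h1, by omega⟩
    · exact ⟨h1, h2.2⟩
  · rintro ⟨h1, h2⟩
    by_cases e : a.2 ≤ Y
    · exact Or.inl ⟨h1, e⟩
    · exact Or.inr ⟨h1, by omega, h2⟩

theorem Wt_split {Y Y' : ℕ} (h : Y ≤ Y') (V : Finset (Gen n)) :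
    Wt (le Y V) * Wt (md Y Y' V) = Wt (le Y' V) := by
  rw [← le_union_md h, Wt, Wt, Wt, prod_union]
  refine disjoint_left.2 fun a h1 h2 => ?_
  have := (mem_filter.1 h1).2
  have := (mem_filter.1 h2).2.1
  omega

/-- the cores of the forms -/
theorem cores {D : Dat n} {S : Sc} (hR : Rel n S) {l : Ix n → ℕ} (hl : l ∈ AA S D) :
    ∃ c : Ix n → ℕ, (∀ h, Core S (c h)) ∧ (∀ h, ∃ P : ℕ, P.Prime ∧ S.Y' < P ∧ l h = c h * P) ∧
      (∀ h k, h ≠ k → (c h).Coprime (c k)) ∧ le S.Y' (gens l) = gens c := by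
  obtain ⟨-, -, -, a1, a2⟩ := mem_AA.1 hl
  choose c P c1 c2 c3 c4 using a2
  refine ⟨c, c1, fun h => ⟨P h, c2 h, c3 h, c4 h⟩, fun h k hn => ?_, ?_⟩
  · exact ((a1 h k hn).coprime_dvd_left ⟨_, c4 h⟩).coprime_dvd_right ⟨_, c4 k⟩
  · ext a
    simp only [mem_le, mem_gens]
    constructor
    · rintro ⟨⟨h, e, hp⟩, hl⟩
      refine ⟨h, e, ?_⟩
      rw [← hR.filter_le (c1 h) (c2 h) (c3 h), ← c4 h]
      exact mem_filter.2 ⟨hp, hl⟩
    · rintro ⟨h, e, hp⟩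
      rw [← hR.filter_le (c1 h) (c2 h) (c3 h), ← c4 h] at hp
      exact ⟨⟨h, e, (mem_filter.1 hp).1⟩, (mem_filter.1 hp).2⟩

end Dom

open Dom Classical in
theorem dom : FIBStmt → DOMStmt := by
  intro fb n D hD
  obtain ⟨C, hC⟩ := fb n D hD
  refine ⟨max C 0, le_max_right _ _, fun J =>
    ((ev_Y' hC).and (ev_ge 1)).mono fun S hM _ hR ⟨hy, t1⟩ Φ hΦ => ?_⟩
  have h0 := hR.Y0_le
  have h1 := hR.Y_le
  have hZ : S.Y' ^ (200 * n) ≤ S.Z :=
    (Nat.pow_le_pow_right (by omega) (by have := le_EE n; omega)).trans hR.lo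
  have hK : 0 ≤ (S.Z : ℝ) ^ 2 / Real.log S.Y' ^ (3 * n) :=
    div_nonneg (sq_nonneg _) (pow_nonneg (Real.log_natCast_nonneg _) _)
  have maps : ∀ l ∈ AA S D, (le S.Y (gens l), md S.Y S.Y' (gens l)) ∈
      ((TT n (PP D.M 0 S.Y0)).powerset.filter Dist) ×ˢ (TT n (PP D.M S.Y S.Y')).powerset :=
    fun l hl => mem_product.2 ⟨mem_filter.2 ⟨mem_powerset.2 (hM ▸ le_gens_subset hR hl),
      (dist_gens (mem_AA.1 hl).2.2.2.1).mono (filter_subset _ _)⟩,
      mem_powerset.2 (hM ▸ md_gens_subset hl)⟩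
  rw [← sum_fiberwise_of_maps_to maps, ← sum_product', mul_sum]
  refine sum_le_sum fun w hw => ?_
  obtain ⟨w1, w2⟩ := mem_product.1 hw
  have p1 := Wt_nonneg hD.sm (mem_powerset.1 (mem_filter.1 w1).1)
  have p2 := Wt_nonneg hD.sm (mem_powerset.1 w2)
  rw [sum_congr rfl (g := fun _ => Φ w.1 w.2) fun x hx => by rw [← (mem_filter.1 hx).2],
    sum_const, nsmul_eq_mul, ← mul_assoc]
  refine mul_le_mul_of_nonneg_right ?_ (hΦ _ _)
  rcases ((AA S D).filter fun l => (le S.Y (gens l), md S.Y S.Y' (gens l)) =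
    w).eq_empty_or_nonempty with e | ⟨x0, hx0⟩
  · rw [e, card_empty, Nat.cast_zero, mul_div_assoc]
    exact mul_nonneg (mul_nonneg (le_max_right _ _) hK) (mul_nonneg p1 p2)
  obtain ⟨x1, x2⟩ := mem_filter.1 hx0
  obtain ⟨c, c1, -, c3, c4⟩ := cores hR x1
  have hb := hy S.Z c hZ
    (fun h => ⟨(c1 h).sqf, hM ▸ (c1 h).cop, hR.le_pow (c1 h), fun _ => hR.le_Y' (c1 h)⟩) c3
  have hw' : Wt w.1 * Wt w.2 = ∏ h, ∏ p ∈ (c h).primeFactors, wt n p := by
    rw [← x2, Wt_split h1, c4, Wt, prod_gens]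
  refine le_trans (Nat.cast_le.2 (card_le_card fun x hx => ?_)) (hb.trans ?_)
  · obtain ⟨z1, z2⟩ := mem_filter.1 hx
    obtain ⟨c', d1, d2, -, d4⟩ := cores hR z1
    have e := Prod.ext_iff.1 (z2.trans x2.symm)
    obtain rfl : c' = c := gens_inj (fun h => (d1 h).sqf) (fun h => (c1 h).sqf) (by
      rw [← d4, ← c4, ← le_union_md h1, ← le_union_md h1]
      exact congrArg₂ _ e.1 e.2)
    obtain ⟨b1, b2, b3, -⟩ := mem_AA.1 z1
    exact mem_filter.2 ⟨Fintype.mem_piFinset.2 fun h => mem_Icc.2 (b1 h), b2, b3, d2⟩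
  · rw [← hw', mul_div_assoc, mul_div_assoc]
    exact mul_le_mul_of_nonneg_right (mul_le_mul_of_nonneg_right (le_max_left _ _) hK)
      (mul_nonneg p1 p2)

end Pool.Agent.MP_a43263_nt.RG

end
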