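import Mathlib.Data.Int.Star
import Mathlib.Algebra.Order.Ring.Star
import Mathlib.Analysis.PSeries
import Mathlib.Algebra.Order.Star.Real
import Mathlib.Data.Nat.ChineseRemainder
import Mathlib.NumberTheory.PrimesCongruentOne
import Mathlib.Tactic.Polynomial.Basic
import Pool.Agent.MP_a43263_nt.RG.Spec

/-! RANKG row PTY: both parities occur at squarefree values of a product of linear forms. -/

set_option autoImplicit false

noncomputable section

namespace Pool.Agent.MP_a43263_nt.RG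

open Finset

namespace PtyAux

lemma dv {a x y : ℤ} (h : a ∣ x) (e : x = y) : a ∣ y := e ▸ h

lemma card_cong (A : Finset ℕ) (T n : ℕ) (hA : A ⊆ Ico T (2 * T))
    (h : ∀ u ∈ A, ∀ v ∈ A, u ≡ v [MOD n]) : (A.card : ℝ) ≤ (T : ℝ) / n + 1 := by
  have h1 : A.card ≤ (range (T / n + 1)).card := by
    refine card_le_card_of_injOn (fun u => (u - T) / n) (fun u hu => ?_) fun u hu v hv e => ?_
    · have := mem_Ico.1 (hA hu)
      simp only [coe_range, Set.mem_Iio]
      exact Nat.lt_succ_of_le (Nat.div_le_div_right (by omega))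
    · have hu' := mem_Ico.1 (hA hu)
      have hv' := mem_Ico.1 (hA hv)
      have h2 : (u - T) + T ≡ (v - T) + T [MOD n] := by
        rw [Nat.sub_add_cancel hu'.1, Nat.sub_add_cancel hv'.1]; exact h u hu v hv
      have h3 : (u - T) % n = (v - T) % n := Nat.ModEq.add_right_cancel' T h2
      have h4 := Nat.div_add_mod (u - T) n
      have h5 := Nat.div_add_mod (v - T) n
      simp only at e
      rw [e, h3] at h4
      omega
  rw [card_range] at h1
  calc (A.card : ℝ) ≤ ((T / n + 1 : ℕ) : ℝ) := by exact_mod_cast h1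
    _ ≤ _ := by push_cast; gcongr; exact Nat.cast_div_le

/-- simultaneous squarefree values of linear polynomials -/
lemma sqf {ι : Type} [Fintype ι] (α : ι → ℕ) (β : ι → ℤ) (hα : ∀ k, 0 < α k)
    (h1 : ∀ k, ∀ p : ℕ, p.Prime → p ≤ 4 * Fintype.card ι → p ∣ α k)
    (h2 : ∀ k, ∀ p : ℕ, p.Prime → p ∣ α k → ¬(p : ℤ) ∣ β k) :
    ∃ (u : ℕ) (a : ι → ℕ), ∀ k, (a k : ℤ) = α k * u + β k ∧ Squarefree (a k) := by
  classical
  set K := Fintype.card ι with hK
  obtain ⟨A, hA1, hA⟩ : ∃ A : ℕ, 1 ≤ A ∧ ∀ k, α k ≤ A ∧ (β k).natAbs ≤ A := by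
    refine ⟨1 + ∑ k, (α k + (β k).natAbs), by omega, fun k => ?_⟩
    have := single_le_sum (f := fun k => α k + (β k).natAbs) (fun _ _ => Nat.zero_le _) (mem_univ k)
    omega
  set n := 2 * K + 1 with hn
  set T := 3 * A * n ^ 2 with hT
  set R := 3 * A * n with hR
  have hn1 : 1 ≤ n := by omega
  have hTA : A < T := by rw [hT]; nlinarith [Nat.one_le_pow 2 n hn1]
  let B : ι → ℕ → Finset ℕ := fun k p =>
    (Ico T (2 * T)).filter fun u => p.Prime ∧ ((p : ℤ) * p) ∣ α k * u + β k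
  have hB : ∀ k p, ((B k p).card : ℝ) ≤ T * ((p : ℝ) ^ 2)⁻¹ + 1 := by
    intro k p
    have := card_cong (B k p) T (p * p) (filter_subset _ _) fun u hu v hv => by
      obtain ⟨-, hp, hu⟩ := mem_filter.1 hu
      obtain ⟨-, -, hv⟩ := mem_filter.1 hv
      have hc : ¬p ∣ α k := fun hd => h2 k p hp hd <| by
        have h3 : (p : ℤ) ∣ α k * u + β k := (dvd_mul_right _ _).trans hu
        exact (dvd_add_right ((Int.natCast_dvd_natCast.2 hd).mul_right _)).1 h3
      have h4 : ((p * p : ℕ) : ℤ) ∣ (α k : ℤ) * ((v : ℤ) - u) := by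
        push_cast
        exact dv (dvd_sub hv hu) (by ring)
      have h5 : IsCoprime ((p * p : ℕ) : ℤ) (α k : ℤ) := by
        rw [Nat.isCoprime_iff_coprime]
        have := (Nat.Prime.coprime_iff_not_dvd hp).2 hc
        exact Nat.Coprime.mul_left this this
      exact (Nat.modEq_iff_dvd).2 (h5.dvd_of_dvd_mul_left h4)
    push_cast at this
    rwa [div_eq_mul_inv, ← sq] at this
  have hlt : ((univ.biUnion fun k => (Ioo (4 * K) (R + 1)).biUnion (B k)).card) <
      (Ico T (2 * T)).card := by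
    have e1 : (Ico T (2 * T)).card = T := by simp; omega
    rw [e1]
    have e2 : ∀ k, (((Ioo (4 * K) (R + 1)).biUnion (B k)).card : ℝ) ≤
        T * (2 / ((4 * K : ℕ) + 1)) + R := by
      intro k
      calc (((Ioo (4 * K) (R + 1)).biUnion (B k)).card : ℝ)
          ≤ ((∑ p ∈ Ioo (4 * K) (R + 1), (B k p).card : ℕ) : ℝ) := by
            exact_mod_cast card_biUnion_le
        _ ≤ ∑ p ∈ Ioo (4 * K) (R + 1), ((T : ℝ) * ((p : ℝ) ^ 2)⁻¹ + 1) := by
            push_cast; exact sum_le_sum fun p _ => hB k p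
        _ ≤ _ := by
            rw [sum_add_distrib, ← mul_sum]
            gcongr
            · exact sum_Ioo_inv_sq_le _ _
            · simp only [sum_const, Nat.card_Ioo, nsmul_eq_mul, mul_one]
              exact_mod_cast (by omega : R + 1 - 4 * K - 1 ≤ R)
    have e3 : ((univ.biUnion fun k => (Ioo (4 * K) (R + 1)).biUnion (B k)).card : ℝ) ≤
        K * (T * (2 / ((4 * K : ℕ) + 1)) + R) := by
      calc _ ≤ ((∑ k, ((Ioo (4 * K) (R + 1)).biUnion (B k)).card : ℕ) : ℝ) := by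
            exact_mod_cast card_biUnion_le
        _ ≤ ∑ _k : ι, ((T : ℝ) * (2 / ((4 * K : ℕ) + 1)) + R) := by
            rw [Nat.cast_sum]; exact sum_le_sum fun k _ => e2 k
        _ = _ := by rw [sum_const, card_univ, nsmul_eq_mul]
    have e4 : (K : ℝ) * (T * (2 / ((4 * K : ℕ) + 1)) + R) < T := by
      have a1 : (K : ℝ) * (2 / ((4 * K : ℕ) + 1)) ≤ 1 / 2 := by
        rw [← mul_div_assoc, div_le_div_iff₀ (by positivity) (by positivity)]
        push_cast; linarith
      have a2 : 2 * (K * R) < T := by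
        rw [hT, hR]
        have : 0 < 3 * A * n := by positivity
        nlinarith
      have a3 : (2 : ℝ) * (K * R) < T := by exact_mod_cast a2
      have a4 : (0 : ℝ) ≤ T := by positivity
      nlinarith
    exact_mod_cast e3.trans_lt e4
  obtain ⟨u, hu, hu'⟩ := exists_mem_notMem_of_card_lt_card hlt
  have hu2 := mem_Ico.1 hu
  refine ⟨u, fun k => (α k * u + β k : ℤ).toNat, fun k => ?_⟩
  have b1 : (u : ℤ) ≤ α k * u := by
    have : (1 : ℤ) ≤ α k := by exact_mod_cast hα k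
    nlinarith [Int.natCast_nonneg u]
  have b2 : (α k : ℤ) * u ≤ A * (2 * T) := by
    have : α k * u ≤ A * (2 * T) := Nat.mul_le_mul (hA k).1 hu2.2.le
    exact_mod_cast this
  have b3 := (hA k).2
  have b4 : (0 : ℤ) < α k * u + β k := by omega
  have b5 : (((α k * u + β k : ℤ).toNat : ℕ) : ℤ) = α k * u + β k := Int.toNat_of_nonneg b4.le
  refine ⟨b5, Nat.squarefree_iff_prime_squarefree.2 fun p hp hd => hu' ?_⟩
  have hd' : ((p : ℤ) * p) ∣ α k * u + β k := by rw [← b5]; exact_mod_cast hd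
  refine mem_biUnion.2 ⟨k, mem_univ _, mem_biUnion.2 ⟨p, mem_Ioo.2 ⟨?_, ?_⟩,
    mem_filter.2 ⟨hu, hp, hd'⟩⟩⟩
  · by_contra hc
    have hpa := h1 k p hp (not_lt.1 hc)
    exact h2 k p hp hpa ((dvd_add_right ((Int.natCast_dvd_natCast.2 hpa).mul_right _)).1
      ((dvd_mul_right _ _).trans hd'))
  · have c1 := Int.le_of_dvd b4 hd'
    have c2 : (A : ℤ) ≤ A * T := by
      have : A ≤ A * T := Nat.le_mul_of_pos_right _ (by omega)
      exact_mod_cast this
    have c3 : ((p * p : ℕ) : ℤ) ≤ ((R * R : ℕ) : ℤ) := by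
      have : R * R = 3 * (A * T) := by rw [hR, hT]; ring
      have b6 : β k ≤ A := by omega
      rw [this]; push_cast; linarith
    exact Nat.lt_succ_of_le (Nat.mul_self_le_mul_self_iff.1 (by exact_mod_cast c3))

/-- avoiding finitely many classes modulo the primes of `G` -/
lemma avoid {ι : Type} [Fintype ι] (γ : ι → ℤ) (Q G : ℕ)
    (h : ∀ p : ℕ, p.Prime → p ∣ G → ¬p ∣ Q ∧ Fintype.card ι < p) (hG : G ≠ 0) :
    ∃ u : ℕ, ∀ k, ∀ p : ℕ, p.Prime → p ∣ G → ¬(p : ℤ) ∣ Q * u + γ k := by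
  classical
  have h1 : ∀ p : ℕ, ∃ r : ℕ, p.Prime → p ∣ G → ∀ k, ¬(p : ℤ) ∣ Q * r + γ k := by
    intro p
    by_cases hp : p.Prime ∧ p ∣ G
    · have := Fact.mk hp.1
      obtain ⟨h2, h3⟩ := h p hp.1 hp.2
      have hQ : (Q : ZMod p) ≠ 0 := by rwa [Ne, ZMod.natCast_eq_zero_iff]
      obtain ⟨r, -, hr⟩ := exists_mem_notMem_of_card_lt_card
        (s := univ.image fun k => (-(γ k : ZMod p)) / Q) (t := univ)
        (card_image_le.trans_lt (by simpa using h3))
      refine ⟨r.val, fun _ _ k hk => hr (mem_image.2 ⟨k, mem_univ _, ?_⟩)⟩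
      rw [← ZMod.intCast_zmod_eq_zero_iff_dvd] at hk
      push_cast at hk
      rw [ZMod.natCast_zmod_val] at hk
      field_simp
      linear_combination -hk
    · exact ⟨0, fun a b => (hp ⟨a, b⟩).elim⟩
  choose r hr using h1
  obtain ⟨u, hu⟩ := Nat.chineseRemainderOfFinset r id G.primeFactors
    (fun p hp => (Nat.prime_of_mem_primeFactors hp).ne_zero)
    fun p hp q hq hpq => (Nat.coprime_primes (Nat.prime_of_mem_primeFactors hp)
      (Nat.prime_of_mem_primeFactors hq)).2 hpq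
  refine ⟨u, fun k p hp hd hk => hr p hp hd k ?_⟩
  have := (Nat.modEq_iff_dvd.1 (hu p (Nat.mem_primeFactors.2 ⟨hp, hd, hG⟩)))
  simp only [id] at this
  exact dv (dvd_add hk (this.mul_left Q)) (by ring)

lemma not_dvd {Q p : ℕ} {x : ℤ} (hp : p.Prime) (h : p ∣ Q) (hx : (Q : ℤ) ∣ x - 1) :
    ¬(p : ℤ) ∣ x := fun hd => by
  have h1 : (p : ℤ) ∣ x - (x - 1) := dvd_sub hd ((Int.natCast_dvd_natCast.2 h).trans hx)
  rw [sub_sub_cancel] at h1
  exact hp.one_lt.ne' (by exact_mod_cast Int.eq_one_of_dvd_one (by positivity) h1)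

/-- the number of prime factors modulo two -/
def om (a : ℕ) : ZMod 2 := (a.primeFactors.card : ℕ)

/-- the cube argument -/
lemma cube {I : Type} [Fintype I] (m d : ℕ) (hd : d = 2 ^ m) (φ : Fin d → I)
    (hφ : Function.Surjective φ) (κ : I → ℤ) (Q : ℕ) (c : ZMod 2) (hQ : 0 < Q)
    (h1 : ∀ p : ℕ, p.Prime → p ≤ 4 * Fintype.card (Finset (Fin d) × Option I) → p ∣ Q)
    (h2 : ∀ i, (Q : ℤ) ∣ κ i)
    (H : ∀ (s t : ℕ) (a : I → ℕ), (Q : ℤ) ∣ s - 1 → (Q : ℤ) ∣ t - 1 →
      (∀ i, (a i : ℤ) = s + κ i * t) → Squarefree t →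
      (∀ i, Squarefree (a i) ∧ (a i).Coprime t) → om t + ∑ i, om (a i) = c)
    (t h : ℕ) (ht : (Q : ℤ) ∣ t - 1) (hh : Q ∣ h) (hs : ∀ i ≤ d, Squarefree (t + i * h)) :
    om t = om (t + d * h) := by
  classical
  have hh' : (Q : ℤ) ∣ h := Int.natCast_dvd_natCast.2 hh
  have ht' : ∀ i : ℕ, (Q : ℤ) ∣ ((t + i * h : ℕ) : ℤ) - 1 := fun i => by
    exact dv (dvd_add ht (hh'.mul_left i)) (by push_cast; ring)
  let G := ∏ i ∈ range (d + 1), (t + i * h)
  have hG : G ≠ 0 := prod_ne_zero_iff.2 fun i hi =>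
    (hs i (Nat.lt_succ_iff.1 (mem_range.1 hi))).ne_zero
  let κ' : Option I → ℤ := fun o => o.elim 0 κ
  have hκ' : ∀ o, (Q : ℤ) ∣ κ' o := fun o => by cases o <;> simp [κ', h2]
  let γ : Finset (Fin d) × Option I → ℤ := fun x =>
    1 + κ' x.2 * t + h * ∑ i ∈ x.1, (κ' x.2 - κ (φ i))
  have hGQ : ∀ p : ℕ, p.Prime → p ∣ G → ¬p ∣ Q := fun p hp hd hq => by
    obtain ⟨i, -, hi⟩ := (Nat.Prime.prime hp).exists_mem_finset_dvd hd
    exact not_dvd hp hq (ht' i) (Int.natCast_dvd_natCast.2 hi)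
  obtain ⟨u₀, hu₀⟩ := avoid γ Q G (fun p hp hd => ⟨hGQ p hp hd, by
    by_contra hc
    exact hGQ p hp hd (h1 p hp (by omega))⟩) hG
  have hγ : ∀ x, (Q : ℤ) ∣ Q * u₀ + γ x - 1 := fun x => by
    exact dv (dvd_add (dvd_add (dvd_mul_right (Q : ℤ) u₀) ((hκ' x.2).mul_right t))
      (hh'.mul_right (∑ i ∈ x.1, (κ' x.2 - κ (φ i))))) (by simp only [γ]; ring)
  obtain ⟨u, a, ha⟩ := sqf (fun _ => Q * G) (fun x => Q * u₀ + γ x)
    (fun _ => Nat.mul_pos hQ (Nat.pos_of_ne_zero hG))
    (fun _ p hp hle => (h1 p hp hle).mul_right _)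
    fun x p hp hd => ((Nat.Prime.dvd_mul hp).1 hd).elim (fun hq => not_dvd hp hq (hγ x))
      (hu₀ x p hp)
  have key : ∀ S : Finset (Fin d), om (t + S.card * h) + ∑ j, om (a (S, some j)) = c := by
    intro S
    have hS : S.card ≤ d := by simpa using card_le_univ S
    refine H (a (S, none)) _ (fun j => a (S, some j)) ?_ (ht' _) (fun j => ?_) (hs _ hS)
      fun j => ⟨(ha _).2, ?_⟩
    · rw [(ha _).1]
      exact dv (dvd_add (hγ (S, none)) (dvd_mul_right (Q : ℤ) (G * u))) (by push_cast; ring)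
    · rw [(ha _).1, (ha _).1]
      simp only [γ, κ', Option.elim, sum_sub_distrib, sum_const, nsmul_eq_mul]
      push_cast; ring
    · refine Nat.coprime_of_dvd fun p hp hpa hpt => ?_
      have hpG : p ∣ G := hpt.trans (dvd_prod_of_mem (fun i => t + i * h)
        (mem_range.2 (Nat.lt_succ_of_le hS)))
      have h3 : (p : ℤ) ∣ a (S, some j) := Int.natCast_dvd_natCast.2 hpa
      rw [(ha _).1] at h3
      exact hu₀ _ p hp hpG ((dvd_add_right
        ((Int.natCast_dvd_natCast.2 (hpG.mul_left Q)).mul_right _)).1 h3)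
  have z1 : ∀ j, ∑ S ∈ (univ : Finset (Fin d)).powerset, om (a (S, some j)) = 0 := by
    intro j
    obtain ⟨i, rfl⟩ := hφ j
    rw [← insert_erase (mem_univ i), sum_powerset_insert (notMem_erase i _)]
    have : ∑ S ∈ (univ.erase i).powerset, om (a (insert i S, some (φ i))) =
        ∑ S ∈ (univ.erase i).powerset, om (a (S, some (φ i))) := by
      refine sum_congr rfl fun S hS => congrArg om ?_
      have hi : i ∉ S := fun hi => notMem_erase i _ (mem_powerset.1 hS hi)
      have : (a (insert i S, some (φ i)) : ℤ) = a (S, some (φ i)) := by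
        rw [(ha _).1, (ha _).1]
        simp only [γ, κ', Option.elim, sum_insert hi]
        ring
      exact_mod_cast this
    rw [this, CharTwo.add_self_eq_zero]
  have two : ∀ (n : ℕ) (x : ZMod 2), 2 ∣ n → n • x = 0 := fun n x hn => by
    rw [nsmul_eq_mul, (ZMod.natCast_eq_zero_iff n 2).2 hn, zero_mul]
  have hd0 : 0 < d := by rw [hd]; positivity
  have z2 : ∑ S ∈ (univ : Finset (Fin d)).powerset, om (t + S.card * h) = 0 := by
    have := sum_congr (rfl : (univ : Finset (Fin d)).powerset = _) fun S _ => key S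
    rw [sum_add_distrib, sum_comm, sum_eq_zero (s := univ) fun j _ => z1 j, add_zero,
      sum_const] at this
    rw [this]
    exact two _ _ (by rw [card_powerset]; exact dvd_pow_self 2 (by simpa using hd0.ne'))
  rw [sum_powerset_apply_card (fun i => om (t + i * h)), card_univ, Fintype.card_fin,
    sum_range_succ, sum_eq_single 0 (fun i hi hi0 => two _ _
      (hd ▸ Nat.prime_two.dvd_choose_pow hi0 (hd ▸ (mem_range.1 hi).ne)))
      fun h0 => (h0 (mem_range.2 hd0)).elim] at z2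
  simp only [Nat.choose_zero_right, Nat.choose_self, one_smul, zero_mul, add_zero] at z2
  exact (CharTwo.add_eq_zero).1 z2

end PtyAux

open PtyAux in
theorem pty : PTYStmt := by
  intro I _ _
  classical
  obtain ⟨d, hd⟩ : ∃ d, d = 2 ^ Fintype.card I := ⟨_, rfl⟩
  obtain ⟨φ, hφ⟩ : ∃ φ : Fin d → I, Function.Surjective φ := by
    obtain ⟨f⟩ : Nonempty (I ↪ Fin d) := Function.Embedding.nonempty_of_card_le
      (by simpa [hd] using Nat.lt_two_pow_self.le)
    exact ⟨_, Function.invFun_surjective f.injective⟩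
  refine ⟨4 * Fintype.card (Finset (Fin d) × Option I) +
    4 * Fintype.card (Fin d × Bool) + d, fun κ Q ε hQ h1 h2 h3 => ?_⟩
  by_contra hc
  have H : ∀ (s t : ℕ) (a : I → ℕ), (Q : ℤ) ∣ s - 1 → (Q : ℤ) ∣ t - 1 →
      (∀ i, (a i : ℤ) = s + κ i * t) → Squarefree t →
      (∀ i, Squarefree (a i) ∧ (a i).Coprime t) → om t + ∑ i, om (a i) = (ε : ZMod 2) + 1 := by
    intro s t a hs ht ha hq hb
    by_contra hne
    refine hc ⟨s, t, a, (Nat.modEq_iff_dvd.2 (by simpa using hs)).symm,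
      (Nat.modEq_iff_dvd.2 (by simpa using ht)).symm, ha, hq, hb, fun i j hij => ?_, ?_⟩
    · refine Nat.coprime_of_dvd fun p hp hi hj => ?_
      have hi' : (p : ℤ) ∣ a i := Int.natCast_dvd_natCast.2 hi
      have hj' : (p : ℤ) ∣ a j := Int.natCast_dvd_natCast.2 hj
      have e : (p : ℤ) ∣ (κ i - κ j) * t := by
        exact dv (dvd_sub hi' hj') (by rw [ha, ha]; ring)
      rcases (Nat.prime_iff_prime_int.1 hp).dvd_or_dvd e with e | e
      · refine not_dvd hp ((h3 i j hij).2 p hp e) ?_ hi'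
        exact dv (dvd_add hs ((h2 i).mul_right t)) (by rw [ha]; ring)
      · exact hp.one_lt.ne' (Nat.eq_one_of_dvd_coprimes (hb i).2 hi
          (Int.natCast_dvd_natCast.1 e))
    · rw [← ZMod.natCast_eq_natCast_iff']
      push_cast
      change om t + ∑ i, om (a i) = _
      generalize om t + ∑ i, om (a i) = x at hne
      generalize (ε : ZMod 2) = y at hne
      revert x y; decide
  have hcube := cube _ d hd φ hφ κ Q _ hQ (fun p hp hle => h1 p hp (by omega)) h2 H
  have hd0 : 0 < d := by rw [hd]; positivity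
  obtain ⟨q, hq, -, hq1⟩ := Nat.exists_prime_gt_modEq_one 1 (Nat.mul_pos hd0 hQ).ne'
  obtain ⟨c, hcq⟩ : d * Q ∣ q - 1 := (Nat.modEq_iff_dvd' hq.one_le).1 hq1.symm
  have hq2 : q = 1 + d * (Q * c) := by have := hq.one_le; rw [← mul_assoc]; omega
  have hq3 : (Q : ℤ) ∣ q - 1 := ⟨d * c, by rw [hq2]; push_cast; ring⟩
  obtain ⟨u, a, ha⟩ := sqf (ι := Fin d × Bool) (fun x => (x.1 + 1) * Q)
    (fun x => if x.2 then (q : ℤ) else 1 + (x.1 + 1 : ℕ) * (Q * c))
    (fun _ => Nat.mul_pos (Nat.succ_pos _) hQ)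
    (fun _ p hp hle => (h1 p hp (by omega)).mul_left _) fun x p hp hdv => by
      have hpQ : p ∣ Q := ((Nat.Prime.dvd_mul hp).1 hdv).elim (fun e => h1 p hp (by
        have := Nat.le_of_dvd (Nat.succ_pos _) e
        have := x.1.2
        omega)) id
      refine not_dvd hp hpQ ?_
      split_ifs
      · exact hq3
      · exact ⟨(x.1 + 1 : ℕ) * c, by ring⟩
  have e1 := hcube q (Q * u) hq3 (dvd_mul_right _ _) fun i hi => by
    rcases i with _ | i
    · simpa using hq.squarefree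
    · obtain ⟨e, hs⟩ := ha (⟨i, hi⟩, true)
      convert hs using 1
      simp only [if_true] at e
      zify
      rw [e]; push_cast; ring
  have e2 := hcube 1 (Q * (u + c)) (by simp) (dvd_mul_right _ _) fun i hi => by
    rcases i with _ | i
    · simp
    · obtain ⟨e, hs⟩ := ha (⟨i, hi⟩, false)
      convert hs using 1
      simp only [Bool.false_eq_true, if_false] at e
      zify
      rw [e]; push_cast; ring
  have e3 : 1 + d * (Q * (u + c)) = q + d * (Q * u) := by rw [hq2]; ring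
  rw [e3, ← e1] at e2
  simp [om, hq.primeFactors] at e2

end Pool.Agent.MP_a43263_nt.RG
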