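import Mathlib.Algebra.Ring.IsFormallyReal
import Pool.Agent.MP_a43263_nt.R2.Basic
import Pool.Agent.MP_a43263_nt.RG.Spec

/-! PROJECT RANKG, module CNT: the count of the kernel. -/

set_option autoImplicit false

noncomputable section

namespace Pool.Agent.MP_a43263_nt.RG

open Finset
open R2 (Sgn chi Ker prod_sgn prod_symmDiff chi_comm chi_sgn chi_eq_rows chi_symmDiff_right mem_Ker
  sum_powerset_prod_sgn)

namespace Cnt

/-! ### general facts on subsets and sign matrices -/

section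
variable {ι : Type} [DecidableEq ι]

theorem sum_powerset_union {A B : Finset ι} (h : Disjoint A B) (F : Finset ι → ℝ) :
    ∑ U ∈ (A ∪ B).powerset, F U = ∑ T ∈ B.powerset, ∑ W ∈ A.powerset, F (W ∪ T) := by
  rw [← sum_product']
  refine sum_nbij' (fun U => (U ∩ B, U ∩ A)) (fun p => p.2 ∪ p.1) ?_ ?_ ?_ ?_ ?_
  · intro U _
    simp only [mem_product, mem_powerset]
    exact ⟨inter_subset_right, inter_subset_right⟩
  · intro p hp
    simp only [mem_product, mem_powerset] at hp ⊢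
    exact union_subset_union hp.2 hp.1
  · intro U hU
    simp only [mem_powerset] at hU
    rw [← inter_union_distrib_left, inter_eq_left.2 hU]
  · intro p hp
    simp only [mem_product, mem_powerset] at hp
    have h1 : p.2 ∩ B = ∅ := disjoint_iff_inter_eq_empty.1 (h.mono_left hp.2)
    have h2 : p.1 ∩ A = ∅ := disjoint_iff_inter_eq_empty.1 (h.symm.mono_left hp.1)
    rw [union_inter_distrib_right, union_inter_distrib_right, h1, h2, inter_eq_left.2 hp.1,
      inter_eq_left.2 hp.2, empty_union, union_empty]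
  · intro U hU
    simp only [mem_powerset] at hU
    rw [← inter_union_distrib_left, inter_eq_left.2 hU]

/-- the vector `x` satisfies the rows in `B` -/
def Rows (g : ι → ι → ℤ) (B x : Finset ι) : Prop := ∀ b ∈ B, ∏ a ∈ x, g a b = 1

instance (g : ι → ι → ℤ) (B x : Finset ι) : Decidable (Rows g B x) := by
  unfold Rows; infer_instance

variable {g : ι → ι → ℤ}

theorem Rows.symmDiff (hg : Sgn g) {B x z : Finset ι} (hx : Rows g B x) (hz : Rows g B z) :
    Rows g B (symmDiff x z) := fun b hb => by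
  rw [prod_symmDiff (fun a => hg.2 a b), hx b hb, hz b hb, mul_one]

/-- a coset is not larger than the subgroup -/
theorem coset (hg : Sgn g) (A B z : Finset ι) :
    (A.powerset.filter fun U => Rows g B (symmDiff U z)).card ≤
      (A.powerset.filter fun U => Rows g B U).card := by
  rcases (A.powerset.filter fun U => Rows g B (symmDiff U z)).eq_empty_or_nonempty with h | ⟨U₀, h⟩
  · rw [h]; exact Nat.zero_le _
  · rw [mem_filter, mem_powerset] at h
    refine card_le_card_of_injOn (fun U => symmDiff U U₀) ?_ ?_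
    · intro U hU
      simp only [coe_filter, mem_powerset, Set.mem_ofPred_eq] at hU ⊢
      refine ⟨symmDiff_subset_union.trans (union_subset hU.1 h.1), ?_⟩
      have := hU.2.symmDiff hg h.2
      rwa [symmDiff_symmDiff_symmDiff_comm, symmDiff_self, symmDiff_bot] at this
    · intro U _ U' _ e
      exact symmDiff_left_injective U₀ e

theorem sum_chi (hg : Sgn g) (B x : Finset ι) :
    ∑ W ∈ B.powerset, (chi g x W : ℝ) = if Rows g B x then 2 ^ B.card else 0 := by
  have h := sum_powerset_prod_sgn (f := fun b => ∏ a ∈ x, g a b) B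
    fun b _ => prod_sgn x fun a _ => hg.2 a b
  have h2 : ∑ W ∈ B.powerset, (chi g x W : ℝ) =
      ((∑ W ∈ B.powerset, ∏ b ∈ W, ∏ a ∈ x, g a b : ℤ) : ℝ) := by
    rw [Int.cast_sum]
    exact sum_congr rfl fun W _ => by rw [chi_eq_rows]
  rw [h2, h]
  by_cases k : Rows g B x
  · rw [if_pos k, if_pos (show ∀ b ∈ B, _ from k)]; norm_num
  · rw [if_neg k, if_neg (show ¬∀ b ∈ B, _ from k)]; norm_num

theorem abs_chi (hg : Sgn g) (x y : Finset ι) : (chi g x y : ℝ) ≤ 1 := by
  rcases chi_sgn hg x y with h | h <;> rw [h] <;> norm_num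

theorem chi_self (hg : Sgn g) (x : Finset ι) : chi g x x = ∏ b ∈ x, g b b := by
  induction x using Finset.induction_on with
  | empty => simp [chi]
  | insert a x ha ih =>
    unfold chi at ih ⊢
    rw [prod_insert ha, prod_insert ha, prod_insert ha,
      Finset.prod_congr rfl fun c _ => prod_insert (f := fun b => g c b) ha, prod_mul_distrib, ih,
      Finset.prod_congr rfl fun c _ => hg.1 a c]
    rcases prod_sgn x fun c _ => hg.2 c a with h | h <;> rw [h] <;> ring

/-- the column of `z` is the diagonal -/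
def Diag (g : ι → ι → ℤ) (V z : Finset ι) : Prop := ∀ b ∈ V, g b b * ∏ a ∈ z, g a b = 1

theorem Diag.rows (hg : Sgn g) {V z w : Finset ι} (hz : Diag g V z) (hw : Diag g V w) :
    Rows g V (symmDiff z w) := fun b hb => by
  have h1 := hz b hb
  have h2 := hw b hb
  rw [prod_symmDiff fun a => hg.2 a b]
  rcases hg.2 b b with h | h <;> rw [h] at h1 h2
  · rw [one_mul] at h1 h2
    rw [h1, h2, one_mul]
  · rw [neg_one_mul, neg_eq_iff_eq_neg] at h1 h2
    rw [h1, h2]; norm_num

open Classical in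
theorem sum_diag (hg : Sgn g) (V z : Finset ι) :
    ∑ x ∈ V.powerset, (chi g x (symmDiff x z) : ℝ) / 2 ^ V.card =
      if Diag g V z then 1 else 0 := by
  have h := sum_powerset_prod_sgn (f := fun b => g b b * ∏ a ∈ z, g a b) V fun b _ => by
    rcases hg.2 b b with h | h <;> rcases prod_sgn z fun a _ => hg.2 a b with k | k <;>
      simp [h, k]
  have h2 : ∑ x ∈ V.powerset, (chi g x (symmDiff x z) : ℝ) =
      ((∑ x ∈ V.powerset, ∏ b ∈ x, (g b b * ∏ a ∈ z, g a b) : ℤ) : ℝ) := by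
    rw [Int.cast_sum]
    refine sum_congr rfl fun x _ => ?_
    rw [chi_symmDiff_right hg, chi_self hg, chi_comm hg x z, chi_eq_rows, prod_mul_distrib]
  rw [← sum_div, h2, h]
  by_cases k : Diag g V z
  · rw [if_pos k, if_pos (show ∀ b ∈ V, _ from k)]
    push_cast
    exact div_self (pow_ne_zero _ two_ne_zero)
  · rw [if_neg k, if_neg (show ¬∀ b ∈ V, _ from k)]; norm_num

theorem Ker_eq (g : ι → ι → ℤ) (V : Finset ι) : Ker g V = V.powerset.filter (Rows g V) := by
  ext x
  rw [mem_Ker, mem_filter, mem_powerset, Rows]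

end

/-! ### tags -/

variable {n : ℕ}

theorem mem_le {Y : ℕ} {V : Finset (Gen n)} {a : Gen n} : a ∈ le Y V ↔ a ∈ V ∧ a.2 ≤ Y :=
  mem_filter

theorem mem_md {Y Y' : ℕ} {V : Finset (Gen n)} {a : Gen n} :
    a ∈ md Y Y' V ↔ a ∈ V ∧ Y < a.2 ∧ a.2 ≤ Y' := mem_filter

theorem tg_inj : Function.Injective (tg : Ix n → Tag n) := by
  rintro ⟨a, b⟩ ⟨c, d⟩ h
  simpa [tg] using h

theorem ex_tg {k : Tag n} (h : k.2 ≠ none) : ∃ j, k = tg j := by
  obtain ⟨i, _ | j⟩ := k
  · exact (h rfl).elim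
  · exact ⟨(i, j), rfl⟩

theorem mem_ones {V : Finset (Gen n)} {y : Finset (Ix n)} {a : Gen n} :
    a ∈ ones V y ↔ a ∈ V ∧ ∃ h ∈ y, tg h = a.1 := by
  simp only [ones, mem_filter, mem_image]

theorem mem_ones_tg {V : Finset (Gen n)} {y : Finset (Ix n)} {a : Gen n} {h : Ix n}
    (e : a.1 = tg h) : a ∈ ones V y ↔ a ∈ V ∧ h ∈ y := by
  rw [mem_ones, e]
  exact and_congr_right fun _ => ⟨fun ⟨k, h1, h2⟩ => tg_inj h2 ▸ h1, fun h1 => ⟨h, h1, rfl⟩⟩

theorem ones_symmDiff (V : Finset (Gen n)) (y y' : Finset (Ix n)) :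
    ones V (symmDiff y y') = symmDiff (ones V y) (ones V y') := by
  ext a
  by_cases k : a.1.2 = none
  · have : ∀ y : Finset (Ix n), a ∉ ones V y := fun y h => by
      obtain ⟨-, j, -, e⟩ := mem_ones.1 h
      rw [← e] at k
      exact Option.some_ne_none _ k
    simp only [mem_symmDiff, this, false_and, or_self]
  · obtain ⟨j, e⟩ := ex_tg k
    simp only [mem_symmDiff, mem_ones_tg e]
    tauto

theorem mem_Yc {y : Finset (Ix n)} : y ∈ Yc n ↔ ∀ j, Even (Yne j y) := by
  simp only [Yc, mem_filter, mem_univ, true_and]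

theorem Yne_symmDiff (j : Fin 3) (y y' : Finset (Ix n)) :
    Even (Yne j (symmDiff y y')) ↔ Even (Yne j y + Yne j y') := by
  have h : ∀ z : Finset (Ix n),
      (∏ a ∈ z, (if a.1 ≠ j then -1 else 1 : ℤ)) = (-1) ^ Yne j z := fun z => by
    rw [prod_ite, prod_const, prod_const_one, mul_one, Yne]
  have := prod_symmDiff (f := fun a : Ix n => (if a.1 ≠ j then -1 else 1 : ℤ))
    (fun a => by split_ifs <;> simp) y y'
  rw [h, h, h, ← pow_add] at this
  rw [← neg_one_pow_eq_one_iff_even (R := ℤ) (by norm_num), this,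
    neg_one_pow_eq_one_iff_even (by norm_num)]

theorem two_even {y : Finset (Ix n)} {i j : Fin 3} (hne : i ≠ j) (hi : Even (Yne i y))
    (hj : Even (Yne j y)) : y ∈ Yc n := by
  have h : Yne 0 y + Yne 1 y + Yne 2 y = 2 * y.card := by
    simp only [Yne, card_filter, ← sum_add_distrib]
    rw [card_eq_sum_ones, mul_sum]
    refine sum_congr rfl fun a _ => ?_
    generalize a.1 = c
    revert c
    decide
  rw [Nat.even_iff] at hi hj
  refine mem_Yc.2 fun k => Nat.even_iff.2 ?_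
  have h3 : ∀ i : Fin 3, i = 0 ∨ i = 1 ∨ i = 2 := by decide
  rcases h3 i with rfl | rfl | rfl <;> rcases h3 j with rfl | rfl | rfl <;>
    rcases h3 k with rfl | rfl | rfl <;> first | exact (hne rfl).elim | omega

/-! ### the parametrisation of the subsets -/

/-- the hypotheses on the set of generators -/
structure Hyp (V : Finset (Gen n)) (Y Y' J : ℕ) : Prop where
  two : 2 ≤ n
  hle : Y ≤ Y'
  hJ : 1 ≤ J
  tag : ∀ a ∈ V, Y < a.2 → a.1.2 ≠ none
  one : ∀ h : Ix n, (V.filter fun a => a.1 = tg h ∧ Y' < a.2).card = 1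
  med : ∀ h : Ix n, 4 * J ≤ ((md Y Y' V).filter fun a => a.1 = tg h).card ∧
    ((md Y Y' V).filter fun a => a.1 = tg h).card ≤ 6 * J

section
variable {V : Finset (Gen n)} {Y Y' J : ℕ}

theorem disj (V : Finset (Gen n)) (Y Y' : ℕ) : Disjoint (le Y V) (md Y Y' V) :=
  disjoint_left.2 fun _ h h' => not_lt.2 (mem_le.1 h).2 (mem_md.1 h').2.1

theorem Hyp.split (H : Hyp V Y Y' J) : le Y' V = le Y V ∪ md Y Y' V := by
  ext a
  have := H.hle
  simp only [mem_union, mem_le, mem_md, ← and_or_left]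
  exact and_congr_right fun _ => by omega

theorem Hyp.md_tag (H : Hyp V Y Y' J) {a : Gen n} (ha : a ∈ md Y Y' V) : ∃ h, a.1 = tg h :=
  ex_tg (H.tag a (mem_md.1 ha).1 (mem_md.1 ha).2.1)

theorem Hyp.card_V (H : Hyp V Y Y' J) :
    V.card = (le Y V).card + (md Y Y' V).card + 3 * n := by
  rw [← card_union_of_disjoint (disj V Y Y'), ← H.split,
    ← card_filter_add_card_filter_not (s := V) (fun a => a.2 ≤ Y')]
  congr 1
  rw [card_eq_sum_card_fiberwise (f := fun a : Gen n => a.1) (t := univ.image tg)]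
  · rw [sum_image fun _ _ _ _ e => tg_inj e, sum_congr rfl (g := fun _ => 1)]
    · simp
    · intro h _
      rw [← H.one h, filter_filter]
      exact congrArg _ (filter_congr fun a _ => by rw [not_le, and_comm])
  · intro a ha
    simp only [coe_filter, Set.mem_ofPred_eq, not_le] at ha
    obtain ⟨j, e⟩ := ex_tg (H.tag a ha.1 (H.hle.trans_lt ha.2))
    exact mem_coe.2 (mem_image.2 ⟨j, mem_univ _, e.symm⟩)

theorem Hyp.large (H : Hyp V Y Y' J) (h : Ix n) : ∃ a ∈ V, a.1 = tg h ∧ Y' < a.2 := by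
  obtain ⟨a, ha⟩ := card_pos.1 ((H.one h).symm ▸ Nat.one_pos :
    0 < (V.filter fun a => a.1 = tg h ∧ Y' < a.2).card)
  exact ⟨a, (mem_filter.1 ha).1, (mem_filter.1 ha).2⟩

theorem Hyp.large_eq (H : Hyp V Y Y' J) {a b : Gen n} (ha : a ∈ V) (hb : b ∈ V) (h1 : Y' < a.2)
    (h2 : Y' < b.2) (e : a.1 = b.1) : a = b := by
  obtain ⟨j, k⟩ := ex_tg (H.tag a ha (H.hle.trans_lt h1))
  exact card_le_one.1 (H.one j).le a (mem_filter.2 ⟨ha, k, h1⟩) b
    (mem_filter.2 ⟨hb, e.symm.trans k, h2⟩)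

/-- a set of forms and a set of generators that are not large -/
abbrev Pr (n : ℕ) : Type := Finset (Ix n) × Finset (Gen n)

def vec (V : Finset (Gen n)) (p : Pr n) : Finset (Gen n) := symmDiff p.2 (ones V p.1)

def add (p q : Pr n) : Pr n := (symmDiff p.1 q.1, symmDiff p.2 q.2)

def all (Y' : ℕ) (V : Finset (Gen n)) : Finset (Pr n) := univ ×ˢ (le Y' V).powerset

theorem mem_all {p : Pr n} : p ∈ all Y' V ↔ p.2 ⊆ le Y' V := by
  simp only [all, mem_product, mem_univ, true_and, mem_powerset]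

theorem vec_add (V : Finset (Gen n)) (p q : Pr n) :
    vec V (add p q) = symmDiff (vec V p) (vec V q) := by
  simp only [vec, add, ones_symmDiff]
  exact symmDiff_symmDiff_symmDiff_comm _ _ _ _

theorem add_add (p q : Pr n) : add p (add p q) = q := by
  simp only [add, symmDiff_symmDiff_cancel_left]

theorem add_comm' (p q : Pr n) : add p q = add q p := by
  simp only [add, symmDiff_comm]

theorem add_mem {p q : Pr n} (hp : p ∈ all Y' V) (hq : q ∈ all Y' V) : add p q ∈ all Y' V :=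
  mem_all.2 (symmDiff_subset_union.trans (union_subset (mem_all.1 hp) (mem_all.1 hq)))

theorem vec_sub {p : Pr n} (hp : p ∈ all Y' V) : vec V p ⊆ V :=
  symmDiff_subset_union.trans
    (union_subset ((mem_all.1 hp).trans (filter_subset _ _)) (filter_subset _ _))

theorem Hyp.sum_param (H : Hyp V Y Y' J) (F : Finset (Gen n) → ℝ) :
    ∑ p ∈ all Y' V, F (vec V p) = ∑ x ∈ V.powerset, F x := by
  refine sum_bij (fun p _ => vec V p) (fun p hp => mem_powerset.2 (vec_sub hp)) ?_ ?_ fun _ _ => rfl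
  · intro p hp q hq e
    have h1 : p.1 = q.1 := by
      ext h
      obtain ⟨a, ha, k, hl⟩ := H.large h
      have : ∀ r ∈ all Y' V, a ∈ vec V r ↔ h ∈ r.1 := fun r hr => by
        have : a ∉ r.2 := fun h => not_lt.2 (mem_le.1 (mem_all.1 hr h)).2 hl
        simp [vec, mem_symmDiff, this, mem_ones_tg k, ha]
      rw [← this p hp, ← this q hq, e]
    unfold vec at e
    rw [h1] at e
    exact Prod.ext h1 (symmDiff_left_injective _ e)
  · intro x hx
    rw [mem_powerset] at hx
    obtain ⟨y, hy⟩ : ∃ y : Finset (Ix n), ∀ h, h ∈ y ↔ ∃ a ∈ x, Y' < a.2 ∧ a.1 = tg h :=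
      ⟨univ.filter fun h => ∃ a ∈ x, Y' < a.2 ∧ a.1 = tg h, fun h => by
        simp only [mem_filter, mem_univ, true_and]⟩
    refine ⟨(y, symmDiff x (ones V y)), mem_all.2 fun a ha => ?_,
      symmDiff_symmDiff_cancel_right (ones V y) x⟩
    have haV : a ∈ V :=
      symmDiff_subset_union.trans (union_subset hx (filter_subset _ _)) ha
    refine mem_le.2 ⟨haV, not_lt.1 fun hl => ?_⟩
    obtain ⟨j, k⟩ := ex_tg (H.tag a haV (H.hle.trans_lt hl))
    simp only [mem_symmDiff, mem_ones_tg k, hy] at ha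
    rcases ha with ⟨h1, h2⟩ | ⟨⟨-, b, h1, h2, h3⟩, h4⟩
    · exact h2 ⟨haV, a, h1, hl, k⟩
    · exact h4 (H.large_eq (hx h1) haV h2 hl (h3.trans k.symm) ▸ h1)

/-- the medium generators of one class -/
def cl (W : Finset (Gen n)) (i : Fin 3) : Finset (Gen n) := W.filter fun a => a.1.1 = i

theorem Hyp.card_cl (H : Hyp V Y Y' J) (i : Fin 3) :
    2 * (cl (md Y Y' V) i).card + J ≤ (md Y Y' V).card := by
  have h1 : (md Y Y' V).card = ∑ j, (cl (md Y Y' V) j).card :=
    card_eq_sum_card_fiberwise fun _ _ => mem_univ _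
  have h2 : ∀ j, (cl (md Y Y' V) j).card =
      ∑ k : Fin n, ((md Y Y' V).filter fun a => a.1 = tg (j, k)).card := fun j => by
    rw [card_eq_sum_card_fiberwise (f := fun a : Gen n => a.1)
      (t := univ.image fun k => tg (j, k)), sum_image fun _ _ _ _ e => (Prod.mk.inj (tg_inj e)).2]
    · refine sum_congr rfl fun k _ => ?_
      rw [cl, filter_filter]
      exact congrArg _ (filter_congr fun a _ => and_iff_right_of_imp fun e => by rw [e]; rfl)
    · intro a ha
      obtain ⟨k1, k2⟩ := mem_filter.1 (mem_coe.1 ha)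
      obtain ⟨h, e⟩ := H.md_tag k1
      refine mem_coe.2 (mem_image.2 ⟨h.2, mem_univ _, ?_⟩)
      show tg (j, h.2) = a.1
      rw [← k2, e]
      rfl
  have h3 : ∀ j, n * (4 * J) ≤ (cl (md Y Y' V) j).card ∧
      (cl (md Y Y' V) j).card ≤ n * (6 * J) := fun j => by
    rw [h2]
    constructor
    · simpa using card_nsmul_le_sum univ _ _ fun k _ => (H.med (j, k)).1
    · simpa using sum_le_card_nsmul univ _ _ fun k _ => (H.med (j, k)).2
  have h4 : J ≤ n * J := Nat.le_mul_of_pos_left _ (by have := H.two; omega)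
  have m0 := h3 0
  have m1 := h3 1
  have m2 := h3 2
  rw [Nat.mul_left_comm, Nat.mul_left_comm n 6] at m0 m1 m2
  rw [h1, Fin.sum_univ_three]
  have h5 : ∀ i : Fin 3, i = 0 ∨ i = 1 ∨ i = 2 := by decide
  rcases h5 i with rfl | rfl | rfl <;> omega

/-! ### the terms that do not oscillate -/

variable {W : Finset (Gen n)} {p q : Pr n}

/-- the subgroup -/
def InR (W : Finset (Gen n)) (p : Pr n) : Prop := p.1 ∈ Yc n ∧ ∀ a ∈ W, a ∉ p.2

theorem InR.add (hp : InR W p) (hq : InR W q) : InR W (add p q) :=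
  ⟨mem_Yc.2 fun j => (Yne_symmDiff j _ _).2 ((mem_Yc.1 hp.1 j).add (mem_Yc.1 hq.1 j)),
    fun a ha h => (mem_symmDiff.1 h).elim (fun k => hp.2 a ha k.1) fun k => hq.2 a ha k.1⟩

def Os (W : Finset (Gen n)) (p q : Pr n) : Prop := Osc p.1 q.1 (pat W p.2 q.2)

theorem not_os (h : InR W p ∨ InR W q ∨ InR W (add p q)) : ¬Os W p q := by
  rintro ⟨f, hf, k, hk, -, ho⟩
  obtain ⟨s, hs, rfl⟩ := mem_image.1 hf
  obtain ⟨t, ht, rfl⟩ := mem_image.1 hk
  refine Nat.not_odd_iff_even.2 ?_ ho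
  rcases h with h | h | h
  · simpa [expo, tl, h.2 s hs, h.2 t ht] using (mem_Yc.1 h.1 t.1.1).mul_left _
  · simpa [expo, tl, h.2 s hs, h.2 t ht] using (mem_Yc.1 h.1 t.1.1).mul_left _
  · have e : ∀ a ∈ W, a ∈ q.2 ↔ a ∈ p.2 := fun a ha => by
      have : a ∉ symmDiff p.2 q.2 := h.2 a ha
      rw [mem_symmDiff] at this
      tauto
    have h1 := (Yne_symmDiff t.1.1 p.1 q.1).1 (mem_Yc.1 h.1 t.1.1)
    simp only [expo, tl, e s hs, e t ht, add_assoc, ← mul_add]
    refine Even.add ?_ (h1.mul_left _)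
    split_ifs
    · exact Even.zero
    · exact (Even.add_self _).mul_left _

theorem nosc (h : ¬Os W p q) {s t : Gen n} (hs : s ∈ W) (ht : t ∈ W)
    (hne : s.1 ≠ t.1) : Even (expo p.1 q.1 (tl p.2 q.2 s) (tl p.2 q.2 t)) :=
  Nat.not_odd_iff_even.1 fun k =>
    h ⟨_, mem_image_of_mem _ hs, _, mem_image_of_mem _ ht, hne, k⟩

/-- the conditions on a pair that does not oscillate -/
structure Cond (W : Finset (Gen n)) (p q : Pr n) : Prop where
  beta : ∀ t ∈ W, Even ((decide (t ∈ q.2)).toNat * Yne t.1.1 p.1 +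
    (decide (t ∈ p.2)).toNat * Yne t.1.1 q.1)
  alpha : ∀ s ∈ W, ∀ t ∈ W, s.1.1 ≠ t.1.1 → ((s ∈ p.2 ∧ t ∈ q.2) ↔ (s ∈ q.2 ∧ t ∈ p.2))

theorem Cond.symm (h : Cond W p q) : Cond W q p :=
  ⟨fun t ht => by rw [add_comm]; exact h.beta t ht, fun s hs t ht k => (h.alpha s hs t ht k).symm⟩

theorem Hyp.cond (H : Hyp V Y Y' J) (h : ¬Os (md Y Y' V) p q) : Cond (md Y Y' V) p q := by
  have beta : ∀ t ∈ md Y Y' V, Even ((decide (t ∈ q.2)).toNat * Yne t.1.1 p.1 +
      (decide (t ∈ p.2)).toNat * Yne t.1.1 q.1) := fun t ht => by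
    obtain ⟨j, e⟩ := H.md_tag ht
    have : Nontrivial (Fin n) := Fin.nontrivial_iff_two_le.2 H.two
    obtain ⟨k, hk⟩ := exists_ne j.2
    have := H.hJ
    obtain ⟨s, hs⟩ := card_pos.1 (lt_of_lt_of_le (by omega) (H.med (j.1, k)).1)
    rw [mem_filter] at hs
    have h1 := nosc h hs.1 ht fun k1 => hk (congrArg Prod.snd (tg_inj (hs.2.symm.trans (k1.trans e))))
    have h2 : s.1.1 = t.1.1 := by rw [hs.2, e]; rfl
    simpa only [expo, tl, h2, if_true, zero_add] using h1
  refine ⟨beta, fun s hs t ht hne => ?_⟩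
  have h1 := nosc h hs ht fun e => hne (by rw [e])
  have h2 := beta t ht
  rw [expo, if_neg (show ¬(tl p.2 q.2 s).1.1 = (tl p.2 q.2 t).1.1 from hne), add_assoc,
    Nat.even_add] at h1
  simp only [tl, h2, iff_true] at h1
  by_cases a : s ∈ p.2 <;> by_cases b : t ∈ q.2 <;> by_cases c : s ∈ q.2 <;>
    by_cases d : t ∈ p.2 <;> simp [a, b, c, d] at h1 ⊢

theorem Cond.two (h : Cond W p q) {s t : Gen n} (hs : s ∈ W) (ht : t ∈ W) (hne : s.1.1 ≠ t.1.1)
    (su : s ∈ p.2) (tu : t ∈ p.2) : InR W q ∨ InR W (add p q) := by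
  have e1 : s ∈ q.2 ↔ t ∈ q.2 := by
    have := h.alpha s hs t ht hne
    tauto
  have e2 : ∀ r ∈ W, r ∈ q.2 ↔ s ∈ q.2 ∧ r ∈ p.2 := fun r hr => by
    by_cases k : s.1.1 = r.1.1
    · have := h.alpha t ht r hr (k ▸ hne.symm)
      tauto
    · have := h.alpha s hs r hr k
      tauto
  have b1 := h.beta s hs
  have b2 := h.beta t ht
  by_cases k : s ∈ q.2
  · refine .inr ⟨two_even hne ((Yne_symmDiff _ _ _).2 ?_) ((Yne_symmDiff _ _ _).2 ?_),
      fun r hr h1 => ?_⟩
    · simpa only [k, su, decide_true, Bool.toNat_true, one_mul] using b1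
    · simpa only [e1.1 k, tu, decide_true, Bool.toNat_true, one_mul] using b2
    · have := e2 r hr
      have h2 := mem_symmDiff.1 h1
      tauto
  · refine .inl ⟨two_even hne ?_ ?_, fun r hr h1 => k ((e2 r hr).1 h1).1⟩
    · simpa [k, su] using b1
    · simpa [mt e1.2 k, tu] using b2

/-- the remaining pairs -/
def Nn (W : Finset (Gen n)) (p q : Pr n) : Prop :=
  ¬Os W p q ∧ ¬(InR W p ∨ InR W q ∨ InR W (add p q))

theorem Hyp.single (H : Hyp V Y Y' J) (h : Nn (md Y Y' V) p q) :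
    ∃ i, (∀ s ∈ md Y Y' V, s ∈ p.2 → s.1.1 = i) ∧ ∀ s ∈ md Y Y' V, s ∈ q.2 → s.1.1 = i := by
  have hc := H.cond h.1
  have h1 : ∀ s ∈ md Y Y' V, ∀ t ∈ md Y Y' V, s ∈ p.2 → t ∈ p.2 → s.1.1 = t.1.1 :=
    fun s hs t ht su tu => by_contra fun k => h.2 (.inr (hc.two hs ht k su tu))
  have h2 : ∀ s ∈ md Y Y' V, ∀ t ∈ md Y Y' V, s ∈ q.2 → t ∈ q.2 → s.1.1 = t.1.1 :=
    fun s hs t ht su tu => by_contra fun k => h.2 ((hc.symm.two hs ht k su tu).elim .inl
      fun k => .inr (.inr (add_comm' q p ▸ k)))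
  by_cases a : ∃ s ∈ md Y Y' V, s ∈ p.2
  · obtain ⟨s, hs, su⟩ := a
    refine ⟨s.1.1, fun t ht tu => h1 t ht s hs tu su, fun t ht tu => by_contra fun k => ?_⟩
    exact k (h1 t ht s hs ((hc.alpha s hs t ht (Ne.symm k)).1 ⟨su, tu⟩).2 su)
  · by_cases b : ∃ s ∈ md Y Y' V, s ∈ q.2
    · obtain ⟨s, hs, su⟩ := b
      exact ⟨s.1.1, fun t ht tu => (a ⟨t, ht, tu⟩).elim, fun t ht tu => h2 t ht s hs tu su⟩
    · exact ⟨0, fun t ht tu => (a ⟨t, ht, tu⟩).elim, fun t ht tu => (b ⟨t, ht, tu⟩).elim⟩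

theorem Nn_congr {y : Finset (Ix n)} {T T' : Finset (Gen n)} (e : ∀ a ∈ W, a ∈ T ↔ a ∈ T') :
    Nn W p (y, T) ↔ Nn W p (y, T') := by
  have h1 : pat W p.2 T = pat W p.2 T' := image_congr fun s hs => by simp [tl, e s hs]
  have h2 : InR W (y, T) ↔ InR W (y, T') :=
    and_congr_right fun _ => forall₂_congr fun a ha => not_congr (e a ha)
  have h3 : InR W (add p (y, T)) ↔ InR W (add p (y, T')) :=
    and_congr_right fun _ => forall₂_congr fun a ha => by
      simp only [add, mem_symmDiff, e a ha]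
  simp only [Nn, Os, h1, h2, h3]

end

/-! ### the sums -/

section
variable {V : Finset (Gen n)} {Y Y' J : ℕ} {g : Gen n → Gen n → ℤ}

def tm (g : Gen n → Gen n → ℤ) (V : Finset (Gen n)) (p q : Pr n) : ℝ :=
  (chi g (vec V p) (vec V q) : ℝ) / 2 ^ V.card

theorem Hyp.full (H : Hyp V Y Y' J) (hg : Sgn g) (p : Pr n) :
    ∑ q ∈ all Y' V, tm g V p q = if Rows g V (vec V p) then 1 else 0 := by
  refine (H.sum_param fun x => (chi g (vec V p) x : ℝ) / 2 ^ V.card).trans ?_
  rw [← sum_div, sum_chi hg]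
  split_ifs
  · exact div_self (pow_ne_zero _ two_ne_zero)
  · exact zero_div _

theorem Hyp.total (H : Hyp V Y Y' J) (hg : Sgn g) :
    ((Ker g V).card : ℝ) = ∑ p ∈ all Y' V, ∑ q ∈ all Y' V, tm g V p q := by
  rw [Ker_eq, card_filter, Nat.cast_sum, ← H.sum_param]
  refine sum_congr rfl fun p _ => ?_
  rw [H.full hg, Nat.cast_ite, Nat.cast_one, Nat.cast_zero]

open Classical in
theorem osc_eq : osc g Y Y' V =
    ∑ p ∈ all Y' V, ∑ q ∈ all Y' V, if Os (md Y Y' V) p q then tm g V p q else 0 := by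
  simp only [all, sum_product, osc]
  exact sum_congr rfl fun y _ => sum_comm

open Classical in
theorem Hyp.rset_eq (H : Hyp V Y Y' J) : rset g Y V =
    (all Y' V).filter fun p => InR (md Y Y' V) p ∧ Rows g V (vec V p) := by
  ext p
  simp only [rset, mem_filter, mem_product, mem_powerset, mem_Ker]
  constructor
  · rintro ⟨⟨h1, h2⟩, -, h3⟩
    exact ⟨mem_all.2 (H.split ▸ h2.trans subset_union_left),
      ⟨h1, fun a ha h => disjoint_left.1 (disj V Y Y') (h2 h) ha⟩, h3⟩
  · rintro ⟨h1, ⟨h2, h3⟩, h4⟩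
    refine ⟨⟨h2, fun a ha => ?_⟩, vec_sub h1, h4⟩
    have := mem_all.1 h1 ha
    rw [H.split, mem_union] at this
    exact this.resolve_right fun h => h3 a h ha

open Classical in
theorem Hyp.sum_a (H : Hyp V Y Y' J) (hg : Sgn g) :
    ∑ p ∈ all Y' V, ∑ q ∈ all Y' V, (if InR (md Y Y' V) p then tm g V p q else 0) =
      (rset g Y V).card := by
  rw [H.rset_eq, card_filter, Nat.cast_sum]
  refine sum_congr rfl fun p _ => ?_
  rw [sum_ite_irrel, H.full hg, sum_const_zero]
  by_cases a : InR (md Y Y' V) p <;> simp [a]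

open Classical in
theorem Hyp.sum_b (H : Hyp V Y Y' J) (hg : Sgn g) :
    ∑ p ∈ all Y' V, ∑ q ∈ all Y' V, (if InR (md Y Y' V) q then tm g V p q else 0) =
      (rset g Y V).card := by
  rw [sum_comm, ← H.sum_a hg]
  refine sum_congr rfl fun p _ => sum_congr rfl fun q _ => ?_
  rw [tm, tm, chi_comm hg]

theorem sum_add {p : Pr n} (hp : p ∈ all Y' V) (F : Pr n → ℝ) :
    ∑ q ∈ all Y' V, F q = ∑ q ∈ all Y' V, F (add p q) :=
  sum_nbij' (add p) (add p) (fun _ h => add_mem hp h) (fun _ h => add_mem hp h)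
    (fun q _ => add_add p q) (fun q _ => add_add p q) fun q _ => by rw [add_add]

open Classical in
theorem Hyp.sum_c (H : Hyp V Y Y' J) (hg : Sgn g) :
    ∑ p ∈ all Y' V, ∑ q ∈ all Y' V, (if InR (md Y Y' V) (add p q) then tm g V p q else 0) ≤
      (rset g Y V).card := by
  rw [sum_congr rfl fun p hp => sum_add hp _, sum_comm]
  have h1 : ∀ z ∈ all Y' V, ∑ p ∈ all Y' V,
      (if InR (md Y Y' V) (add p (add p z)) then tm g V p (add p z) else 0) =
      if InR (md Y Y' V) z ∧ Diag g V (vec V z) then 1 else 0 := fun z _ => by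
    simp only [add_add, tm, vec_add]
    rw [sum_ite_irrel, sum_const_zero,
      H.sum_param fun x => (chi g x (symmDiff x (vec V z)) : ℝ) / 2 ^ V.card, sum_diag hg, ite_and]
  rw [sum_congr rfl h1, sum_boole, Nat.cast_le, H.rset_eq]
  rcases ((all Y' V).filter fun z => InR (md Y Y' V) z ∧ Diag g V (vec V z)).eq_empty_or_nonempty
    with h | ⟨w, h⟩
  · rw [h]; exact Nat.zero_le _
  · rw [mem_filter] at h
    refine card_le_card_of_injOn (add w) (fun z hz => ?_) fun z _ z' _ e => ?_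
    · obtain ⟨k1, k2, k3⟩ := mem_filter.1 (mem_coe.1 hz)
      exact mem_coe.2 (mem_filter.2 ⟨add_mem h.1 k1, h.2.1.add k2,
        vec_add V w z ▸ h.2.2.rows hg k3⟩)
    · rw [← add_add w z, e, add_add]

open Classical in
theorem sum_ab (hg : Sgn g) (W : Finset (Gen n)) (p : Pr n) :
    0 ≤ ∑ q ∈ all Y' V, (if InR W q then tm g V p q else 0) := by
  by_cases h : ∃ w ∈ all Y' V, InR W w ∧ chi g (vec V p) (vec V w) = -1
  · obtain ⟨w, h1, h2, h3⟩ := h
    have := sum_add h1 fun q => if InR W q then tm g V p q else 0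
    have h4 : ∀ q ∈ all Y' V, (if InR W (add w q) then tm g V p (add w q) else 0) =
        -if InR W q then tm g V p q else 0 := fun q _ => by
      by_cases k : InR W q
      · rw [if_pos k, if_pos (h2.add k), tm, tm, vec_add, chi_symmDiff_right hg, h3]
        push_cast
        ring
      · rw [if_neg k, if_neg fun k1 => k (add_add w q ▸ h2.add k1), neg_zero]
    rw [sum_congr rfl h4, sum_neg_distrib] at this
    linarith
  · refine sum_nonneg fun q hq => ?_
    split_ifs with k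
    · rw [tm, (chi_sgn hg _ _).resolve_right fun e => h ⟨q, hq, k, e⟩]
      positivity
    · rfl

theorem union_symmDiff {W T : Finset (Gen n)} (hW : W ⊆ le Y V) (hT : T ⊆ md Y Y' V)
    (z : Finset (Gen n)) : symmDiff (W ∪ T) z = symmDiff W (symmDiff T z) := by
  rw [← symmDiff_assoc, ((disj V Y Y').mono hW hT).symmDiff_eq_sup, sup_eq_union]

theorem card_sub (W : Finset (Gen n)) (i : Fin 3) :
    ((W.powerset.filter (· ⊆ cl W i)).card : ℝ) ≤ 2 ^ (cl W i).card := by
  have h3 : (W.powerset.filter (· ⊆ cl W i)).card ≤ 2 ^ (cl W i).card := by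
    rw [← card_powerset]
    exact card_le_card fun T hT => mem_powerset.2 (mem_filter.1 hT).2
  exact_mod_cast h3

theorem card_ix : ((univ : Finset (Finset (Ix n))).card : ℝ) = 2 ^ (3 * n) := by simp

open Classical in
theorem Hyp.rest_le (H : Hyp V Y Y' J) (hg : Sgn g) (p : Pr n) :
    ∑ q ∈ all Y' V, (if Nn (md Y Y' V) p q then tm g V p q else 0) ≤
      ∑ i, if p.2 ∩ md Y Y' V ⊆ cl (md Y Y' V) i ∧ Rows g (le Y V) (vec V p) then
        2 ^ (3 * n) * (2 ^ (cl (md Y Y' V) i).card * (2 ^ (le Y V).card / 2 ^ V.card)) else 0 := by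
  obtain ⟨c, hc⟩ : ∃ c : ℝ, c = 2 ^ (le Y V).card / 2 ^ V.card := ⟨_, rfl⟩
  have c0 : 0 ≤ c := by rw [hc]; positivity
  have h1 : ∀ y : Finset (Ix n), ∑ U ∈ (le Y' V).powerset,
      (if Nn (md Y Y' V) p (y, U) then tm g V p (y, U) else 0) ≤
      ∑ i, if p.2 ∩ md Y Y' V ⊆ cl (md Y Y' V) i ∧ Rows g (le Y V) (vec V p) then
        2 ^ (cl (md Y Y' V) i).card * c else 0 := fun y => by
    rw [H.split, sum_powerset_union (disj V Y Y')]
    have h2 : ∀ T ∈ (md Y Y' V).powerset, ∑ W ∈ (le Y V).powerset,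
        (if Nn (md Y Y' V) p (y, W ∪ T) then tm g V p (y, W ∪ T) else 0) ≤
        ∑ i, if p.2 ∩ md Y Y' V ⊆ cl (md Y Y' V) i ∧ Rows g (le Y V) (vec V p) then
          (if T ⊆ cl (md Y Y' V) i then c else 0) else 0 := fun T hT => by
      have nn : ∀ i, (0 : ℝ) ≤ if p.2 ∩ md Y Y' V ⊆ cl (md Y Y' V) i ∧ Rows g (le Y V) (vec V p)
          then (if T ⊆ cl (md Y Y' V) i then c else 0) else 0 := fun i => by
        split_ifs <;> first | exact c0 | rfl
      have h3 : ∀ W ∈ (le Y V).powerset,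
          (if Nn (md Y Y' V) p (y, W ∪ T) then tm g V p (y, W ∪ T) else 0) =
          if Nn (md Y Y' V) p (y, T) then (chi g (vec V p) W : ℝ) / 2 ^ V.card *
            chi g (vec V p) (vec V (y, T)) else 0 := fun W hW => by
        refine if_congr (Nn_congr fun a ha => ?_) ?_ rfl
        · simp [disjoint_right.1 ((disj V Y Y').mono_left (mem_powerset.1 hW)) ha]
        · rw [tm, show vec V (y, W ∪ T) = symmDiff W (vec V (y, T)) from
            union_symmDiff (mem_powerset.1 hW) (mem_powerset.1 hT) _,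
            chi_symmDiff_right hg _ W, Int.cast_mul, mul_div_right_comm]
      rw [sum_congr rfl h3, sum_ite_irrel, sum_const_zero, ← sum_mul, ← sum_div, sum_chi hg]
      by_cases k : Nn (md Y Y' V) p (y, T)
      · rw [if_pos k]
        by_cases r : Rows g (le Y V) (vec V p)
        · obtain ⟨i, k1, k2⟩ := H.single k
          refine le_trans ?_ (single_le_sum (fun i _ => nn i) (mem_univ i))
          rw [if_pos r, if_pos ⟨fun a ha => mem_filter.2 ⟨(mem_inter.1 ha).2,
            k1 a (mem_inter.1 ha).2 (mem_inter.1 ha).1⟩, r⟩, if_pos (show T ⊆ cl _ i from fun a ha =>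
              mem_filter.2 ⟨mem_powerset.1 hT ha, k2 a (mem_powerset.1 hT ha) ha⟩), ← hc]
          exact mul_le_of_le_one_right c0 (abs_chi hg _ _)
        · rw [if_neg r, zero_div, zero_mul]
          exact sum_nonneg fun i _ => nn i
      · rw [if_neg k]
        exact sum_nonneg fun i _ => nn i
    refine (sum_le_sum h2).trans ?_
    rw [sum_comm]
    refine sum_le_sum fun i _ => ?_
    rw [sum_ite_irrel, sum_const_zero, ← sum_filter, sum_const, nsmul_eq_mul]
    split_ifs
    · exact mul_le_mul_of_nonneg_right (card_sub _ i) c0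
    · rfl
  rw [all, sum_product, ← hc]
  refine (sum_le_sum fun y _ => h1 y).trans (le_of_eq ?_)
  rw [sum_const, nsmul_eq_mul, card_ix, mul_sum]
  exact sum_congr rfl fun i _ => by rw [mul_ite, mul_zero]

theorem Hyp.sum_N (H : Hyp V Y Y' J) (hg : Sgn g) (i : Fin 3) :
    ∑ p ∈ all Y' V, (if p.2 ∩ md Y Y' V ⊆ cl (md Y Y' V) i ∧ Rows g (le Y V) (vec V p) then
      2 ^ (3 * n) * (2 ^ (cl (md Y Y' V) i).card * (2 ^ (le Y V).card / 2 ^ V.card)) else 0 : ℝ) ≤
      8 ^ n * (Ker g (le Y V)).card / 2 ^ J := by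
  obtain ⟨c, hc⟩ : ∃ c : ℝ, c = 2 ^ (3 * n) * (2 ^ (cl (md Y Y' V) i).card *
    (2 ^ (le Y V).card / 2 ^ V.card)) := ⟨_, rfl⟩
  have c0 : 0 ≤ c := by rw [hc]; positivity
  rw [← hc, all, sum_product]
  have h1 : ∀ y : Finset (Ix n), ∑ U ∈ (le Y' V).powerset,
      (if U ∩ md Y Y' V ⊆ cl (md Y Y' V) i ∧ Rows g (le Y V) (vec V (y, U)) then c else 0) ≤
      2 ^ (cl (md Y Y' V) i).card * ((Ker g (le Y V)).card * c) := fun y => by
    rw [H.split, sum_powerset_union (disj V Y Y')]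
    have h2 : ∀ T ∈ (md Y Y' V).powerset, ∑ W ∈ (le Y V).powerset,
        (if (W ∪ T) ∩ md Y Y' V ⊆ cl (md Y Y' V) i ∧
          Rows g (le Y V) (vec V (y, W ∪ T)) then c else 0) ≤
        if T ⊆ cl (md Y Y' V) i then (Ker g (le Y V)).card * c else 0 := fun T hT => by
      rw [← sum_filter, sum_const, nsmul_eq_mul]
      split_ifs with k
      · refine mul_le_mul_of_nonneg_right (Nat.cast_le.2 ?_) c0
        rw [Ker_eq]
        refine (card_le_card fun W hW => ?_).trans (coset hg _ _ (symmDiff T (ones V y)))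
        rw [mem_filter] at hW ⊢
        exact ⟨hW.1, union_symmDiff (mem_powerset.1 hW.1) (mem_powerset.1 hT) _ ▸ hW.2.2⟩
      · rw [filter_false_of_mem fun W _ h => k
          ((subset_inter subset_union_right (mem_powerset.1 hT)).trans h.1), card_empty,
          Nat.cast_zero, zero_mul]
    refine (sum_le_sum h2).trans ?_
    rw [← sum_filter, sum_const, nsmul_eq_mul]
    exact mul_le_mul_of_nonneg_right (card_sub _ i) (mul_nonneg (Nat.cast_nonneg _) c0)
  refine (sum_le_sum fun y _ => h1 y).trans ?_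
  have h4 : (2 : ℝ) ^ (2 * (cl (md Y Y' V) i).card + J + (le Y V).card + 3 * n) ≤ 2 ^ V.card :=
    pow_le_pow_right₀ one_le_two (by have := H.card_cl i; have := H.card_V; omega)
  have h5 : (8 : ℝ) ^ n = 2 ^ (3 * n) := by rw [pow_mul]; norm_num
  rw [sum_const, nsmul_eq_mul, card_ix, hc, h5, le_div_iff₀ (pow_pos two_pos _)]
  have h6 := mul_le_mul_of_nonneg_left ((div_le_one (pow_pos two_pos _)).2 h4)
    (show (0 : ℝ) ≤ 2 ^ (3 * n) * (Ker g (le Y V)).card by positivity)
  refine le_of_eq_of_le ?_ (h6.trans_eq (mul_one _))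
  simp only [pow_add, two_mul]
  ring

end

theorem logic {a b c d : Prop} [Decidable a] [Decidable b] [Decidable c] [Decidable d]
    {e : Prop} [Decidable e] (he : e ↔ ¬d ∧ ¬(a ∨ b ∨ c)) (a1 : a → b → c) (a2 : a → c → b)
    (a3 : b → c → a) (a4 : a ∨ b ∨ c → ¬d) (t : ℝ) :
    t + 2 * (if a then (if b then t else 0) else 0) = (if d then t else 0) + (if a then t else 0) +
      (if b then t else 0) + (if c then t else 0) + (if e then t else 0) := by
  by_cases ka : a <;> by_cases kb : b <;> by_cases kc : c <;> by_cases kd : d <;>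
    first
    | (exfalso; tauto)
    | (simp only [he, ka, kb, kc, kd, if_true, if_false, not_true, not_false_eq_true, or_self,
        true_or, or_true, and_false, false_and, and_self]; ring)

end Cnt

open Cnt in
theorem cnt : CNTStmt := by
  classical
  intro n g hn hg V Y Y' J h1 h2 h3 h4 h5
  have H : Hyp V Y Y' J := ⟨hn, h1, h2, h3, h4, h5⟩
  have hN := (sum_le_sum fun p (_ : p ∈ all Y' V) => H.rest_le hg p).trans
    (sum_comm.trans_le (sum_le_sum fun i _ => H.sum_N hg i))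
  rw [sum_const, card_univ, Fintype.card_fin, nsmul_eq_mul] at hN
  have hab : 0 ≤ ∑ p ∈ all Y' V, ∑ q ∈ all Y' V,
      if InR (md Y Y' V) p then (if InR (md Y Y' V) q then tm g V p q else 0) else 0 :=
    sum_nonneg fun p _ => by
      rw [sum_ite_irrel, sum_const_zero]
      split_ifs
      · exact sum_ab hg _ p
      · rfl
  have tot := sum_congr (s₁ := all Y' V) rfl fun p _ =>
    sum_congr (s₁ := all Y' V) rfl fun q _ => logic (e := Nn (md Y Y' V) p q) Iff.rfl InR.add
      (fun a b => add_add p q ▸ a.add b) (fun a b => add_add q p ▸ a.add (add_comm' p q ▸ b))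
      not_os (tm g V p q)
  simp only [sum_add_distrib, ← mul_sum] at tot
  rw [← H.total hg, ← osc_eq, H.sum_a hg, H.sum_b hg] at tot
  have hc := H.sum_c hg
  have e : (3 : ℝ) * 8 ^ n * (Ker g (le Y V)).card / 2 ^ J =
      (3 : ℕ) * (8 ^ n * (Ker g (le Y V)).card / 2 ^ J) := by push_cast; ring
  rw [e]
  linarith

end Pool.Agent.MP_a43263_nt.RG
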