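import Mathlib.Analysis.Complex.ExponentialBounds
import Pool.Agent.MP_a43263_nt.RG.Basic

/-! PROJECT RANKG: the cores are heavy, and good numbers have positive density in the class of
one. The first part follows the corresponding part of `R2.Main`. -/

set_option autoImplicit false

noncomputable section

namespace Pool.Agent.MP_a43263_nt.RG

open Finset Filter
open R2 (pri PP Sc Core Shape CC rho mu muT mem_pri mem_PP MERStmt PMStmt SWStmt)

variable {n : ℕ}

namespace Mas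

/-- the weight of a set of primes -/
def ww (A : Finset ℕ) : ℝ := ∏ p ∈ A, (1 : ℝ) / p

/-- the total weight -/
def tot (P : Finset ℕ) : ℝ := ∏ p ∈ P, (1 + (1 : ℝ) / p)

theorem ww_nonneg (A : Finset ℕ) : 0 ≤ ww A := prod_nonneg fun _ _ => by positivity

theorem tot_nonneg (P : Finset ℕ) : 0 ≤ tot P := prod_nonneg fun _ _ => by positivity

theorem sum_ww (P : Finset ℕ) : ∑ A ∈ P.powerset, ww A = tot P := (prod_one_add P).symm

/-- sets with a large product have small weight -/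
theorem markov (pm : PMStmt) {C : ℝ}
    (hC : ∀ a b : ℕ, 1 ≤ b → ∑ p ∈ pri a b, Real.log p / p ≤ Real.log b + C) {a y : ℕ}
    (hy : 2 ≤ y) (hCy : 8 * C ≤ Real.log y) {P : Finset ℕ} (hP : P ⊆ pri a y) :
    ∑ A ∈ P.powerset.filter (fun A => ¬∏ p ∈ A, p ≤ y ^ 3), ww A ≤ 3 / 8 * tot P := by
  have hL : 0 < Real.log y := Real.log_pos (by exact_mod_cast hy)
  have h1 := (pm P (fun p => 1 / (p : ℝ)) fun _ _ => by positivity).1 (fun p => Real.log p)
    (3 * Real.log y) fun _ _ => Real.log_natCast_nonneg _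
  have h2 : ∑ p ∈ P, Real.log p * (1 / (p : ℝ)) ≤ 9 / 8 * Real.log y := by
    calc _ = ∑ p ∈ P, Real.log p / p := sum_congr rfl fun _ _ => mul_one_div _ _
      _ ≤ ∑ p ∈ pri a y, Real.log p / p := sum_le_sum_of_subset_of_nonneg hP fun _ _ _ =>
          div_nonneg (Real.log_natCast_nonneg _) (Nat.cast_nonneg _)
      _ ≤ _ := by linarith [hC a y (by omega)]
  have h3 : P.powerset.filter (fun A => ¬∏ p ∈ A, p ≤ y ^ 3) ⊆
      P.powerset.filter (fun A => 3 * Real.log y < ∑ p ∈ A, Real.log p) := by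
    intro A hA
    obtain ⟨k1, k2⟩ := mem_filter.1 hA
    refine mem_filter.2 ⟨k1, ?_⟩
    have k3 : ∀ p ∈ A, (p : ℝ) ≠ 0 := fun p hp =>
      Nat.cast_ne_zero.2 (mem_pri.1 (hP (mem_powerset.1 k1 hp))).2.2.ne_zero
    rw [← Real.log_prod k3]
    have k4 : ((y ^ 3 : ℕ) : ℝ) < ((∏ p ∈ A, p : ℕ) : ℝ) := Nat.cast_lt.2 (not_le.1 k2)
    have k5 := Real.log_lt_log (Nat.cast_pos.2 (by positivity)) k4
    rwa [Nat.cast_pow, Real.log_pow, Nat.cast_prod, Nat.cast_ofNat] at k5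
  have h4 := sum_le_sum_of_subset_of_nonneg h3 fun A _ _ => ww_nonneg A
  have h5 := mul_le_mul_of_nonneg_right h2 (tot_nonneg P)
  refine le_of_mul_le_mul_left ?_ (show 0 < 3 * Real.log y by positivity)
  calc _ ≤ _ := mul_le_mul_of_nonneg_left h4 (by positivity)
    _ ≤ _ := h1
    _ ≤ _ := h5
    _ = _ := by ring

/-- sets of unusual size have small weight -/
theorem cheb (pm : PMStmt) {P : Finset ℕ} {J : ℕ} (hJ : 160 ≤ J) (hP : ∀ p ∈ P, 15 ≤ p)
    (h1 : 4.8 * J ≤ ∑ p ∈ P, (1 : ℝ) / p) (h2 : ∑ p ∈ P, (1 : ℝ) / p ≤ 5 * J) :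
    ∑ A ∈ P.powerset.filter (fun A => ¬(4 * J ≤ A.card ∧ A.card ≤ 6 * J)), ww A ≤
      1 / 8 * tot P := by
  have hJ' : (160 : ℝ) ≤ J := by exact_mod_cast hJ
  have h3 := (pm P (fun p => 1 / (p : ℝ)) fun _ _ => by positivity).2
  set m := ∑ p ∈ P, 1 / (p : ℝ) / (1 + 1 / (p : ℝ)) with hm
  have h4 : m ≤ ∑ p ∈ P, (1 : ℝ) / p := sum_le_sum fun p _ =>
    div_le_self (by positivity) (le_add_of_nonneg_right (by positivity))
  have h5 : 15 / 16 * ∑ p ∈ P, (1 : ℝ) / p ≤ m := by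
    rw [mul_sum]
    refine sum_le_sum fun p hp => ?_
    have k1 : (15 : ℝ) ≤ p := by exact_mod_cast hP p hp
    have k2 : 1 / (p : ℝ) ≤ 1 / 15 := one_div_le_one_div_of_le (by norm_num) k1
    have k3 : 0 ≤ 1 / (p : ℝ) := by positivity
    rw [le_div_iff₀ (by positivity)]
    nlinarith
  refine le_of_mul_le_mul_left ?_ (show (0 : ℝ) < J ^ 2 / 4 by positivity)
  calc _ = ∑ A ∈ P.powerset.filter (fun A => ¬(4 * J ≤ A.card ∧ A.card ≤ 6 * J)),
        (J : ℝ) ^ 2 / 4 * ww A := mul_sum _ _ _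
    _ ≤ ∑ A ∈ P.powerset.filter (fun A => ¬(4 * J ≤ A.card ∧ A.card ≤ 6 * J)),
        ((A.card : ℝ) - m) ^ 2 * ww A := by
        refine sum_le_sum fun A hA => mul_le_mul_of_nonneg_right ?_ (ww_nonneg A)
        rcases not_and_or.1 (mem_filter.1 hA).2 with k | k
        · have k1 : (A.card : ℝ) ≤ 4 * J := by exact_mod_cast (not_le.1 k).le
          nlinarith
        · have k1 : 6 * (J : ℝ) ≤ A.card := by exact_mod_cast (not_le.1 k).le
          nlinarith
    _ ≤ ∑ A ∈ P.powerset, ((A.card : ℝ) - m) ^ 2 * ww A :=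
        sum_le_sum_of_subset_of_nonneg (filter_subset _ _) fun A _ _ =>
          mul_nonneg (sq_nonneg _) (ww_nonneg A)
    _ ≤ (∑ p ∈ P, (1 : ℝ) / p) * tot P := h3
    _ ≤ (J ^ 2 / 4 * (1 / 8)) * tot P :=
        mul_le_mul_of_nonneg_right (by nlinarith) (tot_nonneg P)
    _ = _ := by ring

/-- admissible sets of small primes -/
def G0 (S : Sc) : Finset (Finset ℕ) :=
  (PP S.M 0 S.Y0).powerset.filter fun A => ∏ p ∈ A, p ≤ S.Y0 ^ 3

/-- admissible sets of medium primes -/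
def G1 (S : Sc) : Finset (Finset ℕ) :=
  (pri S.Y S.Y').powerset.filter fun B =>
    ∏ p ∈ B, p ≤ S.Y' ^ 3 ∧ (4 * S.J ≤ B.card ∧ B.card ≤ 6 * S.J)

theorem half_of {P : Finset ℕ} {q : Finset ℕ → Prop} [DecidablePred q]
    (h : ∑ A ∈ P.powerset.filter (fun A => ¬q A), ww A ≤ 1 / 2 * tot P) :
    1 / 2 * tot P ≤ ∑ A ∈ P.powerset.filter q, ww A := by
  have := sum_filter_add_sum_filter_not P.powerset q ww
  rw [sum_ww] at this
  linarith

theorem sum_not_and {P : Finset ℕ} {q r : Finset ℕ → Prop} [DecidablePred q] [DecidablePred r] :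
    ∑ A ∈ P.powerset.filter (fun A => ¬(q A ∧ r A)), ww A ≤
      ∑ A ∈ P.powerset.filter (fun A => ¬q A), ww A +
        ∑ A ∈ P.powerset.filter (fun A => ¬r A), ww A := by
  simp only [sum_filter]
  rw [← sum_add_distrib]
  refine sum_le_sum fun A _ => ?_
  have := ww_nonneg A
  by_cases h1 : q A <;> by_cases h2 : r A <;> simp [h1, h2, this]

theorem sum_union_le' (s t : Finset ℕ) :
    ∑ c ∈ s ∪ t, (1 : ℝ) / c ≤ ∑ c ∈ s, (1 : ℝ) / c + ∑ c ∈ t, (1 : ℝ) / c := by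
  rw [← sum_union_inter]
  exact le_add_of_nonneg_right (sum_nonneg fun _ _ => by positivity)

section
variable {S : Sc} {A B : Finset ℕ}

theorem prime_of_mem (hA : A ∈ G0 S) (hB : B ∈ G1 S) : ∀ p ∈ A ∪ B, p.Prime := by
  intro p hp
  rcases mem_union.1 hp with h | h
  · exact (mem_PP.1 (mem_powerset.1 (mem_filter.1 hA).1 h)).2.2.1
  · exact (mem_pri.1 (mem_powerset.1 (mem_filter.1 hB).1 h)).2.2

theorem filter_small (hR : Rel n S) (hA : A ∈ G0 S) (hB : B ∈ G1 S) :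
    (A ∪ B).filter (· ≤ S.Y0) = A := by
  rw [filter_union, filter_true_of_mem, filter_false_of_mem, union_empty]
  · intro p h
    have := (mem_pri.1 (mem_powerset.1 (mem_filter.1 hB).1 h)).1
    have := hR.Y0_le
    omega
  · exact fun p h => (mem_PP.1 (mem_powerset.1 (mem_filter.1 hA).1 h)).2.1

theorem filter_med (hR : Rel n S) (hA : A ∈ G0 S) (hB : B ∈ G1 S) :
    (A ∪ B).filter (S.Y < ·) = B := by
  rw [filter_union, filter_false_of_mem, filter_true_of_mem, empty_union]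
  · exact fun p h => (mem_pri.1 (mem_powerset.1 (mem_filter.1 hB).1 h)).1
  · intro p h
    have := (mem_PP.1 (mem_powerset.1 (mem_filter.1 hA).1 h)).2.1
    have := hR.Y0_le
    omega

theorem disj (hR : Rel n S) (hA : A ∈ G0 S) (hB : B ∈ G1 S) : Disjoint A B := by
  refine disjoint_left.2 fun p h h' => ?_
  have := (mem_PP.1 (mem_powerset.1 (mem_filter.1 hA).1 h)).2.1
  have := (mem_pri.1 (mem_powerset.1 (mem_filter.1 hB).1 h')).1
  have := hR.Y0_le
  omega

theorem core (hR : Rel n S) (hM : 0 < S.M) (hY : S.M ≤ S.Y) (hA : A ∈ G0 S) (hB : B ∈ G1 S)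
    {e : ℕ} (he : ((A ∪ B).card + 1) % 2 = e % 2) :
    Core { S with e := e } (∏ p ∈ A ∪ B, p) := by
  have hp := prime_of_mem hA hB
  have hf := Nat.primeFactors_prod hp
  refine ⟨?_, ?_, ?_, ?_, ?_, ?_, ?_, ?_⟩
  · refine Finset.squarefree_prod_of_pairwise_isCoprime (fun p h q h' hne => ?_)
      fun p h => (hp p h).squarefree
    exact Nat.coprime_iff_isRelPrime.1 ((Nat.coprime_primes (hp p h) (hp q h')).2 hne)
  · refine Nat.Coprime.prod_left fun p h => (hp p h).coprime_iff_not_dvd.2 ?_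
    rcases mem_union.1 h with h | h
    · exact (mem_PP.1 (mem_powerset.1 (mem_filter.1 hA).1 h)).2.2.2
    · intro hd
      have := Nat.le_of_dvd hM hd
      have := (mem_pri.1 (mem_powerset.1 (mem_filter.1 hB).1 h)).1
      omega
  · rw [hf]
    intro p h
    rcases mem_union.1 h with h | h
    · exact .inl (mem_PP.1 (mem_powerset.1 (mem_filter.1 hA).1 h)).2.1
    · have := mem_pri.1 (mem_powerset.1 (mem_filter.1 hB).1 h)
      exact .inr ⟨this.1, this.2.1⟩
  · rw [hf, filter_small hR hA hB]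
    exact (mem_filter.1 hA).2
  · rw [hf, filter_med hR hA hB]
    exact (mem_filter.1 hB).2.1
  · rw [hf, filter_med hR hA hB]
    exact (mem_filter.1 hB).2.2.1
  · rw [hf, filter_med hR hA hB]
    exact (mem_filter.1 hB).2.2.2
  · rw [hf]
    exact he

end

/-- the cores are at least as heavy as the pairs of admissible sets -/
theorem prod_le_muT {S : Sc} (hR : Rel n S) (hM : 0 < S.M) (hY : S.M ≤ S.Y) :
    (∑ A ∈ G0 S, ww A) * ∑ B ∈ G1 S, ww B ≤ muT S := by
  rw [sum_mul_sum, ← sum_product']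
  have h1 : ∀ x ∈ G0 S ×ˢ G1 S, ww x.1 * ww x.2 = (1 : ℝ) / (∏ p ∈ x.1 ∪ x.2, p : ℕ) := by
    intro x hx
    obtain ⟨hA, hB⟩ := mem_product.1 hx
    rw [ww, ww, ← prod_union (disj hR hA hB), Nat.cast_prod, prod_div_distrib, prod_const_one]
  have h2 : Set.InjOn (fun x : Finset ℕ × Finset ℕ => ∏ p ∈ x.1 ∪ x.2, p) (G0 S ×ˢ G1 S :) := by
    intro x hx y hy e
    obtain ⟨hA, hB⟩ := mem_product.1 (mem_coe.1 hx)
    obtain ⟨hA', hB'⟩ := mem_product.1 (mem_coe.1 hy)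
    have e' : x.1 ∪ x.2 = y.1 ∪ y.2 := by
      rw [← Nat.primeFactors_prod (prime_of_mem hA hB),
        ← Nat.primeFactors_prod (prime_of_mem hA' hB')]
      exact congrArg Nat.primeFactors e
    refine Prod.ext ?_ ?_
    · rw [← filter_small hR hA hB, e', filter_small hR hA' hB']
    · rw [← filter_med hR hA hB, e', filter_med hR hA' hB']
  rw [sum_congr rfl h1, ← sum_image (f := fun c : ℕ => (1 : ℝ) / c) h2]
  refine le_trans (sum_le_sum_of_subset_of_nonneg ?_ fun _ _ _ => by positivity)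
    (sum_union_le' _ _)
  intro c hc
  obtain ⟨x, hx, rfl⟩ := mem_image.1 hc
  obtain ⟨hA, hB⟩ := mem_product.1 hx
  rcases Nat.mod_two_eq_zero_or_one ((x.1 ∪ x.2).card + 1) with h | h
  · exact mem_union_left _ ((hR.par 0).mem_CC.2 (core hR hM hY hA hB h))
  · exact mem_union_right _ ((hR.par 1).mem_CC.2 (core hR hM hY hA hB h))

theorem tot_le_rho {M : ℕ} (hM : 0 < M) : tot M.primeFactors ≤ rho M := by
  have h1 : (M.totient : ℝ) = M * ∏ p ∈ M.primeFactors, (1 - (p : ℝ)⁻¹) := by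
    have := congrArg (fun q : ℚ => (q : ℝ)) (Nat.totient_eq_mul_prod_factors M)
    simpa using this
  rw [rho, le_div_iff₀ (Nat.cast_pos.2 (Nat.totient_pos.2 hM)), h1, mul_left_comm, tot,
    ← prod_mul_distrib]
  refine mul_le_of_le_one_right (Nat.cast_nonneg _) (prod_le_one (fun p hp => ?_) fun p _ => ?_)
  · have k : (1 : ℝ) ≤ p := by exact_mod_cast (Nat.prime_of_mem_primeFactors hp).pos
    exact mul_nonneg (by positivity) (sub_nonneg.2 (inv_le_one_of_one_le₀ k))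
  · rw [one_div]
    nlinarith [sq_nonneg (p : ℝ)⁻¹]

theorem tot_pri_le {M : ℕ} (hM : 0 < M) (y : ℕ) : tot (pri 1 y) ≤ rho M * tot (PP M 0 y) := by
  have h0 : ∀ p : ℕ, (1 : ℝ) ≤ 1 + 1 / p := fun p => le_add_of_nonneg_right (by positivity)
  have h1 : ∀ s t : Finset ℕ, s ⊆ t → tot s ≤ tot t := fun s t h =>
    prod_le_prod_of_subset_of_one_le h (fun p _ => zero_le_one.trans (h0 p)) fun p _ _ => h0 p
  rw [tot, ← prod_filter_mul_prod_filter_not _ (· ∣ M)]
  refine mul_le_mul (le_trans (h1 _ _ fun p hp => ?_) (tot_le_rho hM)) (h1 _ _ fun p hp => ?_)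
    (tot_nonneg _) ((tot_nonneg _).trans (tot_le_rho hM))
  · obtain ⟨k1, k2⟩ := mem_filter.1 hp
    exact Nat.mem_primeFactors.2 ⟨(mem_pri.1 k1).2.2, k2, hM.ne'⟩
  · obtain ⟨k1, k2⟩ := mem_filter.1 hp
    have := mem_pri.1 k1
    exact mem_PP.2 ⟨by omega, this.2.1, this.2.2, k2⟩

theorem ev_le_log (n M J : ℕ) (C : ℝ) : Ev n M J fun S => C ≤ Real.log S.Y0 :=
  ev_Y0 (p := fun y => C ≤ Real.log y)
    ((Real.tendsto_log_atTop.comp tendsto_natCast_atTop_atTop).eventually_ge_atTop C)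

end Mas

open Mas in
theorem mas : MERStmt → PMStmt → MASStmt := by
  rintro ⟨⟨C₁, h1⟩, ⟨C₂, h2⟩, -, ⟨c, hc, h4⟩, -⟩ pm n
  have hE : (1 : ℝ) ≤ EE n := Nat.one_le_cast.2 (EE_pos n)
  refine ⟨c ^ 2 / (16 * EE n ^ 2), 160, by positivity, fun M J hM hJ => ?_⟩
  refine (((ev_ge (max M 15)).and (ev_le_log n M J (max (max C₁ (8 * C₂)) 1)))).mono
    fun S hS hS' hR ⟨k1, k2⟩ => ?_
  subst hS hS'
  have a1 := hR.Y0_le
  have a2 := hR.Y_le
  have a3 : S.M ≤ S.Y0 := le_of_max_le_left k1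
  have a4 : 15 ≤ S.Y0 := le_of_max_le_right k1
  have b1 : C₁ ≤ Real.log S.Y0 := le_of_max_le_left (le_of_max_le_left k2)
  have b2 : 8 * C₂ ≤ Real.log S.Y0 := le_of_max_le_right (le_of_max_le_left k2)
  have b3 : 1 ≤ Real.log S.Y0 := le_of_max_le_right k2
  have c1 := hR.log_Y
  have c0 : Real.log S.Y0 ≤ EE n * Real.log S.Y0 := le_mul_of_one_le_left (by linarith) hE
  have c2 : Real.log S.Y ≤ Real.log S.Y' :=
    Real.log_le_log (Nat.cast_pos.2 (by omega)) (Nat.cast_le.2 a2)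
  have hJ' : (160 : ℝ) ≤ S.J := by exact_mod_cast hJ
  have d0 : 1 / 2 * tot (PP S.M 0 S.Y0) ≤ ∑ A ∈ G0 S, ww A := by
    refine half_of ((markov pm h2 (a := 0) (P := PP S.M 0 S.Y0) (by omega) b2
      (filter_subset _ _)).trans ?_)
    linarith [tot_nonneg (PP S.M 0 S.Y0)]
  have d1 : 1 / 2 * tot (pri S.Y S.Y') ≤ ∑ A ∈ G1 S, ww A := by
    have e1 := h1 S.Y S.Y' (by omega) a2
    have e2 : Real.log (Real.log S.Y' / Real.log S.Y) = S.J * (7 * Real.log 2) := by
      rw [hR.log_Y', mul_div_cancel_right₀ _ (by linarith), Real.log_pow,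
        show (128 : ℝ) = 2 ^ 7 by norm_num, Real.log_pow, Nat.cast_ofNat]
    have e3 : C₁ / Real.log S.Y ≤ 1 := (div_le_one (by linarith)).2 (by linarith)
    rw [e2] at e1
    have e4 := abs_le.1 (e1.trans e3)
    have e5 := Real.log_two_gt_d9
    have e6 := Real.log_two_lt_d9
    have e7 := cheb pm (P := pri S.Y S.Y') hJ
      (fun p hp => by have := (mem_pri.1 hp).1; omega) (by nlinarith) (by nlinarith)
    have e8 := markov pm h2 (a := S.Y) (y := S.Y') (by omega) (by linarith) subset_rfl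
    exact half_of (sum_not_and.trans (by linarith))
  have f0 := h4 1 S.Y0 le_rfl (by omega)
  rw [Nat.cast_one, Real.log_one, add_zero, one_mul] at f0
  have f1 := f0.trans (tot_pri_le hM S.Y0)
  have f2 : c * Real.log S.Y' ≤ 2 * EE n * Real.log S.Y0 * tot (pri S.Y S.Y') :=
    (h4 S.Y S.Y' (by omega) a2).trans
      (mul_le_mul_of_nonneg_right (by linarith) (tot_nonneg _))
  have f3 := (mul_le_mul d0 d1 (mul_nonneg (by norm_num) (tot_nonneg _))
    (sum_nonneg fun _ _ => ww_nonneg _)).trans (prod_le_muT hR hM (by omega))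
  have f4 : 0 ≤ rho S.M := (tot_nonneg _).trans (tot_le_rho hM)
  have f5 := hR.log_Z_le
  calc c ^ 2 / (16 * EE n ^ 2) * Real.log S.Z
      ≤ c ^ 2 / (16 * EE n ^ 2) * (2 * EE n * Real.log S.Y') :=
        mul_le_mul_of_nonneg_left f5 (by positivity)
    _ = c / (8 * EE n) * (c * Real.log S.Y') := by field_simp; ring
    _ ≤ c / (8 * EE n) * (2 * EE n * Real.log S.Y0 * tot (pri S.Y S.Y')) :=
        mul_le_mul_of_nonneg_left f2 (by positivity)
    _ = c * Real.log S.Y0 * (tot (pri S.Y S.Y') / 4) := by field_simp; ring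
    _ ≤ rho S.M * tot (PP S.M 0 S.Y0) * (tot (pri S.Y S.Y') / 4) :=
        mul_le_mul_of_nonneg_right f1 (div_nonneg (tot_nonneg _) (by norm_num))
    _ = rho S.M * (1 / 2 * tot (PP S.M 0 S.Y0) * (1 / 2 * tot (pri S.Y S.Y'))) := by ring
    _ ≤ _ := mul_le_mul_of_nonneg_left f3 f4

namespace Den

/-- primes in a progression beyond a threshold -/
theorem primes_ge (sw : SWStmt) {q : ℕ} (hq : 1 < q) : ∀ᶠ x : ℝ in atTop, ∀ (c Y : ℕ) (L : ℝ),
    c.Coprime q → 4 * q * (Y : ℝ) ^ 2 ≤ x → Real.log x ≤ L →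
    x / (2 * q.totient) ≤ L * ((pri Y ⌊x⌋₊).filter fun p => c * p % q = 1).card := by
  filter_upwards [sw 1 1, Real.tendsto_log_atTop.eventually_ge_atTop (4 * (q : ℝ)),
    eventually_ge_atTop (1 : ℝ)] with x h1 h2 h3 c Y L hc hY hL
  obtain ⟨a, -, ha⟩ := Nat.exists_mul_mod_eq_one_of_coprime hc hq
  have hq' : (1 : ℝ) < q := Nat.one_lt_cast.2 hq
  have ha' : a.Coprime q := by
    refine Nat.Coprime.coprime_mul_left (k := c) ?_
    rw [Nat.Coprime, Nat.gcd_comm, Nat.gcd_rec, ha, Nat.gcd_one_left]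
  have h4 := h1 x q a (by linarith) le_rfl hq.le (by rw [pow_one]; linarith) ha'
  rw [pow_one] at h4
  have t0 : (0 : ℝ) < q.totient := Nat.cast_pos.2 (Nat.totient_pos.2 (by omega))
  have t1 : (q.totient : ℝ) ≤ q := Nat.cast_le.2 (Nat.totient_le q)
  have h5 : x / Real.log x ≤ x / (4 * q.totient) :=
    div_le_div_of_nonneg_left (by linarith) (by positivity) (by linarith)
  have h6 : (Y : ℝ) ^ 2 ≤ x / (4 * q.totient) := by
    rw [le_div_iff₀ (by positivity)]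
    nlinarith [sq_nonneg (Y : ℝ)]
  set T := (pri Y ⌊x⌋₊).filter fun p => c * p % q = 1 with hT
  have h7 : (pri 0 ⌊x⌋₊).filter (fun p => p ≡ a [MOD q]) ⊆ Ioc 0 Y ∪ T := by
    intro p hp
    obtain ⟨k1, k2⟩ := mem_filter.1 hp
    obtain ⟨k3, k4, k5⟩ := mem_pri.1 k1
    rcases le_or_gt p Y with k | k
    · exact mem_union_left _ (mem_Ioc.2 ⟨k3, k⟩)
    · exact mem_union_right _ (mem_filter.2 ⟨mem_pri.2 ⟨k, k4, k5⟩, Eq.trans (k2.mul_left c) ha⟩)
  have h8 : ∑ p ∈ Ioc 0 Y, Real.log p ≤ (Y : ℝ) ^ 2 := by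
    refine (sum_le_card_nsmul _ _ (Y : ℝ) fun p hp => ?_).trans_eq (by simp [sq])
    exact (Real.log_le_self (Nat.cast_nonneg _)).trans (Nat.cast_le.2 (mem_Ioc.1 hp).2)
  have h9 : ∑ p ∈ T, Real.log p ≤ L * T.card := by
    refine (sum_le_card_nsmul _ _ L fun p hp => ?_).trans_eq (by rw [nsmul_eq_mul, mul_comm])
    obtain ⟨-, k4, k5⟩ := mem_pri.1 (mem_filter.1 hp).1
    exact (Real.log_le_log (Nat.cast_pos.2 k5.pos)
      ((Nat.cast_le.2 k4).trans (Nat.floor_le (by linarith)))).trans hL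
  have h10 : ∑ p ∈ Ioc 0 Y ∪ T, Real.log p ≤ ∑ p ∈ Ioc 0 Y, Real.log p + ∑ p ∈ T, Real.log p := by
    rw [← sum_union_inter]
    exact le_add_of_nonneg_right (sum_nonneg fun _ _ => Real.log_natCast_nonneg _)
  have h11 := sum_le_sum_of_subset_of_nonneg (f := fun p : ℕ => Real.log p) h7
    fun _ _ _ => Real.log_natCast_nonneg _
  have h12 : x / q.totient = x / (2 * q.totient) + 2 * (x / (4 * q.totient)) := by
    field_simp; ring
  linarith [(abs_le.1 h4).1]

open Classical in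
/-- pairs of a core and a large prime give good numbers in the class of one -/
theorem sum_card_le {S : Sc} (hR : Rel n S) {q : ℕ} (hq : 2 * q ≤ S.Z) :
    ∑ c ∈ CC S, ((pri S.Y' ⌊(S.Z : ℝ) / (2 * c)⌋₊).filter fun p => c * p % q = 1).card ≤
      ((range (S.Z / q)).filter fun k => Shape S (1 + q * k)).card := by
  rw [← card_sigma]
  have key : ∀ x ∈ (CC S).sigma fun c =>
      (pri S.Y' ⌊(S.Z : ℝ) / (2 * c)⌋₊).filter fun p => c * p % q = 1,
      Core S x.1 ∧ x.2.Prime ∧ S.Y' < x.2 ∧ 1 + q * (x.1 * x.2 / q) = x.1 * x.2 ∧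
        2 * (x.1 * x.2) ≤ S.Z := by
    intro x hx
    obtain ⟨k1, k2⟩ := mem_sigma.1 hx
    obtain ⟨k3, k4⟩ := mem_filter.1 k2
    obtain ⟨k5, k6, k7⟩ := mem_pri.1 k3
    have hc := hR.mem_CC.1 k1
    have c0 : (0 : ℝ) < x.1 := Nat.cast_pos.2 hc.pos
    refine ⟨hc, k7, k5, ?_, ?_⟩
    · rw [← k4]
      exact Nat.mod_add_div _ _
    · have := (Nat.le_floor_iff (by positivity)).1 k6
      rw [le_div_iff₀ (by positivity)] at this
      have e : ((2 * (x.1 * x.2) : ℕ) : ℝ) ≤ S.Z := by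
        push_cast
        linarith
      exact_mod_cast e
  refine card_le_card_of_injOn (fun x => x.1 * x.2 / q) (fun x hx => ?_) fun x hx y hy e => ?_
  · obtain ⟨k1, k2, k3, k4, k5⟩ := key x (mem_coe.1 hx)
    refine mem_coe.2 (mem_filter.2 ⟨mem_range.2 ?_, x.1, x.2, k1, k2, k3, k4⟩)
    rcases Nat.eq_zero_or_pos q with h0 | h0
    · subst h0
      have := k1.pos
      have := k2.two_le
      nlinarith
    · refine (Nat.le_div_iff_mul_le h0).2 ?_
      rw [Nat.succ_mul, mul_comm]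
      beta_reduce
      omega
  · obtain ⟨k1, k2, k3, k4, -⟩ := key x (mem_coe.1 hx)
    obtain ⟨l1, l2, l3, l4, -⟩ := key y (mem_coe.1 hy)
    have e' : x.1 * x.2 = y.1 * y.2 := by
      rw [← k4, ← l4]
      exact congrArg (1 + q * ·) e
    obtain ⟨e1, e2⟩ := hR.unique k1 k2 k3 l1 l2 l3 e'
    exact Sigma.ext e1 (heq_of_eq e2)

theorem totient_eight {M : ℕ} (h : 2 ∣ M) : (8 * M).totient = 8 * M.totient := by
  have e : 8 * M = 2 * (2 * (2 * M)) := by ring
  rw [e, Nat.totient_mul_of_prime_of_dvd Nat.prime_two (dvd_mul_right _ _),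
    Nat.totient_mul_of_prime_of_dvd Nat.prime_two (dvd_mul_right _ _),
    Nat.totient_mul_of_prime_of_dvd Nat.prime_two h]
  ring

end Den

open Den in
theorem den : SWStmt → MASStmt → DENStmt := by
  intro sw mas n
  obtain ⟨c, J₀, hc, h⟩ := mas n
  refine ⟨c / 8, J₀, by positivity, fun M J hM h2 hJ => ?_⟩
  obtain ⟨x₀, hx⟩ := eventually_atTop.1 (primes_ge sw (q := 8 * M) (by omega))
  refine ((h M J hM hJ).and (ev_ge (max ⌈x₀⌉₊ (64 * M)))).mono fun S hS _ hR ⟨k1, k2⟩ => ?_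
  have a1 : 64 * M ≤ S.Y' := (le_of_max_le_right k2).trans (hR.Y0_le.trans hR.Y_le)
  have a2 : x₀ ≤ S.Y' :=
    Nat.ceil_le.1 ((le_of_max_le_left k2).trans (hR.Y0_le.trans hR.Y_le))
  have a3 := hR.Y'_le
  have a4 : S.Y' ^ 9 ≤ S.Z := (Nat.pow_le_pow_right (by omega) (by have := le_EE n; omega)).trans hR.lo
  have z1 : (1 : ℝ) < S.Z := Nat.one_lt_cast.2 (by omega)
  have z2 : 0 < Real.log S.Z := Real.log_pos z1
  have y1 : (64 : ℝ) * M ≤ S.Y' := by exact_mod_cast a1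
  have m1 : (1 : ℝ) ≤ M := Nat.one_le_cast.2 hM
  have t0 : (0 : ℝ) < M.totient := Nat.cast_pos.2 (Nat.totient_pos.2 hM)
  obtain ⟨e, he⟩ : ∃ e : ℕ, muT S ≤ 2 * mu { S with e := e } := by
    rcases le_total (mu { S with e := 0 }) (mu { S with e := 1 }) with k | k
    · exact ⟨1, by rw [muT]; linarith⟩
    · exact ⟨0, by rw [muT]; linarith⟩
  refine ⟨e, ?_⟩
  have b1 := (Nat.cast_le (α := ℝ)).2 (sum_card_le (hR.par e) (q := 8 * M) (show _ ≤ S.Z by omega))
  rw [Nat.cast_sum] at b1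
  refine le_trans ?_ b1
  have b2 : ∀ d ∈ CC { S with e := e }, (S.Z : ℝ) / (32 * M.totient) * (1 / d) ≤ Real.log S.Z *
      ((pri S.Y' ⌊(S.Z : ℝ) / (2 * d)⌋₊).filter fun p => d * p % (8 * M) = 1).card := by
    intro d hd
    have hc := (hR.par e).mem_CC.1 hd
    have d1 : (1 : ℝ) ≤ d := Nat.one_le_cast.2 hc.pos
    have d2 : (d : ℝ) ≤ (S.Y' : ℝ) ^ 6 := by exact_mod_cast (hR.par e).le_pow hc
    have d3 : (S.Y' : ℝ) ^ 9 ≤ S.Z := by exact_mod_cast a4
    have d4 : d.Coprime M := hS ▸ hc.cop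
    have d5 : 4 * ((8 * M : ℕ) : ℝ) * (S.Y' : ℝ) ^ 2 ≤ S.Z / (2 * d) := by
      rw [le_div_iff₀ (by positivity)]
      push_cast
      calc _ = 64 * (M : ℝ) * (S.Y' : ℝ) ^ 2 * d := by ring
        _ ≤ S.Y' * (S.Y' : ℝ) ^ 2 * (S.Y' : ℝ) ^ 6 := by gcongr
        _ = (S.Y' : ℝ) ^ 9 := by ring
        _ ≤ _ := d3
    have d6 : x₀ ≤ S.Z / (2 * d) := by
      refine le_trans ?_ d5
      push_cast
      nlinarith
    have d7 := hx _ d6 d S.Y' (Real.log S.Z)
      (Nat.Coprime.mul_right (Nat.Coprime.pow_right 3 (d4.coprime_dvd_right h2)) d4) d5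
      (Real.log_le_log (by positivity) (div_le_self (by positivity) (by linarith)))
    rw [totient_eight h2] at d7
    refine le_trans (le_of_eq ?_) d7
    push_cast
    field_simp
    ring
  have b3 := sum_le_sum b2
  rw [← mul_sum, ← mul_sum] at b3
  refine le_of_mul_le_mul_left (le_trans ?_ b3) z2
  have b4 : ((S.Z / (8 * M) : ℕ) : ℝ) ≤ S.Z / (8 * M) := by
    have := Nat.cast_div_le (α := ℝ) (m := S.Z) (n := 8 * M)
    rwa [Nat.cast_mul, Nat.cast_ofNat] at this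
  have b5 : c * Real.log S.Z ≤ M / M.totient * (2 * mu { S with e := e }) :=
    k1.trans (mul_le_mul_of_nonneg_left he (by rw [rho]; positivity))
  calc _ ≤ Real.log S.Z * (c / 8 * (S.Z / (8 * M))) := by gcongr
    _ = S.Z / (64 * M) * (c * Real.log S.Z) := by field_simp; ring
    _ ≤ S.Z / (64 * M) * (M / M.totient * (2 * mu { S with e := e })) :=
        mul_le_mul_of_nonneg_left b5 (by positivity)
    _ = S.Z / (32 * M.totient) * mu { S with e := e } := by field_simp; ring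

end Pool.Agent.MP_a43263_nt.RG

end
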