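import Pool.Agent.MP_a43263_nt.RG.Cert

/-! PROJECT RANKG: examples of surfaces that satisfy the hypotheses of the main theorem. -/

set_option autoImplicit false
set_option linter.unusedTactic false
set_option linter.unreachableTactic false
set_option linter.unnecessarySeqFocus false
set_option linter.unusedSimpArgs false

namespace Pool.Agent.MP_a43263_nt.RG

namespace Cert

open RatFunc

theorem gd_cast {n : ℕ} {F : Surf n} {y y' : Finset (Ix n)} (h : Gd F y) (e : y = y') : Gd F y' :=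
  e ▸ h

def S0 : Surf 2 where
  A := fun j => ![![0, 2], ![1, 1], ![1, 1]] j.1 j.2
  B := fun j => ![![1, 1], ![2, 0], ![1, -1]] j.1 j.2
  c := ![1, 1, 1]

theorem S0_pre : Pre S0 where
  pos := by norm_num
  c0 := by decide
  ne := by decide +kernel
  sum := fun K _ v => by
    simp [Surf.D, Surf.L, S0, Fin.prod_univ_two]
    ring

theorem S0_g0 : Gd S0 ({(1, 0), (1, 1), (2, 0), (2, 1)} : Finset (Ix 2)) :=
  gd_of S0_pre ![1, -1, -1] _ (by decide +kernel) 0 1 1 (1) (by norm_num)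
    (by simp [PP, Surf.D, Surf.L, S0, Fin.prod_univ_two] <;> ring)
    (by simp [PP, Surf.D, Surf.L, S0, Fin.prod_univ_two] <;> ring)

theorem S0_g1 : Gd S0 ({(0, 0), (0, 1), (1, 0), (1, 1)} : Finset (Ix 2)) :=
  gd_of S0_pre ![1, 1, 1] _ (by decide +kernel) 1 0 (1) (1) (by norm_num)
    (by simp [PP, Surf.D, Surf.L, S0, Fin.prod_univ_two] <;> ring)
    (by simp [PP, Surf.D, Surf.L, S0, Fin.prod_univ_two] <;> ring)

theorem S0_b0 : Gd S0 ({(1, 0), (1, 1), (2, 0), (2, 1)} : Finset (Ix 2)) :=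
  gd_cast S0_g0 (by decide +kernel)

theorem S0_b1 : Gd S0 ({(0, 0), (0, 1), (2, 0), (2, 1)} : Finset (Ix 2)) :=
  gd_cast (S0_g0.mul S0_pre S0_g1) (by decide +kernel)

theorem S0_cert : {y | ∃ u, S0.InS u y}.ncard = 2 ^ 2 ∧ ∀ u y, S0.InS u y → Sol S0 u y :=
  cert' S0_pre (b := ![({(1, 0), (1, 1), (2, 0), (2, 1)} : Finset (Ix 2)), ({(0, 0), (0, 1), (2, 0), (2, 1)} : Finset (Ix 2))])
    (pv := ![(1, 0), (0, 0)]) (by decide +kernel)
    (fun i => by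
      fin_cases i
      exacts [S0_b0, S0_b1])
    [5] (by decide) 0 [(0, 1), (1, 1), (2, 0), (2, 1)] (by decide +kernel) (by decide +kernel)

theorem S0_hyp : S0.Hyp 0 :=
  hyp_of S0_pre (by decide) 0 (by decide +kernel) S0_cert

def S1 : Surf 2 where
  A := fun j => ![![0, 3], ![1, 1], ![1, 1]] j.1 j.2
  B := fun j => ![![1, 1], ![3, 0], ![1, -1]] j.1 j.2
  c := ![1, 1, 1]

theorem S1_pre : Pre S1 where
  pos := by norm_num
  c0 := by decide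
  ne := by decide +kernel
  sum := fun K _ v => by
    simp [Surf.D, Surf.L, S1, Fin.prod_univ_two]
    ring

theorem S1_g0 : Gd S1 ({(1, 0), (1, 1), (2, 0), (2, 1)} : Finset (Ix 2)) :=
  gd_of S1_pre ![1, -1, -1] _ (by decide +kernel) 0 1 1 (1) (by norm_num)
    (by simp [PP, Surf.D, Surf.L, S1, Fin.prod_univ_two] <;> ring)
    (by simp [PP, Surf.D, Surf.L, S1, Fin.prod_univ_two] <;> ring)

theorem S1_g1 : Gd S1 ({(0, 0), (0, 1), (1, 0), (1, 1)} : Finset (Ix 2)) :=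
  gd_of S1_pre ![1, 1, 1] _ (by decide +kernel) 1 0 (1) (1) (by norm_num)
    (by simp [PP, Surf.D, Surf.L, S1, Fin.prod_univ_two] <;> ring)
    (by simp [PP, Surf.D, Surf.L, S1, Fin.prod_univ_two] <;> ring)

theorem S1_g2 : Gd S1 ({(0, 0), (1, 1), (2, 1)} : Finset (Ix 2)) :=
  gd_of S1_pre ![1, -1, -1] _ (by decide +kernel) ((1)) ((2)) ((1)) (1) (by norm_num)
    (by simp [PP, Surf.D, Surf.L, S1, Fin.prod_univ_two] <;> ring)
    (by simp [PP, Surf.D, Surf.L, S1, Fin.prod_univ_two] <;> ring)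

theorem S1_b0 : Gd S1 ({(1, 0), (1, 1), (2, 0), (2, 1)} : Finset (Ix 2)) :=
  gd_cast S1_g0 (by decide +kernel)

theorem S1_b1 : Gd S1 ({(0, 0), (1, 1), (2, 1)} : Finset (Ix 2)) :=
  gd_cast S1_g2 (by decide +kernel)

theorem S1_b2 : Gd S1 ({(0, 1), (1, 1), (2, 0)} : Finset (Ix 2)) :=
  gd_cast ((S1_g0.mul S1_pre S1_g1).mul S1_pre S1_g2) (by decide +kernel)

theorem S1_cert : {y | ∃ u, S1.InS u y}.ncard = 2 ^ 3 ∧ ∀ u y, S1.InS u y → Sol S1 u y :=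
  cert' S1_pre (b := ![({(1, 0), (1, 1), (2, 0), (2, 1)} : Finset (Ix 2)), ({(0, 0), (1, 1), (2, 1)} : Finset (Ix 2)), ({(0, 1), (1, 1), (2, 0)} : Finset (Ix 2))])
    (pv := ![(1, 0), (0, 0), (0, 1)]) (by decide +kernel)
    (fun i => by
      fin_cases i
      exacts [S1_b0, S1_b1, S1_b2])
    [] (by decide) 0 [(1, 1), (2, 0), (2, 1)] (by decide +kernel) (by decide +kernel)

theorem S1_hyp : S1.Hyp 1 :=
  hyp_of S1_pre (by decide) 0 (by decide +kernel) S1_cert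

def S2 : Surf 2 where
  A := fun j => ![![0, 1], ![1, 4], ![1, 4]] j.1 j.2
  B := fun j => ![![1, 0], ![1, 9], ![9, 1]] j.1 j.2
  c := ![-24, 1, 1]

theorem S2_pre : Pre S2 where
  pos := by norm_num
  c0 := by decide
  ne := by decide +kernel
  sum := fun K _ v => by
    simp [Surf.D, Surf.L, S2, Fin.prod_univ_two]
    ring

theorem S2_g0 : Gd S2 ({(1, 0), (1, 1), (2, 0), (2, 1)} : Finset (Ix 2)) :=
  gd_of S2_pre ![1, -1, -1] _ (by decide +kernel) 0 1 1 (1) (by norm_num)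
    (by simp [PP, Surf.D, Surf.L, S2, Fin.prod_univ_two] <;> ring)
    (by simp [PP, Surf.D, Surf.L, S2, Fin.prod_univ_two] <;> ring)

theorem S2_g1 : Gd S2 ({(0, 0), (0, 1), (1, 0), (1, 1)} : Finset (Ix 2)) :=
  gd_of S2_pre ![1, -24, -24] _ (by decide +kernel) 1 0 (-24) (-24) (by norm_num)
    (by simp [PP, Surf.D, Surf.L, S2, Fin.prod_univ_two] <;> ring)
    (by simp [PP, Surf.D, Surf.L, S2, Fin.prod_univ_two] <;> ring)

theorem S2_g2 : Gd S2 ({(0, 0), (1, 1), (2, 1)} : Finset (Ix 2)) :=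
  gd_of S2_pre ![1, -3, -3] _ (by decide +kernel) ((1)) ((3)) ((9)) (6) (by norm_num)
    (by simp [PP, Surf.D, Surf.L, S2, Fin.prod_univ_two] <;> ring)
    (by simp [PP, Surf.D, Surf.L, S2, Fin.prod_univ_two] <;> ring)

theorem S2_g3 : Gd S2 ({(0, 1), (1, 1), (2, 1)} : Finset (Ix 2)) :=
  gd_of S2_pre ![1, 3, 3] _ (by decide +kernel) ((1)) ((3)) ((3)) (3) (by norm_num)
    (by simp [PP, Surf.D, Surf.L, S2, Fin.prod_univ_two] <;> ring)
    (by simp [PP, Surf.D, Surf.L, S2, Fin.prod_univ_two] <;> ring)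

theorem S2_b0 : Gd S2 ({(1, 0), (1, 1)} : Finset (Ix 2)) :=
  gd_cast ((S2_g1.mul S2_pre S2_g2).mul S2_pre S2_g3) (by decide +kernel)

theorem S2_b1 : Gd S2 ({(0, 0), (1, 1), (2, 1)} : Finset (Ix 2)) :=
  gd_cast S2_g2 (by decide +kernel)

theorem S2_b2 : Gd S2 ({(0, 1), (1, 1), (2, 1)} : Finset (Ix 2)) :=
  gd_cast S2_g3 (by decide +kernel)

theorem S2_b3 : Gd S2 ({(2, 0), (2, 1)} : Finset (Ix 2)) :=
  gd_cast (((S2_g0.mul S2_pre S2_g1).mul S2_pre S2_g2).mul S2_pre S2_g3) (by decide +kernel)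

theorem S2_cert : {y | ∃ u, S2.InS u y}.ncard = 2 ^ 4 ∧ ∀ u y, S2.InS u y → Sol S2 u y :=
  cert' S2_pre (b := ![({(1, 0), (1, 1)} : Finset (Ix 2)), ({(0, 0), (1, 1), (2, 1)} : Finset (Ix 2)), ({(0, 1), (1, 1), (2, 1)} : Finset (Ix 2)), ({(2, 0), (2, 1)} : Finset (Ix 2))])
    (pv := ![(1, 0), (0, 0), (0, 1), (2, 0)]) (by decide +kernel)
    (fun i => by
      fin_cases i
      exacts [S2_b0, S2_b1, S2_b2, S2_b3])
    [] (by decide) 0 [(1, 1), (2, 1)] (by decide +kernel) (by decide +kernel)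

theorem S2_hyp : S2.Hyp 2 :=
  hyp_of S2_pre (by decide) 0 (by decide +kernel) S2_cert

def S3 : Surf 4 where
  A := fun j => ![![0, 1, 1, 1], ![1, 1, 1, 1], ![1, 1, 1, 1]] j.1 j.2
  B := fun j => ![![1, 0, -25, 25], ![23, -5, -7, -20], ![-23, 5, 7, 20]] j.1 j.2
  c := ![-18, 1, 1]

theorem S3_pre : Pre S3 where
  pos := by norm_num
  c0 := by decide
  ne := by decide +kernel
  sum := fun K _ v => by
    simp [Surf.D, Surf.L, S3, Fin.prod_univ_four]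
    ring

theorem S3_g0 : Gd S3 ({(1, 0), (1, 1), (1, 2), (1, 3), (2, 0), (2, 1), (2, 2), (2, 3)} : Finset (Ix 4)) :=
  gd_of S3_pre ![1, -1, -1] _ (by decide +kernel) 0 1 1 (1) (by norm_num)
    (by simp [PP, Surf.D, Surf.L, S3, Fin.prod_univ_four] <;> ring)
    (by simp [PP, Surf.D, Surf.L, S3, Fin.prod_univ_four] <;> ring)

theorem S3_g1 : Gd S3 ({(0, 0), (0, 1), (0, 2), (0, 3), (1, 0), (1, 1), (1, 2), (1, 3)} : Finset (Ix 4)) :=
  gd_of S3_pre ![1, -18, -18] _ (by decide +kernel) 1 0 (-18) (-18) (by norm_num)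
    (by simp [PP, Surf.D, Surf.L, S3, Fin.prod_univ_four] <;> ring)
    (by simp [PP, Surf.D, Surf.L, S3, Fin.prod_univ_four] <;> ring)

theorem S3_g2 : Gd S3 ({(0, 0), (0, 1), (1, 1), (1, 3), (2, 0), (2, 2)} : Finset (Ix 4)) :=
  gd_of S3_pre ![1, -2, -2] _ (by decide +kernel) ((1)) ((8)) ((10)) (2) (by norm_num)
    (by simp [PP, Surf.D, Surf.L, S3, Fin.prod_univ_four] <;> ring)
    (by simp [PP, Surf.D, Surf.L, S3, Fin.prod_univ_four] <;> ring)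

theorem S3_g3 : Gd S3 ({(0, 0), (0, 3), (1, 0), (1, 3), (2, 0), (2, 1)} : Finset (Ix 4)) :=
  gd_of S3_pre ![1, -6, -6] _ (by decide +kernel) ((1)) ((6)) ((12)) (6) (by norm_num)
    (by simp [PP, Surf.D, Surf.L, S3, Fin.prod_univ_four] <;> ring)
    (by simp [PP, Surf.D, Surf.L, S3, Fin.prod_univ_four] <;> ring)

theorem S3_g4 : Gd S3 ({(0, 0), (0, 1), (1, 0), (1, 3), (2, 1), (2, 2)} : Finset (Ix 4)) :=
  gd_of S3_pre ![1, 6, 6] _ (by decide +kernel) ((1)) ((12)) ((6)) (6) (by norm_num)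
    (by simp [PP, Surf.D, Surf.L, S3, Fin.prod_univ_four] <;> ring)
    (by simp [PP, Surf.D, Surf.L, S3, Fin.prod_univ_four] <;> ring)

theorem S3_b0 : Gd S3 ({(1, 0), (1, 1), (2, 0), (2, 1)} : Finset (Ix 4)) :=
  gd_cast (S3_g2.mul S3_pre S3_g4) (by decide +kernel)

theorem S3_b1 : Gd S3 ({(0, 0), (0, 3), (1, 1), (1, 3)} : Finset (Ix 4)) :=
  gd_cast ((S3_g2.mul S3_pre S3_g3).mul S3_pre S3_g4) (by decide +kernel)

theorem S3_b2 : Gd S3 ({(0, 2), (0, 3), (1, 1), (1, 3), (2, 1), (2, 3)} : Finset (Ix 4)) :=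
  gd_cast ((S3_g0.mul S3_pre S3_g1).mul S3_pre S3_g2) (by decide +kernel)

theorem S3_b3 : Gd S3 ({(0, 1), (0, 3), (2, 0), (2, 2)} : Finset (Ix 4)) :=
  gd_cast (S3_g3.mul S3_pre S3_g4) (by decide +kernel)

theorem S3_b4 : Gd S3 ({(1, 2), (1, 3), (2, 2), (2, 3)} : Finset (Ix 4)) :=
  gd_cast ((S3_g0.mul S3_pre S3_g2).mul S3_pre S3_g4) (by decide +kernel)

theorem S3_cert : {y | ∃ u, S3.InS u y}.ncard = 2 ^ 5 ∧ ∀ u y, S3.InS u y → Sol S3 u y :=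
  cert' S3_pre (b := ![({(1, 0), (1, 1), (2, 0), (2, 1)} : Finset (Ix 4)), ({(0, 0), (0, 3), (1, 1), (1, 3)} : Finset (Ix 4)), ({(0, 2), (0, 3), (1, 1), (1, 3), (2, 1), (2, 3)} : Finset (Ix 4)), ({(0, 1), (0, 3), (2, 0), (2, 2)} : Finset (Ix 4)), ({(1, 2), (1, 3), (2, 2), (2, 3)} : Finset (Ix 4))])
    (pv := ![(1, 0), (0, 0), (0, 2), (0, 1), (1, 2)]) (by decide +kernel)
    (fun i => by
      fin_cases i
      exacts [S3_b0, S3_b1, S3_b2, S3_b3, S3_b4])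
    [17] (by decide) 0 [(0, 3), (1, 1), (1, 3), (2, 0), (2, 1), (2, 2), (2, 3)] (by decide +kernel) (by decide +kernel)

theorem S3_hyp : S3.Hyp 3 :=
  hyp_of S3_pre (by decide) 0 (by decide +kernel) S3_cert

def S4 : Surf 4 where
  A := fun j => ![![1, 1, 1, 1], ![1, 1, 1, 1], ![1, 0, 8, 8]] j.1 j.2
  B := fun j => ![![7, -9, 2, -128], ![9, -7, -2, 128], ![0, 1, -65, 65]] j.1 j.2
  c := ![7, 7, 28]

theorem S4_pre : Pre S4 where
  pos := by norm_num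
  c0 := by decide
  ne := by decide +kernel
  sum := fun K _ v => by
    simp [Surf.D, Surf.L, S4, Fin.prod_univ_four]
    ring

theorem S4_g0 : Gd S4 ({(1, 0), (1, 1), (1, 2), (1, 3), (2, 0), (2, 1), (2, 2), (2, 3)} : Finset (Ix 4)) :=
  gd_of S4_pre ![196, -28, -7] _ (by decide +kernel) 0 1 1 (1) (by norm_num)
    (by simp [PP, Surf.D, Surf.L, S4, Fin.prod_univ_four] <;> ring)
    (by simp [PP, Surf.D, Surf.L, S4, Fin.prod_univ_four] <;> ring)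

theorem S4_g1 : Gd S4 ({(0, 0), (0, 1), (0, 2), (0, 3), (1, 0), (1, 1), (1, 2), (1, 3)} : Finset (Ix 4)) :=
  gd_of S4_pre ![7, 7, 49] _ (by decide +kernel) 1 0 (7) (7) (by norm_num)
    (by simp [PP, Surf.D, Surf.L, S4, Fin.prod_univ_four] <;> ring)
    (by simp [PP, Surf.D, Surf.L, S4, Fin.prod_univ_four] <;> ring)

theorem S4_g2 : Gd S4 ({(0, 0), (0, 2), (1, 1), (1, 3), (2, 0), (2, 3)} : Finset (Ix 4)) :=
  gd_of S4_pre ![2, 2, 1] _ (by decide +kernel) ((1)) ((3)) ((1)) (1) (by norm_num)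
    (by simp [PP, Surf.D, Surf.L, S4, Fin.prod_univ_four] <;> ring)
    (by simp [PP, Surf.D, Surf.L, S4, Fin.prod_univ_four] <;> ring)

theorem S4_g3 : Gd S4 ({(0, 1), (0, 2), (1, 1), (1, 3), (2, 0), (2, 1)} : Finset (Ix 4)) :=
  gd_of S4_pre ![2, -14, -7] _ (by decide +kernel) ((1)) ((1)) ((11)) (1) (by norm_num)
    (by simp [PP, Surf.D, Surf.L, S4, Fin.prod_univ_four] <;> ring)
    (by simp [PP, Surf.D, Surf.L, S4, Fin.prod_univ_four] <;> ring)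

theorem S4_g4 : Gd S4 ({(0, 0), (0, 1), (1, 0), (1, 1), (2, 2), (2, 3)} : Finset (Ix 4)) :=
  gd_of S4_pre ![7, 7, 1] _ (by decide +kernel) ((1)) ((21)) ((1)) (1) (by norm_num)
    (by simp [PP, Surf.D, Surf.L, S4, Fin.prod_univ_four] <;> ring)
    (by simp [PP, Surf.D, Surf.L, S4, Fin.prod_univ_four] <;> ring)

theorem S4_g5 : Gd S4 ({(0, 1), (1, 1), (2, 0), (2, 1), (2, 3)} : Finset (Ix 4)) :=
  gd_of S4_pre ![2, -14, -7] _ (by decide +kernel) ((1)) ((16) + (1) * X) ((3)) (1) (by norm_num)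
    (by simp [PP, Surf.D, Surf.L, S4, Fin.prod_univ_four] <;> ring)
    (by simp [PP, Surf.D, Surf.L, S4, Fin.prod_univ_four] <;> ring)

theorem S4_b0 : Gd S4 ({(1, 0), (1, 1), (2, 1), (2, 2)} : Finset (Ix 4)) :=
  gd_cast ((S4_g2.mul S4_pre S4_g3).mul S4_pre S4_g4) (by decide +kernel)

theorem S4_b1 : Gd S4 ({(0, 0), (1, 1), (2, 0)} : Finset (Ix 4)) :=
  gd_cast ((S4_g2.mul S4_pre S4_g3).mul S4_pre S4_g5) (by decide +kernel)

theorem S4_b2 : Gd S4 ({(0, 1), (1, 1), (2, 0), (2, 1), (2, 3)} : Finset (Ix 4)) :=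
  gd_cast S4_g5 (by decide +kernel)

theorem S4_b3 : Gd S4 ({(0, 2), (1, 3), (2, 3)} : Finset (Ix 4)) :=
  gd_cast (S4_g3.mul S4_pre S4_g5) (by decide +kernel)

theorem S4_b4 : Gd S4 ({(1, 2), (1, 3), (2, 0), (2, 3)} : Finset (Ix 4)) :=
  gd_cast (((S4_g0.mul S4_pre S4_g2).mul S4_pre S4_g3).mul S4_pre S4_g4) (by decide +kernel)

theorem S4_b5 : Gd S4 ({(0, 3), (1, 3), (2, 0), (2, 2), (2, 3)} : Finset (Ix 4)) :=
  gd_cast (((S4_g0.mul S4_pre S4_g1).mul S4_pre S4_g2).mul S4_pre S4_g5) (by decide +kernel)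

theorem S4_cert : {y | ∃ u, S4.InS u y}.ncard = 2 ^ 6 ∧ ∀ u y, S4.InS u y → Sol S4 u y :=
  cert' S4_pre (b := ![({(1, 0), (1, 1), (2, 1), (2, 2)} : Finset (Ix 4)), ({(0, 0), (1, 1), (2, 0)} : Finset (Ix 4)), ({(0, 1), (1, 1), (2, 0), (2, 1), (2, 3)} : Finset (Ix 4)), ({(0, 2), (1, 3), (2, 3)} : Finset (Ix 4)), ({(1, 2), (1, 3), (2, 0), (2, 3)} : Finset (Ix 4)), ({(0, 3), (1, 3), (2, 0), (2, 2), (2, 3)} : Finset (Ix 4))])
    (pv := ![(1, 0), (0, 0), (0, 1), (0, 2), (1, 2), (0, 3)]) (by decide +kernel)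
    (fun i => by
      fin_cases i
      exacts [S4_b0, S4_b1, S4_b2, S4_b3, S4_b4, S4_b5])
    [19] (by decide) 0 [(1, 1), (1, 3), (2, 0), (2, 1), (2, 2), (2, 3)] (by decide +kernel) (by decide +kernel)

theorem S4_hyp : S4.Hyp 4 :=
  hyp_of S4_pre (by decide) 0 (by decide +kernel) S4_cert

def S5 : Surf 4 where
  A := fun j => ![![0, 1, 7, 7], ![1, 1, 1, 1], ![1, 1, 1, 1]] j.1 j.2
  B := fun j => ![![1, 0, -585, 585], ![-9, -72, 81, -49], ![9, 72, -81, 49]] j.1 j.2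
  c := ![-4, 2, 2]

theorem S5_pre : Pre S5 where
  pos := by norm_num
  c0 := by decide
  ne := by decide +kernel
  sum := fun K _ v => by
    simp [Surf.D, Surf.L, S5, Fin.prod_univ_four]
    ring

theorem S5_g0 : Gd S5 ({(1, 0), (1, 1), (1, 2), (1, 3), (2, 0), (2, 1), (2, 2), (2, 3)} : Finset (Ix 4)) :=
  gd_of S5_pre ![4, -2, -2] _ (by decide +kernel) 0 1 1 (1) (by norm_num)
    (by simp [PP, Surf.D, Surf.L, S5, Fin.prod_univ_four] <;> ring)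
    (by simp [PP, Surf.D, Surf.L, S5, Fin.prod_univ_four] <;> ring)

theorem S5_g1 : Gd S5 ({(0, 0), (0, 1), (0, 2), (0, 3), (1, 0), (1, 1), (1, 2), (1, 3)} : Finset (Ix 4)) :=
  gd_of S5_pre ![2, -4, -8] _ (by decide +kernel) 1 0 (-4) (-4) (by norm_num)
    (by simp [PP, Surf.D, Surf.L, S5, Fin.prod_univ_four] <;> ring)
    (by simp [PP, Surf.D, Surf.L, S5, Fin.prod_univ_four] <;> ring)

theorem S5_g2 : Gd S5 ({(0, 1), (0, 2), (1, 0), (1, 3), (2, 0), (2, 2)} : Finset (Ix 4)) :=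
  gd_of S5_pre ![1, 2, 2] _ (by decide +kernel) ((2)) ((1)) ((1)) (1) (by norm_num)
    (by simp [PP, Surf.D, Surf.L, S5, Fin.prod_univ_four] <;> ring)
    (by simp [PP, Surf.D, Surf.L, S5, Fin.prod_univ_four] <;> ring)

theorem S5_g3 : Gd S5 ({(0, 0), (0, 1), (1, 1), (1, 3), (2, 0), (2, 2)} : Finset (Ix 4)) :=
  gd_of S5_pre ![2, -1, -2] _ (by decide +kernel) ((1)) ((12)) ((22)) (1) (by norm_num)
    (by simp [PP, Surf.D, Surf.L, S5, Fin.prod_univ_four] <;> ring)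
    (by simp [PP, Surf.D, Surf.L, S5, Fin.prod_univ_four] <;> ring)

theorem S5_g4 : Gd S5 ({(0, 0), (0, 2), (1, 1), (1, 3), (2, 0), (2, 3)} : Finset (Ix 4)) :=
  gd_of S5_pre ![2, -2, -1] _ (by decide +kernel) ((1)) ((2)) ((4)) (1) (by norm_num)
    (by simp [PP, Surf.D, Surf.L, S5, Fin.prod_univ_four] <;> ring)
    (by simp [PP, Surf.D, Surf.L, S5, Fin.prod_univ_four] <;> ring)

theorem S5_g5 : Gd S5 ({(0, 0), (1, 3), (2, 0), (2, 1), (2, 2)} : Finset (Ix 4)) :=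
  gd_of S5_pre ![2, -1, -2] _ (by decide +kernel) ((1)) ((324)) ((14)) (1) (by norm_num)
    (by simp [PP, Surf.D, Surf.L, S5, Fin.prod_univ_four] <;> ring)
    (by simp [PP, Surf.D, Surf.L, S5, Fin.prod_univ_four] <;> ring)

theorem S5_g6 : Gd S5 ({(0, 2), (1, 3), (2, 0), (2, 2), (2, 3)} : Finset (Ix 4)) :=
  gd_of S5_pre ![1, 1, 1] _ (by decide +kernel) ((3)) ((27) + (1) * X) ((1)) (1) (by norm_num)
    (by simp [PP, Surf.D, Surf.L, S5, Fin.prod_univ_four] <;> ring)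
    (by simp [PP, Surf.D, Surf.L, S5, Fin.prod_univ_four] <;> ring)

theorem S5_b0 : Gd S5 ({(1, 0), (1, 3), (2, 0), (2, 3)} : Finset (Ix 4)) :=
  gd_cast ((S5_g2.mul S5_pre S5_g3).mul S5_pre S5_g4) (by decide +kernel)

theorem S5_b1 : Gd S5 ({(0, 0), (1, 3), (2, 0), (2, 1), (2, 2)} : Finset (Ix 4)) :=
  gd_cast S5_g5 (by decide +kernel)

theorem S5_b2 : Gd S5 ({(0, 1), (1, 3), (2, 0)} : Finset (Ix 4)) :=
  gd_cast ((S5_g3.mul S5_pre S5_g4).mul S5_pre S5_g6) (by decide +kernel)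

theorem S5_b3 : Gd S5 ({(0, 2), (1, 3), (2, 0), (2, 2), (2, 3)} : Finset (Ix 4)) :=
  gd_cast S5_g6 (by decide +kernel)

theorem S5_b4 : Gd S5 ({(1, 1), (1, 3), (2, 0), (2, 1)} : Finset (Ix 4)) :=
  gd_cast ((S5_g4.mul S5_pre S5_g5).mul S5_pre S5_g6) (by decide +kernel)

theorem S5_b5 : Gd S5 ({(0, 3), (1, 3), (2, 2)} : Finset (Ix 4)) :=
  gd_cast ((((S5_g0.mul S5_pre S5_g1).mul S5_pre S5_g3).mul S5_pre S5_g4).mul S5_pre S5_g5) (by decide +kernel)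

theorem S5_b6 : Gd S5 ({(1, 2), (1, 3), (2, 0), (2, 2)} : Finset (Ix 4)) :=
  gd_cast ((((S5_g0.mul S5_pre S5_g2).mul S5_pre S5_g3).mul S5_pre S5_g5).mul S5_pre S5_g6) (by decide +kernel)

theorem S5_cert : {y | ∃ u, S5.InS u y}.ncard = 2 ^ 7 ∧ ∀ u y, S5.InS u y → Sol S5 u y :=
  cert' S5_pre (b := ![({(1, 0), (1, 3), (2, 0), (2, 3)} : Finset (Ix 4)), ({(0, 0), (1, 3), (2, 0), (2, 1), (2, 2)} : Finset (Ix 4)), ({(0, 1), (1, 3), (2, 0)} : Finset (Ix 4)), ({(0, 2), (1, 3), (2, 0), (2, 2), (2, 3)} : Finset (Ix 4)), ({(1, 1), (1, 3), (2, 0), (2, 1)} : Finset (Ix 4)), ({(0, 3), (1, 3), (2, 2)} : Finset (Ix 4)), ({(1, 2), (1, 3), (2, 0), (2, 2)} : Finset (Ix 4))])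
    (pv := ![(1, 0), (0, 0), (0, 1), (0, 2), (1, 1), (0, 3), (1, 2)]) (by decide +kernel)
    (fun i => by
      fin_cases i
      exacts [S5_b0, S5_b1, S5_b2, S5_b3, S5_b4, S5_b5, S5_b6])
    [11] (by decide) 0 [(1, 3), (2, 0), (2, 1), (2, 2), (2, 3)] (by decide +kernel) (by decide +kernel)

/-- the hypotheses of the main theorem can be met for every rank up to four -/
theorem examples (r : ℕ) (hr : r ≤ 4) : ∃ (n : ℕ) (F : Surf n), F.Hyp r := by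
  interval_cases r
  exacts [⟨_, _, S0_hyp⟩, ⟨_, _, S1_hyp⟩, ⟨_, _, S2_hyp⟩, ⟨_, _, S3_hyp⟩, ⟨_, _, S4_hyp⟩]

end Cert

end Pool.Agent.MP_a43263_nt.RG
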