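import Pool.Agent.MP_a43263_nt.RG.Spec
import Mathlib.Data.Int.NatAbs

/-! PROJECT RANKG, module KC: rows of the descent matrix as Jacobi symbols. -/

set_option autoImplicit false

noncomputable section

namespace Pool.Agent.MP_a43263_nt.RG

open Finset
open R2 (sg)

namespace KC

variable {n : ℕ}

theorem cls_six : (neg : Gen n).1.1 = 0 := rfl

theorem sg_eq {j : ℤ} (h : j = 1 ∨ j = -1) : sg j = j := by
  rcases h with rfl | rfl <;> simp [sg]

theorem gp_pm (c : Gen n → ℤ) (a b : Gen n) : gp c a b = 1 ∨ gp c a b = -1 := by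
  have h : ∀ j, sg j = 1 ∨ sg j = -1 := fun j => by unfold sg; split_ifs <;> simp
  unfold gp
  split_ifs <;> first | exact h _ | simp

theorem prod_pm {ι : Type} {f : ι → ℤ} (x : Finset ι) (hf : ∀ a ∈ x, f a = 1 ∨ f a = -1) :
    ∏ a ∈ x, f a = 1 ∨ ∏ a ∈ x, f a = -1 :=
  prod_induction f (fun z => z = 1 ∨ z = -1)
    (by rintro a b (rfl | rfl) (rfl | rfl) <;> simp) (.inl rfl) hf

theorem jac_prod {ι : Type} (x : Finset ι) (f : ι → ℤ) (n : ℕ) :
    ∏ a ∈ x, jacobiSym (f a) n = jacobiSym (∏ a ∈ x, f a) n := by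
  classical
  induction x using Finset.induction_on with
  | empty => simp [jacobiSym.one_left]
  | insert a x ha ih => rw [prod_insert ha, prod_insert ha, jacobiSym.mul_left, ih]

theorem val_prime {a : Gen n} (h : a.2.Prime) : val a = a.2 := if_neg h.ne_one

theorem val_natAbs (a : Gen n) : (val a).natAbs = a.2 := by
  unfold val
  split_ifs with h
  · simp [h]
  · simp

theorem jac_primes {p q : ℕ} (hp : p.Prime) (hq : q.Prime) (h : p ≠ q) :
    jacobiSym p q = 1 ∨ jacobiSym p q = -1 :=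
  jacobiSym.eq_one_or_neg_one (by
    rw [Int.gcd_natCast_natCast]; exact (Nat.coprime_primes hp hq).2 h)

theorem jac_neg_one {n : ℕ} (h : n % 2 = 1) :
    jacobiSym (-1) n = if n % 4 = 3 then -1 else 1 := by
  rw [jacobiSym.at_neg_one (Nat.odd_iff.2 h)]
  rcases Nat.odd_mod_four_iff.1 h with k | k
  · rw [ZMod.χ₄_nat_one_mod_four k, if_neg (by omega)]
  · rw [ZMod.χ₄_nat_three_mod_four k, if_pos k]

/-- the entry in the row of `-1` -/
theorem tau_eq (c : Gen n → ℤ) {a : Gen n} (h0 : a.1.1 ≠ 0) (h : a.2 % 2 = 1) :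
    gp c a neg = if a.2 % 4 = 3 then -1 else 1 := by
  have h1 : a ≠ neg := fun e => h0 (by rw [e]; rfl)
  have h2 : val (neg : Gen n) = -1 := rfl
  unfold gp
  rw [if_neg h1, if_neg h0, if_pos cls_six, h2, jac_neg_one h]
  split_ifs <;> simp [sg]

theorem tau_zero (c : Gen n → ℤ) {a : Gen n} (h0 : a.1.1 = 0) : gp c a neg = 1 := by
  unfold gp
  split_ifs with h1 h2 h3
  · rfl
  · exact absurd (by rw [h1]; rfl) h2
  · rfl
  · exact absurd cls_six h3

theorem jac_tau {m n : ℕ} (hn : n % 2 = 1) :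
    jacobiSym (if m % 4 = 3 then -1 else 1) n = if m % 4 = 3 ∧ n % 4 = 3 then -1 else 1 := by
  by_cases h : m % 4 = 3
  · simp [h, jac_neg_one hn]
  · simp [h, jacobiSym.one_left]

theorem recip {p q : ℕ} (hp : p % 2 = 1) (hq : q % 2 = 1) :
    jacobiSym q p = jacobiSym ((if p % 4 = 3 then -1 else 1) * (p : ℤ)) q := by
  rw [jacobiSym.mul_left, jac_tau hq, ← jacobiSym.quadratic_reciprocity_if hq hp]
  by_cases h : p % 4 = 3 ∧ q % 4 = 3
  · rw [if_pos h, if_pos h.symm]; ring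
  · rw [if_neg h, if_neg fun k => h k.symm]; ring

/-- one entry of the matrix -/
theorem entry (c : Gen n → ℤ) {a b : Gen n} (ha : a = neg ∨ a.2.Prime) (ho : a.1.1 ≠ 0 → a.2 ≠ 2)
    (hb : b.2.Prime) (hb2 : b.2 ≠ 2) (hne : a.2 ≠ b.2) :
    gp c a b = jacobiSym ((if b.1.1 = 2 then 1 else gp c a neg) *
      if a.1.1 ≠ b.1.1 then val a else 1) b.2 := by
  have hab : a ≠ b := fun e => hne (by rw [e])
  have hb1 : b.2 % 2 = 1 := hb.eq_two_or_odd.resolve_left hb2
  have h3 : ∀ j : Fin 3, j = 0 ∨ j = 1 ∨ j = 2 := by decide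
  by_cases h0 : a.1.1 = 0
  · have hv : jacobiSym (val a) b.2 = 1 ∨ jacobiSym (val a) b.2 = -1 := by
      apply jacobiSym.eq_one_or_neg_one
      rw [Int.gcd, val_natAbs, Int.natAbs_natCast]
      rcases ha with rfl | ha
      · simp [neg]
      · exact (Nat.coprime_primes ha hb).2 hne
    rw [tau_zero c h0, ite_self, one_mul]
    unfold gp
    rw [if_neg hab, if_pos h0, h0]
    by_cases k : b.1.1 = 0
    · simp [k, jacobiSym.one_left]
    · rw [if_neg k, if_pos (Ne.symm k), sg_eq hv]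
  · have hp : a.2.Prime := ha.resolve_left fun e => h0 (by rw [e]; rfl)
    have ha1 : a.2 % 2 = 1 := hp.eq_two_or_odd.resolve_left (ho h0)
    have e1 := sg_eq (jac_primes hp hb hne)
    have e2 := sg_eq (jac_primes hb hp hne.symm)
    have e3 := recip ha1 hb1
    have e4 := jac_tau (m := a.2) hb1
    rw [tau_eq c h0 ha1, val_prime hp]
    unfold gp
    rw [if_neg hab, if_neg h0, val_prime hb, e1, e2]
    rcases h3 a.1.1 with k | k | k
    · exact absurd k h0
    · rcases h3 b.1.1 with j | j | j <;> rw [k, j]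
      · simpa using e3
      · simpa using e4.symm
      · simp
    · rcases h3 b.1.1 with j | j | j <;> rw [k, j]
      · simpa using e3
      · simpa using e3
      · simp [jacobiSym.one_left]

/-- a whole row -/
theorem row (c : Gen n → ℤ) (x : Finset (Gen n)) {b : Gen n} (hx : ∀ a ∈ x, (a = neg ∨ a.2.Prime) ∧
    (a.1.1 ≠ 0 → a.2 ≠ 2) ∧ a.2 ≠ b.2) (hb : b.2.Prime) (hb2 : b.2 ≠ 2) :
    ∏ a ∈ x, gp c a b =
      jacobiSym ((if b.1.1 = 2 then 1 else ∏ a ∈ x, gp c a neg) * Gv b.1.1 x) b.2 := by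
  rw [prod_congr rfl fun a ha => entry c (hx a ha).1 (hx a ha).2.1 hb hb2 (hx a ha).2.2, jac_prod,
    prod_mul_distrib, Gv, prod_filter]
  split_ifs <;> simp

theorem part2 (c : Gen n → ℤ) (V x : Finset (Gen n)) (b : Gen n) (hN : Nice (insert b V)) (hb : b ∉ V)
    (h1 : b ≠ neg) (h2 : b.2 ≠ 2) (hx : x ⊆ V) : ∏ a ∈ x, gp c a b =
      jacobiSym ((if b.1.1 = 2 then 1 else ∏ a ∈ x, gp c a neg) * Gv b.1.1 x) b.2 := by
  refine row c x (fun a ha => ?_) ((hN.pr b (mem_insert_self _ _)).resolve_left h1) h2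
  have hm := mem_insert_of_mem (b := b) (hx ha)
  refine ⟨hN.pr a hm, hN.odd a hm, fun e => hb ?_⟩
  rw [← hN.dist a hm b (mem_insert_self _ _) e]
  exact hx ha

theorem Gv_natAbs (j : Fin 3) (x : Finset (Gen n)) :
    (Gv j x).natAbs = ∏ a ∈ x.filter (fun a => a.1.1 ≠ j), a.2 := by
  rw [Gv, ← Int.natAbsHom_apply, map_prod]
  exact prod_congr rfl fun a _ => val_natAbs a

theorem part3 (V x : Finset (Gen n)) (j : Fin 3) (hN : Nice V) (hx : x ⊆ V) :
    Squarefree (Gv j x).natAbs ∧ (Gv j x = 1 → ∀ a ∈ x, a.1.1 = j) ∧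
    (Gv j x ≠ 1 → ¬IsSquare (Gv j x)) ∧
    ∀ p ∈ (Gv j x).natAbs.primeFactors, ∃ a ∈ x, a.2 = p := by
  have hm : ∀ a ∈ x.filter (fun a => a.1.1 ≠ j), a ∈ V := fun a ha => hx (mem_filter.1 ha).1
  have hs : Squarefree (Gv j x).natAbs := by
    rw [Gv_natAbs]
    refine Finset.squarefree_prod_of_pairwise_isCoprime (fun a ha b hb hab => ?_) fun a ha => ?_
    · refine Nat.coprime_iff_isRelPrime.1 ?_
      rcases hN.pr a (hm a ha) with rfl | k
      · simp [neg]
      rcases hN.pr b (hm b hb) with rfl | k'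
      · simp [neg]
      exact (Nat.coprime_primes k k').2 fun e => hab (hN.dist a (hm a ha) b (hm b hb) e)
    · rcases hN.pr a (hm a ha) with rfl | k
      · simp [neg]
      · exact k.squarefree
  refine ⟨hs, fun h a ha => ?_, fun h ⟨r, hr⟩ => h ?_, fun p hp => ?_⟩
  · by_contra hc
    have h1 := Gv_natAbs j x
    rw [h, Int.natAbs_one, eq_comm, prod_eq_one_iff] at h1
    have h2 : x.filter (fun a => a.1.1 ≠ j) = {a} := by
      have hf : a ∈ x.filter (fun a => a.1.1 ≠ j) := mem_filter.2 ⟨ha, hc⟩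
      exact eq_singleton_iff_unique_mem.2 ⟨hf, fun b hb =>
        hN.dist b (hm b hb) a (hm a hf) ((h1 b hb).trans (h1 a hf).symm)⟩
    rw [Gv, h2, prod_singleton, val, if_pos (h1 a (mem_filter.2 ⟨ha, hc⟩))] at h
    omega
  · have h1 : IsUnit r.natAbs := hs _ (by rw [hr, Int.natAbs_mul])
    rw [hr]
    rcases Int.natAbs_eq_iff.1 (Nat.isUnit_iff.1 h1) with k | k <;> simp [k]
  · have h1 := Nat.prime_of_mem_primeFactors hp
    have h2 := Nat.dvd_of_mem_primeFactors hp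
    rw [Gv_natAbs] at h2
    obtain ⟨a, ha, hd⟩ := (Prime.dvd_finsetProd_iff h1.prime _).1 h2
    refine ⟨a, (mem_filter.1 ha).1, ?_⟩
    rcases hN.pr a (hm a ha) with rfl | k
    · exact absurd (Nat.dvd_one.1 hd) h1.ne_one
    · exact ((Nat.prime_dvd_prime_iff_eq h1 k).1 hd).symm

end KC

theorem kcs : KCStmt := by
  intro n
  refine ⟨fun c V x b hN hb h1 h2 hx h => ?_, KC.part2, KC.part3, fun c W k hW => ?_⟩
  · rw [KC.part2 c V x b hN hb h1 h2 hx, h, ite_self, one_mul]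
  · refine ⟨if k.1 = 2 then 1 else ∏ a ∈ W, gp c a neg, ?_, fun s hs h2 hne => ?_⟩
    · split_ifs
      · exact .inl rfl
      · exact KC.prod_pm _ fun a _ => KC.gp_pm c _ _
    · rw [KC.row c W (b := (k, s))
        (fun a ha => ⟨.inr (hW a ha).2.1, fun _ => (hW a ha).2.2, hne a ha⟩) hs h2, Gv,
        prod_congr rfl fun a ha => KC.val_prime (hW a (mem_filter.1 ha).1).2.1]

end Pool.Agent.MP_a43263_nt.RG
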