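import Pool.Agent.MP_a43263_nt.RG.Basic
import Mathlib.Data.Int.Star

-- ======== part 0: formerly Pool.Agent.MP_a43263_nt.RG.KeyA
section MrgPart0

/-! PROJECT RANKG, module KEY: the parametrisation of the terms with frozen data. -/

set_option autoImplicit false

noncomputable section

namespace Pool.Agent.MP_a43263_nt.RG

open Finset Filter
open R2 (Sgn chi pri Sc Core Shape mem_pri chi_comm chi_sgn chi_eq_rows chi_symmDiff_left
  chi_symmDiff_right chi_union_left chi_union_right)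

variable {nn : ℕ}

namespace KEY

/-- the product of the primes with a given tag -/
def pr (X : Finset (Gen nn)) (k : Tag nn) : ℕ := ∏ b ∈ X.filter (fun b => b.1 = k), b.2

theorem pr_eq (X : Finset (Gen nn)) (k : Tag nn) :
    pr X k = ∏ p ∈ (X.filter fun b => b.1 = k).image Prod.snd, p :=
  (prod_image (f := fun p => p) fun _ ha _ hb e =>
    Prod.ext ((mem_filter.1 ha).2.trans (mem_filter.1 hb).2.symm) e).symm

theorem mem_pr {X : Finset (Gen nn)} {k : Tag nn} (hX : ∀ b ∈ X, b.1 = k → b.2.Prime) {p : ℕ} :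
    p ∈ (pr X k).primeFactors ↔ (k, p) ∈ X := by
  rw [pr_eq, Nat.primeFactors_prod]
  · simp only [mem_image, mem_filter]
    exact ⟨by rintro ⟨⟨k', p'⟩, ⟨h, rfl⟩, rfl⟩; exact h, fun h => ⟨_, ⟨h, rfl⟩, rfl⟩⟩
  · simp only [mem_image, mem_filter]
    rintro _ ⟨b, ⟨h, e⟩, rfl⟩
    exact hX b h e

theorem pr_pos {X : Finset (Gen nn)} {k : Tag nn} (hX : ∀ b ∈ X, b.1 = k → b.2.Prime) : 0 < pr X k :=
  prod_pos fun b hb => (hX b (mem_filter.1 hb).1 (mem_filter.1 hb).2).pos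

theorem dvd_pr {X : Finset (Gen nn)} {b : Gen nn} (hb : b ∈ X) : b.2 ∣ pr X b.1 :=
  dvd_prod_of_mem _ (mem_filter.2 ⟨hb, rfl⟩)

theorem pr_union {X X' : Finset (Gen nn)} (h : Disjoint X X') (k : Tag nn) :
    pr (X ∪ X') k = pr X k * pr X' k := by
  rw [pr, filter_union, prod_union (disjoint_filter_filter h)]
  rfl

theorem pr_of_ne {X : Finset (Gen nn)} {k : Tag nn} (h : ∀ b ∈ X, b.1 ≠ k) : pr X k = 1 := by
  rw [pr, filter_false_of_mem h, prod_empty]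

theorem pr_of_eq {X : Finset (Gen nn)} {k : Tag nn} (h : ∀ b ∈ X, b.1 = k) : pr X k = ∏ b ∈ X, b.2 := by
  rw [pr, filter_true_of_mem h]

theorem pr_gens {l : Ix nn → ℕ} {h : Ix nn} (hl : Squarefree (l h)) :
    pr (gens l) (tg h) = l h := by
  rw [pr, filter_tag_gens, prod_image fun _ _ _ _ e => (Prod.mk.inj e).2]
  exact Nat.prod_primeFactors_of_squarefree hl

theorem le_eq {S : Sc} {E : Dat nn} (hR : Rel nn S) (h0 : E.Ok) (hM : E.M ≤ S.Y)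
    {l c P : Ix nn → ℕ} (h : ∀ k, Core S (c k) ∧ (P k).Prime ∧ S.Y' < P k ∧ l k = c k * P k) :
    le S.Y' (E.VV l) = E.V0 ∪ gens c := by
  rw [le_VV h0 (hM.trans hR.Y_le)]
  congr 1
  ext ⟨k, p⟩
  simp only [mem_le, mem_gens]
  constructor
  · rintro ⟨⟨j, e, h1⟩, h2⟩
    refine ⟨j, e, ?_⟩
    rw [← hR.filter_le (h j).1 (h j).2.1 (h j).2.2.1, ← (h j).2.2.2]
    exact mem_filter.2 ⟨h1, h2⟩
  · rintro ⟨j, e, h1⟩
    have := h1
    rw [← hR.filter_le (h j).1 (h j).2.1 (h j).2.2.1, ← (h j).2.2.2] at this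
    exact ⟨⟨j, e, (mem_filter.1 this).1⟩, (mem_filter.1 this).2⟩

theorem card_VV {S : Sc} {E : Dat nn} (hR : Rel nn S) (h0 : E.Ok) {l c P : Ix nn → ℕ}
    (h : ∀ k, Core S (c k) ∧ (P k).Prime ∧ S.Y' < P k ∧ l k = c k * P k) :
    (E.VV l).card = (E.V0 ∪ gens c).card + 3 * nn := by
  rw [Dat.VV, card_union_of_disjoint (h0.disjoint _),
    card_union_of_disjoint (h0.disjoint _), card_gens, card_gens,
    sum_congr rfl fun k _ => by rw [(h k).2.2.2, hR.card_mul (h k).1 (h k).2.1 (h k).2.2.1],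
    sum_add_distrib]
  simp [add_assoc]

/-- the resultant of two forms -/
def res (e : Ix nn → ℤ) (h k : Ix nn) : ℤ := e k - e h

abbrev T3 (nn : ℕ) : Type := Finset (Gen nn) × Finset (Gen nn) × Finset (Gen nn)

/-- the frozen data -/
structure KD (nn : ℕ) where
  S : Sc
  E : Dat nn
  f : TL nn
  g : TL nn
  f0 : Ix nn
  g0 : Ix nn
  O : Finset (Gen nn)
  O₁ : Finset (Gen nn)
  O₂ : Finset (Gen nn)
  ok : Finset (TL nn) → Prop

namespace KD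

variable (D : KD nn)

def m (h : Ix nn) : ℕ := pr D.O (tg h)

def dl : ℤ := res D.E.e D.f0 D.g0

def al (h : Ix nn) : ℤ := res D.E.e h D.g0 * D.m D.f0

def be (h : Ix nn) : ℤ := res D.E.e D.f0 h * D.m D.g0

def Nn (n : ℕ) : Finset (Gen nn) := n.primeFactors.image fun p => (D.f.1, p)

def NL (n : ℕ) (ω : T3 nn) (s : ℕ) : Finset (Gen nn) := D.O ∪ (D.Nn n ∪ ω.1) ∪ {(D.g.1, s)}

def I1 (n : ℕ) (ω : T3 nn) : Finset (Gen nn) := (if D.f.2.1 then D.Nn n else ∅) ∪ ω.2.1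

def I2 (n : ℕ) (ω : T3 nn) : Finset (Gen nn) := (if D.f.2.2 then D.Nn n else ∅) ∪ ω.2.2

def U1 (n : ℕ) (ω : T3 nn) (s : ℕ) : Finset (Gen nn) :=
  D.O₁ ∪ D.I1 n ω ∪ if D.g.2.1 then {(D.g.1, s)} else ∅

def U2 (n : ℕ) (ω : T3 nn) (s : ℕ) : Finset (Gen nn) :=
  D.O₂ ∪ D.I2 n ω ∪ if D.g.2.2 then {(D.g.1, s)} else ∅

/-- the cores of the forms other than `g` -/
def cc (n : ℕ) (ω : T3 nn) (h : Ix nn) : ℕ := D.m h * if h = D.f0 then n else pr ω.1 (tg h)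

def pt (r q n : ℕ) : Ix nn → ℕ := fun h => ((D.al h * n * r + D.be h * q) / D.dl).toNat

def Cond (l : ℕ) : Prop := l ≤ D.S.Z ∧ l ≡ 1 [MOD 8 * D.E.M]

def nu (ω : T3 nn) : ℕ := ∏ b ∈ ω.1, b.2

def pt0 (ω : T3 nn) : Finset (TL nn) :=
  pat (D.O.filter fun b => D.S.Y < b.2) D.O₁ D.O₂ ∪ pat ω.1 ω.2.1 ω.2.2 ∪ {D.f, D.g}

structure InW (ω : T3 nn) : Prop where
  s1 : ω.2.1 ⊆ ω.1
  s2 : ω.2.2 ⊆ ω.1
  dist : Dist ω.1
  tag : ∀ b ∈ ω.1, b.1 ≠ D.f.1 ∧ b.1 ≠ D.g.1 ∧ ¬b.2 ∣ D.m D.g0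
  nu : nu ω ≤ D.S.Y' ^ (9 * nn)
  card : ω.1.card ≤ 18 * nn * D.S.J

open Classical in
def W : Finset (T3 nn) := ((TT nn (pri D.S.Y D.S.Y')).powerset ×ˢ (TT nn (pri D.S.Y D.S.Y')).powerset ×ˢ
  (TT nn (pri D.S.Y D.S.Y')).powerset).filter D.InW

def P : Finset ℕ := (pri D.S.Y D.S.Y').filter fun s => ¬s ∣ D.m D.f0

def IA (r q s : ℕ) : Prop := Core D.S (D.m D.g0 * s) ∧ (q / s).Prime ∧ D.S.Y' < q / s ∧
  D.Cond (D.m D.g0 * q) ∧ (D.m D.f0 * r).Coprime (D.m D.g0 * q)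

def IB (n : ℕ) (ω : T3 nn) : Prop := (∀ h, h ≠ D.g0 → Core D.S (D.cc n ω h)) ∧
  (∀ p ∈ n.primeFactors, D.S.Y < p) ∧ n.Coprime (D.m D.g0)

def IP (n : ℕ) (ω : T3 nn) (h : Ix nn) (z : ℤ) : Prop :=
  ∃ P : ℕ, P.Prime ∧ D.S.Y' < P ∧ z = D.dl * (D.cc n ω h * P : ℕ) ∧ D.Cond (D.cc n ω h * P)

/-- the properties of the frozen data -/
structure Ok : Prop where
  sys : D.E.Ok
  rel : Rel nn D.S
  hM : D.E.M ≤ D.S.Y
  hf : D.f.1 = (tg D.f0)
  hg : D.g.1 = (tg D.g0)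
  ne : D.f0 ≠ D.g0
  v0 : D.E.V0 ⊆ D.O
  el : ∀ b ∈ D.O, b ∈ D.E.V0 ∨ (b.1.2 ≠ none ∧ b.2.Prime ∧ b.2 ≠ 2)
  med : ∀ b ∈ D.O, D.S.Y < b.2 → (b.1 = D.f.1 ∧ tl D.O₁ D.O₂ b ≠ D.f) ∨ b.1 = D.g.1
  s1 : D.O₁ ⊆ D.O
  s2 : D.O₂ ⊆ D.O

/-- the tuples that come from a term -/
structure Val (r q s n : ℕ) (ω : T3 nn) : Prop where
  hs : s ∈ D.P
  dvd : s ∣ q
  one : 1 < n
  hω : ω ∈ D.W
  ia : D.IA r q s
  ib : D.IB n ω
  cop : IsCoprime (q : ℤ) (n * nu ω)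
  ip : ∀ h, h ≠ D.g0 → D.IP n ω h (D.al h * n * r + D.be h * q)

variable {D}

theorem mem_W {ω : T3 nn} : ω ∈ D.W ↔ ω.1 ⊆ TT nn (pri D.S.Y D.S.Y') ∧ D.InW ω := by
  simp only [W, mem_filter, mem_product, mem_powerset]
  exact ⟨fun h => ⟨h.1.1, h.2⟩, fun h => ⟨⟨h.1, h.2.s1.trans h.1, h.2.s2.trans h.1⟩, h.2⟩⟩

theorem mem_Nn {n : ℕ} {b : Gen nn} : b ∈ D.Nn n ↔ b.1 = D.f.1 ∧ b.2 ∈ n.primeFactors := by
  simp only [Nn, mem_image]
  exact ⟨by rintro ⟨p, h, rfl⟩; exact ⟨rfl, h⟩, fun h => ⟨b.2, h.2, Prod.ext h.1.symm rfl⟩⟩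

theorem Ok.prime (hD : D.Ok) (h : Ix nn) : ∀ b ∈ D.O, b.1 = (tg h) → b.2.Prime :=
  fun b hb e => (hD.el b hb).elim (fun k => absurd (e ▸ (hD.sys.fix _ k).1) (tg_ne_none h))
    fun k => k.2.1

theorem Ok.mem_m (hD : D.Ok) {h : Ix nn} {p : ℕ} :
    p ∈ (D.m h).primeFactors ↔ ((tg h), p) ∈ D.O := mem_pr (hD.prime h)

theorem Ok.m_pos (hD : D.Ok) (h : Ix nn) : 0 < D.m h := pr_pos (hD.prime h)

theorem Ok.fg (hD : D.Ok) : D.f.1 ≠ D.g.1 := by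
  rw [hD.hf, hD.hg]; exact fun e => hD.ne (tg_injective e)

theorem Ok.dl_ne (hD : D.Ok) : D.dl ≠ 0 := sub_ne_zero.2 (hD.sys.ne _ _ hD.ne.symm)

variable {r q s n : ℕ} {ω : T3 nn}

theorem W_el (h : ω ∈ D.W) {b : Gen nn} (hb : b ∈ ω.1) :
    b.1.2 ≠ none ∧ D.S.Y < b.2 ∧ b.2 ≤ D.S.Y' ∧ b.2.Prime := by
  have := mem_TT.1 ((mem_W.1 h).1 hb)
  exact ⟨this.1, mem_pri.1 this.2⟩

theorem Val.s_el (h : D.Val r q s n ω) : D.S.Y < s ∧ s ≤ D.S.Y' ∧ s.Prime :=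
  mem_pri.1 (mem_filter.1 h.hs).1

/-- the values of the forms -/
theorem Val.forms (hD : D.Ok) (h : D.Val r q s n ω) : ∃ c P : Ix nn → ℕ,
    (∀ k, k ≠ D.g0 → c k = D.cc n ω k) ∧ c D.g0 = D.m D.g0 * s ∧
    (∀ k, Core D.S (c k) ∧ (P k).Prime ∧ D.S.Y' < P k ∧ D.pt r q n k = c k * P k) ∧
    (∀ k, D.Cond (D.pt r q n k)) ∧
    D.pt r q n D.f0 = D.m D.f0 * n * r ∧
    D.pt r q n D.g0 = D.m D.g0 * q ∧
    ∀ k, D.dl * D.pt r q n k = D.al k * n * r + D.be k * q := by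
  classical
  have h1 : ∀ k, ∃ c P : ℕ, (k ≠ D.g0 → c = D.cc n ω k) ∧ (k = D.g0 → c = D.m D.g0 * s) ∧
      Core D.S c ∧ P.Prime ∧ D.S.Y' < P ∧ D.al k * n * r + D.be k * q = D.dl * (c * P : ℕ) ∧
      D.Cond (c * P) := by
    intro k
    by_cases hk : k = D.g0
    · have e : D.m D.g0 * s * (q / s) = D.m D.g0 * q := by
        rw [mul_assoc, Nat.mul_div_cancel' h.dvd]
      refine ⟨_, q / s, fun e => absurd hk e, fun _ => rfl, h.ia.1, h.ia.2.1, h.ia.2.2.1, ?_, ?_⟩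
      · rw [e, hk]
        simp only [al, be, dl, res]
        push_cast
        ring
      · rw [e]
        exact h.ia.2.2.2.1
    · obtain ⟨P, k1, k2, k3, k4⟩ := h.ip k hk
      exact ⟨_, P, fun _ => rfl, fun e => absurd e hk, h.ib.1 k hk, k1, k2, k3, k4⟩
  choose c P c1 c2 c3 c4 c5 c6 c7 using h1
  have h4 : ∀ k, D.pt r q n k = c k * P k := fun k => by
    rw [pt, c6, Int.mul_ediv_cancel_left _ hD.dl_ne, Int.toNat_natCast]
  have h3 : ∀ k, D.dl * D.pt r q n k = D.al k * n * r + D.be k * q := fun k => by rw [h4, c6]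
  refine ⟨c, P, c1, c2 _ rfl, fun k => ⟨c3 k, c4 k, c5 k, h4 k⟩, fun k => h4 k ▸ c7 k, ?_, ?_, h3⟩
  · refine Nat.cast_injective (R := ℤ) (mul_left_cancel₀ hD.dl_ne ((h3 _).trans ?_))
    simp only [al, be, dl, res]
    push_cast
    ring
  · refine Nat.cast_injective (R := ℤ) (mul_left_cancel₀ hD.dl_ne ((h3 _).trans ?_))
    simp only [al, be, dl, res]
    push_cast
    ring

theorem Val.mem_AA (hD : D.Ok) (h : D.Val r q s n ω) : D.pt r q n ∈ AA D.S D.E := by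
  obtain ⟨c, P, -, -, h1, h2, h3, h4, h5⟩ := h.forms hD
  have hsh : ∀ k, Shape D.S (D.pt r q n k) := fun k => ⟨c k, P k, h1 k⟩
  have hl : Lin D.E.e (D.pt r q n) := Lin.of_pair (hD.sys.ne _ _ hD.ne.symm) fun k => by
    have := h5 k
    rw [h3, h4]
    simp only [al, be, dl, res] at this
    push_cast
    linear_combination this
  have hc : (D.pt r q n D.f0).Coprime (D.pt r q n D.g0) := by
    rw [h3, h4, mul_right_comm]
    refine Nat.Coprime.mul_left h.ia.2.2.2.2 (Nat.Coprime.mul_right h.ib.2.2 ?_)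
    exact (Nat.isCoprime_iff_coprime.1 h.cop.of_mul_right_left).symm
  exact RG.mem_AA.2 ⟨fun k => ⟨(hsh k).one_lt.le, (h2 k).1⟩, hl, fun k => (h2 k).2,
    hl.coprime hD.sys (fun k => (h2 k).2) hc, hsh⟩

theorem Val.le_eq (hD : D.Ok) (h : D.Val r q s n ω) :
    le D.S.Y' (D.E.VV (D.pt r q n)) = D.NL n ω s ∧
    (D.E.VV (D.pt r q n)).card = (D.NL n ω s).card + 3 * nn := by
  obtain ⟨c, P, c1, c2, h1, -⟩ := h.forms hD
  rw [KEY.le_eq hD.rel hD.sys hD.hM h1, card_VV hD.rel hD.sys h1]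
  suffices e : D.E.V0 ∪ gens c = D.NL n ω s by rw [e]; exact ⟨rfl, rfl⟩
  have hn : n ≠ 0 := by have := h.one; omega
  ext ⟨k, p⟩
  simp only [NL, mem_union, mem_singleton, mem_Nn, Prod.mk.injEq]
  by_cases hk : k.2 = none
  · have e1 : k ≠ D.f.1 := fun e => tg_ne_none _ (hD.hf ▸ e ▸ hk)
    have e2 : k ≠ D.g.1 := fun e => tg_ne_none _ (hD.hg ▸ e ▸ hk)
    have e3 : (k, p) ∉ ω.1 := fun e => (W_el h.hω e).1 hk
    have e4 : (k, p) ∉ gens c := fun e => by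
      obtain ⟨j, e, -⟩ := mem_gens.1 e
      exact tg_ne_none j (e ▸ hk)
    simp only [e1, e2, e3, e4, false_and, or_false]
    exact ⟨fun e => hD.v0 e, fun e => (hD.el _ e).resolve_right fun e => e.1 hk⟩
  obtain ⟨j, rfl⟩ := exists_tg hk
  have e0 : ((tg j), p) ∉ D.E.V0 := fun e => hk (hD.sys.fix _ e).1
  rw [mk_mem_gens, hD.hf, hD.hg, tg_injective.eq_iff, tg_injective.eq_iff, ← hD.mem_m]
  simp only [e0, false_or]
  by_cases hg : j = D.g0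
  · have e3 : ((tg j), p) ∉ ω.1 := fun e => ((mem_W.1 h.hω).2.tag _ e).2.1 (hg ▸ hD.hg.symm)
    rw [hg] at e3
    rw [hg, c2, Nat.primeFactors_mul (hD.m_pos _).ne' h.s_el.2.2.ne_zero, h.s_el.2.2.primeFactors]
    simp only [mem_union, mem_singleton, e3, hD.ne.symm, false_and, or_false, true_and]
  · rw [c1 j hg, cc]
    split_ifs with hf
    · have e3 : ((tg j), p) ∉ ω.1 := fun e => ((mem_W.1 h.hω).2.tag _ e).1 (hf ▸ hD.hf.symm)
      rw [Nat.primeFactors_mul (hD.m_pos _).ne' hn]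
      simp only [mem_union, e3, hg, or_false, false_and]
      simp only [hf, true_and]
    · have hp : ∀ b ∈ ω.1, b.1 = (tg j) → b.2.Prime := fun b hb _ => (W_el h.hω hb).2.2.2
      rw [Nat.primeFactors_mul (hD.m_pos _).ne' (pr_pos hp).ne', mem_union, mem_pr hp]
      simp only [hg, hf, or_false, false_and, false_or]

theorem not_dvd_both {a b p : ℕ} (h : Squarefree (a * b)) (hp : p.Prime) (h1 : p ∣ a)
    (h2 : p ∣ b) : False :=
  hp.ne_one (Nat.eq_one_of_dvd_coprimes (Nat.coprime_of_squarefree_mul h) h1 h2)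

/-- the four parts are disjoint -/
theorem Val.disj (hD : D.Ok) (h : D.Val r q s n ω) :
    (∀ b ∈ D.Nn n, b ∉ D.O) ∧ (∀ b ∈ ω.1, b ∉ D.O) ∧ (D.g.1, s) ∉ D.O ∧
    (∀ b ∈ ω.1, b ∉ D.Nn n) ∧ (D.g.1, s) ∉ D.Nn n ∧ (D.g.1, s) ∉ ω.1 := by
  have ht := (mem_W.1 h.hω).2.tag
  refine ⟨fun b hb e => ?_, fun b hb e => ?_, fun e => ?_, fun b hb e => ?_, fun e => ?_,
    fun e => (ht _ e).2.1 rfl⟩
  · have h1 := (h.ib.1 _ hD.ne).sqf
    rw [cc, if_pos rfl] at h1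
    obtain ⟨k1, k2⟩ := mem_Nn.1 hb
    refine not_dvd_both h1 (Nat.prime_of_mem_primeFactors k2) ?_ (Nat.dvd_of_mem_primeFactors k2)
    rw [m, ← hD.hf, ← k1]
    exact dvd_pr e
  · rcases hD.med b e (W_el h.hω hb).2.1 with k | k
    · exact (ht b hb).1 k.1
    · exact (ht b hb).2.1 k
  · refine not_dvd_both h.ia.1.sqf h.s_el.2.2 ?_ dvd_rfl
    rw [m, ← hD.hg]
    exact dvd_pr e
  · exact (ht b hb).1 (mem_Nn.1 e).1
  · exact hD.fg (mem_Nn.1 e).1.symm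

theorem tl_eq_iff {U U' : Finset (Gen nn)} {b : Gen nn} {f : TL nn} :
    tl U U' b = f ↔ b.1 = f.1 ∧ (b ∈ U ↔ f.2.1) ∧ (b ∈ U' ↔ f.2.2) := by
  obtain ⟨k, u, u'⟩ := f
  cases u <;> cases u' <;> simp [tl]

/-- the labels of the four parts -/
theorem Val.labels (hD : D.Ok) (h : D.Val r q s n ω) :
    (∀ b ∈ D.O, tl (D.U1 n ω s) (D.U2 n ω s) b = tl D.O₁ D.O₂ b) ∧
    (∀ b ∈ D.Nn n, tl (D.U1 n ω s) (D.U2 n ω s) b = D.f) ∧
    (∀ b ∈ ω.1, tl (D.U1 n ω s) (D.U2 n ω s) b = tl ω.2.1 ω.2.2 b) ∧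
    tl (D.U1 n ω s) (D.U2 n ω s) (D.g.1, s) = D.g := by
  obtain ⟨d1, d2, d3, d4, d5, d6⟩ := h.disj hD
  have w1 := (mem_W.1 h.hω).2.s1
  have w2 := (mem_W.1 h.hω).2.s2
  have key : ∀ (X Y : Finset (Gen nn)) (u v : Bool) (b : Gen nn), b ∈ X ∪ ((if u then D.Nn n else ∅) ∪ Y) ∪
      (if v then {(D.g.1, s)} else ∅) ↔
      b ∈ X ∨ (u ∧ b ∈ D.Nn n) ∨ b ∈ Y ∨ (v ∧ b = (D.g.1, s)) := by
    intro X Y u v b
    cases u <;> cases v <;> simp <;> tauto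
  simp only [tl_eq_iff, U1, U2, I1, I2, key]
  refine ⟨fun b hb => ?_, fun b hb => ?_, fun b hb => ?_, ?_⟩
  · have a1 : b ∉ D.Nn n := fun e => d1 b e hb
    have a2 : b ∉ ω.2.1 := fun e => d2 b (w1 e) hb
    have a3 : b ∉ ω.2.2 := fun e => d2 b (w2 e) hb
    have a4 : b ≠ (D.g.1, s) := fun e => d3 (e ▸ hb)
    simp [tl, a1, a2, a3, a4]
  · have a1 : b ∉ D.O₁ := fun e => d1 b hb (hD.s1 e)
    have a1' : b ∉ D.O₂ := fun e => d1 b hb (hD.s2 e)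
    have a2 : b ∉ ω.2.1 := fun e => d4 b (w1 e) hb
    have a3 : b ∉ ω.2.2 := fun e => d4 b (w2 e) hb
    have a4 : b ≠ (D.g.1, s) := fun e => d5 (e ▸ hb)
    simp [hb, a1, a1', a2, a3, a4, (mem_Nn.1 hb).1]
  · have a1 : b ∉ D.O₁ := fun e => d2 b hb (hD.s1 e)
    have a1' : b ∉ D.O₂ := fun e => d2 b hb (hD.s2 e)
    have a2 := d4 b hb
    have a4 : b ≠ (D.g.1, s) := fun e => d6 (e ▸ hb)
    simp [tl, a1, a1', a2, a4]
  · have a1 : (D.g.1, s) ∉ D.O₁ := fun e => d3 (hD.s1 e)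
    have a1' : (D.g.1, s) ∉ D.O₂ := fun e => d3 (hD.s2 e)
    have a2 : (D.g.1, s) ∉ ω.2.1 := fun e => d6 (w1 e)
    have a3 : (D.g.1, s) ∉ ω.2.2 := fun e => d6 (w2 e)
    simp [a1, a1', a2, a3, d5]

/-- the condition in the definition of `keySum` -/
structure Tm (D : KD nn) (i : ℕ) (x : Ix nn → ℕ) (U U' : Finset (Gen nn)) (s : Gen nn) : Prop where
  hx : x ∈ AA D.S D.E
  hU : U ⊆ le D.S.Y' (D.E.VV x)
  hU' : U' ⊆ le D.S.Y' (D.E.VV x)
  hs : s ∈ md D.S.Y D.S.Y' (D.E.VV x)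
  ok : D.ok (pat (md D.S.Y D.S.Y' (D.E.VV x)) U U')
  lab : tl U U' s = D.g
  out : outer D.S (D.E.VV x) U U' D.f D.g s = D.O
  o1 : D.O ∩ U = D.O₁
  o2 : D.O ∩ U' = D.O₂
  lo : 2 ^ i < nOf D.S (D.E.VV x) U U' D.f
  hi : nOf D.S (D.E.VV x) U U' D.f ≤ 2 ^ (i + 1)

/-- the medium generators of the other forms -/
def rest (D : KD nn) (x : Ix nn → ℕ) : Finset (Gen nn) :=
  (md D.S.Y D.S.Y' (D.E.VV x)).filter fun b => b.1 ≠ D.f.1 ∧ b.1 ≠ D.g.1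

theorem md_eq (Y Y' : ℕ) (V : Finset (Gen nn)) : md Y Y' V = (le Y' V).filter fun b => Y < b.2 := by
  ext b; simp only [mem_md, mem_filter, mem_le]; tauto

theorem Val.back (hD : D.Ok) (h : D.Val r q s n ω) :
    nOf D.S (D.E.VV (D.pt r q n)) (D.U1 n ω s) (D.U2 n ω s) D.f = n ∧
    D.rest (D.pt r q n) = ω.1 ∧ ω.1 ∩ D.U1 n ω s = ω.2.1 ∧ ω.1 ∩ D.U2 n ω s = ω.2.2 ∧
    pat (md D.S.Y D.S.Y' (D.E.VV (D.pt r q n))) (D.U1 n ω s) (D.U2 n ω s) = D.pt0 ω ∧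
    ∀ i, 2 ^ i < n → n ≤ 2 ^ (i + 1) → D.ok (D.pt0 ω) →
      D.Tm i (D.pt r q n) (D.U1 n ω s) (D.U2 n ω s) (D.g.1, s) := by
  obtain ⟨d1, d2, d3, d4, d5, d6⟩ := h.disj hD
  obtain ⟨l1, l2, l3, l4⟩ := h.labels hD
  have e := (h.le_eq hD).1
  have hw := (mem_W.1 h.hω).2
  have hN : ∀ b ∈ D.Nn n, D.S.Y < b.2 := fun b hb => h.ib.2.1 _ (mem_Nn.1 hb).2
  have hω : ∀ b ∈ ω.1, D.S.Y < b.2 := fun b hb => (W_el h.hω hb).2.1
  have mem : ∀ b, b ∈ D.NL n ω s ↔ b ∈ D.O ∨ b ∈ D.Nn n ∨ b ∈ ω.1 ∨ b = (D.g.1, s) := fun b => by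
    simp only [NL, mem_union, mem_singleton, or_assoc]
  have hsq : Squarefree n := by
    have h1 := (h.ib.1 _ hD.ne).sqf
    rw [cc, if_pos rfl] at h1
    exact h1.of_mul_right
  have e1 : nOf D.S (D.E.VV (D.pt r q n)) (D.U1 n ω s) (D.U2 n ω s) D.f = n := by
    rw [nOf, md_eq, e, filter_filter, show (D.NL n ω s).filter (fun b => D.S.Y < b.2 ∧
      tl (D.U1 n ω s) (D.U2 n ω s) b = D.f) = D.Nn n from ?_, Nn,
      prod_image fun _ _ _ _ e => (Prod.mk.inj e).2]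
    · exact Nat.prod_primeFactors_of_squarefree hsq
    ext b
    rw [mem_filter, mem]
    refine ⟨?_, fun hb => ⟨.inr (.inl hb), hN b hb, l2 b hb⟩⟩
    rintro ⟨hb | hb | hb | rfl, k1, k2⟩
    · rcases hD.med b hb k1 with k | k
      · exact absurd (l1 b hb ▸ k2) k.2
      · exact absurd ((tl_eq_iff.1 k2).1.symm.trans k) hD.fg
    · exact hb
    · exact absurd (tl_eq_iff.1 k2).1 (hw.tag b hb).1
    · exact absurd (tl_eq_iff.1 k2).1.symm hD.fg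
  have inter : ∀ (X X₁ X₂ : Finset (Gen nn)), X₁ ⊆ X → X₂ ⊆ X →
      (∀ b ∈ X, tl (D.U1 n ω s) (D.U2 n ω s) b = tl X₁ X₂ b) →
      X ∩ D.U1 n ω s = X₁ ∧ X ∩ D.U2 n ω s = X₂ := by
    intro X X₁ X₂ s1 s2 hl
    constructor <;> ext b <;> rw [mem_inter]
    · exact ⟨fun k => by simpa [tl] using (tl_eq_iff.1 (hl b k.1)).2.1.1 k.2,
        fun k => ⟨s1 k, (tl_eq_iff.1 (hl b (s1 k))).2.1.2 (by simpa [tl] using k)⟩⟩
    · exact ⟨fun k => by simpa [tl] using (tl_eq_iff.1 (hl b k.1)).2.2.1 k.2,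
        fun k => ⟨s2 k, (tl_eq_iff.1 (hl b (s2 k))).2.2.2 (by simpa [tl] using k)⟩⟩
  have sub : ∀ (X Y : Finset (Gen nn)) (u v : Bool), X ⊆ D.O → Y ⊆ ω.1 →
      X ∪ ((if u then D.Nn n else ∅) ∪ Y) ∪ (if v then {(D.g.1, s)} else ∅) ⊆ D.NL n ω s := by
    intro X Y u v s1 s2
    refine union_subset_union (union_subset_union s1 (union_subset_union ?_ s2)) ?_ <;>
      split_ifs <;> simp
  have e2 : pat (md D.S.Y D.S.Y' (D.E.VV (D.pt r q n))) (D.U1 n ω s) (D.U2 n ω s) =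
      D.pt0 ω := by
    rw [md_eq, e]
    ext π
    simp only [pat, pt0, mem_image, mem_filter, mem, mem_union, mem_insert, mem_singleton]
    constructor
    · rintro ⟨b, ⟨hb | hb | hb | rfl, k1⟩, rfl⟩
      · exact .inl (.inl ⟨b, ⟨hb, k1⟩, (l1 b hb).symm⟩)
      · exact .inr (.inl (l2 b hb))
      · exact .inl (.inr ⟨b, hb, (l3 b hb).symm⟩)
      · exact .inr (.inr l4)
    · rintro ((⟨b, ⟨hb, k1⟩, rfl⟩ | ⟨b, hb, rfl⟩) | rfl | rfl)
      · exact ⟨b, ⟨.inl hb, k1⟩, l1 b hb⟩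
      · exact ⟨b, ⟨.inr (.inr (.inl hb)), hω b hb⟩, l3 b hb⟩
      · obtain ⟨p, hp⟩ := Nat.nonempty_primeFactors.2 h.one
        have hb : (D.f.1, p) ∈ D.Nn n := mem_Nn.2 ⟨rfl, hp⟩
        exact ⟨_, ⟨.inr (.inl hb), hN _ hb⟩, l2 _ hb⟩
      · exact ⟨_, ⟨.inr (.inr (.inr rfl)), h.s_el.1⟩, l4⟩
  refine ⟨e1, ?_, (inter _ _ _ hw.s1 hw.s2 l3).1, (inter _ _ _ hw.s1 hw.s2 l3).2, e2,
    fun i i1 i2 hok => ⟨h.mem_AA hD, e ▸ sub _ _ _ _ hD.s1 hw.s1, e ▸ sub _ _ _ _ hD.s2 hw.s2, ?_,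
      e2 ▸ hok, l4, ?_, (inter _ _ _ hD.s1 hD.s2 l1).1, (inter _ _ _ hD.s1 hD.s2 l1).2,
      e1.symm ▸ i1, e1.symm ▸ i2⟩⟩
  · ext b
    rw [rest, md_eq, e, mem_filter, mem_filter, mem]
    refine ⟨?_, fun hb => ⟨⟨.inr (.inr (.inl hb)), hω b hb⟩, (hw.tag b hb).1, (hw.tag b hb).2.1⟩⟩
    rintro ⟨⟨hb | hb | hb | rfl, k1⟩, k2, k3⟩
    · exact ((hD.med b hb k1).elim (fun k => k2 k.1) k3).elim
    · exact absurd (mem_Nn.1 hb).1 k2
    · exact hb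
    · exact absurd rfl k3
  · rw [md_eq, e, mem_filter, mem]
    exact ⟨.inr (.inr (.inr rfl)), h.s_el.1⟩
  · ext b
    rw [outer, e, mem_filter, mem]
    constructor
    · rintro ⟨hb | hb | hb | rfl, k⟩
      · exact hb
      · rcases k with k | k | k
        · exact absurd (hN b hb) (not_lt.2 k)
        · exact absurd (l2 b hb) k.2
        · exact absurd ((mem_Nn.1 hb).1.symm.trans k.1) hD.fg
      · rcases k with k | k | k
        · exact absurd (hω b hb) (not_lt.2 k)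
        · exact absurd k.1 (hw.tag b hb).1
        · exact absurd k.1 (hw.tag b hb).2.1
      · rcases k with k | k | k
        · exact absurd h.s_el.1 (not_lt.2 k)
        · exact absurd k.1.symm hD.fg
        · exact absurd rfl k.2
    · intro hb
      refine ⟨.inl hb, ?_⟩
      by_cases k : b.2 ≤ D.S.Y
      · exact .inl k
      rcases hD.med b hb (not_le.1 k) with k | k
      · exact .inr (.inl ⟨k.1, l1 b hb ▸ k.2⟩)
      · exact .inr (.inr ⟨k, fun e => d3 (e ▸ hb)⟩)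

theorem med_bound {S : Sc} {c : Ix nn → ℕ} (hc : ∀ k, Core S (c k)) {X : Finset (Gen nn)}
    (hX : ∀ b ∈ X, b ∈ gens c ∧ S.Y < b.2) :
    ∏ b ∈ X, b.2 ≤ S.Y' ^ (9 * nn) ∧ X.card ≤ 18 * nn * S.J := by
  let T : Finset (Ix nn) := univ
  have hT : T.card = 3 * nn := by rw [card_univ, card_Ix]
  let F : Ix nn → Finset (Gen nn) := fun k =>
    ((c k).primeFactors.filter (S.Y < ·)).image fun p => ((tg k), p)
  have hs : X ⊆ T.biUnion F := by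
    intro b hb
    obtain ⟨k1, k2⟩ := hX b hb
    obtain ⟨k, e, k5⟩ := mem_gens.1 k1
    exact mem_biUnion.2 ⟨k, mem_univ _,
      mem_image.2 ⟨b.2, mem_filter.2 ⟨k5, k2⟩, Prod.ext e.symm rfl⟩⟩
  constructor
  · have hd : (T : Set (Ix nn)).PairwiseDisjoint F := by
      intro h _ k _ hk
      simp only [Function.onFun, disjoint_left, mem_image, F]
      rintro _ ⟨p, -, rfl⟩ ⟨q, -, e⟩
      exact hk (tg_injective (Prod.mk.inj e).1).symm
    calc ∏ b ∈ X, b.2 ≤ ∏ b ∈ T.biUnion F, b.2 := by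
          refine prod_le_prod_of_subset_of_one_le' hs fun b hb _ => ?_
          obtain ⟨k, -, hb⟩ := mem_biUnion.1 hb
          obtain ⟨p, hp, rfl⟩ := mem_image.1 hb
          exact (Nat.prime_of_mem_primeFactors (mem_filter.1 hp).1).pos
      _ ≤ ∏ _k ∈ T, S.Y' ^ 3 := by
          rw [prod_biUnion hd]
          refine prod_le_prod' fun k _ => ?_
          rw [prod_image fun _ _ _ _ e => (Prod.mk.inj e).2]
          exact (hc k).me
      _ = _ := by rw [prod_const, hT, ← pow_mul, ← mul_assoc]; rfl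
  · calc X.card ≤ ∑ k ∈ T, (F k).card := (card_le_card hs).trans card_biUnion_le
      _ ≤ ∑ _k ∈ T, 6 * S.J := sum_le_sum fun k _ => card_image_le.trans (hc k).hi
      _ = _ := by rw [sum_const, hT, smul_eq_mul]; ring

theorem Tm.fwd (hD : D.Ok) {i : ℕ} {x : Ix nn → ℕ} {U U' : Finset (Gen nn)} {s : Gen nn}
    (h : D.Tm i x U U' s) : ∃ (r q n : ℕ) (ω : T3 nn), D.Val r q s.2 n ω ∧ D.pt r q n = x ∧
      D.U1 n ω s.2 = U ∧ D.U2 n ω s.2 = U' ∧ (D.g.1, s.2) = s := by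
  have hA := adm_of_mem hD.rel h.hx
  obtain ⟨x1, -, x3, -, hsh⟩ := RG.mem_AA.1 h.hx
  choose c P hc using hsh
  have hX := KEY.le_eq hD.rel hD.sys hD.hM hc
  have hs1 : s.1 = D.g.1 := (tl_eq_iff.1 h.lab).1
  set V := D.E.VV x with hV
  set Ns := (md D.S.Y D.S.Y' V).filter fun b => tl U U' b = D.f with hNs
  have med : ∀ b ∈ md D.S.Y D.S.Y' V, b ∈ gens c ∧ b.2.Prime := by
    intro b hb
    rw [md_eq, hX, mem_filter, mem_union] at hb
    have k : b ∈ gens c := hb.1.resolve_left fun k => by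
      have := hD.hM
      have := Nat.le_of_dvd hD.sys.pos (hD.sys.fix _ k).2
      omega
    obtain ⟨j, -, k'⟩ := mem_gens.1 k
    exact ⟨k, Nat.prime_of_mem_primeFactors k'⟩
  have hN1 : ∀ b ∈ Ns, b.1 = D.f.1 := fun b hb => (tl_eq_iff.1 (mem_filter.1 hb).2).1
  have hn : nOf D.S V U U' D.f = pr Ns D.f.1 := (pr_of_eq hN1).symm
  set n := nOf D.S V U U' D.f
  have hNn : D.Nn n = Ns := by
    ext b
    rw [mem_Nn, hn, mem_pr fun b hb _ => (med b (mem_filter.1 hb).1).2]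
    exact ⟨fun k => by have h2 := k.2; rw [← k.1] at h2; exact h2,
      fun k => ⟨hN1 b k, by rw [← hN1 b k]; exact k⟩⟩
  have hO : ∀ b, b ∈ D.O ↔ b ∈ le D.S.Y' V ∧ (b.2 ≤ D.S.Y ∨ (b.1 = D.f.1 ∧ tl U U' b ≠ D.f) ∨
      (b.1 = D.g.1 ∧ b ≠ s)) := fun b => by rw [← h.out, outer, mem_filter]
  have hR : ∀ b, b ∈ D.rest x ↔ (b ∈ le D.S.Y' V ∧ D.S.Y < b.2) ∧ b.1 ≠ D.f.1 ∧ b.1 ≠ D.g.1 :=
    fun b => by rw [rest, md_eq, mem_filter, mem_filter]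
  have hN : ∀ b, b ∈ Ns ↔ (b ∈ le D.S.Y' V ∧ D.S.Y < b.2) ∧ tl U U' b = D.f :=
    fun b => by rw [hNs, md_eq, mem_filter, mem_filter]
  have hs : s ∈ le D.S.Y' V ∧ D.S.Y < s.2 := by have := h.hs; rwa [md_eq, mem_filter] at this
  have fg := hD.fg
  have part : le D.S.Y' V = D.O ∪ (Ns ∪ D.rest x) ∪ {s} := by
    ext b
    simp only [mem_union, mem_singleton, hO, hR, hN]
    constructor
    · intro hb
      by_cases k1 : b.2 ≤ D.S.Y
      · exact .inl (.inl ⟨hb, .inl k1⟩)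
      by_cases k2 : b = s
      · exact .inr k2
      by_cases k3 : tl U U' b = D.f
      · exact .inl (.inr (.inl ⟨⟨hb, not_le.1 k1⟩, k3⟩))
      by_cases k4 : b.1 = D.f.1
      · exact .inl (.inl ⟨hb, .inr (.inl ⟨k4, k3⟩)⟩)
      by_cases k5 : b.1 = D.g.1
      · exact .inl (.inl ⟨hb, .inr (.inr ⟨k5, k2⟩)⟩)
      · exact .inl (.inr (.inr ⟨⟨hb, not_le.1 k1⟩, k4, k5⟩))
    · rintro ((k | k | k) | rfl)
      exacts [k.1, k.1.1, k.1.1, hs.1]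
  have d1 : Disjoint Ns (D.rest x) := disjoint_left.2 fun b k k' => ((hR b).1 k').2.1 (hN1 b k)
  have d2 : Disjoint D.O (Ns ∪ D.rest x) := disjoint_left.2 fun b k k' => by
    rcases mem_union.1 k' with k' | k' <;> rcases ((hO b).1 k).2 with k | k | k
    · exact absurd ((hN b).1 k').1.2 (not_lt.2 k)
    · exact k.2 ((hN b).1 k').2
    · exact fg ((hN1 b k').symm.trans k.1)
    · exact absurd ((hR b).1 k').1.2 (not_lt.2 k)
    · exact ((hR b).1 k').2.1 k.1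
    · exact ((hR b).1 k').2.2 k.1
  have d3 : Disjoint (D.O ∪ (Ns ∪ D.rest x)) {s} := disjoint_singleton_right.2 fun k => by
    rcases mem_union.1 k with k | k
    · rcases ((hO s).1 k).2 with k | k | k
      · exact absurd hs.2 (not_lt.2 k)
      · exact fg (k.1.symm.trans hs1)
      · exact k.2 rfl
    · rcases mem_union.1 k with k | k
      · exact fg ((hN1 s k).symm.trans hs1)
      · exact ((hR s).1 k).2.2 hs1
  have hcc : ∀ k, c k = D.m k * (pr Ns (tg k) * pr (D.rest x) (tg k)) *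
      pr {s} (tg k) := by
    intro k
    rw [m, ← pr_union d1, ← pr_union d2, ← pr_union d3, ← part, hX,
      pr_union (hD.sys.disjoint _), pr_gens (hc k).1.sqf,
      pr_of_ne (k := tg k) fun b hb e => tg_ne_none k (e ▸ (hD.sys.fix _ hb).1), one_mul]
  let ω : T3 nn := (D.rest x, D.rest x ∩ U, D.rest x ∩ U')
  have c1 : ∀ k, k ≠ D.g0 → c k = D.cc n ω k := by
    intro k hk
    rw [hcc, cc, pr_of_ne (X := {s}) (fun b hb e => hk (tg_injective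
      (by rw [← e, mem_singleton.1 hb, hs1, hD.hg]))), mul_one]
    split_ifs with hf
    · rw [pr_of_ne (X := D.rest x) (fun b hb e => ((hR b).1 hb).2.1 (by rw [e, hf, hD.hf])),
        mul_one, hn, hf, hD.hf]
    · rw [pr_of_ne (X := Ns) (fun b hb e => hf (tg_injective
        (by rw [← e, hN1 b hb, hD.hf]))), one_mul]
  have c2 : c D.g0 = D.m D.g0 * s.2 := by
    rw [hcc, pr_of_ne (X := Ns) (fun b hb e => fg (by rw [← hN1 b hb, e, hD.hg])),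
      pr_of_ne (X := D.rest x) (fun b hb e => ((hR b).1 hb).2.2 (by rw [e, hD.hg])),
      pr_of_eq (X := {s}) (fun b hb => by rw [mem_singleton.1 hb, hs1, hD.hg])]
    simp
  have lf1 : x D.f0 = D.m D.f0 * n * P D.f0 := by
    rw [(hc _).2.2.2, c1 _ hD.ne, cc, if_pos rfl]
  have lf2 : x D.g0 = D.m D.g0 * (s.2 * P D.g0) := by
    rw [(hc _).2.2.2, c2, mul_assoc]
  have sp := (med s h.hs).2
  have z : ∀ k, D.al k * n * P D.f0 + D.be k * (s.2 * P D.g0 : ℕ) = D.dl * x k := by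
    intro k
    have := hA.lin D.f0 D.g0 k
    rw [lf1, lf2] at this
    simp only [al, be, dl, res]
    push_cast at this ⊢
    linear_combination -this
  have cond : ∀ k, D.Cond (x k) := fun k => ⟨(x1 k).2, x3 k⟩
  have cfg := hA.cop _ _ hD.ne
  rw [lf1, lf2] at cfg
  have rel : ∀ b ∈ D.rest x, b.2.Coprime (x D.g0) := by
    intro b hb
    obtain ⟨k, e, k1⟩ := mem_gens.1 (med b (mem_filter.1 hb).1).1
    have k2 : k ≠ D.g0 := fun e' => ((hR b).1 hb).2.2 (by rw [e, e', hD.hg])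
    refine Nat.Coprime.coprime_dvd_left ?_ (hA.cop _ _ k2)
    rw [(hc k).2.2.2]
    exact (Nat.dvd_of_mem_primeFactors k1).mul_right _
  have mb := med_bound (fun k => (hc k).1)
    (X := D.rest x) fun b hb => ⟨(med b (mem_filter.1 hb).1).1, ((hR b).1 hb).1.2⟩
  have e5 : s.2 * P D.g0 / s.2 = P D.g0 := Nat.mul_div_cancel_left _ sp.pos
  have un : ∀ (X X₁ : Finset (Gen nn)) (u v : Bool), X ⊆ le D.S.Y' V → D.O ∩ X = X₁ →
      (∀ b ∈ Ns, (b ∈ X ↔ u)) → (s ∈ X ↔ v) →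
      X₁ ∪ ((if u then D.Nn n else ∅) ∪ D.rest x ∩ X) ∪ (if v then {(D.g.1, s.2)} else ∅) = X := by
    intro X X₁ u v k1 k2 k3 k4
    rw [hNn, ← hs1, ← k2]
    ext b
    have k5 : b ∈ X → b ∈ D.O ∨ b ∈ Ns ∨ b ∈ D.rest x ∨ b = s := fun hb => by
      have := k1 hb
      rw [part] at this
      simpa only [mem_union, mem_singleton, or_assoc] using this
    have k6 := k3 b
    cases u <;> cases v <;> simp only [mem_union, mem_inter, mem_singleton, notMem_empty,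
      Bool.false_eq_true, if_false, if_true, Prod.mk.eta, iff_false, iff_true] at * <;> grind
  refine ⟨P D.f0, s.2 * P D.g0, n, ω, ⟨?_, dvd_mul_right _ _, ?_, ?_, ?_, ?_, ?_, fun k hk => ?_⟩,
    ?_, un _ _ _ _ h.hU h.o1 (fun b hb => (tl_eq_iff.1 ((hN b).1 hb).2).2.1) (tl_eq_iff.1 h.lab).2.1,
    un _ _ _ _ h.hU' h.o2 (fun b hb => (tl_eq_iff.1 ((hN b).1 hb).2).2.2) (tl_eq_iff.1 h.lab).2.2,
    by rw [← hs1]⟩
  · refine mem_filter.2 ⟨mem_pri.2 ⟨hs.2, (mem_le.1 hs.1).2, sp⟩, fun hd => sp.ne_one ?_⟩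
    exact Nat.eq_one_of_dvd_coprimes cfg ((hd.mul_right _).mul_right _)
      ((dvd_mul_right _ _).mul_left _)
  · exact (Nat.one_le_two_pow).trans_lt h.lo
  · refine mem_W.2 ⟨fun b hb => ?_, inter_subset_left, inter_subset_left,
      (hA.nice hD.sys).dist.mono fun b hb => (mem_md.1 (mem_filter.1 hb).1).1, fun b hb =>
        ⟨((hR b).1 hb).2.1, ((hR b).1 hb).2.2, fun hd => (med b (mem_filter.1 hb).1).2.ne_one ?_⟩,
      mb.1, mb.2⟩
    · obtain ⟨k1, k2⟩ := med b (mem_filter.1 hb).1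
      obtain ⟨k, e, -⟩ := mem_gens.1 k1
      exact mem_TT.2 ⟨e ▸ tg_ne_none k, mem_pri.2 ⟨((hR b).1 hb).1.2,
        (mem_le.1 ((hR b).1 hb).1.1).2, k2⟩⟩
    · exact Nat.eq_one_of_dvd_coprimes (rel b hb) dvd_rfl (lf2 ▸ hd.mul_right _)
  · refine ⟨c2 ▸ (hc _).1, e5.symm ▸ (hc _).2.1, e5.symm ▸ (hc _).2.2.1, lf2 ▸ cond _, ?_⟩
    exact Nat.Coprime.coprime_dvd_left (by rw [mul_right_comm]; exact dvd_mul_right _ _) cfg
  · refine ⟨fun k hk => c1 k hk ▸ (hc k).1, fun p hp => ?_, ?_⟩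
    · have : (D.f.1, p) ∈ Ns := hNn ▸ mem_Nn.2 ⟨rfl, hp⟩
      exact ((hN _).1 this).1.2
    · exact Nat.Coprime.coprime_dvd_left ((dvd_mul_left _ _).mul_right _)
        (Nat.Coprime.coprime_dvd_right (dvd_mul_right _ _) cfg)
  · rw [← Nat.cast_mul, Nat.isCoprime_iff_coprime]
    refine Nat.Coprime.mul_right ?_ (Nat.Coprime.prod_right fun b hb => ?_)
    · exact (Nat.Coprime.coprime_dvd_left ((dvd_mul_left _ _).mul_right _)
        (Nat.Coprime.coprime_dvd_right (dvd_mul_left _ _) cfg)).symm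
    · exact Nat.Coprime.coprime_dvd_left (lf2 ▸ dvd_mul_left _ _) (rel b hb).symm
  · refine ⟨P k, (hc k).2.1, (hc k).2.2.1, ?_, ?_⟩
    · rw [z, (hc k).2.2.2, c1 k hk]
    · rw [← c1 k hk, ← (hc k).2.2.2]; exact cond k
  · funext k
    rw [pt, z, Int.mul_ediv_cancel_left _ hD.dl_ne, Int.toNat_natCast]

end KD

end KEY

end Pool.Agent.MP_a43263_nt.RG

end
end MrgPart0

-- ======== part 1: formerly Pool.Agent.MP_a43263_nt.RG.KeyB
section MrgPart1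

/-! PROJECT RANKG, module KEY: the factorisation of a term. -/

set_option autoImplicit false

noncomputable section

namespace Pool.Agent.MP_a43263_nt.RG

open Finset Filter
open R2 (Sgn chi pri Sc Core Shape mem_pri chi_comm chi_sgn chi_eq_rows chi_symmDiff_left
  chi_symmDiff_right chi_union_left chi_union_right)

variable {nn : ℕ}

namespace KEY

theorem abs_J (a : ℤ) (b : ℕ) : |jacobiSym a b| ≤ 1 := by
  rcases jacobiSym.trichotomy a b with h | h | h <;> rw [h] <;> simp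

theorem abs_mul_le {a b : ℤ} (h : |a| ≤ 1) (h' : |b| ≤ 1) : |a * b| ≤ 1 := by
  rw [abs_mul]; exact mul_le_one₀ h (abs_nonneg _) h'

theorem abs_pow_le {a : ℤ} (h : |a| ≤ 1) (e : ℕ) : |a ^ e| ≤ 1 := by
  rw [abs_pow]; exact pow_le_one₀ (abs_nonneg _) h

theorem abs_sgn {a : ℤ} (h : a = 1 ∨ a = -1) : |a| ≤ 1 := by
  rcases h with rfl | rfl <;> simp

theorem abs_prod_le {ι : Type} (X : Finset ι) {F : ι → ℤ} (h : ∀ b ∈ X, |F b| ≤ 1) :
    |∏ b ∈ X, F b| ≤ 1 :=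
  prod_induction F (fun z => |z| ≤ 1) (fun _ _ => abs_mul_le) (by simp) h

theorem J_per (m q : ℤ) {p : ℕ} {t : ℤ} (h : (p : ℤ) ∣ t) :
    jacobiSym (m * (q + t)) p = jacobiSym (m * q) p :=
  jacobiSym.mod_left' (Int.ModEq.symm ((Int.modEq_iff_dvd).2 (by
    rw [mul_add, add_sub_cancel_left]; exact h.mul_left _)))

namespace KD

/-- the shape that the oscillation estimate needs -/
def Fact (D : KD nn) (F : ℕ → ℕ → ℕ → ℕ → T3 nn → ℤ) (e : ℕ) : Prop :=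
  ∃ (a : ℕ → ℕ → ℕ → ℤ) (b : ℕ → T3 nn → ℤ) (p : ℕ → T3 nn → ℤ → ℤ) (σ : ℕ → T3 nn → ℤ) (K : T3 nn → ℤ),
    (∀ r q s, |a r q s| ≤ 1) ∧ (∀ n ω, |b n ω| ≤ 1) ∧ (∀ n ω q, |p n ω q| ≤ 1) ∧
    (∀ n, ∀ ω ∈ D.W, ∀ q, p n ω (q + n * nu ω) = p n ω q) ∧ (∀ n ω, σ n ω = 1 ∨ σ n ω = -1) ∧
    ∀ r q s n ω, D.Val r q s n ω →
      F r q s n ω = a r q s * b n ω * p n ω q * jacobiSym (σ n ω * n ^ e * K ω) s

variable {D : KD nn} {F G : ℕ → ℕ → ℕ → ℕ → T3 nn → ℤ} {e e' : ℕ}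

theorem Fact.congr (h : D.Fact G e) (hF : ∀ r q s n ω, D.Val r q s n ω → F r q s n ω = G r q s n ω) :
    D.Fact F e := by
  obtain ⟨a, b, p, σ, K, h1, h2, h3, h4, h5, h6⟩ := h
  exact ⟨a, b, p, σ, K, h1, h2, h3, h4, h5, fun r q s n ω k => (hF r q s n ω k).trans (h6 r q s n ω k)⟩

theorem Fact.mul (h : D.Fact F e) (h' : D.Fact G e') :
    D.Fact (fun r q s n ω => F r q s n ω * G r q s n ω) (e + e') := by
  obtain ⟨a, b, p, σ, K, h1, h2, h3, h4, h5, h6⟩ := h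
  obtain ⟨a', b', p', σ', K', k1, k2, k3, k4, k5, k6⟩ := h'
  refine ⟨fun r q s => a r q s * a' r q s, fun n ω => b n ω * b' n ω,
    fun n ω q => p n ω q * p' n ω q, fun n ω => σ n ω * σ' n ω, fun ω => K ω * K' ω,
    fun _ _ _ => abs_mul_le (h1 _ _ _) (k1 _ _ _), fun _ _ => abs_mul_le (h2 _ _) (k2 _ _),
    fun _ _ _ => abs_mul_le (h3 _ _ _) (k3 _ _ _), fun n ω hω q => ?_, fun n ω => ?_,
    fun r q s n ω k => ?_⟩
  · simp only [h4 n ω hω, k4 n ω hω]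
  · rcases h5 n ω with h | h <;> rcases k5 n ω with k | k <;> simp [h, k]
  · simp only [h6 r q s n ω k, k6 r q s n ω k]
    rw [show σ n ω * σ' n ω * (n : ℤ) ^ (e + e') * (K ω * K' ω) =
      σ n ω * n ^ e * K ω * (σ' n ω * n ^ e' * K' ω) by ring, jacobiSym.mul_left (σ n ω * _ * _)]
    ring

theorem fact_a {a : ℕ → ℕ → ℕ → ℤ} (h : ∀ r q s, |a r q s| ≤ 1) :
    D.Fact (fun r q s _ _ => a r q s) 0 :=
  ⟨a, fun _ _ => 1, fun _ _ _ => 1, fun _ _ => 1, fun _ => 1, h, by simp, by simp, by simp, by simp,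
    by simp⟩

theorem fact_b {b : ℕ → T3 nn → ℤ} (h : ∀ n ω, |b n ω| ≤ 1) :
    D.Fact (fun _ _ _ n ω => b n ω) 0 :=
  ⟨fun _ _ _ => 1, b, fun _ _ _ => 1, fun _ _ => 1, fun _ => 1, by simp, h, by simp, by simp,
    by simp, by simp⟩

theorem fact_p {p : ℕ → T3 nn → ℤ → ℤ} (h : ∀ n ω q, |p n ω q| ≤ 1)
    (h' : ∀ n, ∀ ω ∈ D.W, ∀ q, p n ω (q + n * nu ω) = p n ω q) :
    D.Fact (fun _ q _ n ω => p n ω q) 0 :=
  ⟨fun _ _ _ => 1, fun _ _ => 1, p, fun _ _ => 1, fun _ => 1, by simp, by simp, h, h',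
    by simp, by simp⟩

theorem fact_J {σ : ℕ → T3 nn → ℤ} (h : ∀ n ω, σ n ω = 1 ∨ σ n ω = -1) (K : T3 nn → ℤ) (e : ℕ) :
    D.Fact (fun _ _ s n ω => jacobiSym (σ n ω * n ^ e * K ω) s) e :=
  ⟨fun _ _ _ => 1, fun _ _ => 1, fun _ _ _ => 1, σ, K, by simp, by simp, by simp, by simp, h,
    by simp⟩

theorem fact_prod (X : Finset (Gen nn)) {F : Gen nn → ℕ → ℕ → ℕ → ℕ → T3 nn → ℤ}
    (h : ∀ b ∈ X, D.Fact (F b) 0) : D.Fact (fun r q s n ω => ∏ b ∈ X, F b r q s n ω) 0 := by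
  induction X using Finset.induction_on with
  | empty => exact fact_a (a := fun _ _ _ => 1) (by simp)
  | insert b X hb ih =>
    simp only [prod_insert hb]
    exact (h b (mem_insert_self _ _)).mul (ih fun a ha => h a (mem_insert_of_mem ha))

theorem Fact.ite (h : D.Fact F e) (v : Bool) :
    D.Fact (fun r q s n ω => if v then F r q s n ω else 1) (v.toNat * e) := by
  cases v
  · simpa using fact_a (D := D) (a := fun _ _ _ => 1) (by simp)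
  · simpa using h

theorem Fact.odd (h : D.Fact F e) (he : Odd e) : D.Fact F 1 := by
  obtain ⟨a, b, p, σ, K, h1, h2, h3, h4, h5, h6⟩ := h
  obtain ⟨k, rfl⟩ := he
  refine ⟨a, b, p, σ, K, h1, h2, h3, h4, h5, fun r q s n ω hv => ?_⟩
  have hc : ((n : ℤ) ^ k).gcd s = 1 := by
    rw [← Int.isCoprime_iff_gcd_eq_one]
    exact (hv.cop.of_mul_right_left.symm.of_isCoprime_of_dvd_right
      (Int.natCast_dvd_natCast.2 hv.dvd)).pow_left
  rw [h6 r q s n ω hv, show σ n ω * (n : ℤ) ^ (2 * k + 1) * K ω =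
    σ n ω * n ^ 1 * K ω * (n ^ k) ^ 2 by ring, jacobiSym.mul_left (σ n ω * _ * _),
    jacobiSym.sq_one' hc, mul_one]

variable {r q s n : ℕ} {ω : T3 nn}

theorem Val.adm (hD : D.Ok) (h : D.Val r q s n ω) : Adm D.E (D.pt r q n) :=
  adm_of_mem hD.rel (h.mem_AA hD)

theorem Val.lf_f (hD : D.Ok) (h : D.Val r q s n ω) :
    D.pt r q n D.f0 = D.m D.f0 * n * r := by
  obtain ⟨-, -, -, -, -, -, h, -⟩ := h.forms hD; exact h

theorem Val.lf_g (hD : D.Ok) (h : D.Val r q s n ω) :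
    D.pt r q n D.g0 = D.m D.g0 * q := by
  obtain ⟨-, -, -, -, -, -, -, h, -⟩ := h.forms hD; exact h

theorem Val.dvd_lf (hD : D.Ok) (h : D.Val r q s n ω) {k : Ix nn} {p : ℕ}
    (hb : ((tg k), p) ∈ D.NL n ω s) : p.Prime ∧ p ∣ D.pt r q n k := by
  rw [← (h.le_eq hD).1, mem_le, hD.sys.mk_mem_VV] at hb
  exact ⟨Nat.prime_of_mem_primeFactors hb.1, Nat.dvd_of_mem_primeFactors hb.1⟩

theorem Val.sqf (hD : D.Ok) (h : D.Val r q s n ω) : Squarefree n := by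
  have h1 := (h.ib.1 _ hD.ne).sqf
  rw [cc, if_pos rfl] at h1
  exact h1.of_mul_right

/-- the inner part of a label set -/
def II (D : KD nn) (u : Bool) (sel : T3 nn → Finset (Gen nn)) (n : ℕ) (ω : T3 nn) : Finset (Gen nn) :=
  (if u then D.Nn n else ∅) ∪ sel ω

theorem II_sub {u : Bool} {sel : T3 nn → Finset (Gen nn)} (hs : sel ω ⊆ ω.1) :
    D.II u sel n ω ⊆ D.Nn n ∪ ω.1 := by
  refine union_subset_union ?_ hs
  split_ifs <;> simp

theorem Val.dj (hD : D.Ok) (h : D.Val r q s n ω) {X : Finset (Gen nn)} (hX : X ⊆ D.O) {u : Bool}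
    {sel : T3 nn → Finset (Gen nn)} (hs : sel ω ⊆ ω.1) (v : Bool) : Disjoint X (D.II u sel n ω) ∧
      Disjoint (X ∪ D.II u sel n ω) (if v then {(D.g.1, s)} else ∅) := by
  obtain ⟨d1, d2, d3, -, d5, d6⟩ := h.disj hD
  refine ⟨disjoint_left.2 fun b k k' => ?_, ?_⟩
  · rcases mem_union.1 (II_sub hs k') with k' | k'
    exacts [d1 b k' (hX k), d2 b k' (hX k)]
  · split_ifs
    · refine disjoint_singleton_right.2 fun k => ?_
      rcases mem_union.1 k with k | k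
      · exact d3 (hX k)
      · rcases mem_union.1 (II_sub hs k) with k | k
        exacts [d5 k, d6 k]
    · exact disjoint_empty_right _

theorem Val.II_el (hD : D.Ok) (h : D.Val r q s n ω) {b : Gen nn} (hb : b ∈ D.Nn n ∪ ω.1) :
    b.1.2 ≠ none ∧ b.1 ≠ D.g.1 ∧ b.2.Prime ∧ b.2 ≠ 2 ∧ b.2 ≠ s := by
  have h2 : 2 ≤ D.S.Y := (Nat.le_of_dvd hD.sys.pos hD.sys.two_dvd).trans hD.hM
  have hc : ∀ p : ℕ, p.Prime → p ∣ n * nu ω → p ≠ s := by
    rintro p hp hd rfl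
    have := h.cop
    rw [← Nat.cast_mul, Nat.isCoprime_iff_coprime] at this
    exact hp.ne_one (Nat.eq_one_of_dvd_coprimes this h.dvd hd)
  rcases mem_union.1 hb with hb | hb
  · obtain ⟨k1, k2⟩ := mem_Nn.1 hb
    have k3 := Nat.prime_of_mem_primeFactors k2
    have := h.ib.2.1 _ k2
    exact ⟨k1 ▸ hD.hf ▸ tg_ne_none _, k1 ▸ hD.fg, k3, by omega,
      hc _ k3 ((Nat.dvd_of_mem_primeFactors k2).mul_right _)⟩
  · obtain ⟨k1, k2, -, k3⟩ := W_el h.hω hb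
    exact ⟨k1, ((mem_W.1 h.hω).2.tag b hb).2.1, k3, by omega,
      hc _ k3 ((dvd_prod_of_mem _ hb).mul_left _)⟩

/-- a row of the matrix summed over whole forms -/
def row (D : KD nn) (y : Finset (Ix nn)) (x : Ix nn → ℕ) (b : Gen nn) : ℤ :=
  ∏ a ∈ ones (D.E.VV x) y, D.E.g a b

theorem fact_rows (hD : D.Ok) {y : Finset (Ix nn)}
    (h2 : ∀ b ∈ D.E.V0, ∀ x, Adm D.E x → D.row y x b = 1)
    (h3 : ∀ k k' : Ix nn, k ≠ k' → ∃ C : ℤ, ∀ x, Adm D.E x → ∀ p : ℕ, p.Prime →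
      p ∣ x k → D.row y x ((tg k), p) =
        jacobiSym C p * jacobiSym (x k') p ^ Yne (k.1) y)
    {X : Finset (Gen nn)} (hX : X ⊆ D.O) (u v : Bool) {sel : T3 nn → Finset (Gen nn)}
    (hs : ∀ ω ∈ D.W, sel ω ⊆ ω.1) :
    D.Fact (fun r q s n ω => ∏ b ∈ X ∪ D.II u sel n ω ∪ (if v then {(D.g.1, s)} else ∅),
      D.row y (D.pt r q n) b) (v.toNat * Yne D.g.1.1 y) := by
  obtain ⟨Cg, hg⟩ := h3 _ _ hD.ne.symm
  have h4 : ∀ k : Tag nn, ∃ C : ℤ, k.2 ≠ none → k ≠ D.g.1 → ∀ r q s n ω, D.Val r q s n ω → ∀ p : ℕ,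
      (k, p) ∈ D.NL n ω s → D.row y (D.pt r q n) (k, p) =
        jacobiSym C p * jacobiSym (D.m D.g0 * (q : ℤ)) p ^ Yne k.1 y := by
    intro k
    by_cases k1 : k.2 = none
    · exact ⟨0, fun k => absurd k1 k⟩
    obtain ⟨j, rfl⟩ := exists_tg k1
    by_cases k2 : j = D.g0
    · exact ⟨0, fun _ k => absurd (k2 ▸ hD.hg.symm) k⟩
    obtain ⟨C, hC⟩ := h3 _ _ k2
    refine ⟨C, fun _ _ r q s n ω hv p hp => ?_⟩
    rw [hC _ (hv.adm hD) p (hv.dvd_lf hD hp).1 (hv.dvd_lf hD hp).2, hv.lf_g hD, Nat.cast_mul, tg_cls]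
  choose C hC using h4
  have h5 : ∀ r q s n ω, D.Val r q s n ω → ∀ p : ℕ, (D.g.1, p) ∈ D.NL n ω s →
      D.row y (D.pt r q n) (D.g.1, p) = jacobiSym Cg p *
        jacobiSym (D.m D.f0 * (r : ℤ)) p ^ Yne D.g.1.1 y *
        jacobiSym (1 * (n : ℤ) ^ Yne D.g.1.1 y * 1) p := by
    intro r q s n ω hv p hp
    rw [hD.hg] at hp ⊢
    rw [hg _ (hv.adm hD) p (hv.dvd_lf hD hp).1 (hv.dvd_lf hD hp).2, hv.lf_f hD, mul_right_comm,
      Nat.cast_mul, jacobiSym.mul_left, mul_pow, one_mul, mul_one, jacobiSym.pow_left, Nat.cast_mul,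
      mul_assoc, tg_cls]
  have f1 : D.Fact (fun r q s n ω => ∏ b ∈ X, D.row y (D.pt r q n) b) 0 := by
    refine fact_prod X fun b hb => ?_
    have hb' : ∀ n ω s, b ∈ D.NL n ω s := fun n ω s =>
      mem_union_left _ (mem_union_left _ (hX hb))
    rcases hD.el b (hX hb) with k | k
    · exact (fact_a (a := fun _ _ _ => 1) fun _ _ _ => by simp).congr
        fun r q s n ω hv => h2 b k _ (hv.adm hD)
    by_cases k2 : b.1 = D.g.1
    · refine ((fact_a fun r q s => abs_mul_le (abs_J Cg b.2) (abs_pow_le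
        (abs_J (D.m D.f0 * (r : ℤ)) b.2) (Yne D.g.1.1 y))).mul
        (fact_b fun n ω => abs_J (1 * (n : ℤ) ^ Yne D.g.1.1 y * 1) b.2)).congr
        fun r q s n ω hv => ?_
      rw [← h5 r q s n ω hv b.2 (k2 ▸ hb' n ω s), ← k2]
    · exact (fact_a fun r q s => abs_mul_le (abs_J (C b.1) b.2) (abs_pow_le
        (abs_J (D.m D.g0 * (q : ℤ)) b.2) (Yne b.1.1 y))).congr
        fun r q s n ω hv => hC b.1 k.1 k2 r q s n ω hv b.2 (hb' n ω s)
  have f2 : D.Fact (fun r q s n ω => ∏ b ∈ D.II u sel n ω, D.row y (D.pt r q n) b) 0 := by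
    refine (fact_p (p := fun n ω q => ∏ b ∈ D.II u sel n ω,
      jacobiSym (C b.1) b.2 * jacobiSym (D.m D.g0 * q) b.2 ^ Yne b.1.1 y)
      (fun n ω q => abs_prod_le _ fun b _ => abs_mul_le (abs_J _ _) (abs_pow_le (abs_J _ _) _))
      fun n ω hω q => prod_congr rfl fun b hb => ?_).congr
      fun r q s n ω hv => prod_congr rfl fun b hb => ?_
    · rw [J_per]
      rw [← Nat.cast_mul, Int.natCast_dvd_natCast]
      rcases mem_union.1 (II_sub (hs ω hω) hb) with k | k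
      · exact (Nat.dvd_of_mem_primeFactors (mem_Nn.1 k).2).mul_right _
      · exact (dvd_prod_of_mem _ k).mul_left _
    · have k := II_sub (hs ω hv.hω) hb
      exact hC b.1 (hv.II_el hD k).1 (hv.II_el hD k).2.1 r q s n ω hv b.2
        (mem_union_left _ (mem_union_right _ k))
  have f3 : D.Fact (fun r q s n ω => D.row y (D.pt r q n) (D.g.1, s)) (0 + Yne D.g.1.1 y) :=
    ((fact_a fun r q s => abs_mul_le (abs_J Cg s) (abs_pow_le
      (abs_J (D.m D.f0 * (r : ℤ)) s) (Yne D.g.1.1 y))).mul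
      (fact_J (σ := fun _ _ => 1) (by simp) (fun _ => 1) _)).congr
      fun r q s n ω hv => h5 r q s n ω hv s (mem_union_right _ (mem_singleton_self _))
  have f4 := (f1.mul f2).mul (f3.ite v)
  simp only [zero_add] at f4
  refine f4.congr fun r q s n ω hv => ?_
  obtain ⟨d1, d2⟩ := hv.dj hD hX (u := u) (hs ω hv.hω) v
  rw [prod_union d2, prod_union d1]
  cases v <;> simp

theorem fact_col (hD : D.Ok)
    (h4 : ∀ (W : Finset (Gen nn)) (k : Tag nn), (∀ b ∈ W, b.1 ≠ k ∧ b.2.Prime ∧ b.2 ≠ 2) →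
      ∃ σ : ℤ, (σ = 1 ∨ σ = -1) ∧ ∀ s : ℕ, s.Prime → s ≠ 2 → (∀ b ∈ W, b.2 ≠ s) →
        ∏ b ∈ W, D.E.g b (k, s) =
          jacobiSym (σ * ∏ b ∈ W.filter (fun b => b.1.1 ≠ k.1), (b.2 : ℤ)) s)
    {X : Finset (Gen nn)} (hX : X ⊆ D.O) (u v : Bool) {sel : T3 nn → Finset (Gen nn)}
    (hs : ∀ ω ∈ D.W, sel ω ⊆ ω.1) :
    D.Fact (fun _ _ s n ω => chi D.E.g (X ∪ D.II u sel n ω) (if v then {(D.g.1, s)} else ∅))
      (v.toNat * if D.f.1.1 = D.g.1.1 then 0 else u.toNat) := by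
  have h5 : ∀ W : Finset (Gen nn), ∃ σ : ℤ, (σ = 1 ∨ σ = -1) ∧
      ((∀ b ∈ W, b.1 ≠ D.g.1 ∧ b.2.Prime ∧ b.2 ≠ 2) → ∀ s : ℕ, s.Prime → s ≠ 2 →
        (∀ b ∈ W, b.2 ≠ s) → ∏ b ∈ W, D.E.g b (D.g.1, s) =
          jacobiSym (σ * ∏ b ∈ W.filter (fun b => b.1.1 ≠ D.g.1.1), (b.2 : ℤ)) s) := by
    intro W
    by_cases h : ∀ b ∈ W, b.1 ≠ D.g.1 ∧ b.2.Prime ∧ b.2 ≠ 2
    · exact (h4 W _ h).imp fun _ k => ⟨k.1, fun _ => k.2⟩
    · exact ⟨1, .inl rfl, fun k => absurd k h⟩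
  choose σ s1 s2 using h5
  have f1 := (fact_a (D := D) fun _ _ s => abs_prod_le X fun b _ =>
    abs_sgn (D.E.sgn.2 b (D.g.1, s))).mul (fact_J (fun n ω => s1 (D.II u sel n ω))
      (fun ω => ∏ b ∈ (sel ω).filter (fun b => b.1.1 ≠ D.g.1.1), (b.2 : ℤ))
      (if D.f.1.1 = D.g.1.1 then 0 else u.toNat))
  rw [zero_add] at f1
  refine (f1.ite v).congr fun r q s n ω hv => ?_
  have hw := hs ω hv.hω
  have h2 : 2 ≤ D.S.Y := (Nat.le_of_dvd hD.sys.pos hD.sys.two_dvd).trans hD.hM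
  cases v
  · simp [chi]
  simp only [chi, if_true, prod_singleton]
  rw [prod_union (hv.dj hD hX hw true).1, s2 _ (fun b hb => ?_) s hv.s_el.2.2
    (by have := hv.s_el.1; omega) fun b hb => (hv.II_el hD (II_sub hw hb)).2.2.2.2, mul_assoc (σ _)]
  · congr 3
    have hd : Disjoint (if u then D.Nn n else ∅) (sel ω) := by
      split_ifs
      · exact disjoint_right.2 fun b hb => (hv.disj hD).2.2.2.1 b (hw hb)
      · exact disjoint_empty_left _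
    rw [II, filter_union, prod_union (disjoint_filter_filter hd)]
    congr 1
    cases u
    · simp
    simp only [if_true, Bool.toNat_true]
    split_ifs with h
    · rw [filter_false_of_mem fun b hb => by rw [(mem_Nn.1 hb).1, h]; simp, prod_empty, pow_zero]
    · rw [filter_true_of_mem fun b hb => by rw [(mem_Nn.1 hb).1]; exact h, Nn,
        prod_image fun _ _ _ _ e => (Prod.mk.inj e).2, pow_one, ← Nat.cast_prod,
        Nat.prod_primeFactors_of_squarefree (hv.sqf hD)]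
  · obtain ⟨-, k1, k2, k3, -⟩ := hv.II_el hD (II_sub hw hb)
    exact ⟨k1, k2, k3⟩

/-- the factorisation of the sign of a term -/
theorem fact_term (hD : D.Ok) (kc : KCStmt) (sym : SYMStmt) {y y' : Finset (Ix nn)}
    (ho : Odd (expo y y' D.f D.g)) :
    D.Fact (fun r q s n ω => chi D.E.g
      (symmDiff (D.U1 n ω s) (ones (D.E.VV (D.pt r q n)) y))
      (symmDiff (D.U2 n ω s) (ones (D.E.VV (D.pt r q n)) y'))) 1 := by
  obtain ⟨y1, y2, y3, -⟩ := sym _ _ hD.sys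
  obtain ⟨σ, e, s1, s2⟩ := y1 y y' _ _ hD.ne
  have w1 : ∀ ω ∈ D.W, ω.2.1 ⊆ ω.1 := fun ω h => (mem_W.1 h).2.s1
  have w2 : ∀ ω ∈ D.W, ω.2.2 ⊆ ω.1 := fun ω h => (mem_W.1 h).2.s2
  have g := D.E.sgn
  have r1 := fact_rows hD (y2 y') (y3 y') hD.s1 D.f.2.1 D.g.2.1 w1
  have r2 := fact_rows hD (y2 y) (y3 y) hD.s2 D.f.2.2 D.g.2.2 w2
  have c1 := fact_col hD ((kc nn).2.2.2 D.E.dg) hD.s1 D.f.2.1 D.g.2.2 w1
  have c2 := fact_col hD ((kc nn).2.2.2 D.E.dg) hD.s2 D.f.2.2 D.g.2.1 w2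
  have a1 := fact_a (D := D) fun r q s => abs_mul_le (abs_mul_le (abs_sgn s1)
    (abs_pow_le (abs_J (D.m D.g0 * (q : ℤ)) (D.m D.f0 * r)) e)) (abs_sgn (chi_sgn g
      (if D.g.2.1 then {(D.g.1, s)} else ∅) (if D.g.2.2 then {(D.g.1, s)} else ∅)))
  have b1 := fact_b (D := D) fun n ω => abs_sgn (chi_sgn g (D.O₁ ∪ D.I1 n ω) (D.O₂ ∪ D.I2 n ω))
  have p1 := fact_p (D := D) (p := fun n ω q => jacobiSym (D.m D.g0 * q) n ^ e)
    (fun n ω q => abs_pow_le (abs_J _ _) e) fun n ω _ q => by rw [J_per _ _ (dvd_mul_right _ _)]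
  refine Fact.odd (((((((a1.mul b1).mul p1).mul c1).mul c2).mul r2).mul r1).congr
    fun r q s n ω hv => ?_) ?_
  · have d1 : Disjoint (D.O₁ ∪ D.I1 n ω) _ :=
      (hv.dj hD hD.s1 (u := D.f.2.1) (sel := fun ω => ω.2.1) (w1 ω hv.hω) D.g.2.1).2
    have d2 : Disjoint (D.O₂ ∪ D.I2 n ω) _ :=
      (hv.dj hD hD.s2 (u := D.f.2.2) (sel := fun ω => ω.2.2) (w2 ω hv.hω) D.g.2.2).2
    have h0 : D.m D.f0 * r * n ≠ 0 := by
      rw [mul_right_comm, ← hv.lf_f hD]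
      exact ((hv.adm hD).sqf _).ne_zero
    rw [chi_symmDiff_left g, chi_symmDiff_right g, chi_symmDiff_right g, s2 _ (hv.adm hD),
      chi_comm g (D.U1 n ω s) (ones _ _), chi_eq_rows _ (ones _ _), chi_eq_rows _ (ones _ _),
      hv.lf_f hD, hv.lf_g hD, mul_right_comm (D.m D.f0),
      jacobiSym.mul_right' _ (left_ne_zero_of_mul h0) (right_ne_zero_of_mul h0), mul_pow,
      Nat.cast_mul]
    have e1 : chi D.E.g (D.U1 n ω s) (D.U2 n ω s) =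
        chi D.E.g (D.O₁ ∪ D.I1 n ω) (D.O₂ ∪ D.I2 n ω) *
        chi D.E.g (D.O₁ ∪ D.I1 n ω) (if D.g.2.2 then {(D.g.1, s)} else ∅) *
        (chi D.E.g (D.O₂ ∪ D.I2 n ω) (if D.g.2.1 then {(D.g.1, s)} else ∅) *
        chi D.E.g (if D.g.2.1 then {(D.g.1, s)} else ∅) (if D.g.2.2 then {(D.g.1, s)} else ∅)) := by
      rw [U1, U2, chi_union_left d1, chi_union_right _ d2, chi_union_right _ d2,
        chi_comm g (if D.g.2.1 then _ else _) (D.O₂ ∪ _)]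
    rw [e1]
    simp only [row, U1, U2, I1, I2, II]
    ring
  · have : expo y y' D.f D.g = 0 + 0 + 0 +
        (D.g.2.2.toNat * if D.f.1.1 = D.g.1.1 then 0 else D.f.2.1.toNat) +
        (D.g.2.1.toNat * if D.f.1.1 = D.g.1.1 then 0 else D.f.2.2.toNat) +
        D.g.2.2.toNat * Yne D.g.1.1 y + D.g.2.1.toNat * Yne D.g.1.1 y' := by
      rw [expo]
      split_ifs <;> ring
    exact this ▸ ho

end KD

end KEY

end Pool.Agent.MP_a43263_nt.RG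

end
end MrgPart1

-- marker of a merged file
example : 731051 + 432748 = 731051 + 432748 := rfl
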