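import Pool.Agent.MP_a43263_nt.R2.Desc
import Pool.Agent.MP_a43263_nt.R2.Mer
import Pool.Agent.MP_a43263_nt.R2.Maj
import Pool.Agent.MP_a43263_nt.R2.Sw
import Pool.Agent.MP_a43263_nt.R2.Exc
import Pool.Agent.MP_a43263_nt.R2.Box
import Pool.Agent.MP_a43263_nt.DH.Ins
import Pool.Agent.MP_a43263_nt.DH.Til1
import Pool.Agent.MP_a43263_nt.DH.Til
import Pool.Agent.MP_a43263_nt.DH.Stp
import Pool.Agent.MP_a43263_nt.DH.Sz
import Pool.Agent.MP_a43263_nt.RG.Exp
import Pool.Agent.MP_a43263_nt.RG.Den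
import Pool.Agent.MP_a43263_nt.RG.Pos
import Pool.Agent.MP_a43263_nt.RG.Fib
import Pool.Agent.MP_a43263_nt.RG.Cnt
import Pool.Agent.MP_a43263_nt.RG.Pair
import Pool.Agent.MP_a43263_nt.RG.Gg
import Pool.Agent.MP_a43263_nt.RG.Par

/-! PROJECT RANKG: the analytic tools as closed theorems. -/

set_option autoImplicit false

namespace Pool.Agent.MP_a43263_nt.RG.T

theorem sha : R2.SHAStmt := R2.sha

theorem mer : R2.MERStmt := R2.mer

theorem pm : R2.PMStmt := R2.pm

theorem sv : R2.SVStmt := R2.sv R2.crt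

theorem dos : R2.DOStmt := R2.dos R2.jac

theorem sw : R2.SWStmt := R2.sw

theorem exc : R2.EXCStmt := R2.exc mer dos (R2.chss R2.jac sw)

theorem shi : R2.SHIStmt := R2.shi R2.box

theorem cen : R2.CENStmt := R2.cen R2.crt

theorem sz : DH.SZStmt := DH.sz_of DH.md DH.ins DH.til1 DH.til DH.stp DH.all DH.sz

theorem mes : RG.MESStmt := RG.mes mer

theorem exp : RG.EXPStmt := RG.expo_main mer exc

theorem den : RG.DENStmt := RG.den sw (RG.mas mer pm)

theorem pos : RG.POSStmt := RG.pos sz den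

theorem dom : RG.DOMStmt := RG.dom (RG.fib mer pm sv)

theorem cnt : RG.CNTStmt := RG.cnt

theorem bor : RG.BORStmt := RG.bor

theorem pair : RG.PAIRStmt := RG.pair mer shi cen

theorem gg : RG.GStmt := RG.gg mer dos pair

end Pool.Agent.MP_a43263_nt.RG.T
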