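import Mathlib
import Pool.Agent.MP_a43263_nt.RG.Tools
import Pool.Agent.MP_a43263_nt.RG.Alg
import Pool.Agent.MP_a43263_nt.RG.Base
import Pool.Agent.MP_a43263_nt.RG.Br
import Pool.Agent.MP_a43263_nt.RG.Fin
import Pool.Agent.MP_a43263_nt.RG.Geo
import Pool.Agent.MP_a43263_nt.RG.Good
import Pool.Agent.MP_a43263_nt.RG.Key
import Pool.Agent.MP_a43263_nt.RG.Kil
import Pool.Agent.MP_a43263_nt.RG.Loc
import Pool.Agent.MP_a43263_nt.RG.Lya
import Pool.Agent.MP_a43263_nt.RG.Mkv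
import Pool.Agent.MP_a43263_nt.RG.Osc
import Pool.Agent.MP_a43263_nt.RG.Pty
import Pool.Agent.MP_a43263_nt.RG.Sym

/-! PROJECT RANKG: the assembly. -/

set_option autoImplicit false

namespace Pool.Agent.MP_a43263_nt.RG

theorem mkvAll : MKVStmt :=
  mkv kcs (sym kcs) T.cnt T.mes T.dom (lya T.bor kcs T.mer T.exp (step T.bor kcs))
    (kil kcs T.mer T.exp) (os (key kcs (sym kcs) T.gg))

theorem main0 : Main0Stmt :=
  fin (par T.bor) T.pos mkvAll (base pty) pt (br pt) (geo kcs)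
    (good (alg kcs T.sha rank (loc kcs)) (br pt) spe)

theorem main : MainStmt := jin main0

end Pool.Agent.MP_a43263_nt.RG
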