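import Pool.Agent.MP_a43263_nt.RG.Basic

/-! PROJECT RANKG, module MKV: a positive proportion of the tuples has a kernel of the least size. -/

set_option autoImplicit false

noncomputable section

namespace Pool.Agent.MP_a43263_nt.RG

open Finset Filter
open R2 (Sgn chi Ker sg pri PP chs Sc Core Shape mem_Ker prod_symmDiff prod_sgn symmDiff_mem_Ker
  PP_union)

namespace Mkv

variable {n : ℕ} {D : Dat n} {S : Sc} {l : Ix n → ℕ}

theorem even_sum (hR : Rel n S) (he : Even n) (hx : l ∈ AA S D) :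
    Even (∑ h, (l h).primeFactors.card) := by
  have h : ∀ h, (l h).primeFactors.card % 2 = S.e % 2 := fun h => by
    obtain ⟨c, P, hc, hP, hl, e⟩ := (mem_AA.1 hx).2.2.2.2 h
    rw [e, hR.card_mul hc hP hl, hc.par]
  rw [Nat.even_iff, sum_nat_mod, sum_congr rfl fun j _ => h j, sum_const, card_univ, card_Ix,
    smul_eq_mul, ← Nat.even_iff]
  exact (he.mul_left 3).mul_right _

theorem card_tag (hD : D.Ok) (l : Ix n → ℕ) (h : Ix n) (q : ℕ → Prop) [DecidablePred q] :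
    ((D.VV l).filter fun a => a.1 = tg h ∧ q a.2).card = ((l h).primeFactors.filter q).card := by
  rw [← card_image_of_injective ((l h).primeFactors.filter q) (Prod.mk_right_injective (tg h))]
  congr 1
  ext ⟨k, p⟩
  simp only [mem_filter, mem_image, Prod.mk.injEq]
  constructor
  · rintro ⟨h1, rfl, h2⟩
    exact ⟨p, ⟨hD.mk_mem_VV.1 h1, h2⟩, rfl, rfl⟩
  · rintro ⟨p', ⟨h1, h2⟩, rfl, rfl⟩
    exact ⟨hD.mk_mem_VV.2 h1, rfl, h2⟩

/-- the count of the kernel on the set of tuples -/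
theorem cnt_AA (cnt : CNTStmt) (hD : D.Ok) (hR : Rel n S) (hY : D.M ≤ S.Y) (hJ : 1 ≤ S.J)
    (hx : l ∈ AA S D) :
    ((Ker D.g (D.VV l)).card : ℝ) ≤ osc D.g S.Y S.Y' (D.VV l) +
      3 * ((rset D.g S.Y (D.VV l)).card : ℝ) +
      3 * 8 ^ n * ((Ker D.g (le S.Y (D.VV l))).card : ℝ) / 2 ^ S.J := by
  refine cnt n _ hD.two D.sgn _ _ _ _ hR.Y_le hJ (fun a ha h => ?_) (fun j => ?_) fun j => ?_
  · rcases mem_VV.1 ha with k | k
    · have := Nat.le_of_dvd hD.pos (hD.fix a k).2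
      omega
    · obtain ⟨j, e, -⟩ := mem_gens.1 k
      exact e ▸ tg_ne_none j
  · obtain ⟨c, P, hc, hP, hl, e⟩ := (mem_AA.1 hx).2.2.2.2 j
    rw [card_tag hD _ j (S.Y' < ·), e, hR.filter_gt hc hP hl, card_singleton]
  · obtain ⟨c, P, hc, hP, hl, e⟩ := (mem_AA.1 hx).2.2.2.2 j
    have h1 : ((md S.Y S.Y' (D.VV l)).filter fun a => a.1 = tg j).card =
        (c.primeFactors.filter (S.Y < ·)).card := by
      rw [md, filter_filter, filter_congr fun _ _ => and_comm,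
        card_tag hD _ j fun p => S.Y < p ∧ p ≤ S.Y', e, filter_congr fun _ _ => and_comm,
        ← filter_filter, hR.filter_le hc hP hl]
    rw [h1]
    exact ⟨hc.lo, hc.hi⟩

theorem mem_rset {g : Gen n → Gen n → ℤ} {Y : ℕ} {V : Finset (Gen n)}
    {x : Finset (Ix n) × Finset (Gen n)} :
    x ∈ rset g Y V ↔ x.1 ∈ Yc n ∧ x.2 ⊆ le Y V ∧ symmDiff x.2 (ones V x.1) ∈ Ker g V := by
  simp only [rset, mem_filter, mem_product, mem_powerset, and_assoc]

/-- for each set of forms the small parts lie in one coset of the small kernel -/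
theorem rset_le {g : Gen n → Gen n → ℤ} (hg : Sgn g) (Y : ℕ) (V : Finset (Gen n)) :
    (rset g Y V).card ≤ (Ker g (le Y V)).card * 8 ^ n := by
  refine (card_le_mul_card_image_of_maps_to (f := Prod.fst) (t := Yc n)
    (fun x hx => (mem_rset.1 hx).1) (Ker g (le Y V)).card fun y _ => ?_).trans
    (Nat.mul_le_mul_left _ (card_Yc_le n))
  rcases ((rset g Y V).filter fun x => x.1 = y).eq_empty_or_nonempty with h | ⟨x₀, h₀⟩
  · rw [h]
    exact Nat.zero_le _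
  obtain ⟨h₀, e₀⟩ := mem_filter.1 h₀
  obtain ⟨-, a2, a3⟩ := mem_rset.1 h₀
  refine card_le_card_of_injOn (fun x => symmDiff x.2 x₀.2) (fun x hx => ?_) fun x hx x' hx' e => ?_
  · obtain ⟨hx, e⟩ := mem_filter.1 (mem_coe.1 hx)
    obtain ⟨-, b2, b3⟩ := mem_rset.1 hx
    have h1 := symmDiff_mem_Ker hg b3 a3
    rw [e, e₀, symmDiff_symmDiff_symmDiff_comm, symmDiff_self, symmDiff_bot] at h1
    exact mem_coe.2 (mem_Ker.2 ⟨symmDiff_subset_union.trans (union_subset b2 a2),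
      fun b hb => (mem_Ker.1 h1).2 b (mem_le.1 hb).1⟩)
  · exact Prod.ext ((mem_filter.1 (mem_coe.1 hx)).2.trans (mem_filter.1 (mem_coe.1 hx')).2.symm)
      (symmDiff_left_injective _ e)

/-- the primes of the character of a set of forms divide `M` -/
theorem Cy_dvd (hD : D.Ok) (y : Finset (Ix n)) (k : Ix n) {p : ℕ} (hp : p.Prime)
    (h : (p : ℤ) ∣ Cy D y k) : p ∣ D.M := by
  have hp' : Prime (p : ℤ) := Nat.prime_iff_prime_int.1 hp
  rcases hp'.dvd_or_dvd h with h | h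
  · split_ifs at h
    · exact hD.cM k p hp (dvd_neg.1 h)
    · exact hD.cM k p hp h
    · exact absurd h hp'.not_dvd_one
  · obtain ⟨j, hj, h⟩ := hp'.exists_mem_finset_dvd h
    exact Int.natCast_dvd_natCast.1
      (h.trans (hD.dv j k fun e => (mem_filter.1 hj).2 (by rw [e])))

/-- geometric classes are supported on the fixed generators -/
theorem geo_sub (kc : KCStmt) (hD : D.Ok) (hl : Adm D l) {y : Finset (Ix n)} {U : Finset (Gen n)}
    (hU : U ⊆ D.VV l) (hG : Geo D y U) : U ⊆ D.V0 := by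
  intro a ha
  by_contra h0
  obtain ⟨h, e, hq⟩ := mem_gens.1 ((mem_VV.1 (hU ha)).resolve_left h0)
  have hp := Nat.prime_of_mem_primeFactors hq
  have hp' : Prime (a.2 : ℤ) := Nat.prime_iff_prime_int.1 hp
  obtain ⟨j, hj⟩ := exists_ne h.1
  obtain ⟨s, hs⟩ := hG (j, h.2)
  have h1 : (a.2 : ℤ) ∣ Gv j U := by
    have : val a = a.2 := if_neg hp.ne_one
    rw [← this]
    exact dvd_prod_of_mem _ (mem_filter.2 ⟨ha, by rw [e]; exact hj.symm⟩)
  have h2 : ¬(a.2 : ℤ) ∣ Cy D y (j, h.2) := fun hd => hp.ne_one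
    (Nat.eq_one_of_dvd_coprimes (hl.coprime_M h) (Nat.dvd_of_mem_primeFactors hq)
      (Cy_dvd hD y _ hp hd))
  have h3 : (a.2 : ℤ) ∣ s := by
    have : (a.2 : ℤ) ∣ s * s := hs ▸ h1.mul_right _
    exact (hp'.dvd_or_dvd this).elim id id
  have h4 : (a.2 : ℤ) ^ 2 ∣ Gv j U * Cy D y (j, h.2) := by
    have hs' : Gv j U * Cy D y (j, h.2) = s * s := hs
    rw [hs', sq]
    exact mul_dvd_mul h3 h3
  have h5 := hp'.pow_dvd_of_dvd_mul_right 2 h2 h4
  have h6 := ((kc n).2.2.1 _ U j (hl.nice hD) hU).1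
  rw [Int.squarefree_natAbs] at h6
  exact hp'.not_isUnit (h6 _ (sq (a.2 : ℤ) ▸ h5))

theorem rset_geo (kc : KCStmt) (sym : SYMStmt) (hD : D.Ok) (hl : Adm D l) {Y Y' : ℕ} (hY : D.M ≤ Y)
    (h : ¬Bad D (le Y (gens l)) (md Y Y' (gens l))) : rset D.g Y (D.VV l) ⊆ geoSet D := by
  classical
  rintro ⟨y, U⟩ hx
  obtain ⟨h1, h2, h3⟩ := mem_rset.1 hx
  obtain ⟨-, s2, -, s4⟩ := sym n D hD
  have h4 : ∀ b ∈ D.VV l, (∏ a ∈ U, D.g a b) * ∏ a ∈ ones (D.VV l) y, D.g a b = 1 := fun b hb => by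
    rw [← prod_symmDiff fun a => D.sgn.2 a b]
    exact (mem_Ker.1 h3).2 b hb
  have hG : Geo D y U := by
    by_contra hG
    refine h ⟨y, h1, U, le_VV hD hY l ▸ h2, hG, fun b hb => ?_, fun k p hp => ?_⟩
    · have := h4 b (mem_VV.2 (.inl hb))
      rwa [s2 y b hb l hl, mul_one] at this
    · have hp' : (tg k, p) ∈ gens l :=
        (mem_union.1 hp).elim (fun k => (mem_le.1 k).1) fun k => (mem_md.1 k).1
      have hq := mk_mem_gens.1 hp'
      have := h4 _ (mem_VV.2 (.inr hp'))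
      rw [s4 y h1 k l hl p (Nat.prime_of_mem_primeFactors hq)
        (Nat.dvd_of_mem_primeFactors hq)] at this
      rcases prod_sgn U fun a _ => D.sgn.2 a (tg k, p) with e | e <;> rw [e] at this ⊢ <;> linarith
  exact mem_filter.2 ⟨mem_product.2 ⟨h1, mem_powerset.2
    (geo_sub kc hD hl (h2.trans (filter_subset _ _)) hG)⟩, hG⟩

theorem mass_mul {M a b d : ℕ} (hM : Sm n M) (h1 : a ≤ b) (h2 : b ≤ d) :
    Mass n (PP M 0 a) * Mass n (PP M b d) ≤ Mass n (PP M 0 d) := by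
  obtain ⟨e1, d1⟩ := PP_union M (Nat.zero_le b) h2
  obtain ⟨e2, d2⟩ := PP_union M (Nat.zero_le a) h1
  have k1 : Mass n (PP M 0 d) = Mass n (PP M 0 b) * Mass n (PP M b d) := by
    rw [e1]; exact prod_union d1
  have k2 : Mass n (PP M 0 b) = Mass n (PP M 0 a) * Mass n (PP M a b) := by
    rw [e2]; exact prod_union d2
  have := one_le_Mass hM 0 a
  have := one_le_Mass hM b d
  rw [k1, k2]
  exact mul_le_mul_of_nonneg_right (le_mul_of_one_le_right (by linarith) (one_le_Mass hM a b))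
    (by linarith)

end Mkv

open Mkv in
theorem mkv : KCStmt → SYMStmt → CNTStmt → MESStmt → DOMStmt → LYAStmt → KILStmt → OSCStmt →
    MKVStmt := by
  classical
  intro kc sym cnt mes dom lya kil os n D r δ hD hgeo hpar hn hδ
  obtain ⟨CD, hCD, dom⟩ := dom n D hD
  obtain ⟨CM, mes⟩ := mes n
  obtain ⟨CL, lya⟩ := lya n D hD
  have hCM : 0 ≤ CM := by
    have h1 := (one_le_Mass hD.sm 0 2).trans (mes D.M 0 2 hD.sm le_rfl)
    by_contra h
    have : CM * Real.log (2 : ℕ) ^ (3 * n) ≤ 0 :=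
      mul_nonpos_of_nonpos_of_nonneg (not_le.1 h).le (by positivity)
    linarith
  have hCL : 0 ≤ CL := by
    have h1 := (sum_nonneg fun W hW => mul_nonneg (Wt_nonneg hD.sm
      (mem_powerset.1 (mem_filter.1 hW).1)) (Real.sqrt_nonneg _)).trans (lya 0)
    exact nonneg_of_mul_nonneg_left h1 (zero_lt_one.trans_le (one_le_Mass hD.sm 0 0))
  obtain ⟨t, ht⟩ := exists_nat_gt (2 * (CD * CM * CL) / δ)
  have ht0 : (0 : ℝ) < t := lt_of_le_of_lt (by positivity) ht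
  rw [div_lt_iff₀ hδ] at ht
  obtain ⟨K, hK⟩ : ∃ K : ℝ, K = 3 * 8 ^ n * (t : ℝ) ^ 2 := ⟨_, rfl⟩
  have hK0 : 0 ≤ K := by rw [hK]; positivity
  obtain ⟨R, hRR⟩ : ∃ R : ℝ, R = 2 ^ (r + 2) := ⟨_, rfl⟩
  have hR4 : 4 ≤ R := by
    have : (1 : ℝ) ≤ 2 ^ r := one_le_pow₀ one_le_two
    rw [hRR, pow_add]
    linarith
  obtain ⟨J₀, hJ₀⟩ := pow_unbounded_of_one_lt
    (((CD * CM) * K ^ 2 + K) / δ) (one_lt_two (α := ℝ))
  refine ⟨J₀ + 1, fun J hJ => ?_⟩
  have hJ1 : (CD * CM) * K ^ 2 + K ≤ δ * 2 ^ J := by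
    rw [div_lt_iff₀ hδ] at hJ₀
    have : (2 : ℝ) ^ J₀ ≤ 2 ^ J := pow_le_pow_right₀ one_le_two (by omega)
    nlinarith
  refine ((((dom J).and (kil n D (t ^ 2) J hD)).and
    (os n D J (δ / 2) hD (half_pos hδ))).and (ev_ge (D.M + 2))).mono ?_
  rintro S - rfl hR ⟨⟨⟨dom, kil⟩, os⟩, hY0⟩ hA
  have hY := hR.Y0_le
  have hY' := hR.Y_le
  have hMY : D.M ≤ S.Y := by omega
  have hL : 0 < Real.log S.Y' ^ (3 * n) :=
    pow_pos (Real.log_pos (by exact_mod_cast (by omega : 1 < S.Y'))) _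
  have hm : CD * (S.Z : ℝ) ^ 2 / Real.log S.Y' ^ (3 * n) *
      (Mass n (PP D.M 0 S.Y0) * Mass n (PP D.M S.Y S.Y')) ≤ CD * CM * (S.Z : ℝ) ^ 2 := by
    have h1 := (mass_mul hD.sm hY hY').trans (mes D.M 0 S.Y' hD.sm (by omega))
    calc _ ≤ CD * (S.Z : ℝ) ^ 2 / Real.log S.Y' ^ (3 * n) * (CM * Real.log S.Y' ^ (3 * n)) := by
          gcongr
      _ = _ := by rw [div_mul_eq_mul_div, div_eq_iff hL.ne']; ring
  have hq : 0 ≤ CD * (S.Z : ℝ) ^ 2 / Real.log S.Y' ^ (3 * n) := by positivity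
  -- the tuples with a large kernel on the small primes
  have h1 : (t : ℝ) * (((AA S D).filter fun l =>
      ¬(Ker D.g (le S.Y (D.VV l))).card ≤ t ^ 2).card : ℝ) ≤ CD * CM * CL * (S.Z : ℝ) ^ 2 := by
    have k1 := dom (fun W _ => √((Ker D.g (D.V0 ∪ W)).card)) fun _ _ => Real.sqrt_nonneg _
    have k2 : ∑ W ∈ (TT n (PP D.M 0 S.Y0)).powerset.filter Dist,
        ∑ W' ∈ (TT n (PP D.M S.Y S.Y')).powerset, Wt W * Wt W' * √((Ker D.g (D.V0 ∪ W)).card) ≤
        CL * (Mass n (PP D.M 0 S.Y0) * Mass n (PP D.M S.Y S.Y')) := by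
      have : ∀ W : Finset (Gen n), ∑ W' ∈ (TT n (PP D.M S.Y S.Y')).powerset,
          Wt W * Wt W' * √((Ker D.g (D.V0 ∪ W)).card) =
          Wt W * √((Ker D.g (D.V0 ∪ W)).card) * Mass n (PP D.M S.Y S.Y') := fun W => by
        rw [← sum_Wt, mul_sum]
        exact sum_congr rfl fun _ _ => by ring
      simp only [this]
      rw [← sum_mul, ← mul_assoc]
      exact mul_le_mul_of_nonneg_right (lya S.Y0) (zero_le_one.trans (one_le_Mass hD.sm _ _))
    calc _ = ∑ _l ∈ (AA S D).filter fun l => ¬(Ker D.g (le S.Y (D.VV l))).card ≤ t ^ 2,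
          (t : ℝ) := by rw [sum_const, nsmul_eq_mul, mul_comm]
      _ ≤ ∑ l ∈ (AA S D).filter fun l => ¬(Ker D.g (le S.Y (D.VV l))).card ≤ t ^ 2,
            √((Ker D.g (D.V0 ∪ le S.Y (gens l))).card) := by
          refine sum_le_sum fun x hx => Real.le_sqrt_of_sq_le ?_
          rw [← le_VV hD hMY]
          exact_mod_cast (not_le.1 (mem_filter.1 hx).2).le
      _ ≤ _ := sum_le_sum_of_subset_of_nonneg (filter_subset _ _) fun _ _ _ => Real.sqrt_nonneg _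
      _ ≤ _ := k1
      _ ≤ CD * (S.Z : ℝ) ^ 2 / Real.log S.Y' ^ (3 * n) *
          (CL * (Mass n (PP D.M 0 S.Y0) * Mass n (PP D.M S.Y S.Y'))) :=
          mul_le_mul_of_nonneg_left (by convert k2) hq
      _ = CL * (CD * (S.Z : ℝ) ^ 2 / Real.log S.Y' ^ (3 * n) *
          (Mass n (PP D.M 0 S.Y0) * Mass n (PP D.M S.Y S.Y'))) := by ring
      _ ≤ CL * (CD * CM * (S.Z : ℝ) ^ 2) := mul_le_mul_of_nonneg_left hm hCL
      _ = _ := by ring
  -- the tuples with a surviving class that is not geometric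
  have h2 : ∑ l ∈ AA S D, (if (Ker D.g (le S.Y (D.VV l))).card ≤ t ^ 2 ∧
      Bad D (le S.Y (gens l)) (md S.Y S.Y' (gens l)) then (1 : ℝ) else 0) ≤
      K / 2 ^ S.J * (CD * CM * (S.Z : ℝ) ^ 2) := by
    have k1 := dom (fun W W' => if (Ker D.g (D.V0 ∪ W)).card ≤ t ^ 2 ∧
      Bad D W W' then 1 else 0) fun _ _ => by split_ifs <;> norm_num
    simp only [le_VV hD hMY]
    calc _ ≤ _ := k1
      _ ≤ CD * (S.Z : ℝ) ^ 2 / Real.log S.Y' ^ (3 * n) * (3 * 8 ^ n * ((t ^ 2 : ℕ) : ℝ) / 2 ^ S.J *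
          (Mass n (PP D.M 0 S.Y0) * Mass n (PP D.M S.Y S.Y'))) :=
          mul_le_mul_of_nonneg_left (by convert kil) hq
      _ = K / 2 ^ S.J * (CD * (S.Z : ℝ) ^ 2 / Real.log S.Y' ^ (3 * n) *
          (Mass n (PP D.M 0 S.Y0) * Mass n (PP D.M S.Y S.Y'))) := by rw [hK]; push_cast; ring
      _ ≤ _ := mul_le_mul_of_nonneg_left hm (by positivity)
  have h3 := (abs_le.1 (os fun W => (Ker D.g W).card ≤ t ^ 2)).2
  set A2 := (AA S D).filter fun l => (Ker D.g (le S.Y (D.VV l))).card ≤ t ^ 2 with hA2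
  have h3' : ∑ l ∈ A2, osc D.g S.Y S.Y' (D.VV l) ≤ δ / 2 * (S.Z : ℝ) ^ 2 :=
    le_of_eq_of_le (by rw [hA2]; congr) h3
  have h4 : ∀ l ∈ A2, R ≤
      4 * R * (if (Ker D.g (D.VV l)).card ≤ 2 ^ (r + 2) then 1 else 0) +
      osc D.g S.Y S.Y' (D.VV l) + K * (if (Ker D.g (le S.Y (D.VV l))).card ≤ t ^ 2 ∧
          Bad D (le S.Y (gens l)) (md S.Y S.Y' (gens l)) then 1 else 0) + K / 2 ^ S.J := by
    intro l hx
    obtain ⟨x1, x2⟩ := mem_filter.1 hx
    have hl := adm_of_mem hR x1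
    have k1 := cnt_AA cnt hD hR hMY (by omega) x1
    have x2' : ((Ker D.g (le S.Y (D.VV l))).card : ℝ) ≤ (t : ℝ) ^ 2 := by exact_mod_cast x2
    have k2 : 3 * 8 ^ n * ((Ker D.g (le S.Y (D.VV l))).card : ℝ) / 2 ^ S.J ≤ K / 2 ^ S.J := by
      rw [hK]
      gcongr
    have k3 : 3 * ((rset D.g S.Y (D.VV l)).card : ℝ) ≤ 3 * R + K *
        (if (Ker D.g (le S.Y (D.VV l))).card ≤ t ^ 2 ∧
          Bad D (le S.Y (gens l)) (md S.Y S.Y' (gens l)) then 1 else 0) := by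
      split_ifs with hb
      · have q1 : ((rset D.g S.Y (D.VV l)).card : ℝ) ≤
            ((Ker D.g (le S.Y (D.VV l))).card : ℝ) * 8 ^ n := by
          exact_mod_cast rset_le D.sgn S.Y (D.VV l)
        have q2 := mul_le_mul_of_nonneg_right x2' (by positivity : (0 : ℝ) ≤ 8 ^ n)
        linarith
      · have q1 := (card_le_card (rset_geo kc sym hD hl hMY fun h => hb ⟨x2, h⟩)).trans hgeo
        have q2 : ((rset D.g S.Y (D.VV l)).card : ℝ) ≤ R := by
          rw [hRR]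
          exact_mod_cast q1
        linarith
    have k4 : 4 * R ≤ 4 * R * (if (Ker D.g (D.VV l)).card ≤ 2 ^ (r + 2) then 1 else 0) +
        ((Ker D.g (D.VV l)).card : ℝ) := by
      split_ifs with hb
      · have : (0 : ℝ) ≤ ((Ker D.g (D.VV l)).card : ℝ) := Nat.cast_nonneg _
        linarith
      · obtain ⟨k, hk, hk2⟩ := hpar l hl (even_sum hR hn x1)
        rw [hk] at hb
        have : 2 ^ (r + 4) ≤ 2 ^ k := Nat.pow_le_pow_right (by norm_num) (by
          by_contra h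
          exact hb (Nat.pow_le_pow_right (by norm_num) (by omega)))
        rw [hk, mul_zero, zero_add, hRR]
        calc (4 : ℝ) * 2 ^ (r + 2) = ((2 ^ (r + 4) : ℕ) : ℝ) := by push_cast; ring
          _ ≤ _ := Nat.cast_le.2 this
    linarith
  have h5 := sum_le_sum h4
  simp only [sum_add_distrib, ← mul_sum, sum_const, nsmul_eq_mul] at h5
  have h6 : ∑ l ∈ A2, (if (Ker D.g (D.VV l)).card ≤ 2 ^ (r + 2) then (1 : ℝ) else 0) ≤
      (((AA S D).filter fun l => (Ker D.g (D.VV l)).card ≤ 2 ^ (r + 2)).card : ℝ) := by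
    rw [sum_boole]
    exact Nat.cast_le.2 (card_le_card (filter_subset_filter _ (filter_subset _ _)))
  have h7 := (sum_le_sum_of_subset_of_nonneg (filter_subset _ (AA S D) : A2 ⊆ _)
    fun _ _ _ => by split_ifs <;> norm_num).trans h2
  have h8 : (A2.card : ℝ) + (((AA S D).filter fun l =>
      ¬(Ker D.g (le S.Y (D.VV l))).card ≤ t ^ 2).card : ℝ) = (AA S D).card := by
    exact_mod_cast card_filter_add_card_filter_not _
  have h9 : (A2.card : ℝ) ≤ (S.Z : ℝ) ^ 2 := by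
    exact_mod_cast (card_filter_le _ _).trans (card_AA_le hD S)
  have hZ : (0 : ℝ) ≤ (S.Z : ℝ) ^ 2 := by positivity
  have h10 : (((AA S D).filter fun l => ¬(Ker D.g (le S.Y (D.VV l))).card ≤ t ^ 2).card : ℝ) ≤
      δ / 2 * (S.Z : ℝ) ^ 2 := by
    refine le_of_mul_le_mul_left (h1.trans ?_) ht0
    nlinarith
  have h11 : K * (K / 2 ^ S.J * (CD * CM * (S.Z : ℝ) ^ 2)) + (S.Z : ℝ) ^ 2 * (K / 2 ^ S.J) ≤
      δ * (S.Z : ℝ) ^ 2 := by
    calc _ = ((CD * CM) * K ^ 2 + K) / 2 ^ S.J * (S.Z : ℝ) ^ 2 := by ring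
      _ ≤ _ := mul_le_mul_of_nonneg_right ((div_le_iff₀ (by positivity)).2 hJ1) hZ
  have h12 := mul_le_mul_of_nonneg_left h7 hK0
  have h13 := mul_le_mul_of_nonneg_right h9 (by positivity : 0 ≤ K / 2 ^ S.J)
  have h14 : 0 ≤ δ * (S.Z : ℝ) ^ 2 := by positivity
  have h15 := mul_le_mul_of_nonneg_left h6 (by linarith : 0 ≤ 4 * R)
  have h16 := mul_le_mul_of_nonneg_right
    (show δ / 2 * (S.Z : ℝ) ^ 2 ≤ A2.card by linarith) (by linarith : 0 ≤ R)
  have h17 := mul_le_mul_of_nonneg_left hR4 h14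
  refine le_of_mul_le_mul_left ?_ (by linarith : 0 < 4 * R)
  linarith

end Pool.Agent.MP_a43263_nt.RG
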